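import Pool.Agent.Lib.MP_6cded1_nt.ML.Defs

section

/-!
# The number of primes in `(P, 4P]`

`card_PP_le`: trivial.  `card_PP_ge`: `card * log (4P) ≥ ∑_{p ∈ PP P} log p = θ(4P) - θ(P) ≥ 4 P log 2 - log (4P + 1) - 2 √(4P) log (4P) - P log 4
= 2 P log 2 - O(√P log P) ≥ P` for large `P` (Mathlib: `Chebyshev.theta_ge`, `Chebyshev.theta_le_log4_mul_x`; `2 log 2 > 1.38`).
-/

set_option autoImplicit false

open Finset

namespace Pool.Agent.Lib.MP_6cded1_nt.ML

theorem card_PP_le (P : ℕ) : (PP P).card ≤ 3 * P := by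
  unfold PP
  refine (Finset.card_filter_le _ _).trans ?_
  rw [Nat.card_Ioc]
  omega

private theorem Primes_num {P : ℝ} (hP : 10 ^ 8 ≤ P) :
    P ≤ 4 * P * Real.log 2 - Real.log (4 * P + 1) - 2 * √(4 * P) * Real.log (4 * P)
      - Real.log 4 * P := by
  have hP0 : 0 < P := by linarith
  set y : ℝ := (4 * P) ^ (1 / 4 : ℝ) with hy
  have h4P : (0 : ℝ) ≤ 4 * P := by linarith
  have hy4 : y ^ 4 = 4 * P := by
    rw [hy, ← Real.rpow_natCast, ← Real.rpow_mul h4P]
    norm_num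
  have hy0 : 0 ≤ y := Real.rpow_nonneg h4P _
  have hy100 : 100 ≤ y := by
    by_contra hcon
    push Not at hcon
    have h1 : y ^ 4 ≤ 100 ^ 4 := pow_le_pow_left₀ hy0 hcon.le 4
    rw [hy4] at h1
    norm_num at h1
    linarith
  have hsq : √(4 * P) = y ^ 2 := by
    rw [← hy4, show y ^ 4 = (y ^ 2) ^ 2 by ring]
    exact Real.sqrt_sq (by positivity)
  have hlog : Real.log (4 * P) ≤ 4 * y := by
    have h1 := Real.log_le_rpow_div h4P (ε := 1 / 4) (by norm_num)
    rw [← hy] at h1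
    linarith
  have hlog1 : Real.log (4 * P + 1) ≤ 8 * y := by
    have h1 : 4 * P + 1 ≤ (2 * y) ^ 4 := by
      have : (2 * y) ^ 4 = 16 * (4 * P) := by rw [← hy4]; ring
      rw [this]
      linarith
    have h2 : Real.log (4 * P + 1) ≤ Real.log ((2 * y) ^ 4) :=
      Real.log_le_log (by linarith) h1
    rw [Real.log_pow] at h2
    have h3 : Real.log (2 * y) ≤ 2 * y - 1 := Real.log_le_sub_one_of_pos (by linarith)
    push_cast at h2
    linarith
  have hl4 : Real.log 4 = 2 * Real.log 2 := by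
    rw [show (4 : ℝ) = 2 ^ 2 by norm_num, Real.log_pow]
    push_cast
    ring
  have hl2 : (0.69 : ℝ) < Real.log 2 := by
    have := Real.log_two_gt_d9
    linarith
  have hPy : P = y ^ 4 / 4 := by linarith
  rw [hsq, hl4]
  have h5 : 2 * y ^ 2 * Real.log (4 * P) ≤ 8 * y ^ 3 := by
    nlinarith [mul_le_mul_of_nonneg_left hlog (by positivity : (0 : ℝ) ≤ 2 * y ^ 2)]
  have h6 : 8 * y ^ 3 + 8 * y ≤ 0.38 * P := by
    rw [hPy]
    have h7 : y ≤ y ^ 3 / 10000 := by
      have h8 : (100 : ℝ) ^ 2 ≤ y ^ 2 := pow_le_pow_left₀ (by norm_num) hy100 2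
      nlinarith [mul_le_mul_of_nonneg_right h8 hy0]
    have h9 : 100 * y ^ 3 ≤ y ^ 4 := by
      nlinarith [mul_le_mul_of_nonneg_right hy100 (by positivity : (0 : ℝ) ≤ y ^ 3)]
    nlinarith
  nlinarith [mul_lt_mul_of_pos_right hl2 hP0]

theorem card_PP_ge : ∃ P₀ : ℕ, 2 ≤ P₀ ∧ ∀ P : ℕ, P₀ ≤ P → (P : ℝ) ≤ (PP P).card * Real.log (4 * P) := by
  refine ⟨10 ^ 8, by norm_num, fun P hP => ?_⟩
  have hPR : (10 : ℝ) ^ 8 ≤ (P : ℝ) := by exact_mod_cast hP
  have hP0 : (0 : ℝ) < P := by linarith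
  have h1 := Chebyshev.theta_ge (4 * P)
  have h2 := Chebyshev.theta_le_log4_mul_x (x := (P : ℝ)) hP0.le
  push_cast at h1
  have h3 := Primes_num hPR
  have h4 : Chebyshev.theta (4 * (P : ℝ)) - Chebyshev.theta P ≤ (PP P).card * Real.log (4 * P) := by
    have e1 : Chebyshev.theta (4 * (P : ℝ)) = ∑ p ∈ (Ioc 0 (4 * P)).filter Nat.Prime, Real.log p := by
      rw [Chebyshev.theta]
      have : ⌊4 * (P : ℝ)⌋₊ = 4 * P := by
        have : (4 * (P : ℝ)) = ((4 * P : ℕ) : ℝ) := by push_cast; ring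
        rw [this, Nat.floor_natCast]
      rw [this]
    have e2 : Chebyshev.theta (P : ℝ) = ∑ p ∈ (Ioc 0 P).filter Nat.Prime, Real.log p := by
      rw [Chebyshev.theta, Nat.floor_natCast]
    have e3 : (Ioc 0 (4 * P)).filter Nat.Prime
        = (Ioc 0 P).filter Nat.Prime ∪ PP P := by
      unfold PP
      rw [← Finset.filter_union, Finset.Ioc_union_Ioc_eq_Ioc (Nat.zero_le _) (by omega)]
    have e4 : Disjoint ((Ioc 0 P).filter Nat.Prime) (PP P) := by
      rw [Finset.disjoint_left]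
      intro p hp hp'
      unfold PP at hp'
      rw [Finset.mem_filter, Finset.mem_Ioc] at hp hp'
      omega
    rw [e1, e2, e3, Finset.sum_union e4, add_sub_cancel_left, ← nsmul_eq_mul]
    refine Finset.sum_le_card_nsmul _ _ _ fun p hp => ?_
    unfold PP at hp
    rw [Finset.mem_filter, Finset.mem_Ioc] at hp
    refine Real.log_le_log (by exact_mod_cast hp.2.pos) ?_
    exact_mod_cast hp.1.2
  linarith

end Pool.Agent.Lib.MP_6cded1_nt.ML
end

section

/-!
# Parameters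
-/

set_option autoImplicit false

open Finset

namespace Pool.Agent.Lib.MP_6cded1_nt.ML

/-- `D = ⌊N^{0.4586}⌋`. -/
noncomputable def Dn (N : ℕ) : ℕ := ⌊(N : ℝ) ^ (0.4586 : ℝ)⌋₊

/-- `M = ⌊N / (4 D)⌋`. -/
noncomputable def Mn (N : ℕ) : ℕ := N / (4 * Dn N)

/-- `τ = N^{0.7433}`. -/
noncomputable def tn (N : ℕ) : ℝ := (N : ℝ) ^ (0.7433 : ℝ)

/-- The prime scale of regime I. -/
noncomputable def P1 (N : ℕ) : ℕ := ⌊(N : ℝ) ^ (0.1104 : ℝ)⌋₊

/-- `T` of regime I. -/
noncomputable def Tn (N : ℕ) : ℕ := ⌊(N : ℝ) ^ (0.4864 : ℝ)⌋₊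

/-- `G` of regime I. -/
noncomputable def Gn (N : ℕ) : ℕ := ⌊(N : ℝ) ^ (0.5136 : ℝ)⌋₊

/-- `ω` of regime I. -/
noncomputable def omn (N : ℕ) : ℝ := (N : ℝ) ^ (-0.4864 : ℝ)

/-- `K` of regime II. -/
noncomputable def Kn (N : ℕ) (H : ℝ) : ℝ := min (Dn N : ℝ) (38 * N ^ 2 * (1 + Real.log N) / H ^ 2)

/-- The prime scale of regime II. -/
noncomputable def Pn (N : ℕ) (H : ℝ) : ℕ := ⌈(N : ℝ) ^ (0.0002 : ℝ) * H / tn N⌉₊

/-- `Q` of regime II. -/
noncomputable def Qn (N : ℕ) (H : ℝ) : ℝ := N / (512 * Kn N H * Pn N H ^ 4)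

/-- `V`: the upper bound for `K P²`. -/
noncomputable def Vn (N : ℕ) : ℝ := 152 * (1 + Real.log N) * (N : ℝ) ^ (0.5138 : ℝ)

/-- Powers beat logarithms. -/
theorem pow_log_le (C : ℝ) (k : ℕ) (a b : ℝ) (h : a < b) :
    ∃ N₀ : ℕ, ∀ N : ℕ, N₀ ≤ N → C * (1 + Real.log N) ^ k * (N : ℝ) ^ a ≤ (N : ℝ) ^ b := by
  set r : ℝ := (b - a) / (k + 1) with hr
  have hk : (0 : ℝ) < (k : ℝ) + 1 := by positivity
  have hr0 : 0 < r := div_pos (by linarith) hk
  have h1 : (fun x : ℝ => 1 + Real.log x) =o[Filter.atTop] (fun x : ℝ => x ^ r) := by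
    apply Asymptotics.IsLittleO.add
    · exact (Asymptotics.isLittleO_const_left.2 (Or.inr
        (tendsto_norm_atTop_atTop.comp (tendsto_rpow_atTop hr0))))
    · exact isLittleO_log_rpow_atTop hr0
  have h2 : ∀ᶠ x : ℝ in Filter.atTop, ‖1 + Real.log x‖ ≤ 1 * ‖x ^ r‖ :=
    h1.bound one_pos
  have h3 : ∀ᶠ x : ℝ in Filter.atTop, |C| ≤ x ^ r :=
    (tendsto_rpow_atTop hr0).eventually_ge_atTop |C|
  have h4 : ∀ᶠ N : ℕ in Filter.atTop, ‖1 + Real.log (N : ℝ)‖ ≤ 1 * ‖(N : ℝ) ^ r‖ :=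
    tendsto_natCast_atTop_atTop.eventually h2
  have h5 : ∀ᶠ N : ℕ in Filter.atTop, |C| ≤ (N : ℝ) ^ r :=
    tendsto_natCast_atTop_atTop.eventually h3
  obtain ⟨N₀, hN₀⟩ := Filter.eventually_atTop.1 (h4.and (h5.and (Filter.eventually_ge_atTop 1)))
  refine ⟨N₀, fun N hN => ?_⟩
  obtain ⟨h6, h7, h8⟩ := hN₀ N hN
  have hN0 : (0 : ℝ) < N := by exact_mod_cast h8
  have hp : (0 : ℝ) < (N : ℝ) ^ r := Real.rpow_pos_of_pos hN0 _
  rw [one_mul, Real.norm_eq_abs, Real.norm_eq_abs, abs_of_pos hp] at h6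
  have h9 : C * (1 + Real.log N) ^ k ≤ (N : ℝ) ^ r * ((N : ℝ) ^ r) ^ k := by
    calc C * (1 + Real.log N) ^ k ≤ |C * (1 + Real.log N) ^ k| := le_abs_self _
      _ = |C| * |1 + Real.log N| ^ k := by rw [abs_mul, abs_pow]
      _ ≤ (N : ℝ) ^ r * ((N : ℝ) ^ r) ^ k := by
        apply mul_le_mul h7 (pow_le_pow_left₀ (abs_nonneg _) h6 k) (by positivity) hp.le
  have ha : (0 : ℝ) ≤ (N : ℝ) ^ a := Real.rpow_nonneg hN0.le _
  calc C * (1 + Real.log N) ^ k * (N : ℝ) ^ a ≤ (N : ℝ) ^ r * ((N : ℝ) ^ r) ^ k * (N : ℝ) ^ a :=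
        mul_le_mul_of_nonneg_right h9 ha
    _ = (N : ℝ) ^ b := by
        rw [← Real.rpow_natCast, ← Real.rpow_mul hN0.le, ← Real.rpow_add hN0,
          ← Real.rpow_add hN0]
        congr 1
        rw [hr]
        field_simp
        ring

end Pool.Agent.Lib.MP_6cded1_nt.ML
end

section

/-!
# Basic facts: distance to the nearest integer, `cap`, `e`
-/

set_option autoImplicit false

open Finset

namespace Pool.Agent.Lib.MP_6cded1_nt.ML

theorem nd_nonneg (x : ℝ) : 0 ≤ nd x := abs_nonneg _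

theorem nd_le_half (x : ℝ) : nd x ≤ 1 / 2 := abs_sub_round x

theorem nd_le_abs (x : ℝ) (k : ℤ) : nd x ≤ |x - k| := round_le x k

theorem nd_add_int (x : ℝ) (k : ℤ) : nd (x + k) = nd x := by
  unfold nd
  rw [round_add_intCast]
  push_cast
  congr 1
  ring

theorem nd_sub_int (x : ℝ) (k : ℤ) : nd (x - k) = nd x := by
  have := nd_add_int (x - k) k
  rw [sub_add_cancel] at this
  exact this.symm

theorem nd_add_nat (x : ℝ) (k : ℕ) : nd (x + k) = nd x := by
  have := nd_add_int x k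
  exact_mod_cast this

theorem exists_int_nd (x : ℝ) : ∃ k : ℤ, nd x = |x - k| := ⟨round x, rfl⟩

theorem nd_neg (x : ℝ) : nd (-x) = nd x := by
  apply le_antisymm
  · refine (nd_le_abs (-x) (-round x)).trans ?_
    push_cast
    rw [← abs_neg]
    unfold nd
    apply le_of_eq
    congr 1
    ring
  · refine (nd_le_abs x (-round (-x))).trans ?_
    push_cast
    rw [← abs_neg]
    unfold nd
    apply le_of_eq
    congr 1
    ring

theorem nd_add_le (x y : ℝ) : nd (x + y) ≤ nd x + nd y := by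
  refine (nd_le_abs (x + y) (round x + round y)).trans ?_
  push_cast
  have h : x + y - (round x + round y) = (x - round x) + (y - round y) := by ring
  rw [h]
  exact abs_add_le _ _

theorem nd_le_add_abs (x y : ℝ) : nd x ≤ nd y + |x - y| := by
  refine (nd_le_abs x (round y)).trans ?_
  have h : x - round y = (y - round y) + (x - y) := by ring
  rw [h]
  exact abs_add_le _ _

theorem nd_sub_comm (x y : ℝ) : nd (x - y) = nd (y - x) := by
  rw [← nd_neg, neg_sub]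

theorem nd_int (k : ℤ) : nd (k : ℝ) = 0 := by
  unfold nd
  simp

theorem nd_zero : nd 0 = 0 := by
  unfold nd
  simp

theorem nd_int_mul (x : ℝ) (k : ℤ) : nd (k * x) ≤ |(k : ℝ)| * nd x := by
  refine (nd_le_abs (k * x) (k * round x)).trans ?_
  push_cast
  rw [← mul_sub, abs_mul]
  rfl

theorem nd_nat_mul (x : ℝ) (k : ℕ) : nd (k * x) ≤ k * nd x := by
  have := nd_int_mul x k
  push_cast at this
  rwa [abs_of_nonneg (Nat.cast_nonneg k)] at this

/-- If `|x| ≤ 1/2` then `nd x = |x|`. -/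
theorem nd_of_abs_le (x : ℝ) (h : |x| ≤ 1 / 2) : nd x = |x| := by
  apply le_antisymm
  · simpa using nd_le_abs x 0
  · by_cases h0 : round x = 0
    · unfold nd
      rw [h0]
      simp
    · unfold nd
      have h1 : (1 : ℝ) ≤ |(round x : ℝ)| := by
        have := Int.one_le_abs h0
        exact_mod_cast this
      have h2 : |(round x : ℝ)| ≤ |x - round x| + |x| := by
        have h3 : (round x : ℝ) = x - (x - round x) := by ring
        calc |(round x : ℝ)| = |x - (x - round x)| := by rw [← h3]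
          _ ≤ |x| + |x - round x| := abs_sub _ _
          _ = |x - round x| + |x| := add_comm _ _
      linarith

theorem nd_eq_zero_iff (x : ℝ) : nd x = 0 ↔ ∃ k : ℤ, x = k := by
  constructor
  · intro h
    refine ⟨round x, ?_⟩
    unfold nd at h
    rw [abs_eq_zero, sub_eq_zero] at h
    exact h
  · rintro ⟨k, rfl⟩
    exact nd_int k

/-! ### `cap` -/

theorem cap_nonneg {M : ℝ} (hM : 0 ≤ M) (u : ℝ) : 0 ≤ cap M u :=
  div_nonneg hM (le_trans zero_le_one (le_max_left _ _))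

theorem cap_le {M : ℝ} (hM : 0 ≤ M) (u : ℝ) : cap M u ≤ M :=
  div_le_self hM (le_max_left _ _)

theorem cap_zero (M : ℝ) : cap M 0 = M := by
  unfold cap
  simp

theorem cap_le_inv {M u : ℝ} (_hM : 0 ≤ M) (hu : 0 < u) : cap M u ≤ 1 / u := by
  unfold cap
  rw [div_le_div_iff₀ (lt_of_lt_of_le one_pos (le_max_left _ _)) hu]
  rw [one_mul]
  exact le_max_right _ _

theorem cap_anti {M u u' : ℝ} (hM : 0 ≤ M) (h : u ≤ u') : cap M u' ≤ cap M u := by
  unfold cap
  refine div_le_div_of_nonneg_left hM (lt_of_lt_of_le one_pos (le_max_left _ _)) ?_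
  exact max_le_max le_rfl (mul_le_mul_of_nonneg_left h hM)

theorem le_cap {M u x : ℝ} (hM : 0 ≤ M) (hx : x ≤ M) (hxu : x * u ≤ 1) : x ≤ cap M u := by
  unfold cap
  rw [le_div_iff₀ (lt_of_lt_of_le one_pos (le_max_left _ _))]
  rcases le_total 1 (M * u) with h | h
  · rw [max_eq_right h]
    have h1 : x * (M * u) = M * (x * u) := by ring
    rw [h1]
    exact mul_le_of_le_one_right hM hxu
  · rw [max_eq_left h, mul_one]
    exact hx

/-! ### `sel` -/

theorem sel_pos {A : Prop} (h : A) (x : ℝ) : sel A x = x := by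
  unfold sel
  rw [if_pos h]

theorem sel_neg {A : Prop} (h : ¬ A) (x : ℝ) : sel A x = 0 := by
  unfold sel
  rw [if_neg h]

theorem sel_nonneg {A : Prop} {x : ℝ} (h : 0 ≤ x) : 0 ≤ sel A x := by
  by_cases hA : A
  · rw [sel_pos hA]
    exact h
  · rw [sel_neg hA]

theorem sel_le {A : Prop} {x : ℝ} (h : 0 ≤ x) : sel A x ≤ x := by
  by_cases hA : A
  · rw [sel_pos hA]
  · rw [sel_neg hA]
    exact h

/-! ### `e` -/

theorem norm_e (x : ℝ) : ‖e x‖ = 1 := by
  unfold e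
  have : 2 * (Real.pi : ℂ) * Complex.I * (x : ℂ) = ((2 * Real.pi * x : ℝ) : ℂ) * Complex.I := by
    push_cast
    ring
  rw [this]
  exact Complex.norm_exp_ofReal_mul_I _

theorem e_add (x y : ℝ) : e (x + y) = e x * e y := by
  unfold e
  rw [← Complex.exp_add]
  congr 1
  push_cast
  ring

theorem e_zero : e 0 = 1 := by
  unfold e
  simp

theorem e_int (k : ℤ) : e (k : ℝ) = 1 := by
  unfold e
  rw [Complex.exp_eq_one_iff]
  refine ⟨k, ?_⟩
  push_cast
  ring

theorem e_nat (k : ℕ) : e (k : ℝ) = 1 := by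
  have := e_int k
  exact_mod_cast this

theorem e_add_int (x : ℝ) (k : ℤ) : e (x + k) = e x := by
  rw [e_add, e_int, mul_one]

theorem e_neg (x : ℝ) : e (-x) = (starRingEnd ℂ) (e x) := by
  unfold e
  rw [← Complex.exp_conj]
  congr 1
  simp [Complex.conj_ofReal]
  left
  exact (Complex.conj_ofNat 2).symm

theorem e_sub (x y : ℝ) : e (x - y) = e x * (starRingEnd ℂ) (e y) := by
  rw [sub_eq_add_neg, e_add, e_neg]

theorem e_nat_mul (n : ℕ) (x : ℝ) : e (n * x) = e x ^ n := by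
  unfold e
  rw [← Complex.exp_nat_mul]
  congr 1
  push_cast
  ring

theorem F_add_int (f : ℕ → ℂ) (N : ℕ) (x : ℝ) (k : ℤ) : F f N (x + k) = F f N x := by
  unfold F
  refine Finset.sum_congr rfl ?_
  intro n _
  congr 1
  have : (n : ℝ) * (x + k) = n * x + ((n * k : ℤ) : ℝ) := by
    push_cast
    ring
  rw [this, e_add_int]

theorem B_add_int (a b : ℕ → ℂ) (D M : ℕ) (x : ℝ) (k : ℤ) : B a b D M (x + k) = B a b D M x := by
  unfold B
  refine Finset.sum_congr rfl ?_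
  intro d _
  refine Finset.sum_congr rfl ?_
  intro m _
  congr 1
  have : (d : ℝ) * m * (x + k) = d * m * x + ((d * m * k : ℤ) : ℝ) := by
    push_cast
    ring
  rw [this, e_add_int]

theorem Maj_add_int (N : ℕ) (K z : ℝ) (k : ℤ) : Maj N K (z + k) ↔ Maj N K z := by
  have h : ∀ q : ℕ, nd (q * (z + k)) = nd (q * z) := by
    intro q
    have : (q : ℝ) * (z + k) = q * z + ((q * k : ℤ) : ℝ) := by
      push_cast
      ring
    rw [this, nd_add_int]
  unfold Maj
  simp only [h]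

theorem qm_add_int (N : ℕ) (K z : ℝ) (k : ℤ) : qm N K (z + k) = qm N K z := by
  have h : ∀ q : ℕ, nd (q * (z + k)) = nd (q * z) := by
    intro q
    have : (q : ℝ) * (z + k) = q * z + ((q * k : ℤ) : ℝ) := by
      push_cast
      ring
    rw [this, nd_add_int]
  unfold qm
  simp only [h]

end Pool.Agent.Lib.MP_6cded1_nt.ML
end
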