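import Pool.Agent.Lib.MP_6cded1_nt.ML.Nd

section

/-!
# M3: definitions (paper 490)

Definitions for the structure theorem on the large values of the bilinear sum `B` and for the amplification with clusters.
-/

set_option autoImplicit false

open Finset Pool.Agent.Lib.MP_6cded1_nt.ML

namespace Pool.Agent.Lib.MP_6cded1_nt.M3

/-- `x` is within `2^j / N` of a reduced fraction with denominator `g` and numerator in `[0, g]`. -/
def Cst (N g j : ℕ) (x : ℝ) : Prop := ∃ a : ℕ, a ≤ g ∧ Nat.Coprime a g ∧ |x - a / g| ≤ 2 ^ j / N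

open Classical in
/-- The number of points `z i`, `i ∈ A`, in the cluster `(g, j)`. -/
noncomputable def cc (N : ℕ) (A : Finset ℕ) (z : ℕ → ℝ) (g j : ℕ) : ℕ := (A.filter fun i => Cst N g j (z i)).card

/-- `κ(g, j) = g 2^j`. -/
noncomputable def kap (s : ℕ × ℕ) : ℝ := s.1 * 2 ^ s.2

/-- The weight `min (1 / κ) (2 M / κ²)`, `κ = g 2^j`. -/
noncomputable def wt (M g j : ℕ) : ℝ := min (1 / ((g : ℝ) * 2 ^ j)) (2 * M / ((g : ℝ) * 2 ^ j) ^ 2)

/-- The number of layers. -/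
def JJ (N : ℕ) : ℕ := Nat.log 2 N + 1

/-- The energy of the points `z i`, `i ∈ A`. -/
noncomputable def En (N M : ℕ) (A : Finset ℕ) (z : ℕ → ℝ) : ℝ :=
  ∑ j ∈ range (JJ N), ∑ g ∈ Icc 1 (2 * M - 1), (cc N A z g j : ℝ) ^ 2 * wt M g j

/-- `T = J (1 + 32 M² / N)`. -/
noncomputable def TT (N M : ℕ) : ℝ := JJ N * (1 + 32 * (M : ℝ) ^ 2 / N)

/-- `z i` lies in the cell `[i / N, (i + 1) / N)`, `i < N`, for every `i ∈ A`. -/
def InCell (N : ℕ) (A : Finset ℕ) (z : ℕ → ℝ) : Prop :=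
  ∀ i ∈ A, i < N ∧ (i : ℝ) / N ≤ z i ∧ z i < ((i : ℝ) + 1) / N

/-- A labelling of the points of `Λ` by clusters `(g, j) ∈ S`: `‖g z‖ ≤ 2 κ / N`. -/
structure Lbl (N : ℕ) (S : Finset (ℕ × ℕ)) (Λ : ℝ → Prop) (l : ℝ → ℕ × ℕ) : Prop where
  mem : ∀ z, Λ z → l z ∈ S
  pos : ∀ s ∈ S, 1 ≤ s.1
  near : ∀ z, Λ z → nd ((l z).1 * z) ≤ 2 * kap (l z) / N
  per : ∀ (z : ℝ) (k : ℤ), Λ (z + k) ↔ Λ z
  perl : ∀ (z : ℝ) (k : ℤ), l (z + k) = l z

open Classical in
/-- Star points of `y`: pairs `(p, b)`, `p ∈ (P, 4P]` prime, `0 < b < p²`, with `z = y + b / p²` in `Λ` and `p` not dividing the denominator of the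
label of `z`. -/
noncomputable def sts (P : ℕ) (Λ : ℝ → Prop) (l : ℝ → ℕ × ℕ) (y : ℝ) : Finset (Σ _ : ℕ, ℕ) :=
  ((PP P).sigma fun p => Ioo 0 (p ^ 2)).filter fun s => Λ (pt y s) ∧ ¬ s.1 ∣ (l (pt y s)).1

/-- The label of a star point. -/
noncomputable def lab (l : ℝ → ℕ × ℕ) (y : ℝ) (s : Σ _ : ℕ, ℕ) : ℕ × ℕ := l (pt y s)

/-- The integer `A = p² a - g b`, `a = round (g z)`. -/
noncomputable def fA (l : ℝ → ℕ × ℕ) (y : ℝ) (s : Σ _ : ℕ, ℕ) : ℤ :=
  (s.1 : ℤ) ^ 2 * round (((lab l y s).1 : ℝ) * pt y s) - ((lab l y s).1 : ℤ) * s.2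

/-- The denominator `v = g p²`. -/
noncomputable def fv (l : ℝ → ℕ × ℕ) (y : ℝ) (s : Σ _ : ℕ, ℕ) : ℕ := (lab l y s).1 * s.1 ^ 2

/-- `s` and `s'` have different fractions `A / v`. -/
def Df (l : ℝ → ℕ × ℕ) (y : ℝ) (s s' : Σ _ : ℕ, ℕ) : Prop :=
  fA l y s * (fv l y s' : ℤ) ≠ fA l y s' * (fv l y s : ℤ)

theorem kap_pos {s : ℕ × ℕ} (h : 1 ≤ s.1) : 0 < kap s := by
  unfold kap
  have : (0 : ℝ) < s.1 := by exact_mod_cast h
  positivity

theorem kap_nonneg (s : ℕ × ℕ) : 0 ≤ kap s := by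
  unfold kap
  positivity

end Pool.Agent.Lib.MP_6cded1_nt.M3
end

section

/-!
# The geometric sum

`|∑_{m ≤ M} e(m θ)| ≤ min (M, 1 / (2 ‖θ‖))`.
Bound by `M`: `norm_sum_le`, `norm_e`.  If `nd θ > 0`: `e θ ≠ 1`, the sum is `e θ (e θ ^ M - 1) / (e θ - 1)` (`e_nat_mul`, `geom_sum_eq`), the numerator
has norm `≤ 2` and `|e θ - 1| = 2 |sin (π θ)| ≥ 4 nd θ` (`|sin (π θ)| = sin (π nd θ)` as `θ = round θ ± nd θ`, and `sin (π x) ≥ 2 x` for
`0 ≤ x ≤ 1/2`, `Real.mul_le_sin`).  Hence `x = |sum|` satisfies `x ≤ M` and `x * (2 nd θ) ≤ 1`; use `le_cap`.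
-/

set_option autoImplicit false

open Finset

namespace Pool.Agent.Lib.MP_6cded1_nt.ML

private theorem four_nd_le (θ : ℝ) : 4 * nd θ ≤ ‖e θ - 1‖ := by
  set t : ℝ := θ - round θ with ht
  have h1 : e θ = e t := by
    have : θ = t + ((round θ : ℤ) : ℝ) := by rw [ht]; ring
    conv_lhs => rw [this]
    exact e_add_int _ _
  have h2 : nd θ = |t| := rfl
  have h3 : |t| ≤ 1 / 2 := nd_le_half θ
  have h4 : e t = Complex.exp (Complex.I * ((2 * Real.pi * t : ℝ) : ℂ)) := by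
    unfold e
    congr 1
    push_cast
    ring
  rw [h1, h4, Complex.norm_exp_I_mul_ofReal_sub_one, h2]
  have h5 : 2 * Real.pi * t / 2 = Real.pi * t := by ring
  rw [h5, norm_mul, Real.norm_eq_abs, Real.norm_eq_abs, abs_two]
  have hpi := Real.pi_pos
  have h6 : |Real.pi * t| ≤ Real.pi / 2 := by
    rw [abs_mul, abs_of_pos hpi]
    nlinarith
  have h7 := Real.mul_abs_le_abs_sin h6
  rw [abs_mul, abs_of_pos hpi] at h7
  have h8 : 2 / Real.pi * (Real.pi * |t|) = 2 * |t| := by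
    field_simp
  rw [h8] at h7
  linarith

theorem norm_geom_le (M : ℕ) (θ : ℝ) : ‖∑ m ∈ Icc 1 M, e (m * θ)‖ ≤ cap M (2 * nd θ) := by
  have h0 : ‖∑ m ∈ Icc 1 M, e (m * θ)‖ ≤ M := by
    refine (norm_sum_le _ _).trans ?_
    simp [norm_e]
  refine le_cap (Nat.cast_nonneg M) h0 ?_
  have h1 : (∑ m ∈ Icc 1 M, e (m * θ)) * (e θ - 1) = e θ ^ (M + 1) - e θ ^ 1 := by
    have h2 : ∑ m ∈ Icc 1 M, e (m * θ) = ∑ m ∈ Ico 1 (M + 1), e θ ^ m := by
      have h3 : Icc 1 M = Ico 1 (M + 1) := by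
        ext x
        simp only [mem_Icc, mem_Ico]
        omega
      rw [h3]
      exact sum_congr rfl fun m _ => e_nat_mul m θ
    rw [h2]
    exact geom_sum_Ico_mul _ (by omega)
  have h2 : ‖∑ m ∈ Icc 1 M, e (m * θ)‖ * ‖e θ - 1‖ ≤ 2 := by
    rw [← norm_mul, h1]
    refine (norm_sub_le _ _).trans ?_
    rw [norm_pow, norm_pow, norm_e]
    norm_num
  have h3 := four_nd_le θ
  have h4 := mul_le_mul_of_nonneg_left h3 (norm_nonneg (∑ m ∈ Icc 1 M, e (m * θ)))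
  linarith

end Pool.Agent.Lib.MP_6cded1_nt.ML
end

section

/-!
# Near-coincident fractions: number of numerators

`h = A v' - A' v ≠ 0`, `|h| ≤ X`, `X = (η + η') v v'` (as `|A / v - A' / v'| ≤ η + η'`), `g = gcd v v'` divides `h`: at most `2 X / g` values of `h` (if there is one, then `X / g ≥ 1`).  Given `h`: two
numerators `A₁, A₂` satisfy `v ∣ (A₁ - A₂) v'`, so `(v / g) ∣ A₁ - A₂`: at most `g + 1 ≤ 2 g` values in `[0, v]`.  Total `≤ 4 X`.
-/

set_option autoImplicit false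

open Finset

namespace Pool.Agent.Lib.MP_6cded1_nt.ML

theorem near_numerators (v v' : ℕ) (hv : 1 ≤ v) (hv' : 1 ≤ v') (X : ℝ) (hX : 0 ≤ X) (S : Finset ℤ)
    (hS : ∀ A ∈ S, 0 ≤ A ∧ A ≤ v ∧ ∃ A' : ℤ, A * v' ≠ A' * v ∧ |((A * v' - A' * v : ℤ) : ℝ)| ≤ X) :
    (S.card : ℝ) ≤ 4 * X := by
  classical
  obtain ⟨g, v1, v1', hg, hco, e1, e2⟩ := Nat.exists_coprime' (m := v) (n := v')
    (Nat.gcd_pos_of_pos_left _ hv)
  have hv1 : 0 < v1 := by
    rcases Nat.eq_zero_or_pos v1 with h | h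
    · rw [h] at e1
      omega
    · exact h
  -- the numerators
  have hch : ∀ A : ℤ, ∃ A' : ℤ, A ∈ S → A * v' ≠ A' * v ∧ |((A * v' - A' * v : ℤ) : ℝ)| ≤ X := by
    intro A
    by_cases hA : A ∈ S
    · obtain ⟨A', h⟩ := (hS A hA).2.2
      exact ⟨A', fun _ => h⟩
    · exact ⟨0, fun h => absurd h hA⟩
  choose φ hφ using hch
  set κ : ℤ → ℤ := fun A => A * v1' - φ A * v1 with hκ
  have hgκ : ∀ A : ℤ, A * v' - φ A * v = g * κ A := by
    intro A
    rw [hκ, e1, e2]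
    push_cast
    ring
  have hg0 : (0 : ℝ) < g := by exact_mod_cast hg
  set K : ℕ := ⌊X / g⌋₊ with hK
  have hKX : (K : ℝ) ≤ X / g := Nat.floor_le (div_nonneg hX hg0.le)
  have himg : S.image κ ⊆ (Icc (-(K : ℤ)) K).erase 0 := by
    intro k hk
    obtain ⟨A, hA, rfl⟩ := mem_image.mp hk
    obtain ⟨h1, h2⟩ := hφ A hA
    rw [hgκ] at h2
    push_cast at h2
    rw [abs_mul, abs_of_pos hg0] at h2
    have h3 : |(κ A : ℝ)| ≤ X / g := by
      rw [le_div_iff₀ hg0]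
      linarith
    have h4 : (κ A).natAbs ≤ K := by
      rw [hK]
      apply Nat.le_floor
      rw [Nat.cast_natAbs]
      push_cast
      exact h3
    refine mem_erase.mpr ⟨?_, ?_⟩
    · intro h0
      apply h1
      have := hgκ A
      rw [h0, mul_zero] at this
      linarith
    · rw [mem_Icc]
      constructor <;> omega
  have hcard1 : (S.image κ).card ≤ 2 * K := by
    refine (card_le_card himg).trans ?_
    rw [card_erase_of_mem (by simp)]
    rw [Int.card_Icc]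
    omega
  have hfib : ∀ k ∈ S.image κ, (S.filter fun A => κ A = k).card ≤ g + 1 := by
    intro k _
    have hmap : ∀ A ∈ S.filter (fun A => κ A = k), A / (v1 : ℤ) ∈ Icc (0 : ℤ) g := by
      intro A hA
      obtain ⟨hA, -⟩ := mem_filter.mp hA
      obtain ⟨h1, h2, -⟩ := hS A hA
      rw [mem_Icc]
      refine ⟨Int.ediv_nonneg h1 (by positivity), ?_⟩
      have h3 : A / (v1 : ℤ) ≤ ((v1 * g : ℕ) : ℤ) / v1 := by
        apply Int.ediv_le_ediv (by exact_mod_cast hv1)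
        rw [e1] at h2
        exact_mod_cast h2
      refine h3.trans ?_
      push_cast
      rw [Int.mul_ediv_cancel_left _ (by exact_mod_cast hv1.ne')]
    have hinj : Set.InjOn (fun A : ℤ => A / (v1 : ℤ)) (S.filter (fun A => κ A = k)) := by
      intro A hA B hB hAB
      have hA' := (mem_filter.mp (mem_coe.mp hA)).2
      have hB' := (mem_filter.mp (mem_coe.mp hB)).2
      have h1 : (A - B) * (v1' : ℤ) = (φ A - φ B) * v1 := by
        have : κ A = κ B := hA'.trans hB'.symm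
        simp only [hκ] at this
        linarith
      have h2 : (v1 : ℤ) ∣ (A - B) * v1' := ⟨φ A - φ B, by rw [h1]; ring⟩
      have h3 : (v1 : ℤ) ∣ A - B :=
        IsCoprime.dvd_of_dvd_mul_right (Nat.isCoprime_iff_coprime.mpr hco) h2
      have h4 : A % v1 = B % v1 :=
        Int.emod_eq_emod_iff_emod_sub_eq_zero.mpr (Int.emod_eq_zero_of_dvd h3)
      have h5 := Int.mul_ediv_add_emod A v1
      have h6 := Int.mul_ediv_add_emod B v1
      have h7 : A / (v1 : ℤ) = B / v1 := hAB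
      rw [← h5, ← h6, h4, h7]
    have := card_le_card_of_injOn _ hmap hinj
    rw [Int.card_Icc] at this
    omega
  have hmain := card_le_mul_card_image S (g + 1) hfib
  have h8 : S.card ≤ (g + 1) * (2 * K) := hmain.trans (Nat.mul_le_mul_left _ hcard1)
  have h9 : (S.card : ℝ) ≤ (g + 1) * (2 * K) := by exact_mod_cast h8
  have h10 : (g : ℝ) + 1 ≤ 2 * g := by
    have : (1 : ℝ) ≤ g := by exact_mod_cast hg
    linarith
  have h11 : (K : ℝ) * g ≤ X := by
    rw [← le_div_iff₀ hg0]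
    exact hKX
  have hK0 : (0 : ℝ) ≤ K := Nat.cast_nonneg _
  calc (S.card : ℝ) ≤ (g + 1) * (2 * K) := h9
    _ ≤ (2 * g) * (2 * K) := by
        apply mul_le_mul_of_nonneg_right h10
        linarith
    _ = 4 * (K * g) := by ring
    _ ≤ 4 * X := by linarith

/-- The number of grid points in an interval. -/
theorem grid_interval (W : ℕ) (hW : 1 ≤ W) (t c η : ℝ) (hη : 1 / (W : ℝ) ≤ η) :
    (((range W).filter fun j => |gp W t j - c| ≤ η).card : ℝ) ≤ 3 * η * W := by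
  classical
  have hW0 : (0 : ℝ) < W := by exact_mod_cast hW
  have hηW : 1 ≤ η * W := by
    rw [div_le_iff₀ hW0] at hη
    exact hη
  set a : ℝ := W * (c - t - η) with ha
  set b : ℝ := W * (c - t + η) with hb
  have hmap : ∀ j ∈ (range W).filter (fun j => |gp W t j - c| ≤ η), ((j : ℕ) : ℤ) ∈ Icc ⌈a⌉ ⌊b⌋ := by
    intro j hj
    obtain ⟨-, h⟩ := mem_filter.mp hj
    unfold gp at h
    rw [abs_le] at h
    have e1 : (W : ℝ) * ((j : ℝ) / W) = j := by field_simp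
    rw [mem_Icc, Int.ceil_le, Int.le_floor]
    push_cast
    constructor
    · rw [ha, ← e1]
      apply mul_le_mul_of_nonneg_left _ hW0.le
      linarith [h.1]
    · rw [hb, ← e1]
      apply mul_le_mul_of_nonneg_left _ hW0.le
      linarith [h.2]
  have hc := card_le_card_of_injOn (fun j : ℕ => (j : ℤ)) hmap
    (fun x _ y _ h => Int.ofNat_inj.mp h)
  rw [Int.card_Icc] at hc
  have h1 : (((⌊b⌋ + 1 - ⌈a⌉).toNat : ℕ) : ℝ) ≤ b - a + 1 := by
    rcases le_total 0 (⌊b⌋ + 1 - ⌈a⌉) with h | h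
    · have : (((⌊b⌋ + 1 - ⌈a⌉).toNat : ℕ) : ℝ) = ((⌊b⌋ + 1 - ⌈a⌉ : ℤ) : ℝ) := by
        have h' := Int.toNat_of_nonneg h
        exact_mod_cast h'
      rw [this]
      push_cast
      have h2 := Int.floor_le b
      have h3 := Int.le_ceil a
      linarith
    · rw [Int.toNat_of_nonpos h]
      push_cast
      have : b - a = 2 * (η * W) := by
        rw [ha, hb]
        ring
      rw [this]
      linarith
  have h2 : b - a = 2 * (η * W) := by
    rw [ha, hb]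
    ring
  calc (((range W).filter fun j => |gp W t j - c| ≤ η).card : ℝ)
      ≤ (((⌊b⌋ + 1 - ⌈a⌉).toNat : ℕ) : ℝ) := by exact_mod_cast hc
    _ ≤ b - a + 1 := h1
    _ ≤ 3 * η * W := by
        rw [h2]
        linarith

end Pool.Agent.Lib.MP_6cded1_nt.ML
end
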