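import Pool.Agent.Lib.MP_6cded1_nt.ML.Nd
import Pool.Agent.Lib.MP_6cded1_nt.ML.Near1
import Pool.Agent.Lib.MP_6cded1_nt.M3.Fls

section

section

/-!
# Orthogonality on the grid

`sum_e_grid`: `e (k (t + j / W)) = e (k t) ζ ^ j`, `ζ = e (k / W)`, `ζ ^ W = 1`, and `ζ = 1` iff `W ∣ k`; geometric sum.
`grid_pairing`: expand; `conj (e x) = e (-x)`; the frequency is `n - d m` with `1 ≤ n ≤ N`, `1 ≤ d m ≤ 4 D M ≤ N < W`, so only `n = d m` contributes.
`grid_parseval`: expand `‖F‖² = F conj F`; only `n = n'` contributes; at most `N` terms `‖f n‖² ≤ 1`.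
-/

set_option autoImplicit false

open Finset

namespace Pool.Agent.Lib.MP_6cded1_nt.ML

theorem sum_e_grid (W : ℕ) (hW : 1 ≤ W) (t : ℝ) (k : ℤ) :
    ∑ j ∈ range W, e (k * gp W t j) = if (W : ℤ) ∣ k then W * e (k * t) else 0 := by
  have hWc : (W : ℂ) ≠ 0 := by
    exact_mod_cast (by omega : W ≠ 0)
  have hWr : (W : ℝ) ≠ 0 := by
    exact_mod_cast (by omega : W ≠ 0)
  set ζ : ℂ := e ((k : ℝ) / W) with hζ
  have h1 : ∀ j ∈ range W, e (k * gp W t j) = e (k * t) * ζ ^ j := by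
    intro j _
    rw [hζ, ← e_nat_mul, ← e_add]
    congr 1
    unfold gp
    ring
  rw [sum_congr rfl h1, ← mul_sum]
  by_cases hd : (W : ℤ) ∣ k
  · rw [if_pos hd]
    obtain ⟨c, hc⟩ := hd
    have h2 : ζ = 1 := by
      rw [hζ, hc]
      have : (((W : ℤ) * c : ℤ) : ℝ) / W = (c : ℝ) := by
        push_cast
        field_simp
      rw [this, e_int]
    rw [h2]
    simp [mul_comm]
  · rw [if_neg hd]
    have h2 : ζ ≠ 1 := by
      intro h
      apply hd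
      rw [hζ] at h
      unfold e at h
      rw [Complex.exp_eq_one_iff] at h
      obtain ⟨c, hc⟩ := h
      have hpi : (2 * (Real.pi : ℂ) * Complex.I) ≠ 0 := by
        simp [Real.pi_ne_zero]
      have h3 : (((k : ℝ) / W : ℝ) : ℂ) = c := by
        have h4 : (2 * (Real.pi : ℂ) * Complex.I) * (((k : ℝ) / W : ℝ) : ℂ)
            = (2 * (Real.pi : ℂ) * Complex.I) * c := by
          rw [hc]
          ring
        exact mul_left_cancel₀ hpi h4
      have h5 : (k : ℝ) / W = c := by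
        exact_mod_cast h3
      refine ⟨c, ?_⟩
      have h6 : (k : ℝ) = W * c := by
        rw [← h5]
        field_simp
      exact_mod_cast h6
    have h3 : ζ ^ W = 1 := by
      rw [hζ, ← e_nat_mul]
      have : (W : ℝ) * ((k : ℝ) / W) = (k : ℝ) := by
        field_simp
      rw [this, e_int]
    have h4 := geom_sum_mul ζ W
    rw [h3, sub_self] at h4
    rcases mul_eq_zero.1 h4 with h5 | h5
    · rw [h5, mul_zero]
    · exact absurd (sub_eq_zero.1 h5) h2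

private lemma orth_aux (W : ℕ) (t : ℝ) (n n' : ℕ) (hn : n < W) (hn' : n' < W) :
    ∑ j ∈ range W, e (n * gp W t j) * (starRingEnd ℂ) (e (n' * gp W t j)) =
      if n = n' then (W : ℂ) else 0 := by
  have hW : 1 ≤ W := by omega
  have h1 : ∀ j ∈ range W, e (n * gp W t j) * (starRingEnd ℂ) (e (n' * gp W t j)) =
      e ((((n : ℤ) - n' : ℤ) : ℝ) * gp W t j) := by
    intro j _
    rw [← e_sub]
    congr 1
    push_cast
    ring
  rw [sum_congr rfl h1, sum_e_grid W hW]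
  by_cases h : n = n'
  · subst h
    simp [e_zero]
  · rw [if_neg h, if_neg]
    intro hd
    have h3 := Int.eq_zero_of_abs_lt_dvd hd (abs_lt.2 ⟨by omega, by omega⟩)
    omega

theorem grid_pairing (f a b : ℕ → ℂ) (N D M W : ℕ) (hW : N < W) (hDM : 4 * D * M ≤ N) (t : ℝ) :
    (∑ j ∈ range W, F f N (gp W t j) * (starRingEnd ℂ) (B a b D M (gp W t j))) / W =
      ∑ d ∈ Ioc D (4 * D), ∑ m ∈ Icc 1 M, f (d * m) * (starRingEnd ℂ) (a d * b m) := by
  have hWc : (W : ℂ) ≠ 0 := by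
    exact_mod_cast (by omega : W ≠ 0)
  rw [div_eq_iff hWc]
  have h1 : ∀ j ∈ range W, F f N (gp W t j) * (starRingEnd ℂ) (B a b D M (gp W t j)) =
      ∑ d ∈ Ioc D (4 * D), ∑ m ∈ Icc 1 M, ∑ n ∈ Icc 1 N, (f n * (starRingEnd ℂ) (a d * b m)) *
        (e (n * gp W t j) * (starRingEnd ℂ) (e ((d * m : ℕ) * gp W t j))) := by
    intro j _
    unfold F B
    rw [map_sum, mul_sum]
    refine sum_congr rfl fun d _ => ?_
    rw [map_sum, mul_sum]
    refine sum_congr rfl fun m _ => ?_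
    rw [sum_mul]
    refine sum_congr rfl fun n _ => ?_
    rw [map_mul]
    push_cast
    ring
  rw [sum_congr rfl h1, sum_comm, sum_mul]
  refine sum_congr rfl fun d hd => ?_
  rw [sum_comm, sum_mul]
  refine sum_congr rfl fun m hm => ?_
  rw [sum_comm]
  rw [mem_Ioc] at hd
  rw [mem_Icc] at hm
  have hdm : d * m ≤ N := (Nat.mul_le_mul hd.2 hm.2).trans hDM
  have hdm1 : 1 ≤ d * m := Nat.mul_pos (by omega) hm.1
  have h2 : ∀ n ∈ Icc 1 N, (∑ j ∈ range W, (f n * (starRingEnd ℂ) (a d * b m)) *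
      (e (n * gp W t j) * (starRingEnd ℂ) (e ((d * m : ℕ) * gp W t j)))) =
      if n = d * m then f n * (starRingEnd ℂ) (a d * b m) * W else 0 := by
    intro n hn
    rw [mem_Icc] at hn
    rw [← mul_sum, orth_aux W t n (d * m) (by omega) (by omega)]
    split_ifs <;> simp
  rw [sum_congr rfl h2, sum_ite_eq' (Icc 1 N) (d * m), if_pos (mem_Icc.2 ⟨hdm1, hdm⟩)]

theorem grid_parseval (f : ℕ → ℂ) (hf : ∀ n, ‖f n‖ ≤ 1) (N W : ℕ) (hW : N < W) (t : ℝ) :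
    EE W t (fun x => ‖F f N x‖ ^ 2) ≤ N := by
  have hWr : (0 : ℝ) < W := by
    exact_mod_cast (by omega : 0 < W)
  unfold EE
  rw [div_le_iff₀ hWr]
  have key : ((∑ j ∈ range W, ‖F f N (gp W t j)‖ ^ 2 : ℝ) : ℂ)
      = ((∑ n ∈ Icc 1 N, ‖f n‖ ^ 2 * W : ℝ) : ℂ) := by
    push_cast
    have h1 : ∀ j ∈ range W, ((‖F f N (gp W t j)‖ : ℂ)) ^ 2 =
        ∑ m ∈ Icc 1 N, ∑ n ∈ Icc 1 N, (f n * (starRingEnd ℂ) (f m)) *
          (e (n * gp W t j) * (starRingEnd ℂ) (e (m * gp W t j))) := by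
      intro j _
      rw [← Complex.mul_conj']
      conv_lhs => rw [F]
      rw [map_sum, mul_sum]
      refine sum_congr rfl fun m _ => ?_
      rw [sum_mul]
      refine sum_congr rfl fun n _ => ?_
      rw [map_mul]
      ring
    rw [sum_congr rfl h1, sum_comm]
    refine sum_congr rfl fun m hm => ?_
    rw [sum_comm]
    rw [mem_Icc] at hm
    have h2 : ∀ n ∈ Icc 1 N, (∑ j ∈ range W, (f n * (starRingEnd ℂ) (f m)) *
        (e (n * gp W t j) * (starRingEnd ℂ) (e (m * gp W t j)))) =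
        if n = m then f n * (starRingEnd ℂ) (f m) * W else 0 := by
      intro n hn
      rw [mem_Icc] at hn
      rw [← mul_sum, orth_aux W t n m (by omega) (by omega)]
      split_ifs <;> simp
    rw [sum_congr rfl h2, sum_ite_eq' (Icc 1 N) m, if_pos (mem_Icc.2 hm), Complex.mul_conj']
  have key2 : (∑ j ∈ range W, ‖F f N (gp W t j)‖ ^ 2) = ∑ n ∈ Icc 1 N, ‖f n‖ ^ 2 * (W : ℝ) := by
    exact_mod_cast key
  rw [key2]
  calc ∑ n ∈ Icc 1 N, ‖f n‖ ^ 2 * (W : ℝ) ≤ ∑ n ∈ Icc 1 N, (W : ℝ) := by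
        refine sum_le_sum fun n _ => ?_
        have : ‖f n‖ ^ 2 ≤ 1 := pow_le_one₀ (norm_nonneg _) (hf n)
        exact mul_le_of_le_one_left hWr.le this
    _ = N * W := by
        rw [sum_const, Nat.card_Icc, nsmul_eq_mul, Nat.add_sub_cancel]

end Pool.Agent.Lib.MP_6cded1_nt.ML
end

section

/-!
# The pairing is large

`a d = f d` for prime `d`, `0` otherwise; the same for `b`.  For primes `d ≠ m`: `f (d m) conj (f d f m) = |f d|² |f m|² = 1` (`Mult.mul`, `Mult.one`); for `d = m`: `f (d²) = 0`; the other terms are `0`.  So the sum is the number of pairs of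
different primes `d ∈ (D, 4D]`, `m ≤ M`: at least `card (PP D) * (card (PP (M / 4)) - 1)` (`PP (M / 4) ⊆ Icc 1 M`), and by `card_PP_ge` and `num_basic` (`D ≥ N^{0.4586} / 2`, `M = ⌊N / (4D)⌋ ≥ N^{0.5414} / 8`) this is
`≥ N / (C log² N) ≥ N^{0.9999}`.  (`log (4 D) ≤ log N`, `log (4 (M / 4)) ≤ log N`.)
-/

set_option autoImplicit false

open Finset

namespace Pool.Agent.Lib.MP_6cded1_nt.ML

/-- The coefficients of the test function: `f` on the primes. -/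
noncomputable def fp (f : ℕ → ℂ) (n : ℕ) : ℂ := if n.Prime then f n else 0

theorem norm_fp_le (f : ℕ → ℂ) (hf : Mult f) (n : ℕ) : ‖fp f n‖ ≤ 1 := by
  unfold fp
  split_ifs with h
  · exact (hf.one n (Irreducible.squarefree h)).le
  · simp

private theorem pair_term (f : ℕ → ℂ) (hf : Mult f) (d m : ℕ) :
    f (d * m) * (starRingEnd ℂ) (fp f d * fp f m)
      = (((if d.Prime ∧ m.Prime ∧ m ≠ d then 1 else 0 : ℝ)) : ℂ) := by
  unfold fp
  by_cases hd : d.Prime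
  · by_cases hm : m.Prime
    · by_cases hmd : m = d
      · subst hmd
        have h0 : f (m * m) = 0 := by
          apply hf.zero
          intro hsq
          have := hsq m (dvd_refl _)
          exact hm.one_lt.ne' (Nat.isUnit_iff.1 this)
        rw [h0, zero_mul, if_neg (by tauto)]
        simp
      · have hcop : Nat.Coprime d m := (Nat.coprime_primes hd hm).2 (Ne.symm hmd)
        rw [if_pos hd, if_pos hm, if_pos ⟨hd, hm, hmd⟩, hf.mul d m hcop, Complex.mul_conj,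
          Complex.normSq_eq_norm_sq, norm_mul, hf.one d (Irreducible.squarefree hd),
          hf.one m (Irreducible.squarefree hm)]
        simp
    · rw [if_neg hm, mul_zero, map_zero, mul_zero, if_neg (by tauto)]
      simp
  · rw [if_neg hd, zero_mul, map_zero, mul_zero, if_neg (by tauto)]
    simp

theorem pairing_count (f : ℕ → ℂ) (hf : Mult f) (D M : ℕ) :
    (((PP D).card : ℝ) * ((PP (M / 4)).card - 1)) ≤
      ‖∑ d ∈ Ioc D (4 * D), ∑ m ∈ Icc 1 M, f (d * m) * (starRingEnd ℂ) (fp f d * fp f m)‖ := by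
  have h1 : ∑ d ∈ Ioc D (4 * D), ∑ m ∈ Icc 1 M, f (d * m) * (starRingEnd ℂ) (fp f d * fp f m)
      = ((∑ d ∈ Ioc D (4 * D), ∑ m ∈ Icc 1 M,
          (if d.Prime ∧ m.Prime ∧ m ≠ d then 1 else 0 : ℝ) : ℝ) : ℂ) := by
    rw [Complex.ofReal_sum]
    refine Finset.sum_congr rfl fun d _ => ?_
    rw [Complex.ofReal_sum]
    exact Finset.sum_congr rfl fun m _ => pair_term f hf d m
  have hnn : ∀ d m : ℕ, (0 : ℝ) ≤ (if d.Prime ∧ m.Prime ∧ m ≠ d then 1 else 0 : ℝ) := by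
    intro d m
    split_ifs <;> norm_num
  rw [h1, Complex.norm_real, Real.norm_eq_abs,
    abs_of_nonneg (Finset.sum_nonneg fun d _ => Finset.sum_nonneg fun m _ => hnn d m)]
  have hsub1 : PP D ⊆ Ioc D (4 * D) := Finset.filter_subset _ _
  have hsub2 : PP (M / 4) ⊆ Icc 1 M := by
    intro m hm
    simp only [PP, mem_filter, mem_Ioc] at hm
    rw [mem_Icc]
    omega
  have h2 : ∀ d ∈ PP D, ((PP (M / 4)).card : ℝ) - 1
      ≤ ∑ m ∈ Icc 1 M, (if d.Prime ∧ m.Prime ∧ m ≠ d then 1 else 0 : ℝ) := by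
    intro d hd
    have hdp : d.Prime := (mem_filter.1 hd).2
    calc ((PP (M / 4)).card : ℝ) - 1 ≤ (((PP (M / 4)).erase d).card : ℝ) := by
          have : (PP (M / 4)).card - 1 ≤ ((PP (M / 4)).erase d).card := Finset.pred_card_le_card_erase
          have h3 : ((PP (M / 4)).card : ℝ) ≤ (((PP (M / 4)).erase d).card : ℝ) + 1 := by
            have h4 : (PP (M / 4)).card ≤ ((PP (M / 4)).erase d).card + 1 := by omega
            exact_mod_cast h4
          linarith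
      _ = ∑ m ∈ (PP (M / 4)).erase d, (1 : ℝ) := by simp
      _ = ∑ m ∈ (PP (M / 4)).erase d, (if d.Prime ∧ m.Prime ∧ m ≠ d then 1 else 0 : ℝ) := by
          refine Finset.sum_congr rfl fun m hm => ?_
          rw [mem_erase] at hm
          rw [if_pos ⟨hdp, (mem_filter.1 hm.2).2, hm.1⟩]
      _ ≤ ∑ m ∈ Icc 1 M, (if d.Prime ∧ m.Prime ∧ m ≠ d then 1 else 0 : ℝ) :=
          Finset.sum_le_sum_of_subset_of_nonneg ((Finset.erase_subset _ _).trans hsub2)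
            fun m _ _ => hnn d m
  calc (((PP D).card : ℝ) * ((PP (M / 4)).card - 1))
      = ∑ d ∈ PP D, (((PP (M / 4)).card : ℝ) - 1) := by rw [Finset.sum_const, nsmul_eq_mul]
    _ ≤ ∑ d ∈ PP D, ∑ m ∈ Icc 1 M, (if d.Prime ∧ m.Prime ∧ m ≠ d then 1 else 0 : ℝ) :=
        Finset.sum_le_sum h2
    _ ≤ ∑ d ∈ Ioc D (4 * D), ∑ m ∈ Icc 1 M,
          (if d.Prime ∧ m.Prime ∧ m ≠ d then 1 else 0 : ℝ) :=
        Finset.sum_le_sum_of_subset_of_nonneg hsub1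
          fun d _ _ => Finset.sum_nonneg fun m _ => hnn d m

end Pool.Agent.Lib.MP_6cded1_nt.ML
end

section

/-!
# Parameters

`0 < u ≤ 1/1000`; `c = 1/28 - 4u`.  `pow_log_le` (powers beat logarithms) is in `ML/NumDefs.lean`.
-/

set_option autoImplicit false

open Finset Pool.Agent.Lib.MP_6cded1_nt.ML

namespace Pool.Agent.Lib.MP_6cded1_nt.M3

/-- `D = ⌊N^{3/7+7u}⌋`. -/
noncomputable def Du (u : ℝ) (N : ℕ) : ℕ := ⌊(N : ℝ) ^ ((3 : ℝ) / 7 + 7 * u)⌋₊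

/-- `M = ⌊N / (4D)⌋`. -/
noncomputable def Mu (u : ℝ) (N : ℕ) : ℕ := N / (4 * Du u N)

/-- `τ = N^{5/7+4u}`. -/
noncomputable def tu (u : ℝ) (N : ℕ) : ℝ := (N : ℝ) ^ ((5 : ℝ) / 7 + 4 * u)

/-- The prime scale. -/
noncomputable def Pu (u : ℝ) (N : ℕ) (H : ℝ) : ℕ := ⌈(N : ℝ) ^ u * H / tu u N⌉₊

/-- The number of bad cells. -/
noncomputable def nu (u : ℝ) (N : ℕ) (H : ℝ) : ℝ := (N : ℝ) ^ (2 - 2 * u) / H ^ 2

/-- The bound for the sum of `κ` over the clusters. -/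
noncomputable def Ku (u : ℝ) (N : ℕ) (H : ℝ) : ℝ := (N : ℝ) ^ (2 + 3 * u) / H ^ 2

/-- The bound for the divisor function. -/
noncomputable def du (u : ℝ) (N : ℕ) : ℝ := (N : ℝ) ^ (u / 4)

/-- The bound for the multiplicity of a fraction. -/
noncomputable def Cu (u : ℝ) : ℕ := ⌈1 / u⌉₊ + 1

end Pool.Agent.Lib.MP_6cded1_nt.M3
end
end

section

/-!
# Numerical inequalities: basic

All for `N ≥ N₀(u)`.  `x/2 ≤ ⌊x⌋₊ ≤ x` for `x ≥ 1`.  `M = ⌊N/(4D)⌋`: `4 D M ≤ N < 4 D (M + 1) ≤ 8 D M` if `M ≥ 1`; `M ≤ N/(4D) ≤ N^{4/7-7u}/2`; `9 N D ≤ 9 N^{10/7+7u} ≤ N^{10/7+8u} = τ²` (`pow_log_le` with `k = 0`).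
-/

set_option autoImplicit false

open Finset Pool.Agent.Lib.MP_6cded1_nt.ML

namespace Pool.Agent.Lib.MP_6cded1_nt.M3

theorem num_basic3 (u : ℝ) (hu : 0 < u) (hu1 : u ≤ 1 / 1000) : ∃ N₀ : ℕ, ∀ N : ℕ, N₀ ≤ N →
    1 ≤ Du u N ∧ 1 ≤ Mu u N ∧ 4 * Du u N * Mu u N ≤ N ∧ N ≤ 8 * Du u N * Mu u N ∧
    (N : ℝ) ^ ((3 : ℝ) / 7 + 7 * u) / 2 ≤ Du u N ∧ (Du u N : ℝ) ≤ (N : ℝ) ^ ((3 : ℝ) / 7 + 7 * u) ∧
    (Mu u N : ℝ) ≤ (N : ℝ) ^ ((4 : ℝ) / 7 - 7 * u) / 2 ∧ 1 ≤ tu u N ∧ tu u N ≤ N ∧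
    9 * (N : ℝ) * Du u N ≤ tu u N ^ 2 ∧ 1 ≤ du u N := by
  obtain ⟨N₁, h₁⟩ := pow_log_le 8 0 ((3 : ℝ) / 7 + 7 * u) 1 (by linarith)
  obtain ⟨N₂, h₂⟩ := pow_log_le 9 0 ((10 : ℝ) / 7 + 7 * u) ((10 : ℝ) / 7 + 8 * u) (by linarith)
  refine ⟨max 1 (max N₁ N₂), fun N hN => ?_⟩
  have hN1 : 1 ≤ N := le_trans (le_max_left _ _) hN
  have e1 := h₁ N (le_trans (le_trans (le_max_left _ _) (le_max_right _ _)) hN)
  have e2 := h₂ N (le_trans (le_trans (le_max_right _ _) (le_max_right _ _)) hN)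
  simp only [pow_zero, mul_one, Real.rpow_one] at e1 e2
  have hx1 : (1 : ℝ) ≤ N := by exact_mod_cast hN1
  have hx0 : (0 : ℝ) < N := by linarith
  set x : ℝ := (N : ℝ) with hx
  set y : ℝ := x ^ ((3 : ℝ) / 7 + 7 * u) with hy
  have hy1 : 1 ≤ y := Real.one_le_rpow hx1 (by linarith)
  have hD1 : 1 ≤ Du u N := by
    unfold Du
    exact Nat.le_floor (by simpa using hy1)
  have hDle : (Du u N : ℝ) ≤ y := Nat.floor_le (by linarith)
  have hDlt : y < (Du u N : ℝ) + 1 := Nat.lt_floor_add_one y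
  have hD1' : (1 : ℝ) ≤ Du u N := by exact_mod_cast hD1
  have hDge : y / 2 ≤ (Du u N : ℝ) := by linarith
  have h4D : 4 * Du u N ≤ N := by
    have : (4 * (Du u N : ℝ)) ≤ N := by linarith
    exact_mod_cast this
  have hM1 : 1 ≤ Mu u N := by
    unfold Mu
    exact (Nat.one_le_div_iff (by omega)).mpr h4D
  have hM2 : 4 * Du u N * Mu u N ≤ N := Nat.mul_div_le N _
  have hM3 : N ≤ 8 * Du u N * Mu u N := by
    have h := Nat.lt_mul_div_succ N (show 0 < 4 * Du u N by omega)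
    have h' : N < 4 * Du u N * (Mu u N + 1) := h
    have : 4 * Du u N * 1 ≤ 4 * Du u N * Mu u N := Nat.mul_le_mul_left _ hM1
    nlinarith
  have hM2' : 4 * (Du u N : ℝ) * Mu u N ≤ x := by rw [hx]; exact_mod_cast hM2
  have hsplit : y * x ^ ((4 : ℝ) / 7 - 7 * u) = x := by
    rw [hy, ← Real.rpow_add hx0]
    rw [show (3 : ℝ) / 7 + 7 * u + (4 / 7 - 7 * u) = 1 by ring, Real.rpow_one]
  have hM4 : (Mu u N : ℝ) ≤ x ^ ((4 : ℝ) / 7 - 7 * u) / 2 := by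
    have hMn : (0 : ℝ) ≤ Mu u N := Nat.cast_nonneg _
    have h2 : 2 * y * (Mu u N : ℝ) ≤ y * x ^ ((4 : ℝ) / 7 - 7 * u) := by
      rw [hsplit]; nlinarith
    have hy0 : 0 < y := by linarith
    have h3 : 2 * (Mu u N : ℝ) ≤ x ^ ((4 : ℝ) / 7 - 7 * u) := by
      by_contra hcon
      push Not at hcon
      nlinarith [mul_lt_mul_of_pos_left hcon hy0]
    linarith
  have ht1 : 1 ≤ tu u N := Real.one_le_rpow hx1 (by linarith)
  have ht2 : tu u N ≤ N := by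
    calc tu u N ≤ x ^ (1 : ℝ) := Real.rpow_le_rpow_of_exponent_le hx1 (by linarith)
      _ = N := by rw [Real.rpow_one]
  have ht3 : tu u N ^ 2 = x ^ ((10 : ℝ) / 7 + 8 * u) := by
    unfold tu
    rw [← Real.rpow_natCast, ← Real.rpow_mul hx0.le]
    congr 1
    push_cast
    ring
  have hxy : x * y = x ^ ((10 : ℝ) / 7 + 7 * u) := by
    rw [hy]
    nth_rewrite 1 [← Real.rpow_one x]
    rw [← Real.rpow_add hx0]
    congr 1
    ring
  have h9 : 9 * x * (Du u N : ℝ) ≤ tu u N ^ 2 := by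
    rw [ht3]
    calc 9 * x * (Du u N : ℝ) ≤ 9 * x * y := by
          exact mul_le_mul_of_nonneg_left hDle (by linarith)
      _ = 9 * x ^ ((10 : ℝ) / 7 + 7 * u) := by rw [← hxy]; ring
      _ ≤ _ := e2
  exact ⟨hD1, hM1, hM2, hM3, hDge, hDle, hM4, ht1, ht2, h9,
    Real.one_le_rpow hx1 (by linarith)⟩

end Pool.Agent.Lib.MP_6cded1_nt.M3
end

section

section

/-!
# Greedy covering

Strong induction on `card A₀`.  If `card A₀ < n₀`: `S = ∅`, `A₁ = ∅`.  Otherwise take `s` from `h A₀`, apply the induction hypothesis to `A₀' = {i ∈ A₀ : ¬ C s i}` (smaller since `w s > 0`), get `S', A₁', σ'`; put `S = insert s S'`, `A₁ = A₁' ∪ {i ∈ A₀ : C s i}`, `σ i = s` if `C s i`, `σ' i` otherwise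
(for `i ∈ A₁'`: `¬ C s i`).  `A₀ \\ A₁ = A₀' \\ A₁'`.  `∑_{S} w ≤ w s + ∑_{S'} w ≤ #{i ∈ A₀ : C s i} + card A₀' = card A₀`.
-/

set_option autoImplicit false

open Finset Pool.Agent.Lib.MP_6cded1_nt.ML

namespace Pool.Agent.Lib.MP_6cded1_nt.M3

open Classical in
theorem greedy {ι : Type*} (A₀ : Finset ℕ) (I : Finset ι) (C : ι → ℕ → Prop) (w : ι → ℝ) (hw : ∀ s ∈ I, 0 < w s)
    (n₀ : ℝ) (hn₀ : 0 < n₀) (s₀ : ι)
    (h : ∀ A ⊆ A₀, n₀ ≤ (A.card : ℝ) → ∃ s ∈ I, w s ≤ ((A.filter fun i => C s i).card : ℝ)) :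
    ∃ (S : Finset ι) (A₁ : Finset ℕ) (σ : ℕ → ι), S ⊆ I ∧ A₁ ⊆ A₀ ∧ (∀ i ∈ A₁, σ i ∈ S ∧ C (σ i) i) ∧
      ((A₀ \ A₁).card : ℝ) < n₀ ∧ ∑ s ∈ S, w s ≤ A₀.card := by
  induction hk : A₀.card using Nat.strong_induction_on generalizing A₀ with
  | _ k ih =>
    subst hk
    by_cases hlt : (A₀.card : ℝ) < n₀
    · refine ⟨∅, ∅, fun _ => s₀, empty_subset _, empty_subset _, ?_, ?_, ?_⟩
      · intro i hi
        exact absurd hi (notMem_empty i)
      · rw [sdiff_empty]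
        exact hlt
      · rw [sum_empty]
        exact Nat.cast_nonneg _
    · push Not at hlt
      obtain ⟨s, hsI, hs⟩ := h A₀ (Subset.refl _) hlt
      have hws := hw s hsI
      have hsplit := card_filter_add_card_filter_not (s := A₀) (fun i => C s i)
      have hpos : 0 < (A₀.filter fun i => C s i).card := by
        have : (0 : ℝ) < ((A₀.filter fun i => C s i).card : ℝ) := lt_of_lt_of_le hws hs
        exact_mod_cast this
      obtain ⟨S', A₁', σ', h1, h2, h3, h4, h5⟩ :=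
        ih (A₀.filter fun i => ¬ C s i).card (by omega) (A₀.filter fun i => ¬ C s i)
          (fun A hA hA' => h A (hA.trans (filter_subset _ _)) hA') rfl
      refine ⟨insert s S', A₁' ∪ A₀.filter (fun i => C s i),
        fun i => if C s i then s else σ' i, ?_, ?_, ?_, ?_, ?_⟩
      · exact insert_subset hsI h1
      · exact union_subset (h2.trans (filter_subset _ _)) (filter_subset _ _)
      · intro i hi
        beta_reduce
        by_cases hC : C s i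
        · rw [if_pos hC]
          exact ⟨mem_insert_self _ _, hC⟩
        · rw [if_neg hC]
          rcases mem_union.1 hi with hi | hi
          · exact ⟨mem_insert_of_mem (h3 i hi).1, (h3 i hi).2⟩
          · exact absurd (mem_filter.1 hi).2 hC
      · refine lt_of_le_of_lt ?_ h4
        have : A₀ \ (A₁' ∪ A₀.filter (fun i => C s i)) ⊆ (A₀.filter fun i => ¬ C s i) \ A₁' := by
          intro i hi
          rw [mem_sdiff, mem_union, not_or] at hi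
          obtain ⟨hi1, hi2, hi3⟩ := hi
          rw [mem_sdiff, mem_filter]
          exact ⟨⟨hi1, fun hC => hi3 (mem_filter.2 ⟨hi1, hC⟩)⟩, hi2⟩
        exact_mod_cast card_le_card this
      · have h6 : ∑ t ∈ insert s S', w t ≤ w s + ∑ t ∈ S', w t := by
          by_cases hsS : s ∈ S'
          · rw [insert_eq_of_mem hsS]
            linarith
          · rw [sum_insert hsS]
        have h7 : (((A₀.filter fun i => C s i).card : ℝ)
            + ((A₀.filter fun i => ¬ C s i).card : ℝ)) = A₀.card := by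
          exact_mod_cast hsplit
        linarith

end Pool.Agent.Lib.MP_6cded1_nt.M3
end

section

/-!
# Pairs and triples (abstract)

`m = card S ≥ 4 C₂`.  Pairs: `≥ m (m - C₂) ≥ m²/2`.  Triples: for every pair `(s, s')` with `D s s'` there are `≥ m - 2 C₂` third elements: `≥ m (m - C₂) (m - 2 C₂) ≥ m (3m/4) (m/2) ≥ m²` (`m ≥ 4`).  See `triples_comb` (private) in `ML/Combb.lean` and `pairs_ge` in `ML/Comba.lean`.
`triples_min`: one of the three elements has the least `w`; the triples whose second (third) element has the least `w` are mapped to triples of the set on the right by exchanging it with the first element (`D` symmetric).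
-/

set_option autoImplicit false

open Finset Pool.Agent.Lib.MP_6cded1_nt.ML

namespace Pool.Agent.Lib.MP_6cded1_nt.M3

open Classical in
theorem pairs_comb {α : Type*} (S : Finset α) (D : α → α → Prop) (C₂ : ℕ)
    (hC : ∀ s ∈ S, (S.filter fun s' => ¬ D s s').card ≤ C₂) (hm : 4 * C₂ ≤ S.card) :
    S.card ^ 2 ≤ 2 * ((S ×ˢ S).filter fun x => D x.1 x.2).card := by
  have hcount : ((S ×ˢ S).filter fun x => D x.1 x.2).card =
      ∑ s ∈ S, (S.filter fun s' => D s s').card := by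
    rw [Finset.card_filter, Finset.sum_product]
    exact Finset.sum_congr rfl fun s _ => by rw [Finset.card_filter]
  have hge : ∀ s ∈ S, S.card - C₂ ≤ (S.filter fun s' => D s s').card := by
    intro s hs
    have h2 := hC s hs
    have h3 := Finset.card_filter_add_card_filter_not (s := S) (fun s' => D s s')
    omega
  have h4 : S.card * (S.card - C₂) ≤ ∑ s ∈ S, (S.filter fun s' => D s s').card := by
    have := Finset.card_nsmul_le_sum S _ _ hge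
    simpa using this
  rw [hcount]
  have h5 : S.card ≤ 2 * (S.card - C₂) := by omega
  calc S.card ^ 2 = S.card * S.card := by ring
    _ ≤ S.card * (2 * (S.card - C₂)) := Nat.mul_le_mul_left _ h5
    _ = 2 * (S.card * (S.card - C₂)) := by ring
    _ ≤ _ := Nat.mul_le_mul_left _ h4

open Classical in
theorem triples_comb {α : Type*} (S : Finset α) (D : α → α → Prop) (C₂ : ℕ) (h1 : 1 ≤ C₂)
    (hC : ∀ s ∈ S, (S.filter fun s' => ¬ D s s').card ≤ C₂) (hm : 4 * C₂ ≤ S.card) :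
    S.card ^ 2 ≤ ((S ×ˢ S ×ˢ S).filter fun x =>
      D x.1 x.2.1 ∧ D x.1 x.2.2 ∧ D x.2.1 x.2.2).card := by
  have e1 : ((S ×ˢ S ×ˢ S).filter fun x =>
      D x.1 x.2.1 ∧ D x.1 x.2.2 ∧ D x.2.1 x.2.2).card =
      ∑ s ∈ S, ∑ s' ∈ S, ∑ s'' ∈ S, (if D s s' ∧ D s s'' ∧ D s' s'' then 1 else 0) := by
    rw [card_filter, sum_product]
    refine sum_congr rfl fun s _ => ?_
    rw [sum_product]
  have e2 : ∀ s ∈ S, ∀ s' ∈ S, (if D s s' then (S.card - 2 * C₂) else 0) ≤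
      ∑ s'' ∈ S, (if D s s' ∧ D s s'' ∧ D s' s'' then 1 else 0) := by
    intro s hs s' hs'
    split_ifs with h
    · have h2 : S ⊆ (S.filter fun s'' => D s s' ∧ D s s'' ∧ D s' s'') ∪
          ((S.filter fun s'' => ¬ D s s'') ∪ (S.filter fun s'' => ¬ D s' s'')) := by
        intro x hx
        simp only [mem_union, mem_filter]
        by_cases c1 : D s x
        · by_cases c2 : D s' x
          · exact Or.inl ⟨hx, h, c1, c2⟩
          · exact Or.inr (Or.inr ⟨hx, c2⟩)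
        · exact Or.inr (Or.inl ⟨hx, c1⟩)
      have h3 := card_le_card h2
      have h4 := card_union_le (S.filter fun s'' => D s s' ∧ D s s'' ∧ D s' s'')
          ((S.filter fun s'' => ¬ D s s'') ∪ (S.filter fun s'' => ¬ D s' s''))
      have h5 := card_union_le (S.filter fun s'' => ¬ D s s'') (S.filter fun s'' => ¬ D s' s'')
      have h6 := hC s hs
      have h7 := hC s' hs'
      rw [← card_filter]
      omega
    · exact Nat.zero_le _
  have e3 : ∀ s ∈ S, (S.card - C₂) * (S.card - 2 * C₂) ≤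
      ∑ s' ∈ S, (if D s s' then (S.card - 2 * C₂) else 0) := by
    intro s hs
    rw [← sum_filter, sum_const, smul_eq_mul]
    refine Nat.mul_le_mul_right _ ?_
    have h2 := card_filter_add_card_filter_not (s := S) (p := fun s' => D s s')
    have h6 := hC s hs
    omega
  have e4 : S.card * ((S.card - C₂) * (S.card - 2 * C₂)) ≤
      ∑ s ∈ S, ∑ s' ∈ S, ∑ s'' ∈ S, (if D s s' ∧ D s s'' ∧ D s' s'' then 1 else 0) := by
    rw [← smul_eq_mul, ← sum_const]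
    refine sum_le_sum fun s hs => ?_
    refine (e3 s hs).trans ?_
    exact sum_le_sum fun s' hs' => e2 s hs s' hs'
  rw [e1]
  refine le_trans ?_ e4
  rw [pow_two]
  refine Nat.mul_le_mul_left _ ?_
  obtain ⟨t, ht⟩ := Nat.exists_eq_add_of_le hm
  have a1 : S.card - C₂ = 3 * C₂ + t := by omega
  have a2 : S.card - 2 * C₂ = 2 * C₂ + t := by omega
  rw [a1, a2, ht]
  nlinarith [Nat.mul_le_mul h1 h1, Nat.zero_le (C₂ * t), Nat.zero_le (t * t), Nat.mul_le_mul_right t h1]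

end Pool.Agent.Lib.MP_6cded1_nt.M3
end

section

/-!
# The bad cells

Cauchy-Schwarz: `EE (‖F‖ sel ‖B‖) ≤ √(EE ‖F‖²) √(EE (sel (Λ z) ‖B‖)²) ≤ √N * √(4 H² #/W)`, `#` = number of `j < W` with `⌊N fract (gp W t j)⌋₊ ∈ C`.  For one cell `i` the number of `j < W` with `⌊N fract (t + j/W)⌋₊ = i` is `≤ W/N + 2 ≤ 3 W / N`
(`t + j/W ∈ [0, 1]`; it is in `[i/N, (i+1)/N)`, or it is `1` (only `j = W - 1`) and `i = 0`).  So `# ≤ 3 n₀ W / N` and the bound is `2 H √(3 n₀) ≤ 4 H √n₀`.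
-/

set_option autoImplicit false

open Finset Pool.Agent.Lib.MP_6cded1_nt.ML

namespace Pool.Agent.Lib.MP_6cded1_nt.M3

private theorem badP_cell (N W i : ℕ) (t : ℝ) (hN : 1 ≤ N) (hNW : N ≤ W) (ht : 0 ≤ t) (ht' : t ≤ 1 / W) :
    (((range W).filter fun j => ⌊(N : ℝ) * Int.fract (gp W t j)⌋₊ = i).card : ℝ) ≤ 3 * (W / N) := by
  have hW : 1 ≤ W := hN.trans hNW
  have hN0 : (0 : ℝ) < N := by exact_mod_cast hN
  have hW0 : (0 : ℝ) < W := by exact_mod_cast hW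
  set a : ℝ := W * (i / N - t) with ha
  set L : ℝ := (W : ℝ) / N with hL
  have hL1 : 1 ≤ L := (one_le_div hN0).2 (by exact_mod_cast hNW)
  have hsub : ((range W).filter fun j => ⌊(N : ℝ) * Int.fract (gp W t j)⌋₊ = i) ⊆
      insert (W - 1) (Ico ⌈a⌉₊ ⌈a + L⌉₊) := by
    intro j hj
    rw [mem_filter, mem_range] at hj
    obtain ⟨hjW, hji⟩ := hj
    by_cases hj1 : j = W - 1
    · rw [hj1]; exact mem_insert_self _ _
    · apply mem_insert_of_mem
      have hj2 : j + 1 < W := by omega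
      have hx0 : 0 ≤ gp W t j := by unfold gp; positivity
      have hx1 : gp W t j < 1 := by
        have h1 : gp W t j ≤ (1 + j) / W := by
          unfold gp
          rw [add_div]; linarith
        refine h1.trans_lt ?_
        rw [div_lt_one hW0]
        have : ((j + 1 : ℕ) : ℝ) < W := by exact_mod_cast hj2
        push_cast at this
        linarith
      have hfr : Int.fract (gp W t j) = gp W t j := Int.fract_eq_self.2 ⟨hx0, hx1⟩
      rw [hfr] at hji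
      have h1 : (i : ℝ) ≤ N * gp W t j := by
        rw [← hji]; exact Nat.floor_le (by positivity)
      have h2 : N * gp W t j < i + 1 := by
        rw [← hji]; exact Nat.lt_floor_add_one _
      have h5 : (W : ℝ) * gp W t j = W * t + j := by
        unfold gp
        field_simp
      have h6 : (i : ℝ) / N ≤ gp W t j := by
        rw [div_le_iff₀ hN0]; linarith
      have h7 : gp W t j < (i : ℝ) / N + 1 / N := by
        rw [← add_div, lt_div_iff₀ hN0]; linarith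
      have h8 := mul_le_mul_of_nonneg_left h6 hW0.le
      have h9 := mul_lt_mul_of_pos_left h7 hW0
      have h10 : L = W * (1 / N) := by rw [hL]; ring
      have h3 : a ≤ j := by
        rw [ha]; nlinarith
      have h4 : (j : ℝ) < a + L := by
        rw [ha, h10]; nlinarith
      rw [mem_Ico]
      exact ⟨Nat.ceil_le.2 h3, Nat.lt_ceil.2 h4⟩
  have h1 := (card_le_card hsub).trans (card_insert_le _ _)
  rw [Nat.card_Ico] at h1
  have h2 : ((⌈a + L⌉₊ - ⌈a⌉₊ : ℕ) : ℝ) ≤ L + 1 := by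
    rcases le_total ⌈a + L⌉₊ ⌈a⌉₊ with h | h
    · rw [Nat.sub_eq_zero_of_le h]
      push_cast
      linarith
    · rw [Nat.cast_sub h]
      rcases le_total 0 a with h0 | h0
      · have h3 := Nat.ceil_lt_add_one (by linarith : 0 ≤ a + L)
        have h4 := Nat.le_ceil a
        linarith
      · have h3 : ⌈a + L⌉₊ ≤ ⌈L⌉₊ := Nat.ceil_mono (by linarith)
        have h3' : ((⌈a + L⌉₊ : ℕ) : ℝ) ≤ ⌈L⌉₊ := by exact_mod_cast h3
        have h4 := Nat.ceil_lt_add_one (by linarith : 0 ≤ L)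
        have h5 : (0 : ℝ) ≤ (⌈a⌉₊ : ℝ) := Nat.cast_nonneg _
        linarith
  have h3 : ((((range W).filter fun j => ⌊(N : ℝ) * Int.fract (gp W t j)⌋₊ = i).card : ℕ) : ℝ) ≤
      ((⌈a + L⌉₊ - ⌈a⌉₊ : ℕ) : ℝ) + 1 := by exact_mod_cast h1
  linarith

open Classical in
theorem bad_part (f : ℕ → ℂ) (a b : ℕ → ℂ) (N D M W : ℕ) (H t n₀ : ℝ) (hN : 1 ≤ N) (hNW : N ≤ W) (ht : 0 ≤ t)
    (ht' : t ≤ 1 / W) (hH : 0 ≤ H) (hpars : EE W t (fun x => ‖F f N x‖ ^ 2) ≤ N) (C : Finset ℕ)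
    (hC : (C.card : ℝ) ≤ n₀) (Λ : ℝ → Prop) (hΛB : ∀ z, Λ z → ‖B a b D M z‖ ≤ 2 * H)
    (hΛC : ∀ z, Λ z → ⌊(N : ℝ) * Int.fract z⌋₊ ∈ C) :
    EE W t (fun z => ‖F f N z‖ * sel (Λ z) ‖B a b D M z‖) ≤ 4 * H * Real.sqrt n₀ := by
  have hW : 1 ≤ W := hN.trans hNW
  have hN0 : (0 : ℝ) < N := by exact_mod_cast hN
  have hW0 : (0 : ℝ) < W := by exact_mod_cast hW
  have hn₀ : 0 ≤ n₀ := (Nat.cast_nonneg _).trans hC
  set S := (range W).filter fun j => Λ (gp W t j) with hS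
  -- the number of bad points
  have hScard : (S.card : ℝ) ≤ n₀ * (3 * (W / N)) := by
    have h1 : S ⊆ C.biUnion fun i => (range W).filter fun j => ⌊(N : ℝ) * Int.fract (gp W t j)⌋₊ = i := by
      intro j hj
      rw [hS, mem_filter] at hj
      rw [mem_biUnion]
      exact ⟨_, hΛC _ hj.2, mem_filter.2 ⟨hj.1, rfl⟩⟩
    have h2 := (card_le_card h1).trans card_biUnion_le
    have h3 : (S.card : ℝ) ≤ ∑ i ∈ C, (((range W).filter fun j =>
        ⌊(N : ℝ) * Int.fract (gp W t j)⌋₊ = i).card : ℝ) := by exact_mod_cast h2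
    refine h3.trans ((Finset.sum_le_card_nsmul C _ _ fun i _ => badP_cell N W i t hN hNW ht ht').trans ?_)
    rw [nsmul_eq_mul]
    exact mul_le_mul_of_nonneg_right hC (by positivity)
  have hsum : ∑ j ∈ range W, ‖F f N (gp W t j)‖ ^ 2 ≤ N * W := by
    unfold EE at hpars
    rwa [div_le_iff₀ hW0] at hpars
  have hsumS : ∑ j ∈ S, ‖F f N (gp W t j)‖ ^ 2 ≤ N * W :=
    (Finset.sum_le_sum_of_subset_of_nonneg (filter_subset _ _) fun _ _ _ => by positivity).trans hsum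
  have hcs : (∑ j ∈ S, ‖F f N (gp W t j)‖) ^ 2 ≤ (3 * n₀) * W ^ 2 := by
    have h1 := sq_sum_le_card_mul_sum_sq (s := S) (f := fun j => ‖F f N (gp W t j)‖)
    refine h1.trans ?_
    have h2 : (S.card : ℝ) * ∑ j ∈ S, ‖F f N (gp W t j)‖ ^ 2 ≤ (n₀ * (3 * (W / N))) * (N * W) :=
      mul_le_mul hScard hsumS (Finset.sum_nonneg fun _ _ => by positivity) (by positivity)
    refine h2.trans (le_of_eq ?_)
    field_simp
  have hcs2 : ∑ j ∈ S, ‖F f N (gp W t j)‖ ≤ 2 * Real.sqrt n₀ * W := by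
    have h0 : 0 ≤ 2 * Real.sqrt n₀ * W := by positivity
    refine abs_le_of_sq_le_sq' ?_ h0 |>.2
    refine hcs.trans ?_
    rw [mul_pow, mul_pow, Real.sq_sqrt hn₀]
    nlinarith [mul_nonneg hn₀ (sq_nonneg (W : ℝ))]
  unfold EE
  rw [div_le_iff₀ hW0]
  have h1 : ∑ j ∈ range W, ‖F f N (gp W t j)‖ * sel (Λ (gp W t j)) ‖B a b D M (gp W t j)‖ ≤
      ∑ j ∈ S, ‖F f N (gp W t j)‖ * (2 * H) := by
    rw [hS, Finset.sum_filter]
    refine Finset.sum_le_sum fun j _ => ?_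
    split_ifs with h
    · rw [sel_pos h]
      exact mul_le_mul_of_nonneg_left (hΛB _ h) (norm_nonneg _)
    · rw [sel_neg h, mul_zero]
  refine h1.trans ?_
  rw [← Finset.sum_mul]
  calc (∑ j ∈ S, ‖F f N (gp W t j)‖) * (2 * H) ≤ (2 * Real.sqrt n₀ * W) * (2 * H) :=
        mul_le_mul_of_nonneg_right hcs2 (by positivity)
    _ = 4 * H * Real.sqrt n₀ * W := by ring

end Pool.Agent.Lib.MP_6cded1_nt.M3
end

section

/-!
# Near-coincident fractions: grid points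

For such `j` let `y = gp W t j ∈ [0, 1]`: `|v y - A| ≤ η v < 1/2`, so `0 ≤ A ≤ v`.  By `near_numerators` (`X = (η + η') v v'`) the set of possible `A` has `≤ 4 X` elements (take `S` = the finset of all
`A ∈ [0, v]` with the property of `near_numerators`) and each costs `≤ 3 η W` grid points (`grid_interval`).
-/

set_option autoImplicit false

open Finset

namespace Pool.Agent.Lib.MP_6cded1_nt.ML

open Classical in
theorem near_count (W v v' : ℕ) (hW : 1 ≤ W) (hv : 1 ≤ v) (hv' : 1 ≤ v') (η η' t : ℝ) (hη : 1 / (W : ℝ) ≤ η)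
    (hη' : 0 ≤ η') (hηv : η * v < 1 / 2) (ht : 0 ≤ t) (ht' : t ≤ 1 / W) :
    (((range W).filter fun j => ∃ A A' : ℤ, |gp W t j - A / v| ≤ η ∧ |gp W t j - A' / v'| ≤ η' ∧
      A * v' ≠ A' * v).card : ℝ) ≤ 12 * (η + η') * η * v * v' * W := by
  have hW0 : (0 : ℝ) < W := by exact_mod_cast hW
  have hv0 : (0 : ℝ) < v := by exact_mod_cast hv
  have hv0' : (0 : ℝ) < v' := by exact_mod_cast hv'
  have hη0 : 0 ≤ η := le_trans (by positivity) hη
  set X : ℝ := (η + η') * v * v' with hXdef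
  have hX : 0 ≤ X := by positivity
  set S : Finset ℤ := (Finset.Icc (0 : ℤ) (v : ℤ)).filter fun A =>
    ∃ A' : ℤ, A * v' ≠ A' * v ∧ |((A * v' - A' * v : ℤ) : ℝ)| ≤ X with hSdef
  have hScard : (S.card : ℝ) ≤ 4 * X := by
    refine near_numerators v v' hv hv' X hX S ?_
    intro A hA
    rw [hSdef, Finset.mem_filter, Finset.mem_Icc] at hA
    exact ⟨hA.1.1, hA.1.2, hA.2⟩
  have hsub : ((range W).filter fun j => ∃ A A' : ℤ, |gp W t j - A / v| ≤ η ∧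
      |gp W t j - A' / v'| ≤ η' ∧ A * v' ≠ A' * v) ⊆
      S.biUnion fun A => (range W).filter fun j => |gp W t j - (A : ℝ) / v| ≤ η := by
    intro j hj
    rw [Finset.mem_filter, Finset.mem_range] at hj
    obtain ⟨hjW, A, A', h1, h2, h3⟩ := hj
    have hy0 : 0 ≤ gp W t j := by
      unfold gp
      positivity
    have hjW' : (j : ℝ) + 1 ≤ W := by exact_mod_cast hjW
    have hy1 : gp W t j ≤ 1 := by
      unfold gp
      calc t + (j : ℝ) / W ≤ 1 / W + (j : ℝ) / W := by linarith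
        _ = ((j : ℝ) + 1) / W := by ring
        _ ≤ 1 := by
            rw [div_le_one hW0]
            exact hjW'
    have h1' := abs_le.mp h1
    have h2' := abs_le.mp h2
    have hA1 : (A : ℝ) / v ≤ gp W t j + η := by linarith [h1'.1]
    have hA2 : gp W t j - η ≤ (A : ℝ) / v := by linarith [h1'.2]
    rw [div_le_iff₀ hv0] at hA1
    rw [le_div_iff₀ hv0] at hA2
    have hA0 : 0 ≤ A := by
      by_contra hneg
      have : A ≤ -1 := by omega
      have h4 : (A : ℝ) ≤ -1 := by exact_mod_cast this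
      have h5 : 0 ≤ gp W t j * v := by positivity
      nlinarith
    have hAv : A ≤ v := by
      by_contra hneg
      have : (v : ℤ) + 1 ≤ A := by omega
      have h4 : (v : ℝ) + 1 ≤ A := by exact_mod_cast this
      have h5 : gp W t j * v ≤ 1 * v := by
        exact mul_le_mul_of_nonneg_right hy1 hv0.le
      nlinarith
    rw [Finset.mem_biUnion]
    refine ⟨A, ?_, ?_⟩
    · rw [hSdef, Finset.mem_filter, Finset.mem_Icc]
      refine ⟨⟨hA0, hAv⟩, A', h3, ?_⟩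
      have hd : |(A : ℝ) / v - (A' : ℝ) / v'| ≤ η + η' := by
        rw [abs_le]
        constructor
        · linarith [h1'.1, h1'.2, h2'.1, h2'.2]
        · linarith [h1'.1, h1'.2, h2'.1, h2'.2]
      have he : (((A * v' - A' * v : ℤ) : ℝ)) = ((A : ℝ) / v - (A' : ℝ) / v') * (v * v') := by
        push_cast
        field_simp
      rw [he, abs_mul, abs_of_pos (mul_pos hv0 hv0')]
      rw [hXdef, mul_assoc (η + η')]
      exact mul_le_mul_of_nonneg_right hd (mul_pos hv0 hv0').le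
    · rw [Finset.mem_filter, Finset.mem_range]
      exact ⟨hjW, h1⟩
  calc (((range W).filter fun j => ∃ A A' : ℤ, |gp W t j - A / v| ≤ η ∧ |gp W t j - A' / v'| ≤ η' ∧
      A * v' ≠ A' * v).card : ℝ)
      ≤ ((S.biUnion fun A => (range W).filter fun j => |gp W t j - (A : ℝ) / v| ≤ η).card : ℝ) := by
        exact_mod_cast Finset.card_le_card hsub
    _ ≤ ((∑ A ∈ S, ((range W).filter fun j => |gp W t j - (A : ℝ) / v| ≤ η).card : ℕ) : ℝ) := by
        exact_mod_cast Finset.card_biUnion_le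
    _ = ∑ A ∈ S, (((range W).filter fun j => |gp W t j - (A : ℝ) / v| ≤ η).card : ℝ) := by
        push_cast
        rfl
    _ ≤ ∑ _A ∈ S, 3 * η * W := by
        refine Finset.sum_le_sum ?_
        intro A _
        exact grid_interval W hW t ((A : ℝ) / v) η hη
    _ = S.card * (3 * η * W) := by
        rw [Finset.sum_const, nsmul_eq_mul]
    _ ≤ 4 * X * (3 * η * W) := by
        exact mul_le_mul_of_nonneg_right hScard (by positivity)
    _ = 12 * (η + η') * η * v * v' * W := by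
        rw [hXdef]
        ring

end Pool.Agent.Lib.MP_6cded1_nt.ML
end

section

/-!
# The large sieve inequality for the bilinear sum

Choose unimodular `ε i` with `ε i * B (z i) = ‖B (z i)‖` (`ε = 1` if `B = 0`).  Then
`∑ i ‖B (z i)‖ = ∑_m b_m X_m ≤ ∑_m ‖X_m‖`, `X_m = ∑_i ∑_d ε_i a_d e(d m z_i)`, so by Cauchy (`inner_mul_le_norm_mul_norm` or
`sq_sum_le_card_mul_sum_sq`) the square is `≤ M ∑_m ‖X_m‖²`, and
`∑_m ‖X_m‖² = ∑_{i,i'} ∑_{d,d'} ε_i conj ε_{i'} a_d conj a_{d'} ∑_m e(m (d z_i - d' z_{i'})) ≤ ∑_{i,i'} E (z_i, z_{i'})` by `norm_geom_le`.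
`norm_B_sq_le` is the case of one point.  `norm_B_le`: there are `3 D` values `d` and `M` values `m`.
-/

set_option autoImplicit false

open Finset

namespace Pool.Agent.Lib.MP_6cded1_nt.ML

/-- The bilinear expansion of the second moment of a linear form in exponentials. -/
private theorem sum_sq_le {κ : Type*} (T : Finset κ) (c : κ → ℂ) (hc : ∀ p, ‖c p‖ ≤ 1) (θ : κ → ℝ) (M : ℕ) :
    ∑ m ∈ Icc 1 M, ‖∑ p ∈ T, c p * e (m * θ p)‖ ^ 2 ≤ ∑ p ∈ T, ∑ p' ∈ T, cap M (2 * nd (θ p - θ p')) := by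
  have hid : ((∑ m ∈ Icc 1 M, ‖∑ p ∈ T, c p * e (m * θ p)‖ ^ 2 : ℝ) : ℂ) =
      ∑ p ∈ T, ∑ p' ∈ T, c p * (starRingEnd ℂ) (c p') * ∑ m ∈ Icc 1 M, e (m * (θ p - θ p')) := by
    push_cast
    have h1 : ∀ m ∈ Icc 1 M, ((‖∑ p ∈ T, c p * e (m * θ p)‖ : ℂ)) ^ 2 =
        ∑ p ∈ T, ∑ p' ∈ T, c p * (starRingEnd ℂ) (c p') * e (m * (θ p - θ p')) := by
      intro m _
      rw [← Complex.mul_conj', map_sum, Finset.sum_mul_sum]
      refine Finset.sum_congr rfl fun p _ => Finset.sum_congr rfl fun p' _ => ?_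
      rw [map_mul, mul_sub, e_sub]
      ring
    rw [Finset.sum_congr rfl h1, Finset.sum_comm]
    refine Finset.sum_congr rfl fun p _ => ?_
    rw [Finset.sum_comm]
    refine Finset.sum_congr rfl fun p' _ => ?_
    rw [Finset.mul_sum]
  have h0 : 0 ≤ ∑ m ∈ Icc 1 M, ‖∑ p ∈ T, c p * e (m * θ p)‖ ^ 2 := by positivity
  calc ∑ m ∈ Icc 1 M, ‖∑ p ∈ T, c p * e (m * θ p)‖ ^ 2
      = ‖((∑ m ∈ Icc 1 M, ‖∑ p ∈ T, c p * e (m * θ p)‖ ^ 2 : ℝ) : ℂ)‖ := by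
        rw [Complex.norm_real, Real.norm_of_nonneg h0]
    _ = ‖∑ p ∈ T, ∑ p' ∈ T, c p * (starRingEnd ℂ) (c p') * ∑ m ∈ Icc 1 M, e (m * (θ p - θ p'))‖ := by
        rw [hid]
    _ ≤ ∑ p ∈ T, ∑ p' ∈ T, cap M (2 * nd (θ p - θ p')) := by
        refine norm_sum_le_of_le _ fun p _ => norm_sum_le_of_le _ fun p' _ => ?_
        rw [norm_mul, norm_mul, RCLike.norm_conj]
        have h2 : ‖c p‖ * ‖c p'‖ ≤ 1 := mul_le_one₀ (hc p) (norm_nonneg _) (hc p')
        calc ‖c p‖ * ‖c p'‖ * ‖∑ m ∈ Icc 1 M, e (m * (θ p - θ p'))‖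
            ≤ 1 * ‖∑ m ∈ Icc 1 M, e (m * (θ p - θ p'))‖ :=
              mul_le_mul_of_nonneg_right h2 (norm_nonneg _)
          _ = ‖∑ m ∈ Icc 1 M, e (m * (θ p - θ p'))‖ := one_mul _
          _ ≤ cap M (2 * nd (θ p - θ p')) := norm_geom_le M _

theorem large_sieve (a b : ℕ → ℂ) (ha : ∀ d, ‖a d‖ ≤ 1) (hb : ∀ m, ‖b m‖ ≤ 1) (D M : ℕ) {ι : Type*} (S : Finset ι)
    (z : ι → ℝ) :
    (∑ i ∈ S, ‖B a b D M (z i)‖) ^ 2 ≤ M * ∑ i ∈ S, ∑ i' ∈ S, E D M (z i) (z i') := by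
  -- unimodular factors
  set ε : ι → ℂ := fun i => (starRingEnd ℂ) (B a b D M (z i)) / ‖B a b D M (z i)‖ with hε
  have hε1 : ∀ i, ‖ε i‖ ≤ 1 := by
    intro i
    simp only [hε]
    rw [norm_div, RCLike.norm_conj, Complex.norm_real, norm_norm]
    exact div_self_le_one _
  have hεB : ∀ i, ε i * B a b D M (z i) = ‖B a b D M (z i)‖ := by
    intro i
    simp only [hε]
    by_cases h0 : B a b D M (z i) = 0
    · rw [h0]
      simp
    · have h1 : ((‖B a b D M (z i)‖ : ℝ) : ℂ) ≠ 0 := by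
        rw [Complex.ofReal_ne_zero]
        exact norm_ne_zero_iff.2 h0
      rw [div_mul_eq_mul_div, div_eq_iff h1, Complex.conj_mul', sq]
  set T : Finset (ι × ℕ) := S ×ˢ Ioc D (4 * D) with hT
  set c : ι × ℕ → ℂ := fun p => ε p.1 * a p.2 with hc
  set θ : ι × ℕ → ℝ := fun p => p.2 * z p.1 with hθ
  have hc1 : ∀ p, ‖c p‖ ≤ 1 := by
    intro p
    simp only [hc]
    rw [norm_mul]
    exact mul_le_one₀ (hε1 p.1) (norm_nonneg _) (ha p.2)
  have hsum : ((∑ i ∈ S, ‖B a b D M (z i)‖ : ℝ) : ℂ) =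
      ∑ m ∈ Icc 1 M, b m * ∑ p ∈ T, c p * e (m * θ p) := by
    push_cast
    have h1 : ∀ i ∈ S, ((‖B a b D M (z i)‖ : ℝ) : ℂ) =
        ∑ m ∈ Icc 1 M, ∑ d ∈ Ioc D (4 * D), b m * (ε i * a d * e (m * (d * z i))) := by
      intro i _
      rw [← hεB i]
      unfold B
      rw [Finset.mul_sum, Finset.sum_comm' (t' := Ioc D (4 * D)) (s' := fun _ => Icc 1 M)
        (h := fun x y => by tauto)]
      refine Finset.sum_congr rfl fun d _ => ?_
      rw [Finset.mul_sum]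
      refine Finset.sum_congr rfl fun m _ => ?_
      have h2 : (d : ℝ) * m * z i = m * (d * z i) := by ring
      rw [h2]
      ring
    rw [Finset.sum_congr rfl h1, Finset.sum_comm]
    refine Finset.sum_congr rfl fun m _ => ?_
    rw [hT, Finset.sum_product, Finset.mul_sum]
    refine Finset.sum_congr rfl fun i _ => ?_
    rw [Finset.mul_sum]
  have h0 : 0 ≤ ∑ i ∈ S, ‖B a b D M (z i)‖ := Finset.sum_nonneg fun i _ => norm_nonneg _
  have h1 : ∑ i ∈ S, ‖B a b D M (z i)‖ ≤ ∑ m ∈ Icc 1 M, ‖∑ p ∈ T, c p * e (m * θ p)‖ := by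
    calc ∑ i ∈ S, ‖B a b D M (z i)‖ = ‖((∑ i ∈ S, ‖B a b D M (z i)‖ : ℝ) : ℂ)‖ := by
          rw [Complex.norm_real, Real.norm_of_nonneg h0]
      _ = ‖∑ m ∈ Icc 1 M, b m * ∑ p ∈ T, c p * e (m * θ p)‖ := by rw [hsum]
      _ ≤ ∑ m ∈ Icc 1 M, ‖∑ p ∈ T, c p * e (m * θ p)‖ := by
          refine norm_sum_le_of_le _ fun m _ => ?_
          rw [norm_mul]
          calc ‖b m‖ * ‖∑ p ∈ T, c p * e (m * θ p)‖ ≤ 1 * ‖∑ p ∈ T, c p * e (m * θ p)‖ :=
                mul_le_mul_of_nonneg_right (hb m) (norm_nonneg _)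
            _ = ‖∑ p ∈ T, c p * e (m * θ p)‖ := one_mul _
  calc (∑ i ∈ S, ‖B a b D M (z i)‖) ^ 2
      ≤ (∑ m ∈ Icc 1 M, ‖∑ p ∈ T, c p * e (m * θ p)‖) ^ 2 := pow_le_pow_left₀ h0 h1 2
    _ ≤ ((Icc 1 M).card : ℝ) * ∑ m ∈ Icc 1 M, ‖∑ p ∈ T, c p * e (m * θ p)‖ ^ 2 :=
        sq_sum_le_card_mul_sum_sq
    _ = M * ∑ m ∈ Icc 1 M, ‖∑ p ∈ T, c p * e (m * θ p)‖ ^ 2 := by
        rw [Nat.card_Icc, Nat.add_sub_cancel]
    _ ≤ M * ∑ p ∈ T, ∑ p' ∈ T, cap M (2 * nd (θ p - θ p')) := by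
        exact mul_le_mul_of_nonneg_left (sum_sq_le T c hc1 θ M) (Nat.cast_nonneg M)
    _ = M * ∑ i ∈ S, ∑ i' ∈ S, E D M (z i) (z i') := by
        congr 1
        rw [hT, Finset.sum_product]
        refine Finset.sum_congr rfl fun i _ => ?_
        have h3 : ∀ d ∈ Ioc D (4 * D), ∑ p' ∈ S ×ˢ Ioc D (4 * D), cap M (2 * nd (θ (i, d) - θ p')) =
            ∑ i' ∈ S, ∑ d' ∈ Ioc D (4 * D), cap M (2 * nd (d * z i - d' * z i')) := by
          intro d _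
          rw [Finset.sum_product]
        rw [Finset.sum_congr rfl h3, Finset.sum_comm]
        rfl

theorem norm_B_sq_le (a b : ℕ → ℂ) (ha : ∀ d, ‖a d‖ ≤ 1) (hb : ∀ m, ‖b m‖ ≤ 1) (D M : ℕ) (z : ℝ) :
    ‖B a b D M z‖ ^ 2 ≤ M * E D M z z := by
  have h := large_sieve a b ha hb D M ({()} : Finset Unit) (fun _ => z)
  simpa using h

theorem norm_B_le (a b : ℕ → ℂ) (ha : ∀ d, ‖a d‖ ≤ 1) (hb : ∀ m, ‖b m‖ ≤ 1) (D M : ℕ) (z : ℝ) :
    ‖B a b D M z‖ ≤ 3 * D * M := by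
  have h1 : ‖B a b D M z‖ ≤ ∑ _d ∈ Ioc D (4 * D), ∑ _m ∈ Icc 1 M, (1 : ℝ) := by
    refine norm_sum_le_of_le _ fun d _ => norm_sum_le_of_le _ fun m _ => ?_
    rw [norm_mul, norm_mul, norm_e, mul_one]
    exact mul_le_one₀ (ha d) (norm_nonneg _) (hb m)
  refine h1.trans (le_of_eq ?_)
  rw [Finset.sum_const, Finset.sum_const, Nat.card_Ioc, Nat.card_Icc, Nat.add_sub_cancel, nsmul_eq_mul,
    nsmul_eq_mul, mul_one]
  have : 4 * D - D = 3 * D := by omega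
  rw [this]
  push_cast
  ring

end Pool.Agent.Lib.MP_6cded1_nt.ML
end

section

/-!
# Multiplicity of a fraction

As in `ML/Star2.lean` (`same_prime`, `diff_prime`, `star_mult`), with `g` = denominator of the label instead of `qm`.  `¬ Df` means `a/g - b/p² = a'/g' - b'/p'²`.  If `p = p'`: `p² ∣ g g' (b - b')`, so `b = b'` and `s = s'`.  If `p ≠ p'`: `p ∣ g'`.
So in `T` (nonempty, fix `s₀`) all `s ≠ s₀` have different primes, each dividing `(lab l y s₀).1`; hence `card T ≤ 1 + #{p ∈ PP P : p ∣ (lab l y s₀).1} ≤ C₂`.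
`df_class`: for fixed `s` the elements `s'` with `¬ Df s s'` are pairwise not `Df` (all `fv ≠ 0`).
-/

set_option autoImplicit false

open Finset Pool.Agent.Lib.MP_6cded1_nt.ML

namespace Pool.Agent.Lib.MP_6cded1_nt.M3

/-- Same prime: the two residues agree. -/
private theorem same_prime (p : ℕ) (hp : p.Prime) (q q' b b' : ℕ) (a a' : ℤ) (hq : ¬ p ∣ q) (hq' : ¬ p ∣ q')
    (hb : b < p ^ 2) (hb' : b' < p ^ 2)
    (h : ((p : ℤ) ^ 2 * a - (q : ℤ) * b) * ((q' * p ^ 2 : ℕ) : ℤ) =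
      ((p : ℤ) ^ 2 * a' - (q' : ℤ) * b') * ((q * p ^ 2 : ℕ) : ℤ)) : b = b' := by
  have hp0 : ((p : ℤ) ^ 2) ≠ 0 := by
    have := hp.pos
    positivity
  have h1 : ((q : ℤ) * q') * ((b : ℤ) - b') = (p : ℤ) ^ 2 * (a * q' - a' * q) := by
    apply mul_left_cancel₀ hp0
    push_cast at h
    linear_combination (-1) * h
  have hc : IsCoprime ((p : ℤ) ^ 2) ((q : ℤ) * q') := by
    apply IsCoprime.pow_left
    apply IsCoprime.mul_right
    · exact Nat.isCoprime_iff_coprime.2 ((Nat.Prime.coprime_iff_not_dvd hp).2 hq)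
    · exact Nat.isCoprime_iff_coprime.2 ((Nat.Prime.coprime_iff_not_dvd hp).2 hq')
  have h2 : (p : ℤ) ^ 2 ∣ (b : ℤ) - b' := hc.dvd_of_dvd_mul_left (Dvd.intro _ h1.symm)
  have h3 : (b : ℤ) - b' = 0 := by
    apply Int.eq_zero_of_abs_lt_dvd h2
    have hbz : (b : ℤ) < (p : ℤ) ^ 2 := by exact_mod_cast hb
    have hbz' : (b' : ℤ) < (p : ℤ) ^ 2 := by exact_mod_cast hb'
    rw [abs_lt]
    constructor <;> omega
  omega

/-- Different primes: `p` divides the other denominator. -/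
private theorem diff_prime (p p' : ℕ) (hp : p.Prime) (hp' : p'.Prime) (hne : p ≠ p') (q q' b b' : ℕ) (a a' : ℤ)
    (hq : ¬ p ∣ q) (hb0 : 0 < b) (hb : b < p ^ 2)
    (h : ((p : ℤ) ^ 2 * a - (q : ℤ) * b) * ((q' * p' ^ 2 : ℕ) : ℤ) =
      ((p' : ℤ) ^ 2 * a' - (q' : ℤ) * b') * ((q * p ^ 2 : ℕ) : ℤ)) : p ∣ q' := by
  by_contra hq'
  have h1 : (p : ℤ) ^ 2 ∣ ((q : ℤ) * q' * (p' : ℤ) ^ 2) * b := by
    refine ⟨a * q' * p' ^ 2 - ((p' : ℤ) ^ 2 * a' - (q' : ℤ) * b') * q, ?_⟩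
    push_cast at h
    linear_combination (-1) * h
  have hc : IsCoprime ((p : ℤ) ^ 2) ((q : ℤ) * q' * (p' : ℤ) ^ 2) := by
    apply IsCoprime.pow_left
    apply IsCoprime.mul_right
    · apply IsCoprime.mul_right
      · exact Nat.isCoprime_iff_coprime.2 ((Nat.Prime.coprime_iff_not_dvd hp).2 hq)
      · exact Nat.isCoprime_iff_coprime.2 ((Nat.Prime.coprime_iff_not_dvd hp).2 hq')
    · apply IsCoprime.pow_right
      exact Nat.isCoprime_iff_coprime.2 ((Nat.coprime_primes hp hp').2 hne)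
  have h2 : (p : ℤ) ^ 2 ∣ (b : ℤ) := hc.dvd_of_dvd_mul_left h1
  have h3 : p ^ 2 ∣ b := by exact_mod_cast h2
  have h4 := Nat.le_of_dvd hb0 h3
  omega

theorem sts_mult (N P : ℕ) (S : Finset (ℕ × ℕ)) (Λ : ℝ → Prop) (l : ℝ → ℕ × ℕ) (hl : Lbl N S Λ l) (y : ℝ) (C₂ : ℕ)
    (hC₂ : ∀ s ∈ S, ((PP P).filter fun p => p ∣ s.1).card + 1 ≤ C₂) (T : Finset (Σ _ : ℕ, ℕ))
    (hT : T ⊆ sts P Λ l y) (hTd : ∀ s ∈ T, ∀ s' ∈ T, ¬ Df l y s s') : T.card ≤ C₂ := by
  classical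
  rcases T.eq_empty_or_nonempty with h0 | ⟨s₀, hs₀⟩
  · rw [h0]
    simp
  have hinj : ∀ s ∈ T, ∀ s' ∈ T, s.1 = s'.1 → s = s' := by
    intro s hs s' hs' hss
    obtain ⟨p, b⟩ := s
    obtain ⟨p', b'⟩ := s'
    simp only at hss
    subst hss
    obtain ⟨h1, -, -, -, h5, -, -, h8, -⟩ := sts_basic N P S Λ l hl y _ (hT hs)
    obtain ⟨-, -, -, -, h5', -, -, h8', -⟩ := sts_basic N P S Λ l hl y _ (hT hs')
    have hd := hTd _ hs _ hs'
    unfold Df at hd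
    rw [not_not] at hd
    unfold fA fv at hd
    have := same_prime p h1 _ _ b b' _ _ h8 h8' h5 h5' hd
    rw [this]
  have hdvd : ∀ s ∈ T, s ≠ s₀ → s.1 ∣ (lab l y s₀).1 := by
    intro s hs hne
    obtain ⟨h1, -, -, h4, h5, -, -, h8, -⟩ := sts_basic N P S Λ l hl y _ (hT hs)
    obtain ⟨h1', -, -, -, -, -, -, -, -⟩ := sts_basic N P S Λ l hl y _ (hT hs₀)
    have hd := hTd _ hs _ hs₀
    unfold Df at hd
    rw [not_not] at hd
    unfold fA fv at hd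
    exact diff_prime s.1 s₀.1 h1 h1' (fun h => hne (hinj s hs s₀ hs₀ h)) _ _ s.2 s₀.2 _ _ h8 h4 h5 hd
  obtain ⟨-, -, -, -, -, g6, -, -, -⟩ := sts_basic N P S Λ l hl y _ (hT hs₀)
  have hcard : (T.erase s₀).card ≤ ((PP P).filter fun p => p ∣ (lab l y s₀).1).card := by
    apply Finset.card_le_card_of_injOn (fun s => s.1)
    · intro s hs
      have hs1 : s ∈ T := Finset.mem_of_mem_erase hs
      have hs2 : s ≠ s₀ := Finset.ne_of_mem_erase hs
      obtain ⟨h1, h2, h3, -⟩ := sts_basic N P S Λ l hl y _ (hT hs1)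
      simp only [Finset.coe_filter, Set.mem_ofPred_eq, PP, Finset.mem_filter, Finset.mem_Ioc]
      exact ⟨⟨⟨h2, h3⟩, h1⟩, hdvd s hs1 hs2⟩
    · intro s hs s' hs' hss
      exact hinj s (Finset.mem_of_mem_erase hs) s' (Finset.mem_of_mem_erase hs') hss
  have := hC₂ _ g6
  have h2 := Finset.card_erase_add_one hs₀
  omega

open Classical in
theorem df_class (N P : ℕ) (S : Finset (ℕ × ℕ)) (Λ : ℝ → Prop) (l : ℝ → ℕ × ℕ) (hl : Lbl N S Λ l) (y : ℝ) (C₂ : ℕ)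
    (hC₂ : ∀ s ∈ S, ((PP P).filter fun p => p ∣ s.1).card + 1 ≤ C₂) (s : Σ _ : ℕ, ℕ) (hs : s ∈ sts P Λ l y) :
    ((sts P Λ l y).filter fun s' => ¬ Df l y s s').card ≤ C₂ := by
  refine sts_mult N P S Λ l hl y C₂ hC₂ _ (Finset.filter_subset _ _) ?_
  intro s₁ h₁ s₂ h₂
  rw [Finset.mem_filter] at h₁ h₂
  have e₁ := h₁.2
  have e₂ := h₂.2
  unfold Df at e₁ e₂ ⊢
  rw [not_not] at e₁ e₂ ⊢
  obtain ⟨h1, -, -, -, -, -, h7, -⟩ := sts_basic N P S Λ l hl y _ hs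
  have hv : (fv l y s : ℤ) ≠ 0 := by
    unfold fv
    have h3 := h1.pos
    have : 0 < (lab l y s).1 * s.1 ^ 2 := by positivity
    exact_mod_cast this.ne'
  apply mul_left_cancel₀ hv
  linear_combination (fv l y s₁ : ℤ) * e₂ - (fv l y s₂ : ℤ) * e₁

end Pool.Agent.Lib.MP_6cded1_nt.M3
end

section

/-!
# The sum over the grid of the number of pairs

As `ML/PairSum.lean` (`pairs_one_aux`, `pairs_one`, `pairs_sum`).  For every `j` the map `(s, s') ↦ ((s.1, lab s), (s'.1, lab s'))` into `(PP P × S)²` is injective (`sts_inj`), and `y = gp W t j` is in the set of `near_count` with `v = g p²`, `v' = g' p'²`,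
`η = 2 * 2^j / N`, `η' = 2 * 2^j' / N` (`sts_basic`); by symmetry let `η ≤ η'`: `12 (η + η') η v v' W ≤ 24 η η' v v' W = 96 κ κ' p² p'² W / N² ≤ 24576 κ κ' P⁴ W / N²`.  (`η ≥ 1/N ≥ 1/W`, `η v = 2 κ p²/N ≤ 32 κ P²/N < 1/2`.)
Sum over `(PP P × S)²`.
-/

set_option autoImplicit false

open Finset Pool.Agent.Lib.MP_6cded1_nt.ML

namespace Pool.Agent.Lib.MP_6cded1_nt.M3

open Classical in
private lemma pairs3_aux (N W : ℕ) (hN : 1 ≤ N) (hNW : N ≤ W) (t : ℝ)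
    (P p p' : ℕ) (s s' : ℕ × ℕ) (hs1 : 1 ≤ s.1) (hs1' : 1 ≤ s'.1)
    (hp : 1 ≤ p) (hp' : 1 ≤ p') (hp4 : p ≤ 4 * P) (hp4' : p' ≤ 4 * P)
    (hk : 64 * kap s * P ^ 2 < N) (ht : 0 ≤ t) (ht' : t ≤ 1 / W) (hle : s.2 ≤ s'.2) :
    (((range W).filter fun j => ∃ A A' : ℤ,
      |gp W t j - A / ((s.1 * p ^ 2 : ℕ) : ℝ)| ≤ 2 * 2 ^ s.2 / N ∧
      |gp W t j - A' / ((s'.1 * p' ^ 2 : ℕ) : ℝ)| ≤ 2 * 2 ^ s'.2 / N ∧
      A * ((s'.1 * p' ^ 2 : ℕ) : ℤ) ≠ A' * ((s.1 * p ^ 2 : ℕ) : ℤ)).card : ℝ) ≤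
      24576 * P ^ 4 * (kap s * kap s') / N ^ 2 * W := by
  have hNr : (0 : ℝ) < N := by exact_mod_cast hN
  have hWr : (0 : ℝ) < W := by exact_mod_cast (lt_of_lt_of_le hN hNW)
  have hqr : (0 : ℝ) < s.1 := by exact_mod_cast hs1
  have hqr' : (0 : ℝ) < s'.1 := by exact_mod_cast hs1'
  have hpr : (0 : ℝ) < p := by exact_mod_cast hp
  have hpr' : (0 : ℝ) < p' := by exact_mod_cast hp'
  have hNWr : (N : ℝ) ≤ W := by exact_mod_cast hNW
  have hp4r : (p : ℝ) ≤ 4 * P := by exact_mod_cast hp4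
  have hp4r' : (p' : ℝ) ≤ 4 * P := by exact_mod_cast hp4'
  have hP0 : (0 : ℝ) ≤ P := Nat.cast_nonneg P
  have hk0 : 0 ≤ kap s := kap_nonneg s
  have hk0' : 0 ≤ kap s' := kap_nonneg s'
  have h2s : (1 : ℝ) ≤ 2 ^ s.2 := one_le_pow₀ (by norm_num)
  have hη : 1 / (W : ℝ) ≤ 2 * 2 ^ s.2 / N := by
    rw [div_le_div_iff₀ hWr hNr]
    nlinarith
  have hη' : (0 : ℝ) ≤ 2 * 2 ^ s'.2 / N := by positivity
  have hηv : 2 * 2 ^ s.2 / (N : ℝ) * ((s.1 * p ^ 2 : ℕ) : ℝ) < 1 / 2 := by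
    have h1 : 2 * 2 ^ s.2 / (N : ℝ) * ((s.1 * p ^ 2 : ℕ) : ℝ) = 2 * kap s * p ^ 2 / N := by
      unfold kap
      push_cast
      field_simp
    rw [h1, div_lt_div_iff₀ hNr (by norm_num)]
    have h2 : (p : ℝ) ^ 2 ≤ (4 * P) ^ 2 := pow_le_pow_left₀ hpr.le hp4r 2
    have h3 : kap s * (p : ℝ) ^ 2 ≤ kap s * (4 * P) ^ 2 := mul_le_mul_of_nonneg_left h2 hk0
    nlinarith
  have hmain := near_count W (s.1 * p ^ 2) (s'.1 * p' ^ 2) (lt_of_lt_of_le hN hNW)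
    (Nat.mul_pos hs1 (pow_pos hp 2)) (Nat.mul_pos hs1' (pow_pos hp' 2)) (2 * 2 ^ s.2 / N)
    (2 * 2 ^ s'.2 / N) t hη hη' hηv ht ht'
  refine hmain.trans ?_
  refine mul_le_mul_of_nonneg_right ?_ hWr.le
  have hle2 : (2 : ℝ) * 2 ^ s.2 / N ≤ 2 * 2 ^ s'.2 / N := by
    apply div_le_div_of_nonneg_right _ hNr.le
    exact mul_le_mul_of_nonneg_left (pow_le_pow_right₀ (by norm_num) hle) (by norm_num)
  have h0 : (0 : ℝ) ≤ 2 * 2 ^ s.2 / N := by positivity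
  have hv0 : (0 : ℝ) ≤ ((s.1 * p ^ 2 : ℕ) : ℝ) := Nat.cast_nonneg _
  have hv0' : (0 : ℝ) ≤ ((s'.1 * p' ^ 2 : ℕ) : ℝ) := Nat.cast_nonneg _
  calc 12 * (2 * 2 ^ s.2 / (N : ℝ) + 2 * 2 ^ s'.2 / N) * (2 * 2 ^ s.2 / N)
        * ((s.1 * p ^ 2 : ℕ) : ℝ) * ((s'.1 * p' ^ 2 : ℕ) : ℝ)
      ≤ 12 * (2 * 2 ^ s'.2 / (N : ℝ) + 2 * 2 ^ s'.2 / N) * (2 * 2 ^ s.2 / N)
        * ((s.1 * p ^ 2 : ℕ) : ℝ) * ((s'.1 * p' ^ 2 : ℕ) : ℝ) := by gcongr
    _ = 96 * (p ^ 2 * p' ^ 2) * (kap s * kap s') / N ^ 2 := by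
        unfold kap
        push_cast
        field_simp
        ring
    _ ≤ 96 * ((4 * P) ^ 2 * (4 * P) ^ 2) * (kap s * kap s') / N ^ 2 := by gcongr
    _ = 24576 * P ^ 4 * (kap s * kap s') / N ^ 2 := by ring

open Classical in
private lemma pairs3_one (N W : ℕ) (hN : 1 ≤ N) (hNW : N ≤ W) (t : ℝ)
    (P p p' : ℕ) (s s' : ℕ × ℕ) (hs1 : 1 ≤ s.1) (hs1' : 1 ≤ s'.1)
    (hp : 1 ≤ p) (hp' : 1 ≤ p') (hp4 : p ≤ 4 * P) (hp4' : p' ≤ 4 * P)
    (hk : 64 * kap s * P ^ 2 < N) (hk' : 64 * kap s' * P ^ 2 < N) (ht : 0 ≤ t) (ht' : t ≤ 1 / W) :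
    (((range W).filter fun j => ∃ A A' : ℤ,
      |gp W t j - A / ((s.1 * p ^ 2 : ℕ) : ℝ)| ≤ 2 * 2 ^ s.2 / N ∧
      |gp W t j - A' / ((s'.1 * p' ^ 2 : ℕ) : ℝ)| ≤ 2 * 2 ^ s'.2 / N ∧
      A * ((s'.1 * p' ^ 2 : ℕ) : ℤ) ≠ A' * ((s.1 * p ^ 2 : ℕ) : ℤ)).card : ℝ) ≤
      24576 * P ^ 4 * (kap s * kap s') / N ^ 2 * W := by
  rcases le_total s.2 s'.2 with h | h
  · exact pairs3_aux N W hN hNW t P p p' s s' hs1 hs1' hp hp' hp4 hp4' hk ht ht' h
  · have h1 := pairs3_aux N W hN hNW t P p' p s' s hs1' hs1 hp' hp hp4' hp4 hk' ht ht' h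
    rw [mul_comm (kap s') (kap s)] at h1
    refine le_trans ?_ h1
    refine Nat.cast_le.2 (card_le_card ?_)
    intro j hj
    rw [mem_filter] at hj ⊢
    refine ⟨hj.1, ?_⟩
    obtain ⟨A, A', ha, hb, hc⟩ := hj.2
    exact ⟨A', A, hb, ha, fun h => hc h.symm⟩

private lemma sum_I (C : ℝ) (X : Finset ℕ) (S : Finset (ℕ × ℕ)) (w : ℕ × ℕ → ℝ) :
    (∑ i ∈ (X ×ˢ S) ×ˢ (X ×ˢ S), C * (w i.1.2 * w i.2.2)) = C * ((X.card : ℝ) * ∑ s ∈ S, w s) ^ 2 := by
  rw [← mul_sum, sum_product]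
  have h1 : ∀ c : ℝ, (∑ i ∈ X ×ˢ S, c * w i.2) = c * ((X.card : ℝ) * ∑ s ∈ S, w s) := by
    intro c
    rw [← mul_sum, sum_product]
    simp
  congr 1
  calc (∑ x ∈ X ×ˢ S, ∑ y ∈ X ×ˢ S, w x.2 * w y.2)
      = ∑ x ∈ X ×ˢ S, w x.2 * ((X.card : ℝ) * ∑ s ∈ S, w s) := sum_congr rfl fun x _ => h1 _
    _ = ∑ x ∈ X ×ˢ S, ((X.card : ℝ) * ∑ s ∈ S, w s) * w x.2 :=
        sum_congr rfl fun x _ => mul_comm _ _
    _ = ((X.card : ℝ) * ∑ s ∈ S, w s) ^ 2 := by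
        rw [h1, sq]

open Classical in
theorem pairs_sum3 (N P W : ℕ) (hN : 1 ≤ N) (hNW : N ≤ W) (S : Finset (ℕ × ℕ)) (Λ : ℝ → Prop) (l : ℝ → ℕ × ℕ)
    (hl : Lbl N S Λ l) (hsm : ∀ s ∈ S, 64 * kap s * P ^ 2 < N) (t : ℝ) (ht : 0 ≤ t) (ht' : t ≤ 1 / W) :
    (∑ j ∈ range W, (((sts P Λ l (gp W t j) ×ˢ sts P Λ l (gp W t j)).filter fun x =>
      Df l (gp W t j) x.1 x.2).card : ℝ)) ≤
      24576 * P ^ 4 * ((PP P).card : ℝ) ^ 2 * (∑ s ∈ S, kap s) ^ 2 / N ^ 2 * W := by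
  have hNr : (0 : ℝ) < N := by exact_mod_cast hN
  let T : ℕ → Finset ((Σ _ : ℕ, ℕ) × (Σ _ : ℕ, ℕ)) := fun j =>
    (sts P Λ l (gp W t j) ×ˢ sts P Λ l (gp W t j)).filter fun x => Df l (gp W t j) x.1 x.2
  let m : ℕ → (Σ _ : ℕ, ℕ) × (Σ _ : ℕ, ℕ) → (ℕ × (ℕ × ℕ)) × (ℕ × (ℕ × ℕ)) := fun j x =>
    ((x.1.1, lab l (gp W t j) x.1), (x.2.1, lab l (gp W t j) x.2))
  let I : Finset ((ℕ × (ℕ × ℕ)) × (ℕ × (ℕ × ℕ))) := (PP P ×ˢ S) ×ˢ (PP P ×ˢ S)
  have hPP : ∀ y, ∀ s ∈ sts P Λ l y, s.1 ∈ PP P := by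
    intro y s hs
    obtain ⟨h1, h2, h3, _⟩ := sts_basic N P S Λ l hl y s hs
    unfold PP
    rw [mem_filter, mem_Ioc]
    exact ⟨⟨h2, h3⟩, h1⟩
  have hS : ∀ y, ∀ s ∈ sts P Λ l y, lab l y s ∈ S := by
    intro y s hs
    obtain ⟨_, _, _, _, _, h6, _⟩ := sts_basic N P S Λ l hl y s hs
    exact h6
  have hinj : ∀ j, Set.InjOn (m j) (T j : Set ((Σ _ : ℕ, ℕ) × (Σ _ : ℕ, ℕ))) := by
    intro j x hx x' hx' hxx
    have hx1 := mem_product.1 (mem_filter.1 (mem_coe.1 hx)).1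
    have hx2 := mem_product.1 (mem_filter.1 (mem_coe.1 hx')).1
    have e1 := congrArg (fun z : (ℕ × (ℕ × ℕ)) × (ℕ × (ℕ × ℕ)) => z.1.1) hxx
    have e2 := congrArg (fun z : (ℕ × (ℕ × ℕ)) × (ℕ × (ℕ × ℕ)) => z.1.2) hxx
    have e3 := congrArg (fun z : (ℕ × (ℕ × ℕ)) × (ℕ × (ℕ × ℕ)) => z.2.1) hxx
    have e4 := congrArg (fun z : (ℕ × (ℕ × ℕ)) × (ℕ × (ℕ × ℕ)) => z.2.2) hxx
    apply Prod.ext
    · exact sts_inj N P hN S Λ l hl hsm _ _ _ hx1.1 hx2.1 e1 e2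
    · exact sts_inj N P hN S Λ l hl hsm _ _ _ hx1.2 hx2.2 e3 e4
  have hmaps : ∀ j, (T j).image (m j) ⊆ I := by
    intro j i hi
    obtain ⟨x, hx, rfl⟩ := mem_image.1 hi
    have hx1 := mem_product.1 (mem_filter.1 hx).1
    exact mem_product.2 ⟨mem_product.2 ⟨hPP _ _ hx1.1, hS _ _ hx1.1⟩,
      mem_product.2 ⟨hPP _ _ hx1.2, hS _ _ hx1.2⟩⟩
  have hcard : ∀ j, ((T j).card : ℝ) = ∑ i ∈ I, if i ∈ (T j).image (m j) then (1 : ℝ) else 0 := by
    intro j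
    rw [← card_image_of_injOn (hinj j), sum_ite_mem, inter_eq_right.2 (hmaps j)]
    simp
  have hone : ∀ i ∈ I, (∑ j ∈ range W, if i ∈ (T j).image (m j) then (1 : ℝ) else 0) ≤
      24576 * P ^ 4 / N ^ 2 * W * (kap i.1.2 * kap i.2.2) := by
    intro i hi
    by_cases hex : ∃ j ∈ range W, i ∈ (T j).image (m j)
    · obtain ⟨j0, _, hj0⟩ := hex
      obtain ⟨x, hx, hxi⟩ := mem_image.1 hj0
      have hx1 := mem_product.1 (mem_filter.1 hx).1
      obtain ⟨a1, a2, a3, _, _, a6, a7, _⟩ := sts_basic N P S Λ l hl _ _ hx1.1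
      obtain ⟨b1, b2, b3, _, _, b6, b7, _⟩ := sts_basic N P S Λ l hl _ _ hx1.2
      subst hxi
      have h1 := pairs3_one N W hN hNW t P x.1.1 x.2.1 (lab l (gp W t j0) x.1)
        (lab l (gp W t j0) x.2) a7 b7 a1.pos b1.pos a3 b3 (hsm _ a6) (hsm _ b6) ht ht'
      have h2 : 24576 * (P : ℝ) ^ 4 * (kap (lab l (gp W t j0) x.1) * kap (lab l (gp W t j0) x.2)) /
          N ^ 2 * W = 24576 * P ^ 4 / N ^ 2 * W *
          (kap (m j0 x).1.2 * kap (m j0 x).2.2) := by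
        simp only [m]
        ring
      rw [h2] at h1
      refine le_trans ?_ h1
      rw [← sum_filter, sum_const, nsmul_eq_mul, mul_one]
      refine Nat.cast_le.2 (card_le_card ?_)
      intro j hj
      rw [mem_filter] at hj ⊢
      refine ⟨hj.1, ?_⟩
      obtain ⟨x', hx', hxx⟩ := mem_image.1 hj.2
      have hx2 := mem_product.1 (mem_filter.1 hx').1
      have hD := (mem_filter.1 hx').2
      have e1 : x'.1.1 = x.1.1 :=
        congrArg (fun z : (ℕ × (ℕ × ℕ)) × (ℕ × (ℕ × ℕ)) => z.1.1) hxx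
      have e2 : lab l (gp W t j) x'.1 = lab l (gp W t j0) x.1 :=
        congrArg (fun z : (ℕ × (ℕ × ℕ)) × (ℕ × (ℕ × ℕ)) => z.1.2) hxx
      have e3 : x'.2.1 = x.2.1 :=
        congrArg (fun z : (ℕ × (ℕ × ℕ)) × (ℕ × (ℕ × ℕ)) => z.2.1) hxx
      have e4 : lab l (gp W t j) x'.2 = lab l (gp W t j0) x.2 :=
        congrArg (fun z : (ℕ × (ℕ × ℕ)) × (ℕ × (ℕ × ℕ)) => z.2.2) hxx
      obtain ⟨_, _, _, _, _, _, _, _, _, _, c12⟩ := sts_basic N P S Λ l hl _ _ hx2.1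
      obtain ⟨_, _, _, _, _, _, _, _, _, _, d12⟩ := sts_basic N P S Λ l hl _ _ hx2.2
      refine ⟨fA l (gp W t j) x'.1, fA l (gp W t j) x'.2, ?_, ?_, ?_⟩
      · rw [← e2, ← e1]
        exact c12
      · rw [← e4, ← e3]
        exact d12
      · rw [← e1, ← e2, ← e3, ← e4]
        exact hD
    · push Not at hex
      rw [sum_eq_zero]
      · have := kap_nonneg i.1.2
        have := kap_nonneg i.2.2
        positivity
      · intro j hj
        rw [if_neg (hex j hj)]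
  calc (∑ j ∈ range W, ((T j).card : ℝ))
      = ∑ j ∈ range W, ∑ i ∈ I, (if i ∈ (T j).image (m j) then (1 : ℝ) else 0) :=
        sum_congr rfl fun j _ => hcard j
    _ = ∑ i ∈ I, ∑ j ∈ range W, (if i ∈ (T j).image (m j) then (1 : ℝ) else 0) := sum_comm
    _ ≤ ∑ i ∈ I, 24576 * P ^ 4 / N ^ 2 * W * (kap i.1.2 * kap i.2.2) := sum_le_sum hone
    _ = 24576 * P ^ 4 * ((PP P).card : ℝ) ^ 2 * (∑ s ∈ S, kap s) ^ 2 / N ^ 2 * W := by
        simp only [I]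
        rw [sum_I]
        ring

end Pool.Agent.Lib.MP_6cded1_nt.M3
end

section

/-!
# Numerical inequalities: the dense cluster

`n₀ = N^{2-2u}/H²`.  The right side is `N^{-2u} / (81 N^{u/4} J²)`, the left side is `6 J (1 + 32 M²/N) N^{(1 - 2u)/2} / H`, and `H ≥ τ = N^{5/7+4u}`, `M² / N ≤ N^{1/7-14u} / 4`, so `1 + 32 M²/N ≤ 9 N^{1/7-14u}` (`1/7 - 14u > 0`); `J ≤ 2 (1 + log N)`.
Exponent of `left * 81 N^{u/4} J² N^{2u}` (without logs): `1/7 - 14u + 1/2 - u - 5/7 - 4u + u/4 + 2u = -1/14 - 16.75 u < 0`.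
-/

set_option autoImplicit false

open Finset Pool.Agent.Lib.MP_6cded1_nt.ML

namespace Pool.Agent.Lib.MP_6cded1_nt.M3

private theorem nde_JJ {N : ℕ} (hN : 1 ≤ N) : (JJ N : ℝ) ≤ 2 * (1 + Real.log N) := by
  have hx1 : (1 : ℝ) ≤ N := by exact_mod_cast hN
  have hl : 0 ≤ Real.log N := Real.log_nonneg hx1
  have h1 : (Nat.log 2 N : ℝ) ≤ Real.logb 2 N := by
    have := Real.natLog_le_logb N 2
    exact_mod_cast this
  have h2 : Real.logb 2 N ≤ 2 * Real.log N := by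
    unfold Real.logb
    have h3 : (1 : ℝ) / 2 ≤ Real.log 2 := by
      have := Real.log_two_gt_d9
      linarith
    rw [div_le_iff₀ (by linarith)]
    nlinarith
  unfold JJ
  push_cast
  linarith

theorem num_dense (u : ℝ) (hu : 0 < u) (hu1 : u ≤ 1 / 1000) : ∃ N₀ : ℕ, ∀ N : ℕ, N₀ ≤ N → ∀ H : ℝ, tu u N ≤ H →
    6 * TT N (Mu u N) * Real.sqrt (nu u N H / N) < nu u N H * H ^ 2 / (81 * N ^ 2 * du u N * JJ N ^ 2) := by
  obtain ⟨N₁, h1⟩ := pow_log_le (2 * (486 * 8 * 9)) 3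
    ((1 : ℝ) / 7 - 14 * u + (1 / 2 - u) + 2 * u + u / 4) ((5 : ℝ) / 7 + 4 * u) (by linarith)
  obtain ⟨N₂, h2⟩ := num_basic3 u hu hu1
  refine ⟨max (max N₁ N₂) 1, fun N hN H hH => ?_⟩
  have hN1 : N₁ ≤ N := (le_max_left _ _).trans ((le_max_left _ _).trans hN)
  have hN2 : N₂ ≤ N := (le_max_right _ _).trans ((le_max_left _ _).trans hN)
  have hN3 : 1 ≤ N := (le_max_right _ _).trans hN
  obtain ⟨-, -, -, -, -, -, hM, ht1, -, -, hd1⟩ := h2 N hN2
  have h3 := h1 N hN1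
  have hJ := nde_JJ hN3
  have hx1 : (1 : ℝ) ≤ N := by exact_mod_cast hN3
  have hx : (0 : ℝ) < N := by linarith
  have ht : 0 < tu u N := by linarith
  have hH0 : 0 < H := lt_of_lt_of_le ht hH
  have hd0 : 0 < du u N := by linarith
  have hJ1 : (1 : ℝ) ≤ JJ N := by
    unfold JJ
    push_cast
    have : (0 : ℝ) ≤ (Nat.log 2 N : ℝ) := Nat.cast_nonneg _
    linarith
  have hJ0 : (0 : ℝ) < JJ N := by linarith
  have htt : TT N (Mu u N) = (JJ N : ℝ) * (1 + 32 * (Mu u N : ℝ) ^ 2 / N) := rfl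
  rw [htt]
  have hdv : du u N = (N : ℝ) ^ (u / 4) := rfl
  have hMp : 0 ≤ (Mu u N : ℝ) := Nat.cast_nonneg _
  have htv : tu u N = (N : ℝ) ^ ((5 : ℝ) / 7 + 4 * u) := rfl
  set x : ℝ := (N : ℝ) with hxdef
  set d : ℝ := du u N with hd
  set J : ℝ := (JJ N : ℝ) with hJdef
  set M : ℝ := (Mu u N : ℝ) with hMdef
  have hnu : nu u N H = x ^ 2 * x ^ (-(2 * u)) / H ^ 2 := by
    unfold nu
    have : x ^ (2 - 2 * u) = x ^ 2 * x ^ (-(2 * u)) := by
      rw [← Real.rpow_two, ← Real.rpow_add hx]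
      congr 1
    rw [← hxdef, this]
  have hneg : 0 < x ^ (-(2 * u)) := Real.rpow_pos_of_pos hx _
  have hinv : x ^ (-(2 * u)) * x ^ (2 * u) = 1 := by
    rw [← Real.rpow_add hx]
    simp
  have h2u : 0 < x ^ (2 * u) := Real.rpow_pos_of_pos hx _
  have hfac : nu u N H * H ^ 2 / (81 * x ^ 2 * d * J ^ 2) = x ^ (-(2 * u)) / (81 * d * J ^ 2) := by
    rw [hnu]
    field_simp
  have hsq : Real.sqrt (nu u N H / x) = x ^ (1 / 2 - u) / H := by
    have hp : 0 < x ^ (1 / 2 - u) := Real.rpow_pos_of_pos hx _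
    have : nu u N H / x = (x ^ (1 / 2 - u) / H) ^ 2 := by
      rw [hnu, div_pow]
      have e1 : (x ^ (1 / 2 - u)) ^ 2 = x * x ^ (-(2 * u)) := by
        rw [← Real.rpow_natCast, ← Real.rpow_mul hx.le]
        have : x * x ^ (-(2 * u)) = x ^ (1 + -(2 * u)) := by
          rw [Real.rpow_add hx, Real.rpow_one]
        rw [this]
        congr 1
        push_cast
        ring
      rw [e1]
      field_simp
    rw [this, Real.sqrt_sq (by positivity)]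
  have hA : 1 + 32 * M ^ 2 / x ≤ 9 * x ^ ((1 : ℝ) / 7 - 14 * u) := by
    have e0 : 1 ≤ x ^ ((1 : ℝ) / 7 - 14 * u) := Real.one_le_rpow hx1 (by linarith)
    have e1 : M ^ 2 ≤ (x ^ ((4 : ℝ) / 7 - 7 * u) / 2) ^ 2 := pow_le_pow_left₀ hMp hM 2
    have e2 : (x ^ ((4 : ℝ) / 7 - 7 * u) / 2) ^ 2 = x * x ^ ((1 : ℝ) / 7 - 14 * u) / 4 := by
      rw [div_pow, ← Real.rpow_natCast (x ^ ((4 : ℝ) / 7 - 7 * u)), ← Real.rpow_mul hx.le]
      have : x * x ^ ((1 : ℝ) / 7 - 14 * u) = x ^ (1 + ((1 : ℝ) / 7 - 14 * u)) := by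
        rw [Real.rpow_add hx, Real.rpow_one]
      rw [this]
      norm_num
      ring_nf
    rw [e2] at e1
    have e3 : 32 * M ^ 2 / x ≤ 8 * x ^ ((1 : ℝ) / 7 - 14 * u) := by
      rw [div_le_iff₀ hx]
      nlinarith
    linarith
  rw [hfac, hsq]
  have hHx : H ≥ x ^ ((5 : ℝ) / 7 + 4 * u) := by rw [← htv]; exact hH
  set X : ℝ := x ^ ((1 : ℝ) / 7 - 14 * u) with hX
  have hX0 : 0 < X := Real.rpow_pos_of_pos hx _
  set Y : ℝ := x ^ (1 / 2 - u) with hY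
  have hY0 : 0 < Y := Real.rpow_pos_of_pos hx _
  have hlog : 0 ≤ Real.log x := Real.log_nonneg hx1
  have hpe : x ^ ((1 : ℝ) / 7 - 14 * u + (1 / 2 - u) + 2 * u + u / 4) = X * Y * x ^ (2 * u) * d := by
    rw [hX, hY, hdv, ← Real.rpow_add hx, ← Real.rpow_add hx, ← Real.rpow_add hx]
  rw [hpe] at h3
  have hJ3 : J ^ 3 ≤ 8 * (1 + Real.log x) ^ 3 := by
    calc J ^ 3 ≤ (2 * (1 + Real.log x)) ^ 3 := pow_le_pow_left₀ hJ0.le hJ 3
      _ = 8 * (1 + Real.log x) ^ 3 := by ring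
  have hmain : 486 * J ^ 3 * (9 * X) * Y * x ^ (2 * u) * d < H := by
    have hq : 0 < X * Y * x ^ (2 * u) * d := by positivity
    have hq2 : 0 < 486 * 8 * 9 * (1 + Real.log x) ^ 3 * (X * Y * x ^ (2 * u) * d) := by positivity
    calc 486 * J ^ 3 * (9 * X) * Y * x ^ (2 * u) * d
        = 486 * 9 * J ^ 3 * (X * Y * x ^ (2 * u) * d) := by ring
      _ ≤ 486 * 9 * (8 * (1 + Real.log x) ^ 3) * (X * Y * x ^ (2 * u) * d) := by gcongr
      _ = 486 * 8 * 9 * (1 + Real.log x) ^ 3 * (X * Y * x ^ (2 * u) * d) := by ring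
      _ < 2 * (486 * 8 * 9) * (1 + Real.log x) ^ 3 * (X * Y * x ^ (2 * u) * d) := by linarith
      _ ≤ x ^ ((5 : ℝ) / 7 + 4 * u) := h3
      _ ≤ H := hHx
  have hrw : x ^ (-(2 * u)) = 1 / x ^ (2 * u) := by
    rw [eq_div_iff h2u.ne']
    exact hinv
  rw [hrw, div_div, lt_div_iff₀ (by positivity)]
  calc 6 * (J * (1 + 32 * M ^ 2 / x)) * (Y / H) * (x ^ (2 * u) * (81 * d * J ^ 2))
      ≤ 6 * (J * (9 * X)) * (Y / H) * (x ^ (2 * u) * (81 * d * J ^ 2)) := by gcongr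
    _ = (486 * J ^ 3 * (9 * X) * Y * x ^ (2 * u) * d) / H := by ring
    _ < 1 := by rw [div_lt_one hH0]; exact hmain

end Pool.Agent.Lib.MP_6cded1_nt.M3
end

section

/-!
# Numerical inequalities: the sum of `κ`

`n₀ H² / (81 N² dm J²) = N^{-2u} / (81 dm J²)`, and the maximum is `≤ 648 N² dm J² / H²` (`N^{2-2u} ≤ N²`).  So `Z ≤ 81 * 648 dm² J⁴ N^{2+2u} / H² ≤ N^{2+3u}/H²` with `dm² = N^{u/2}` and `J ≤ 2 (1 + log N)`.
-/

set_option autoImplicit false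

open Finset Pool.Agent.Lib.MP_6cded1_nt.ML

namespace Pool.Agent.Lib.MP_6cded1_nt.M3

private theorem nk_JJ {N : ℕ} (hN : 1 ≤ N) : (JJ N : ℝ) ≤ 2 * (1 + Real.log N) := by
  have hx1 : (1 : ℝ) ≤ N := by exact_mod_cast hN
  have hl : 0 ≤ Real.log N := Real.log_nonneg hx1
  have h1 : (Nat.log 2 N : ℝ) ≤ Real.logb 2 N := by
    have := Real.natLog_le_logb N 2
    exact_mod_cast this
  have h2 : Real.logb 2 N ≤ 2 * Real.log N := by
    unfold Real.logb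
    have h3 : (1 : ℝ) / 2 ≤ Real.log 2 := by
      have := Real.log_two_gt_d9
      linarith
    rw [div_le_iff₀ (by linarith)]
    nlinarith
  unfold JJ
  push_cast
  linarith

theorem num_K (u : ℝ) (hu : 0 < u) (hu1 : u ≤ 1 / 1000) : ∃ N₀ : ℕ, ∀ N : ℕ, N₀ ≤ N → ∀ H : ℝ, tu u N ≤ H → ∀ Z : ℝ,
    Z * (nu u N H * H ^ 2 / (81 * N ^ 2 * du u N * JJ N ^ 2)) ≤
      max (nu u N H) (648 * N ^ 2 * du u N * JJ N ^ 2 / H ^ 2) → Z ≤ Ku u N H := by
  obtain ⟨N₁, h1⟩ := pow_log_le (648 * 81 * 16) 4 (2 + 2 * u + u / 2) (2 + 3 * u) (by linarith)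
  refine ⟨max N₁ 1, fun N hN H hH Z hZ => ?_⟩
  have hN1 : N₁ ≤ N := (le_max_left _ _).trans hN
  have hN2 : 1 ≤ N := (le_max_right _ _).trans hN
  have hx1 : (1 : ℝ) ≤ N := by exact_mod_cast hN2
  have hx : (0 : ℝ) < N := by linarith
  have ht : 0 < tu u N := Real.rpow_pos_of_pos hx _
  have hH0 : 0 < H := lt_of_lt_of_le ht hH
  have hd1 : 1 ≤ du u N := Real.one_le_rpow hx1 (by positivity)
  have hd0 : 0 < du u N := by linarith
  have hJ1 : (1 : ℝ) ≤ JJ N := by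
    unfold JJ
    push_cast
    have : (0 : ℝ) ≤ (Nat.log 2 N : ℝ) := Nat.cast_nonneg _
    linarith
  have hJ0 : (0 : ℝ) < JJ N := by linarith
  have hJ := nk_JJ hN2
  set x : ℝ := (N : ℝ) with hxdef
  set d : ℝ := du u N with hd
  set J : ℝ := (JJ N : ℝ) with hJdef
  have hdd : d ^ 2 = x ^ (u / 2) := by
    rw [hd]
    unfold du
    rw [← Real.rpow_natCast, ← Real.rpow_mul hx.le]
    congr 1
    push_cast
    ring
  have hnu : nu u N H = x ^ 2 * x ^ (-(2 * u)) / H ^ 2 := by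
    unfold nu
    have : x ^ (2 - 2 * u) = x ^ 2 * x ^ (-(2 * u)) := by
      rw [← Real.rpow_two, ← Real.rpow_add hx]
      congr 1
    rw [← hxdef, this]
  have hneg : 0 < x ^ (-(2 * u)) := Real.rpow_pos_of_pos hx _
  have hneg1 : x ^ (-(2 * u)) ≤ 1 := Real.rpow_le_one_of_one_le_of_nonpos hx1 (by linarith)
  have hinv : x ^ (-(2 * u)) * x ^ (2 * u) = 1 := by
    rw [← Real.rpow_add hx]
    simp
  have hmax : max (nu u N H) (648 * x ^ 2 * d * J ^ 2 / H ^ 2) ≤ 648 * x ^ 2 * d * J ^ 2 / H ^ 2 := by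
    refine max_le ?_ le_rfl
    rw [hnu]
    apply div_le_div_of_nonneg_right _ (by positivity)
    have hx2 : 0 < x ^ 2 := by positivity
    have e1 : 1 ≤ d * J ^ 2 := by
      have : (1 : ℝ) ≤ J ^ 2 := one_le_pow₀ hJ1
      nlinarith
    calc x ^ 2 * x ^ (-(2 * u)) ≤ x ^ 2 * 1 := by gcongr
      _ ≤ x ^ 2 * (648 * (d * J ^ 2)) := by gcongr; linarith
      _ = 648 * x ^ 2 * d * J ^ 2 := by ring
  have hfac : nu u N H * H ^ 2 / (81 * x ^ 2 * d * J ^ 2) = x ^ (-(2 * u)) / (81 * d * J ^ 2) := by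
    rw [hnu]
    field_simp
  rw [hfac] at hZ
  have hZ2 := hZ.trans hmax
  have hkey : Z ≤ 648 * 81 * (x ^ 2 * x ^ (2 * u) * d ^ 2) * J ^ 4 / H ^ 2 := by
    have hpos : 0 < 81 * d * J ^ 2 * x ^ (2 * u) := by
      have := Real.rpow_pos_of_pos hx (2 * u)
      positivity
    have h2 := mul_le_mul_of_nonneg_right hZ2 hpos.le
    have h3 : Z * (x ^ (-(2 * u)) / (81 * d * J ^ 2)) * (81 * d * J ^ 2 * x ^ (2 * u)) = Z := by
      have : Z * (x ^ (-(2 * u)) / (81 * d * J ^ 2)) * (81 * d * J ^ 2 * x ^ (2 * u))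
          = Z * (x ^ (-(2 * u)) * x ^ (2 * u)) := by
        field_simp
      rw [this, hinv, mul_one]
    rw [h3] at h2
    refine h2.trans (le_of_eq ?_)
    field_simp
  have hpw : x ^ 2 * x ^ (2 * u) * d ^ 2 = x ^ (2 + 2 * u + u / 2) := by
    rw [hdd, ← Real.rpow_two, ← Real.rpow_add hx, ← Real.rpow_add hx]
  rw [hpw] at hkey
  have h4 := h1 N hN1
  rw [← hxdef] at h4
  have hJ4 : J ^ 4 ≤ 16 * (1 + Real.log x) ^ 4 := by
    calc J ^ 4 ≤ (2 * (1 + Real.log x)) ^ 4 := pow_le_pow_left₀ hJ0.le hJ 4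
      _ = 16 * (1 + Real.log x) ^ 4 := by ring
  have hpp : 0 ≤ x ^ (2 + 2 * u + u / 2) := Real.rpow_nonneg hx.le _
  unfold Ku
  rw [← hxdef]
  refine hkey.trans ?_
  apply div_le_div_of_nonneg_right _ (by positivity)
  calc 648 * 81 * x ^ (2 + 2 * u + u / 2) * J ^ 4
      ≤ 648 * 81 * x ^ (2 + 2 * u + u / 2) * (16 * (1 + Real.log x) ^ 4) := by gcongr
    _ = 648 * 81 * 16 * (1 + Real.log x) ^ 4 * x ^ (2 + 2 * u + u / 2) := by ring
    _ ≤ x ^ (2 + 3 * u) := h4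

end Pool.Agent.Lib.MP_6cded1_nt.M3
end

section

/-!
# Numerical inequalities: the primes

`N^u H/τ ≥ N^u → ∞`; `P ≤ N^u H/τ + 1 ≤ 2 N^u H/τ`, `4 P ≤ 8 N^{u + 1 - 5/7 - 4u} ≤ N`; `card_PP_ge` (`ML/Primes.lean`): `P ≤ card(PP P) log(4P) ≤ card(PP P) log N`.  `16 C₂ H ≤ 16 C₂ P τ N^{-u} ≤ 16 C₂ log N * N^{-u} τ card(PP P) ≤ τ card(PP P)`.
-/

set_option autoImplicit false

open Finset Pool.Agent.Lib.MP_6cded1_nt.ML

namespace Pool.Agent.Lib.MP_6cded1_nt.M3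

theorem num_P (u : ℝ) (hu : 0 < u) (hu1 : u ≤ 1 / 1000) : ∃ N₀ : ℕ, ∀ N : ℕ, N₀ ≤ N → ∀ H : ℝ, tu u N ≤ H → H ≤ N →
    2 ≤ Pu u N H ∧ 4 * Pu u N H ≤ N ∧ (N : ℝ) ^ u * H / tu u N ≤ Pu u N H ∧
    (Pu u N H : ℝ) ≤ 2 * (N : ℝ) ^ u * H / tu u N ∧ (Pu u N H : ℝ) ≤ (PP (Pu u N H)).card * Real.log N ∧
    2 * Cu u ≤ (PP (Pu u N H)).card ∧ 16 * Cu u * H ≤ tu u N * (PP (Pu u N H)).card := by
  obtain ⟨P0, hP0, hPP⟩ := card_PP_ge
  obtain ⟨N1, h1⟩ := pow_log_le (P0 : ℝ) 0 0 u hu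
  obtain ⟨N2, h2⟩ := pow_log_le 8 0 ((2 : ℝ) / 7 - 3 * u) 1 (by linarith)
  obtain ⟨N3, h3⟩ := pow_log_le (16 * (Cu u : ℝ)) 1 0 u hu
  refine ⟨max (max N1 N2) (max N3 1), fun N hN H hH1 hH2 => ?_⟩
  have hN1 : N1 ≤ N := ((le_max_left _ _).trans (le_max_left _ _)).trans hN
  have hN2 : N2 ≤ N := ((le_max_right _ _).trans (le_max_left _ _)).trans hN
  have hN3 : N3 ≤ N := ((le_max_left _ _).trans (le_max_right _ _)).trans hN
  have hN4 : 1 ≤ N := ((le_max_right _ _).trans (le_max_right _ _)).trans hN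
  have hNpos : (0 : ℝ) < (N : ℝ) := by exact_mod_cast hN4
  have hNone : (1 : ℝ) ≤ (N : ℝ) := by exact_mod_cast hN4
  have hlog : 0 ≤ Real.log (N : ℝ) := Real.log_nonneg hNone
  have hτ : 0 < tu u N := Real.rpow_pos_of_pos hNpos _
  have hH : 0 < H := lt_of_lt_of_le hτ hH1
  have hu0 : 0 < (N : ℝ) ^ u := Real.rpow_pos_of_pos hNpos _
  have e1 : (P0 : ℝ) ≤ (N : ℝ) ^ u := by
    have := h1 N hN1
    rw [pow_zero, mul_one, Real.rpow_zero, mul_one] at this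
    exact this
  have e2 : 8 * (N : ℝ) ^ ((2 : ℝ) / 7 - 3 * u) ≤ N := by
    have := h2 N hN2
    rw [pow_zero, mul_one, Real.rpow_one] at this
    exact this
  have e3 : 16 * (Cu u : ℝ) * (1 + Real.log N) ≤ (N : ℝ) ^ u := by
    have := h3 N hN3
    rw [pow_one, Real.rpow_zero, mul_one] at this
    exact this
  have hP0R : (2 : ℝ) ≤ (P0 : ℝ) := by exact_mod_cast hP0
  -- the real scale
  obtain ⟨x, hx⟩ : ∃ x : ℝ, x = (N : ℝ) ^ u * H / tu u N := ⟨_, rfl⟩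
  have hxu : (N : ℝ) ^ u ≤ x := by
    rw [hx, le_div_iff₀ hτ]
    exact mul_le_mul_of_nonneg_left hH1 hu0.le
  have hx0 : 0 < x := lt_of_lt_of_le hu0 hxu
  have hx1 : 1 ≤ x := by linarith
  have hxN : x ≤ (N : ℝ) ^ ((2 : ℝ) / 7 - 3 * u) := by
    rw [hx, div_le_iff₀ hτ]
    have e4 : (N : ℝ) ^ ((2 : ℝ) / 7 - 3 * u) * tu u N = (N : ℝ) ^ u * N := by
      unfold tu
      rw [← Real.rpow_add hNpos]
      have e5 : (N : ℝ) ^ u * (N : ℝ) = (N : ℝ) ^ u * (N : ℝ) ^ (1 : ℝ) := by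
        rw [Real.rpow_one]
      rw [e5, ← Real.rpow_add hNpos]
      congr 1
      ring
    rw [e4]
    exact mul_le_mul_of_nonneg_left hH2 hu0.le
  obtain ⟨P, hP⟩ : ∃ P : ℕ, P = Pu u N H := ⟨_, rfl⟩
  have hPx : P = ⌈x⌉₊ := by
    rw [hP, hx]
    rfl
  have hP1 : x ≤ (P : ℝ) := by
    rw [hPx]
    exact Nat.le_ceil x
  have hP2 : (P : ℝ) ≤ 2 * x := by
    rw [hPx]
    have := (Nat.ceil_lt_add_one hx0.le).le
    linarith
  have hPP0 : P0 ≤ P := by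
    have : (P0 : ℝ) ≤ (P : ℝ) := by linarith
    exact_mod_cast this
  have hPpos : (0 : ℝ) < (P : ℝ) := by linarith
  have h4P : 4 * (P : ℝ) ≤ N := by linarith
  have hcard : (P : ℝ) ≤ (PP P).card * Real.log N := by
    refine (hPP P hPP0).trans ?_
    exact mul_le_mul_of_nonneg_left (Real.log_le_log (by linarith) h4P) (Nat.cast_nonneg _)
  have hc0 : (0 : ℝ) ≤ ((PP P).card : ℝ) := Nat.cast_nonneg _
  have hcard2 : (P : ℝ) ≤ (PP P).card * (1 + Real.log N) := by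
    refine hcard.trans ?_
    exact mul_le_mul_of_nonneg_left (by linarith) hc0
  have hL : 0 < 1 + Real.log (N : ℝ) := by linarith
  have h16 : 16 * (Cu u : ℝ) ≤ (PP P).card := by
    have h5 : 16 * (Cu u : ℝ) * (1 + Real.log N) ≤ (PP P).card * (1 + Real.log N) := by linarith
    exact le_of_mul_le_mul_right h5 hL
  have hxτ : x * tu u N = (N : ℝ) ^ u * H := by
    rw [hx, div_mul_cancel₀ _ hτ.ne']
  rw [← hP, ← hx]
  refine ⟨hP0.trans hPP0, by exact_mod_cast h4P, hP1, ?_, hcard, ?_, ?_⟩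
  · have h6 : 2 * (N : ℝ) ^ u * H / tu u N = 2 * x := by
      rw [hx]
      ring
    rw [h6]
    exact hP2
  · have h7 : (2 : ℝ) * (Cu u : ℝ) ≤ (PP P).card := by
      have : (0 : ℝ) ≤ (Cu u : ℝ) := Nat.cast_nonneg _
      linarith
    exact_mod_cast h7
  · have h8 : 16 * (Cu u : ℝ) * H * (1 + Real.log N) ≤ tu u N * (PP P).card * (1 + Real.log N) := by
      calc 16 * (Cu u : ℝ) * H * (1 + Real.log N) = (16 * (Cu u : ℝ) * (1 + Real.log N)) * H := by ring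
        _ ≤ (N : ℝ) ^ u * H := mul_le_mul_of_nonneg_right e3 hH.le
        _ = tu u N * x := by rw [← hxτ]; ring
        _ ≤ tu u N * ((PP P).card * (1 + Real.log N)) :=
            mul_le_mul_of_nonneg_left (hP1.trans hcard2) hτ.le
        _ = tu u N * (PP P).card * (1 + Real.log N) := by ring
    exact le_of_mul_le_mul_right h8 hL

end Pool.Agent.Lib.MP_6cded1_nt.M3
end

section

/-!
# The pairing is large

As `ML/PairLow1.lean` (`pairing_low`): by `card_PP_ge`, `card(PP D) ≥ D / log N`, `card(PP (M/4)) - 1 ≥ M / (8 log N)`-like, `D ≥ N^{3/7+7u}/2`, `M ≥ N/(8D) ≥ N^{4/7-7u}/8`; the product is `≥ N / (C log² N) ≥ N^{1-u/2}`.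
-/

set_option autoImplicit false

open Finset Pool.Agent.Lib.MP_6cded1_nt.ML

namespace Pool.Agent.Lib.MP_6cded1_nt.M3

theorem num_pair (u : ℝ) (hu : 0 < u) (hu1 : u ≤ 1 / 1000) : ∃ N₀ : ℕ, ∀ N : ℕ, N₀ ≤ N →
    (N : ℝ) ^ (1 - u / 2) ≤ ((PP (Du u N)).card : ℝ) * ((PP (Mu u N / 4)).card - 1) := by
  obtain ⟨N0, hN0⟩ := num_basic3 u hu hu1
  obtain ⟨P0, hP0, hP⟩ := card_PP_ge
  obtain ⟨N1, hN1⟩ := pow_log_le 256 2 (1 - u / 2) 1 (by linarith)
  obtain ⟨N2, hN2⟩ := pow_log_le (64 * P0) 0 0 ((3 : ℝ) / 7 + 7 * u) (by linarith)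
  obtain ⟨N3, hN3⟩ := pow_log_le 128 1 0 ((4 : ℝ) / 7 - 7 * u) (by linarith)
  obtain ⟨N4, hN4⟩ := pow_log_le (64 * P0) 0 0 ((4 : ℝ) / 7 - 7 * u) (by linarith)
  refine ⟨max 1 (max N0 (max (max N1 N2) (max N3 N4))), fun N hN => ?_⟩
  have hN1' : 1 ≤ N := le_trans (le_max_left _ _) hN
  have hNa : max N0 (max (max N1 N2) (max N3 N4)) ≤ N := le_trans (le_max_right _ _) hN
  have hNb : max (max N1 N2) (max N3 N4) ≤ N := le_trans (le_max_right _ _) hNa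
  obtain ⟨hD1, hM1, hDM, -, hDlo, hDhi, -, -, -, -, -⟩ := hN0 N (le_trans (le_max_left _ _) hNa)
  have a1 := hN1 N (le_trans (le_trans (le_max_left _ _) (le_max_left _ _)) hNb)
  have a2 := hN2 N (le_trans (le_trans (le_max_right _ _) (le_max_left _ _)) hNb)
  have a3 := hN3 N (le_trans (le_trans (le_max_left _ _) (le_max_right _ _)) hNb)
  have a4 := hN4 N (le_trans (le_trans (le_max_right _ _) (le_max_right _ _)) hNb)
  simp only [pow_zero, pow_one, mul_one, Real.rpow_zero, Real.rpow_one] at a1 a2 a3 a4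
  have hX : (1 : ℝ) ≤ N := by exact_mod_cast hN1'
  have hX0 : (0 : ℝ) < N := by linarith
  have hP0' : (2 : ℝ) ≤ P0 := by exact_mod_cast hP0
  set L : ℝ := 1 + Real.log N with hL
  have hL1 : 1 ≤ L := by
    have := Real.log_nonneg hX
    linarith
  set X : ℝ := (N : ℝ) ^ ((3 : ℝ) / 7 + 7 * u) with hXdef
  set Y : ℝ := (N : ℝ) ^ ((4 : ℝ) / 7 - 7 * u) with hYdef
  have hXpos : 0 < X := Real.rpow_pos_of_pos hX0 _
  have hYpos : 0 < Y := Real.rpow_pos_of_pos hX0 _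
  have hXY : (N : ℝ) = X * Y := by
    rw [hXdef, hYdef, ← Real.rpow_add hX0]
    have : (3 : ℝ) / 7 + 7 * u + (4 / 7 - 7 * u) = 1 := by ring
    rw [this, Real.rpow_one]
  have hDpos : (0 : ℝ) < Du u N := by exact_mod_cast hD1
  -- lower bound for `M`
  have hMlo : Y / 4 - 1 ≤ (Mu u N : ℝ) := by
    have h1 : N < 4 * Du u N * (Mu u N + 1) := by
      have := Nat.lt_mul_div_succ N (show 0 < 4 * Du u N by omega)
      exact this
    have h2 : (N : ℝ) < 4 * Du u N * (Mu u N + 1) := by exact_mod_cast h1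
    have h3 : 4 * (Du u N : ℝ) * (Mu u N + 1) ≤ 4 * X * (Mu u N + 1) := by
      apply mul_le_mul_of_nonneg_right _ (by positivity)
      linarith
    have h4 : X * Y < X * (4 * (Mu u N + 1)) := by
      rw [← hXY]
      calc (N : ℝ) < 4 * Du u N * (Mu u N + 1) := h2
        _ ≤ 4 * X * (Mu u N + 1) := h3
        _ = X * (4 * (Mu u N + 1)) := by ring
    have h5 := lt_of_mul_lt_mul_left h4 hXpos.le
    linarith
  have hm4 : (Mu u N : ℝ) / 4 - 1 ≤ ((Mu u N / 4 : ℕ) : ℝ) := by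
    have h1 : Mu u N < 4 * (Mu u N / 4 + 1) := by omega
    have h2 : (Mu u N : ℝ) < 4 * (((Mu u N / 4 : ℕ) : ℝ) + 1) := by exact_mod_cast h1
    linarith
  have hY128 : 128 ≤ Y := by nlinarith
  have hm4lo : Y / 32 ≤ ((Mu u N / 4 : ℕ) : ℝ) := by linarith
  have hP0m : P0 ≤ Mu u N / 4 := by
    have : (P0 : ℝ) ≤ ((Mu u N / 4 : ℕ) : ℝ) := by linarith
    exact_mod_cast this
  have hP0D : P0 ≤ Du u N := by
    have : (P0 : ℝ) ≤ (Du u N : ℝ) := by linarith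
    exact_mod_cast this
  have hm4N : 4 * (Mu u N / 4) ≤ N := by
    have h1 : 4 * (Mu u N / 4) ≤ Mu u N := Nat.mul_div_le _ _
    have h2 : Mu u N ≤ 4 * Du u N * Mu u N := Nat.le_mul_of_pos_left _ (by omega)
    omega
  have hDN : 4 * Du u N ≤ N := by
    have h2 : 4 * Du u N ≤ 4 * Du u N * Mu u N := Nat.le_mul_of_pos_right _ (by omega)
    omega
  have hlog : ∀ P : ℕ, 1 ≤ P → 4 * P ≤ N → Real.log (4 * P) ≤ L := by
    intro P hP1 hPN
    have h1 : (4 : ℝ) * P ≤ N := by exact_mod_cast hPN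
    have h2 : (0 : ℝ) < 4 * P := by
      have : (1 : ℝ) ≤ P := by exact_mod_cast hP1
      linarith
    have := Real.log_le_log h2 h1
    linarith
  have hcD : (Du u N : ℝ) ≤ (PP (Du u N)).card * L :=
    (hP _ hP0D).trans (mul_le_mul_of_nonneg_left (hlog _ hD1 hDN) (Nat.cast_nonneg _))
  have hcM : ((Mu u N / 4 : ℕ) : ℝ) ≤ (PP (Mu u N / 4)).card * L :=
    (hP _ hP0m).trans (mul_le_mul_of_nonneg_left (hlog _ (by omega) hm4N) (Nat.cast_nonneg _))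
  set cD : ℝ := ((PP (Du u N)).card : ℝ) with hcDdef
  set cM : ℝ := ((PP (Mu u N / 4)).card : ℝ) with hcMdef
  have hLpos : 0 < L := by linarith
  have hcM2 : Y / 64 ≤ (cM - 1) * L := by
    have : Y / 32 ≤ cM * L := hm4lo.trans hcM
    nlinarith
  have hcD2 : X / 2 ≤ cD * L := by linarith
  have h6 : X / 2 * (Y / 64) ≤ (cD * L) * ((cM - 1) * L) :=
    mul_le_mul hcD2 hcM2 (by linarith) (mul_nonneg (Nat.cast_nonneg _) hLpos.le)
  have h7 : (N : ℝ) ≤ 128 * (cD * (cM - 1)) * L ^ 2 := by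
    rw [hXY]
    nlinarith
  have h8 : 256 * L ^ 2 * (N : ℝ) ^ (1 - u / 2) ≤ 128 * (cD * (cM - 1)) * L ^ 2 := a1.trans h7
  have h9 : L ^ 2 * (256 * (N : ℝ) ^ (1 - u / 2)) ≤ L ^ 2 * (128 * (cD * (cM - 1))) := by
    nlinarith
  have h10 := le_of_mul_le_mul_left h9 (by positivity)
  have h11 : 0 ≤ (N : ℝ) ^ (1 - u / 2) := Real.rpow_nonneg hX0.le _
  linarith

end Pool.Agent.Lib.MP_6cded1_nt.M3
end

section

/-!
# A good grid

`∫_0^1 ‖F‖ = ∑_{j < W} ∫_{j/W}^{(j+1)/W} ‖F‖ = ∫_0^{1/W} ∑_{j < W} ‖F (t + j / W)‖ dt`.  The continuous function `t ↦ ∑_j ‖F (t + j / W)‖` attains its minimum `m`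
on `[0, 1/W]` at some `t`; then `m / W ≤ ∫_0^1 ‖F‖`, i.e. `EE W t ‖F‖ = m / W ≤ ∫`.
-/

set_option autoImplicit false

open Finset

namespace Pool.Agent.Lib.MP_6cded1_nt.ML

private theorem Grid1_cont (f : ℕ → ℂ) (N : ℕ) : Continuous fun x => ‖F f N x‖ := by
  unfold F e
  fun_prop

theorem exists_grid (f : ℕ → ℂ) (N W : ℕ) (hW : 1 ≤ W) :
    ∃ t : ℝ, 0 ≤ t ∧ t ≤ 1 / W ∧ EE W t (fun x => ‖F f N x‖) ≤ ∫ x in (0 : ℝ)..1, ‖F f N x‖ := by
  have hc := Grid1_cont f N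
  have hW0 : (0 : ℝ) < W := by exact_mod_cast hW
  have hW1 : (0 : ℝ) ≤ 1 / W := by positivity
  set h : ℝ → ℝ := fun t => ∑ j ∈ range W, ‖F f N (t + j / W)‖ with hh
  have hcj : ∀ j : ℕ, Continuous fun t : ℝ => ‖F f N (t + j / W)‖ := fun j =>
    hc.comp (continuous_id.add continuous_const)
  have hhc : Continuous h := continuous_finsetSum _ fun j _ => hcj j
  obtain ⟨t, ht, hmin⟩ := (isCompact_Icc (a := (0 : ℝ)) (b := 1 / W)).exists_isMinOn
    ⟨0, le_rfl, hW1⟩ hhc.continuousOn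
  refine ⟨t, ht.1, ht.2, ?_⟩
  have h1 : ∫ x in (0 : ℝ)..1, ‖F f N x‖ = ∫ x in (0 : ℝ)..(1 / W), h x := by
    have e1 := intervalIntegral.sum_integral_adjacent_intervals (μ := MeasureTheory.volume)
      (f := fun x => ‖F f N x‖) (a := fun j : ℕ => (j : ℝ) / W) (n := W)
      (fun k _ => hc.intervalIntegrable _ _)
    have e2 : ((0 : ℕ) : ℝ) / W = 0 := by simp
    have e3 : (W : ℝ) / W = 1 := div_self hW0.ne'
    simp only [e2, e3] at e1
    rw [← e1, hh, intervalIntegral.integral_finsetSum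
      (fun j _ => (hcj j).intervalIntegrable _ _)]
    refine Finset.sum_congr rfl fun j _ => ?_
    rw [intervalIntegral.integral_comp_add_right (fun x => ‖F f N x‖) ((j : ℝ) / W)]
    congr 1
    · rw [zero_add]
    · push_cast
      ring
  have h2 : h t * (1 / W) ≤ ∫ x in (0 : ℝ)..(1 / W), h x := by
    have e1 : ∫ _ in (0 : ℝ)..(1 / W), h t = h t * (1 / W) := by
      rw [intervalIntegral.integral_const, smul_eq_mul]
      ring
    rw [← e1]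
    exact intervalIntegral.integral_mono_on hW1 (continuous_const.intervalIntegrable _ _)
      (hhc.intervalIntegrable _ _) fun x hx => hmin hx
  rw [h1]
  refine le_trans (le_of_eq ?_) h2
  unfold EE gp
  rw [hh, mul_one_div]

end Pool.Agent.Lib.MP_6cded1_nt.ML
end
end
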