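import Pool.Agent.Lib.MP_6cded1_nt.ML.Star2

/-!
# Many pairs and triples with different fractions

Not `Dif` is an equivalence relation on star points (`v ≠ 0`), so for fixed `s` the set `{s' ∈ S : ¬ Dif s s'}` has pairwise not `Dif` elements and at most
`C₂` elements (`star_mult`).  With `m = card S ≥ 4 C₂`: number of pairs `≥ m (m - C₂) ≥ m² / 2`; number of triples `≥ m (m - C₂) (m - 2 C₂) ≥ m (3 m / 4) (m / 2) ≥ m²`
(`C₂ ≥ 1`, `m ≥ 4`; if `m = 0` nothing to prove).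
-/

set_option autoImplicit false

open Finset

namespace Pool.Agent.Lib.MP_6cded1_nt.ML

open Classical in
private theorem triples_comb {α : Type*} (S : Finset α) (D : α → α → Prop) (C₂ : ℕ) (h1 : 1 ≤ C₂)
    (hC : ∀ s ∈ S, (S.filter fun s' => ¬ D s s').card ≤ C₂) (hm : 4 * C₂ ≤ S.card) :
    S.card ^ 2 ≤ ((S ×ˢ S ×ˢ S).filter fun x =>
      D x.1 x.2.1 ∧ D x.1 x.2.2 ∧ D x.2.1 x.2.2).card := by
  have e1 : ((S ×ˢ S ×ˢ S).filter fun x =>
      D x.1 x.2.1 ∧ D x.1 x.2.2 ∧ D x.2.1 x.2.2).card =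
      ∑ s ∈ S, ∑ s' ∈ S, ∑ s'' ∈ S, (if D s s' ∧ D s s'' ∧ D s' s'' then 1 else 0) := by
    rw [card_filter, sum_product]
    refine sum_congr rfl fun s _ => ?_
    rw [sum_product]
  have e2 : ∀ s ∈ S, ∀ s' ∈ S, (if D s s' then (S.card - 2 * C₂) else 0) ≤
      ∑ s'' ∈ S, (if D s s' ∧ D s s'' ∧ D s' s'' then 1 else 0) := by
    intro s hs s' hs'
    split_ifs with h
    · have h2 : S ⊆ (S.filter fun s'' => D s s' ∧ D s s'' ∧ D s' s'') ∪
          ((S.filter fun s'' => ¬ D s s'') ∪ (S.filter fun s'' => ¬ D s' s'')) := by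
        intro x hx
        simp only [mem_union, mem_filter]
        by_cases c1 : D s x
        · by_cases c2 : D s' x
          · exact Or.inl ⟨hx, h, c1, c2⟩
          · exact Or.inr (Or.inr ⟨hx, c2⟩)
        · exact Or.inr (Or.inl ⟨hx, c1⟩)
      have h3 := card_le_card h2
      have h4 := card_union_le (S.filter fun s'' => D s s' ∧ D s s'' ∧ D s' s'')
          ((S.filter fun s'' => ¬ D s s'') ∪ (S.filter fun s'' => ¬ D s' s''))
      have h5 := card_union_le (S.filter fun s'' => ¬ D s s'') (S.filter fun s'' => ¬ D s' s'')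
      have h6 := hC s hs
      have h7 := hC s' hs'
      rw [← card_filter]
      omega
    · exact Nat.zero_le _
  have e3 : ∀ s ∈ S, (S.card - C₂) * (S.card - 2 * C₂) ≤
      ∑ s' ∈ S, (if D s s' then (S.card - 2 * C₂) else 0) := by
    intro s hs
    rw [← sum_filter, sum_const, smul_eq_mul]
    refine Nat.mul_le_mul_right _ ?_
    have h2 := card_filter_add_card_filter_not (s := S) (p := fun s' => D s s')
    have h6 := hC s hs
    omega
  have e4 : S.card * ((S.card - C₂) * (S.card - 2 * C₂)) ≤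
      ∑ s ∈ S, ∑ s' ∈ S, ∑ s'' ∈ S, (if D s s' ∧ D s s'' ∧ D s' s'' then 1 else 0) := by
    rw [← smul_eq_mul, ← sum_const]
    refine sum_le_sum fun s hs => ?_
    refine (e3 s hs).trans ?_
    exact sum_le_sum fun s' hs' => e2 s hs s' hs'
  rw [e1]
  refine le_trans ?_ e4
  rw [pow_two]
  refine Nat.mul_le_mul_left _ ?_
  obtain ⟨t, ht⟩ := Nat.exists_eq_add_of_le hm
  have a1 : S.card - C₂ = 3 * C₂ + t := by omega
  have a2 : S.card - 2 * C₂ = 2 * C₂ + t := by omega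
  rw [a1, a2, ht]
  nlinarith [Nat.mul_le_mul h1 h1, Nat.zero_le (C₂ * t), Nat.zero_le (t * t), Nat.mul_le_mul_right t h1]

open Classical in
theorem triples_ge (N P : ℕ) (K : ℝ) (Λ : ℝ → Prop) (hK : 0 ≤ K) (hΛ : ∀ z, Λ z → Maj N K z) (y : ℝ) (C₂ : ℕ)
    (h1 : 1 ≤ C₂)
    (hC₂ : ∀ q : ℕ, 1 ≤ q → (q : ℝ) ≤ K → ((PP P).filter fun p => p ∣ q).card + 1 ≤ C₂) (S : Finset (Σ _ : ℕ, ℕ))
    (hS : S ⊆ stars N P K Λ y) (hm : 4 * C₂ ≤ S.card) :
    S.card ^ 2 ≤ ((S ×ˢ S ×ˢ S).filter fun x =>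
      Dif N K y x.1 x.2.1 ∧ Dif N K y x.1 x.2.2 ∧ Dif N K y x.2.1 x.2.2).card := by
  have hv : ∀ s ∈ S, (sv N K y s : ℤ) ≠ 0 := by
    intro s hs
    obtain ⟨b1, b2, b3, b4, b5, b6, -⟩ := star_basic N P K Λ hK hΛ y s (hS hs)
    have : 0 < sv N K y s := by
      unfold sv
      have := b1.pos
      positivity
    exact_mod_cast this.ne'
  apply triples_comb S (Dif N K y) C₂ h1 ?_ hm
  intro s hs
  refine star_mult N P K Λ hK hΛ y C₂ hC₂ _ ((filter_subset _ _).trans hS) ?_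
  intro a ha b hb
  simp only [mem_filter, Dif, ne_eq, not_not] at ha hb ⊢
  obtain ⟨ha1, ha2⟩ := ha
  obtain ⟨hb1, hb2⟩ := hb
  -- `A_s v_a = A_a v_s`, `A_s v_b = A_b v_s`
  have h0 := hv s hs
  apply mul_left_cancel₀ h0
  calc (sv N K y s : ℤ) * (sA N K y a * (sv N K y b : ℤ))
      = (sA N K y a * (sv N K y s : ℤ)) * (sv N K y b : ℤ) := by ring
    _ = (sA N K y s * (sv N K y a : ℤ)) * (sv N K y b : ℤ) := by rw [ha2]
    _ = (sA N K y s * (sv N K y b : ℤ)) * (sv N K y a : ℤ) := by ring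
    _ = (sA N K y b * (sv N K y s : ℤ)) * (sv N K y a : ℤ) := by rw [hb2]
    _ = _ := by ring

end Pool.Agent.Lib.MP_6cded1_nt.ML
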