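import Pool.Agent.Lib.MP_6cded1_nt.ML.Star2

/-!
# Many pairs and triples with different fractions

Not `Dif` is an equivalence relation on star points (`v ≠ 0`), so for fixed `s` the set `{s' ∈ S : ¬ Dif s s'}` has pairwise not `Dif` elements and at most
`C₂` elements (`star_mult`).  With `m = card S ≥ 4 C₂`: number of pairs `≥ m (m - C₂) ≥ m² / 2`; number of triples `≥ m (m - C₂) (m - 2 C₂) ≥ m (3 m / 4) (m / 2) ≥ m²`
(`C₂ ≥ 1`, `m ≥ 4`; if `m = 0` nothing to prove).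
-/

set_option autoImplicit false

open Finset

namespace Pool.Agent.Lib.MP_6cded1_nt.ML

private theorem comba_sv_pos (N P : ℕ) (K : ℝ) (Λ : ℝ → Prop) (hK : 0 ≤ K)
    (hΛ : ∀ z, Λ z → Maj N K z) (y : ℝ) (s : Σ _ : ℕ, ℕ) (hs : s ∈ stars N P K Λ y) :
    (sv N K y s : ℤ) ≠ 0 := by
  obtain ⟨h1, -, -, -, -, h2, -⟩ := star_basic N P K Λ hK hΛ y s hs
  have h3 : 0 < sv N K y s := by
    unfold sv
    exact Nat.mul_pos h2 (pow_pos h1.pos 2)
  exact_mod_cast h3.ne'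

open Classical in
private theorem comba_class (N P : ℕ) (K : ℝ) (Λ : ℝ → Prop) (hK : 0 ≤ K)
    (hΛ : ∀ z, Λ z → Maj N K z) (y : ℝ) (C₂ : ℕ)
    (hC₂ : ∀ q : ℕ, 1 ≤ q → (q : ℝ) ≤ K → ((PP P).filter fun p => p ∣ q).card + 1 ≤ C₂)
    (S : Finset (Σ _ : ℕ, ℕ)) (hS : S ⊆ stars N P K Λ y) (s : Σ _ : ℕ, ℕ) (hs : s ∈ S) :
    (S.filter fun s' => ¬ Dif N K y s s').card ≤ C₂ := by
  refine star_mult N P K Λ hK hΛ y C₂ hC₂ _ ((Finset.filter_subset _ _).trans hS) ?_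
  intro a ha b hb
  rw [Finset.mem_filter] at ha hb
  unfold Dif at ha hb ⊢
  rw [not_not] at ha hb ⊢
  have hv := comba_sv_pos N P K Λ hK hΛ y s (hS hs)
  have h1 := ha.2
  have h2 := hb.2
  have h3 : (sv N K y s : ℤ) * (sA N K y a * (sv N K y b : ℤ)) =
      (sv N K y s : ℤ) * (sA N K y b * (sv N K y a : ℤ)) := by
    linear_combination (-(sv N K y b : ℤ)) * h1 + (sv N K y a : ℤ) * h2
  exact mul_left_cancel₀ hv h3

open Classical in
theorem pairs_ge (N P : ℕ) (K : ℝ) (Λ : ℝ → Prop) (hK : 0 ≤ K) (hΛ : ∀ z, Λ z → Maj N K z) (y : ℝ) (C₂ : ℕ)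
    (h1 : 1 ≤ C₂)
    (hC₂ : ∀ q : ℕ, 1 ≤ q → (q : ℝ) ≤ K → ((PP P).filter fun p => p ∣ q).card + 1 ≤ C₂) (S : Finset (Σ _ : ℕ, ℕ))
    (hS : S ⊆ stars N P K Λ y) (hm : 4 * C₂ ≤ S.card) :
    S.card ^ 2 ≤ 2 * ((S ×ˢ S).filter fun x => Dif N K y x.1 x.2).card := by
  have hcount : ((S ×ˢ S).filter fun x => Dif N K y x.1 x.2).card =
      ∑ s ∈ S, (S.filter fun s' => Dif N K y s s').card := by
    rw [Finset.card_filter, Finset.sum_product]
    exact Finset.sum_congr rfl fun s _ => by rw [Finset.card_filter]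
  have hge : ∀ s ∈ S, S.card - C₂ ≤ (S.filter fun s' => Dif N K y s s').card := by
    intro s hs
    have h2 := comba_class N P K Λ hK hΛ y C₂ hC₂ S hS s hs
    have h3 := Finset.card_filter_add_card_filter_not (s := S) (fun s' => Dif N K y s s')
    omega
  have h4 : S.card * (S.card - C₂) ≤ ∑ s ∈ S, (S.filter fun s' => Dif N K y s s').card := by
    have := Finset.card_nsmul_le_sum S _ _ hge
    simpa using this
  rw [hcount]
  have h5 : S.card ≤ 2 * (S.card - C₂) := by omega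
  calc S.card ^ 2 = S.card * S.card := by ring
    _ ≤ S.card * (2 * (S.card - C₂)) := Nat.mul_le_mul_left _ h5
    _ = 2 * (S.card * (S.card - C₂)) := by ring
    _ ≤ _ := Nat.mul_le_mul_left _ h4

end Pool.Agent.Lib.MP_6cded1_nt.ML
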