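import Mathlib

/-!
# ML: the `L¹` norm of exponential sums with multiplicative coefficients on squarefree numbers

Definitions of the program ML (MP_6cded1_nt, paper 440 of the team database).
-/

set_option autoImplicit false

open Finset

namespace Pool.Agent.Lib.MP_6cded1_nt.ML

/-- Distance to the nearest integer. -/
noncomputable def nd (x : ℝ) : ℝ := |x - round x|

/-- `min M (1 / u)` for `u ≥ 0` (and `M` for `u = 0`). -/
noncomputable def cap (M u : ℝ) : ℝ := M / max 1 (M * u)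

/-- `e x = exp (2 π i x)`. -/
noncomputable def e (x : ℝ) : ℂ := Complex.exp (2 * Real.pi * Complex.I * x)

/-- The exponential sum `∑_{n ≤ N} f n e(n x)`. -/
noncomputable def F (f : ℕ → ℂ) (N : ℕ) (x : ℝ) : ℂ := ∑ n ∈ Icc 1 N, f n * e (n * x)

/-- The bilinear exponential sum `∑_{D < d ≤ 4D} ∑_{m ≤ M} a_d b_m e(d m x)`. -/
noncomputable def B (a b : ℕ → ℂ) (D M : ℕ) (x : ℝ) : ℂ :=
  ∑ d ∈ Ioc D (4 * D), ∑ m ∈ Icc 1 M, a d * b m * e (d * m * x)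

/-- `E(z, z') = ∑_{d, d' ∈ (D, 4D]} min (M, 1 / (2 ‖d z - d' z'‖))`. -/
noncomputable def E (D M : ℕ) (z z' : ℝ) : ℝ :=
  ∑ d ∈ Ioc D (4 * D), ∑ d' ∈ Ioc D (4 * D), cap M (2 * nd (d * z - d' * z'))

/-- The primes in `(P, 4P]`. -/
def PP (P : ℕ) : Finset ℕ := (Ioc P (4 * P)).filter Nat.Prime

/-- Major arcs: there is `1 ≤ q ≤ K` with `‖q z‖ ≤ K / N`. -/
def Maj (N : ℕ) (K : ℝ) (z : ℝ) : Prop := ∃ q : ℕ, 1 ≤ q ∧ (q : ℝ) ≤ K ∧ nd (q * z) ≤ K / N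

/-- The grid point `t + j / W`. -/
noncomputable def gp (W : ℕ) (t : ℝ) (j : ℕ) : ℝ := t + j / W

/-- The average of `g` over the grid `t + j / W`, `j < W`. -/
noncomputable def EE (W : ℕ) (t : ℝ) (g : ℝ → ℝ) : ℝ := (∑ j ∈ range W, g (gp W t j)) / W

open Classical in
/-- `x` if `A` holds, `0` otherwise. -/
noncomputable def sel (A : Prop) (x : ℝ) : ℝ := if A then x else 0

/-- The hypotheses on the coefficients: multiplicative, unimodular on squarefree numbers, zero elsewhere. -/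
structure Mult (f : ℕ → ℂ) : Prop where
  mul : ∀ m n : ℕ, Nat.Coprime m n → f (m * n) = f m * f n
  one : ∀ n : ℕ, Squarefree n → ‖f n‖ = 1
  zero : ∀ n : ℕ, ¬ Squarefree n → f n = 0

/-- The least `q ≥ 1` with `‖q z‖ ≤ K / N`. -/
noncomputable def qm (N : ℕ) (K z : ℝ) : ℕ := sInf {q : ℕ | 1 ≤ q ∧ nd (q * z) ≤ K / N}

open Classical in
/-- Star points of `y` for regime II: pairs `(p, b)` with `p ∈ (P, 4P]` prime, `0 < b < p²`, `z = y + b / p²` in `Λ`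
and `p` not dividing `q(z)`. -/
noncomputable def stars (N P : ℕ) (K : ℝ) (Λ : ℝ → Prop) (y : ℝ) : Finset (Σ _ : ℕ, ℕ) :=
  ((PP P).sigma fun p => Ioo 0 (p ^ 2)).filter fun s =>
    Λ (y + s.2 / (s.1 : ℝ) ^ 2) ∧ ¬ s.1 ∣ qm N K (y + s.2 / (s.1 : ℝ) ^ 2)

/-- The point `z = y + b / p²`. -/
noncomputable def pt (y : ℝ) (s : Σ _ : ℕ, ℕ) : ℝ := y + s.2 / (s.1 : ℝ) ^ 2

/-- The denominator `q(z)` of a star point. -/
noncomputable def sden (N : ℕ) (K y : ℝ) (s : Σ _ : ℕ, ℕ) : ℕ := qm N K (pt y s)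

/-- The integer `A = p² a - q b`, `a = round (q z)`. -/
noncomputable def sA (N : ℕ) (K y : ℝ) (s : Σ _ : ℕ, ℕ) : ℤ :=
  (s.1 : ℤ) ^ 2 * round ((sden N K y s : ℝ) * pt y s) - (sden N K y s : ℤ) * s.2

/-- The denominator `v = q p²`. -/
noncomputable def sv (N : ℕ) (K y : ℝ) (s : Σ _ : ℕ, ℕ) : ℕ := sden N K y s * s.1 ^ 2

/-- `s` and `s'` have different fractions `A / v`. -/
def Dif (N : ℕ) (K y : ℝ) (s s' : Σ _ : ℕ, ℕ) : Prop :=
  sA N K y s * (sv N K y s' : ℤ) ≠ sA N K y s' * (sv N K y s : ℤ)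

open Classical in
/-- Star points with `q ≥ Q`. -/
noncomputable def stars' (N P : ℕ) (K Q : ℝ) (Λ : ℝ → Prop) (y : ℝ) : Finset (Σ _ : ℕ, ℕ) :=
  (stars N P K Λ y).filter fun s => Q ≤ (sden N K y s : ℝ)

end Pool.Agent.Lib.MP_6cded1_nt.ML
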