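import Pool.Agent.Lib.MP_6cded1_nt.ML.Nd

/-!
# The diagonal value `E(z, z)`

`d z - d' z = (d - d') z`; for fixed `d'` the difference `h = d - d'` takes each value at most once, `|h| ≤ 3 D`; `nd (-x) = nd x`; `h = 0` gives `cap M 0 = M`.
There are `3 D` values of `d'`.
-/

set_option autoImplicit false

open Finset

namespace Pool.Agent.Lib.MP_6cded1_nt.ML

private theorem diag1_img {D : ℕ} {g : ℕ → ℝ} (hg : ∀ h, 0 ≤ g h) (T : Finset ℕ) (φ : ℕ → ℕ)
    (hφ : Set.InjOn φ T) (hT : ∀ t ∈ T, φ t ∈ Icc 1 (3 * D)) :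
    ∑ t ∈ T, g (φ t) ≤ ∑ h ∈ Icc 1 (3 * D), g h := by
  rw [← Finset.sum_image (f := g) hφ]
  apply Finset.sum_le_sum_of_subset_of_nonneg
  · intro h hh
    obtain ⟨t, ht, rfl⟩ := Finset.mem_image.1 hh
    exact hT t ht
  · intro i _ _
    exact hg i

theorem E_diag_le (D M : ℕ) (z : ℝ) :
    E D M z z ≤ 3 * D * (M + 2 * ∑ h ∈ Icc 1 (3 * D), cap M (2 * nd (h * z))) := by
  set g : ℕ → ℝ := fun h => cap M (2 * nd (h * z)) with hg
  have hM0 : (0 : ℝ) ≤ M := Nat.cast_nonneg M
  have hg0 : ∀ h, 0 ≤ g h := fun h => cap_nonneg hM0 _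
  have key : ∀ d ∈ Ioc D (4 * D), ∑ d' ∈ Ioc D (4 * D), cap M (2 * nd (d * z - d' * z)) ≤
      M + 2 * ∑ h ∈ Icc 1 (3 * D), g h := by
    intro d hd
    rw [Finset.mem_Ioc] at hd
    have hsplit : ∑ d' ∈ Ioc D (4 * D), cap M (2 * nd (d * z - d' * z)) =
        ∑ d' ∈ (Ioc D (4 * D)).filter (fun d' => d' < d), cap M (2 * nd (d * z - d' * z)) +
        (∑ d' ∈ ((Ioc D (4 * D)).filter (fun d' => ¬ d' < d)).filter (fun d' => d' = d),
          cap M (2 * nd (d * z - d' * z)) +
        ∑ d' ∈ ((Ioc D (4 * D)).filter (fun d' => ¬ d' < d)).filter (fun d' => ¬ d' = d),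
          cap M (2 * nd (d * z - d' * z))) := by
      rw [Finset.sum_filter_add_sum_filter_not, Finset.sum_filter_add_sum_filter_not]
    rw [hsplit]
    have p1 : ∑ d' ∈ (Ioc D (4 * D)).filter (fun d' => d' < d), cap M (2 * nd (d * z - d' * z)) ≤
        ∑ h ∈ Icc 1 (3 * D), g h := by
      refine le_trans (le_of_eq ?_) (diag1_img hg0 ((Ioc D (4 * D)).filter (fun d' => d' < d))
        (fun d' => d - d') ?_ ?_)
      · refine Finset.sum_congr rfl fun d' hd' => ?_
        have h2 := (Finset.mem_filter.1 hd').2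
        simp only [hg]
        rw [Nat.cast_sub h2.le, sub_mul]
      · intro x hx y hy hxy
        have h1 := (Finset.mem_filter.1 hx).2
        have h2 := (Finset.mem_filter.1 hy).2
        simp only at hxy
        omega
      · intro t ht
        have h1 := Finset.mem_filter.1 ht
        have h2 := Finset.mem_Ioc.1 h1.1
        rw [Finset.mem_Icc]
        omega
    have p2 : ∑ d' ∈ ((Ioc D (4 * D)).filter (fun d' => ¬ d' < d)).filter (fun d' => ¬ d' = d),
          cap M (2 * nd (d * z - d' * z)) ≤ ∑ h ∈ Icc 1 (3 * D), g h := by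
      refine le_trans (le_of_eq ?_) (diag1_img hg0
        (((Ioc D (4 * D)).filter (fun d' => ¬ d' < d)).filter (fun d' => ¬ d' = d))
        (fun d' => d' - d) ?_ ?_)
      · refine Finset.sum_congr rfl fun d' hd' => ?_
        have h1 := (Finset.mem_filter.1 hd')
        have h2 := (Finset.mem_filter.1 h1.1).2
        simp only [hg]
        rw [Nat.cast_sub (not_lt.1 h2), sub_mul, nd_sub_comm]
      · intro x hx y hy hxy
        have h1 := (Finset.mem_filter.1 (Finset.mem_filter.1 hx).1).2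
        have h2 := (Finset.mem_filter.1 (Finset.mem_filter.1 hy).1).2
        simp only at hxy
        omega
      · intro t ht
        have h0 := Finset.mem_filter.1 ht
        have h1 := Finset.mem_filter.1 h0.1
        have h2 := Finset.mem_Ioc.1 h1.1
        have h3 := h0.2
        have h4 := h1.2
        rw [Finset.mem_Icc]
        omega
    have p3 : ∑ d' ∈ ((Ioc D (4 * D)).filter (fun d' => ¬ d' < d)).filter (fun d' => d' = d),
          cap M (2 * nd (d * z - d' * z)) ≤ M := by
      have hsub : ((Ioc D (4 * D)).filter (fun d' => ¬ d' < d)).filter (fun d' => d' = d) ⊆ {d} := by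
        intro t ht
        rw [Finset.mem_singleton]
        exact (Finset.mem_filter.1 ht).2
      refine (Finset.sum_le_sum_of_subset_of_nonneg hsub (fun i _ _ => cap_nonneg hM0 _)).trans ?_
      rw [Finset.sum_singleton]
      exact cap_le hM0 _
    linarith
  unfold E
  refine (Finset.sum_le_sum key).trans (le_of_eq ?_)
  rw [Finset.sum_const, Nat.card_Ioc, nsmul_eq_mul]
  have : (4 * D - D : ℕ) = 3 * D := by omega
  rw [this]
  push_cast
  ring

end Pool.Agent.Lib.MP_6cded1_nt.ML
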