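import Pool.Agent.Lib.MP_6cded1_nt.ML.Vino1

/-!
# The Vinogradov sum

Cover `1, ..., H` by `⌊H / g⌋ + 1 ≤ H / g + 1` blocks `h0 + j`, `j < g`, `h0 = 1 + k g`, and use `vino_block` (all terms are nonnegative, `cap_nonneg`).
-/

set_option autoImplicit false

open Finset

namespace Pool.Agent.Lib.MP_6cded1_nt.ML

private theorem vino2_blocks (f : ℕ → ℝ) (g K : ℕ) :
    ∑ i ∈ range (K * g), f i = ∑ k ∈ range K, ∑ j ∈ range g, f (k * g + j) := by
  induction K with
  | zero => simp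
  | succ K ih =>
    rw [Finset.sum_range_succ, ← ih, Nat.succ_mul, Finset.sum_range_add]

theorem vino (α : ℝ) (a : ℤ) (g : ℕ) (hg : 1 ≤ g) (hag : IsCoprime a (g : ℤ)) (hα : |α - a / g| ≤ 1 / (g : ℝ) ^ 2)
    (H : ℕ) (M v : ℝ) (hM : 0 ≤ M) (hv : 0 < v) :
    ∑ h ∈ Icc 1 H, cap M (2 * nd (h * α) / v) ≤ (H / g + 1) * (5 * M + 2 * v * g * (1 + Real.log g)) := by
  set T : ℝ := 5 * M + 2 * v * g * (1 + Real.log g) with hT
  have hT0 : 0 ≤ T := by
    have h1 : 0 ≤ Real.log g := Real.log_natCast_nonneg g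
    positivity
  set f : ℕ → ℝ := fun i => cap M (2 * nd (((1 + i : ℕ) : ℝ) * α) / v) with hf
  have hf0 : ∀ i, 0 ≤ f i := fun i => cap_nonneg hM _
  have e1 : ∑ h ∈ Icc 1 H, cap M (2 * nd (h * α) / v) = ∑ i ∈ range H, f i := by
    have h1 : Icc 1 H = Ico 1 (H + 1) := by
      ext x; simp
    rw [h1, Finset.sum_Ico_eq_sum_range]
    simp [hf]
  have hle : H ≤ (H / g + 1) * g := by
    have h1 := Nat.div_add_mod H g
    have h2 := Nat.mod_lt H (show 0 < g by omega)
    have h3 : (H / g + 1) * g = g * (H / g) + g := by ring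
    omega
  have e2 : ∑ i ∈ range H, f i ≤ ∑ i ∈ range ((H / g + 1) * g), f i :=
    Finset.sum_le_sum_of_subset_of_nonneg (Finset.range_mono hle) (fun i _ _ => hf0 i)
  have e3 : ∑ i ∈ range ((H / g + 1) * g), f i ≤ ((H / g + 1 : ℕ) : ℝ) * T := by
    rw [vino2_blocks]
    have h1 : ∀ k ∈ range (H / g + 1), ∑ j ∈ range g, f (k * g + j) ≤ T := by
      intro k _
      have h2 := vino_block α a g hg hag hα (1 + k * g) M v hM hv
      refine le_trans (le_of_eq ?_) h2
      refine Finset.sum_congr rfl fun j _ => ?_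
      simp only [hf]
      rw [Nat.add_assoc]
    have h3 := Finset.sum_le_card_nsmul _ _ _ h1
    rw [Finset.card_range, nsmul_eq_mul] at h3
    exact h3
  rw [e1]
  refine (e2.trans e3).trans (mul_le_mul_of_nonneg_right ?_ hT0)
  push_cast
  have h4 : ((H / g : ℕ) : ℝ) ≤ (H : ℝ) / g := Nat.cast_div_le
  linarith

end Pool.Agent.Lib.MP_6cded1_nt.ML
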