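import Pool.Agent.Lib.MP_6cded1_nt.ML.Diag1
import Pool.Agent.Lib.MP_6cded1_nt.ML.Vino2

/-!
# The diagonal bound off the major arcs

Dirichlet with `n = ⌊N / K⌋` (`≥ 1`): `Real.exists_rat_abs_sub_le_and_den_le` gives a reduced fraction `a / g`, `g ≤ n`, `|z - a / g| ≤ 1 / ((n + 1) g) ≤ 1 / g²`,
`nd (g z) ≤ 1 / (n + 1) < K / N`, so `g > K` (otherwise `Maj N K z`), and `g ≤ N / K`.  `E_diag_le`, `vino` with `v = 1`, `H = 3 D`:
`M E ≤ 3 D M (M + 2 (3 D / g + 1) (5 M + 2 g (1 + log g))) = 33 D M² + 90 D² M² / g + 36 D² M (1 + log g) + 12 D M g (1 + log g)`.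
With `4 D M ≤ N`, `K ≤ D` (so `M ≤ N / (4 K)`), `K < g ≤ N / K`, `D ≤ N / K` (as `K D ≤ D² ≤ N`) this is `≤ (2.1 + 5.7 + 9 + 3) N² (1 + log N) / K`.
-/

set_option autoImplicit false

open Finset

namespace Pool.Agent.Lib.MP_6cded1_nt.ML

private theorem diag_alg (N D M g K L Λ S : ℝ) (hK1 : 1 ≤ K) (hKD : K ≤ D) (hD : D ^ 2 ≤ N) (hM : 0 ≤ M)
    (hDM : 4 * D * M ≤ N) (hg : K ≤ g) (hgN : g * K ≤ N) (hL0 : 0 ≤ L) (hL : L ≤ Λ) (hΛ : 1 ≤ Λ)
    (hS : S ≤ (3 * D / g + 1) * (5 * M + 2 * 1 * g * L)) :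
    M * (3 * D * (M + 2 * S)) ≤ 38 * N ^ 2 * Λ / K := by
  have hK0 : 0 < K := by linarith
  have hD0 : 0 < D := by linarith
  have hg0 : 0 < g := by linarith
  have hN0 : 0 ≤ N := le_trans (sq_nonneg D) hD
  rw [le_div_iff₀ hK0]
  obtain ⟨y, hy⟩ : ∃ y, y = 1 / g := ⟨_, rfl⟩
  have hyg : y * g = 1 := by rw [hy]; field_simp
  have hy0 : 0 ≤ y := by rw [hy]; positivity
  have hKy : K * y ≤ 1 := by
    calc K * y ≤ g * y := mul_le_mul_of_nonneg_right hg hy0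
      _ = 1 := by rw [mul_comm]; exact hyg
  have hS' : S ≤ 15 * D * M * y + 5 * M + 6 * D * L + 2 * g * L := by
    refine hS.trans (le_of_eq ?_)
    have : 3 * D / g = 3 * D * y := by rw [hy]; ring
    rw [this]
    linear_combination (6 * D * L) * hyg
  have e1 : M * (3 * D * (M + 2 * S)) * K ≤
      M * (3 * D * (M + 2 * (15 * D * M * y + 5 * M + 6 * D * L + 2 * g * L))) * K := by
    gcongr
  refine e1.trans ?_
  have hDM0 : 0 ≤ D * M := mul_nonneg hD0.le hM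
  have hx : D * M ≤ N / 4 := by linarith
  have hKM : K * M ≤ N / 4 := (mul_le_mul_of_nonneg_right hKD hM).trans hx
  have hKM0 : 0 ≤ K * M := mul_nonneg hK0.le hM
  have a1 : (D * M) * (K * M) ≤ (N / 4) * (N / 4) := mul_le_mul hx hKM hKM0 (by linarith)
  have a2 : (D * M) * (D * M) ≤ (N / 4) * (N / 4) := mul_le_mul hx hx hDM0 (by linarith)
  have a3 : (D * M) * (D * M) * (K * y) ≤ (N / 4) * (N / 4) * 1 :=
    mul_le_mul a2 hKy (mul_nonneg hK0.le hy0) (by positivity)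
  have hKDN : K * D ≤ N := by
    calc K * D ≤ D * D := mul_le_mul_of_nonneg_right hKD hD0.le
      _ = D ^ 2 := by ring
      _ ≤ N := hD
  have a4 : (K * D) * (D * M) ≤ N * (N / 4) := mul_le_mul hKDN hx hDM0 hN0
  have a5 : (K * D) * (D * M) * L ≤ N * (N / 4) * Λ :=
    mul_le_mul a4 hL hL0 (by positivity)
  have a6 : (g * K) * (D * M) ≤ N * (N / 4) := mul_le_mul hgN hx hDM0 hN0
  have a7 : (g * K) * (D * M) * L ≤ N * (N / 4) * Λ :=
    mul_le_mul a6 hL hL0 (by positivity)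
  have a8 : N ^ 2 * 1 ≤ N ^ 2 * Λ := mul_le_mul_of_nonneg_left hΛ (sq_nonneg N)
  calc M * (3 * D * (M + 2 * (15 * D * M * y + 5 * M + 6 * D * L + 2 * g * L))) * K
      = 33 * ((D * M) * (K * M)) + 90 * ((D * M) * (D * M) * (K * y)) + 36 * ((K * D) * (D * M) * L) +
        12 * ((g * K) * (D * M) * L) := by ring
    _ ≤ 33 * ((N / 4) * (N / 4)) + 90 * ((N / 4) * (N / 4) * 1) + 36 * (N * (N / 4) * Λ) +
        12 * (N * (N / 4) * Λ) := by linarith
    _ ≤ 38 * N ^ 2 * Λ := by nlinarith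

theorem diag_bound (N D M : ℕ) (K z : ℝ) (hK1 : 1 ≤ K) (hKD : K ≤ D) (hD : D ^ 2 ≤ N) (hDM : 4 * D * M ≤ N)
    (hz : ¬ Maj N K z) : (M : ℝ) * E D M z z ≤ 38 * N ^ 2 * (1 + Real.log N) / K := by
  have hD1 : 1 ≤ D := by
    have : (1 : ℝ) ≤ D := hK1.trans hKD
    exact_mod_cast this
  have hK0 : 0 < K := by linarith
  have hDN : D ≤ N := by nlinarith
  have hN1 : 1 ≤ N := hD1.trans hDN
  have hN0 : (0 : ℝ) < N := by exact_mod_cast hN1
  have hKN : K ≤ N := hKD.trans (by exact_mod_cast hDN)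
  have hNK : 1 ≤ (N : ℝ) / K := by rw [le_div_iff₀ hK0]; linarith
  have hn0 : 0 < ⌊(N : ℝ) / K⌋₊ := Nat.floor_pos.2 hNK
  obtain ⟨q, hq1, hq2⟩ := Real.exists_rat_abs_sub_le_and_den_le z hn0
  have hnle : ((⌊(N : ℝ) / K⌋₊ : ℕ) : ℝ) ≤ N / K := Nat.floor_le (by positivity)
  have hnlt : (N : ℝ) / K < (⌊(N : ℝ) / K⌋₊ : ℕ) + 1 := Nat.lt_floor_add_one _
  set n : ℕ := ⌊(N : ℝ) / K⌋₊ with hn
  have hg1 : 1 ≤ q.den := q.den_pos
  have hg0 : (0 : ℝ) < q.den := by exact_mod_cast q.den_pos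
  have hgn : (q.den : ℝ) ≤ n := by exact_mod_cast hq2
  have hqc : ((q : ℚ) : ℝ) = (q.num : ℝ) / q.den := by
    rw [Rat.cast_def]
  rw [hqc] at hq1
  have hcop : IsCoprime q.num (q.den : ℤ) := by
    rw [Int.isCoprime_iff_gcd_eq_one]
    simpa [Int.gcd, Nat.Coprime] using q.reduced
  have hα : |z - q.num / q.den| ≤ 1 / (q.den : ℝ) ^ 2 := by
    refine hq1.trans ?_
    apply one_div_le_one_div_of_le (by positivity)
    nlinarith
  have hndq : nd (q.den * z) ≤ 1 / ((n : ℝ) + 1) := by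
    have h1 := nd_le_abs ((q.den : ℝ) * z) q.num
    refine h1.trans ?_
    have h2 : (q.den : ℝ) * z - q.num = q.den * (z - q.num / q.den) := by
      field_simp
    rw [h2, abs_mul, abs_of_pos hg0]
    calc (q.den : ℝ) * |z - q.num / q.den| ≤ q.den * (1 / (((n : ℝ) + 1) * q.den)) :=
          mul_le_mul_of_nonneg_left hq1 hg0.le
      _ = 1 / ((n : ℝ) + 1) := by field_simp
  have hKg : K < q.den := by
    by_contra hcon
    apply hz
    refine ⟨q.den, hg1, not_lt.1 hcon, hndq.trans ?_⟩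
    have h3 : (1 : ℝ) / ((n : ℝ) + 1) ≤ 1 / (N / K) :=
      one_div_le_one_div_of_le (by positivity) hnlt.le
    refine h3.trans (le_of_eq ?_)
    field_simp
  have hgNK : (q.den : ℝ) * K ≤ N := by
    have h4 : (q.den : ℝ) ≤ N / K := hgn.trans hnle
    rwa [le_div_iff₀ hK0] at h4
  have hgN : (q.den : ℝ) ≤ N := by nlinarith
  have hv := vino z q.num q.den hg1 hcop hα (3 * D) M 1 (Nat.cast_nonneg _) one_pos
  simp only [div_one] at hv
  have hE := E_diag_le D M z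
  have hlog0 : 0 ≤ Real.log q.den := Real.log_nonneg (by exact_mod_cast hg1)
  have hlog : Real.log q.den ≤ Real.log N := Real.log_le_log hg0 hgN
  have hmain := diag_alg N D M q.den K (1 + Real.log q.den) (1 + Real.log N)
    (∑ h ∈ Icc 1 (3 * D), cap M (2 * nd (h * z))) hK1 hKD (by exact_mod_cast hD) (Nat.cast_nonneg _)
    (by exact_mod_cast hDM) hKg.le hgNK (by linarith) (by linarith) (by linarith)
    (by
      refine hv.trans (le_of_eq ?_)
      push_cast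
      ring)
  refine le_trans ?_ hmain
  exact mul_le_mul_of_nonneg_left hE (Nat.cast_nonneg _)

end Pool.Agent.Lib.MP_6cded1_nt.ML
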