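import Pool.Agent.Lib.MP_6cded1_nt.ML.Num1

/-!
# Numerical inequalities 2: regime I

`num_small`: with `D M ≤ N / 4`: `44 D M² / P ≤ 11 N M / P ≤ 11 N^{1 + 0.5414 - 0.1104}`, `120 D² M² / G ≤ 7.5 N² / G ≤ 15 N^{2 - 0.5136}` (`0.5136 + 1.4866 = 2.0002`),
`100 D² M (1 + log N) ≤ 25 N D (1 + log N)` (exponent `1.4586`), `20 D M T (1 + log N) ≤ 5 N T (1 + log N)` (exponent `1.4864`); the right side is `N^{1.4866} / 4`.
`num_bad`: `G / D + 1 ≤ 3 N^{0.055}`, `2 ω N / D + 1 ≤ 5 N^{0.055}`, `log G ≤ log N`, `log P1 ≥ 0.1 log N`, and `card (PP P1) ≥ P1 / log (4 P1) ≥ N^{0.1104} / (2 log N)` (`card_PP_ge`).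
`num_ratio`: exponents `2 - 0.4586 - 0.7433 = 0.7981 ≤ 0.7433 + 0.1104 - small`.
-/

set_option autoImplicit false

open Finset

namespace Pool.Agent.Lib.MP_6cded1_nt.ML

theorem num_bad : ∃ N₀ : ℕ, ∀ N : ℕ, N₀ ≤ N →
    2 * ((Gn N / Dn N + 1) * (2 * omn N * N / Dn N + 1) * Real.log (Gn N)) ≤ (PP (P1 N)).card * Real.log (P1 N) := by
  obtain ⟨N1, h1⟩ := num_basic
  obtain ⟨P0, hP0, h2⟩ := card_PP_ge
  obtain ⟨N3, h3⟩ := pow_log_le 120 2 0.11 0.1104 (by norm_num)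
  obtain ⟨N4, h4⟩ := pow_log_le (2 * (P0 : ℝ)) 0 0 0.1104 (by norm_num)
  refine ⟨max (max N1 N3) (max N4 1), fun N hN => ?_⟩
  have hN1 : N1 ≤ N := ((le_max_left _ _).trans (le_max_left _ _)).trans hN
  have hN3 : N3 ≤ N := ((le_max_right _ _).trans (le_max_left _ _)).trans hN
  have hN4 : N4 ≤ N := ((le_max_left _ _).trans (le_max_right _ _)).trans hN
  have hN5 : 1 ≤ N := ((le_max_right _ _).trans (le_max_right _ _)).trans hN
  have hNpos : (0 : ℝ) < (N : ℝ) := by exact_mod_cast hN5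
  have hNone : (1 : ℝ) ≤ (N : ℝ) := by exact_mod_cast hN5
  obtain ⟨hD1, -, -, -, hDl, -, -, hP2, hP4, -, hPl, -, -, -, -, -, hG1, -, hGu, -⟩ := h1 N hN1
  have g3 := h3 N hN3
  have g4 := h4 N hN4
  rw [pow_zero, mul_one, Real.rpow_zero, mul_one] at g4
  have hPge : P0 ≤ P1 N := by
    have : (P0 : ℝ) ≤ (P1 N : ℝ) := by linarith
    exact_mod_cast this
  have g2 := h2 (P1 N) hPge
  have hlog0 : 0 ≤ Real.log N := Real.log_nonneg hNone
  have hPpos : (0 : ℝ) < (P1 N : ℝ) := by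
    have : 0 < P1 N := by omega
    exact_mod_cast this
  have hlog : Real.log (4 * (P1 N : ℝ)) ≤ Real.log N := by
    apply Real.log_le_log (by positivity)
    exact_mod_cast hP4
  obtain ⟨L, hL⟩ : ∃ L : ℝ, L = 1 + Real.log N := ⟨_, rfl⟩
  rw [← hL] at g3
  have hL1 : 1 ≤ L := by linarith
  have hcard : (0 : ℝ) ≤ ((PP (P1 N)).card : ℝ) := Nat.cast_nonneg _
  have g5 : (N : ℝ) ^ (0.1104 : ℝ) / 2 ≤ ((PP (P1 N)).card : ℝ) * L := by
    have : ((PP (P1 N)).card : ℝ) * Real.log (4 * (P1 N : ℝ)) ≤ ((PP (P1 N)).card : ℝ) * L :=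
      mul_le_mul_of_nonneg_left (by linarith) hcard
    linarith
  have hDpos : (0 : ℝ) < (Dn N : ℝ) := by
    have : 0 < Dn N := by omega
    exact_mod_cast this
  have hGpos : (0 : ℝ) < (Gn N : ℝ) := by
    have : 0 < Gn N := by omega
    exact_mod_cast this
  obtain ⟨u, hu⟩ : ∃ u : ℝ, u = (N : ℝ) ^ (0.055 : ℝ) := ⟨_, rfl⟩
  have hu1 : 1 ≤ u := by
    rw [hu]
    exact Real.one_le_rpow hNone (by norm_num)
  have e1 : (N : ℝ) ^ (0.5136 : ℝ) = u * (N : ℝ) ^ (0.4586 : ℝ) := by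
    rw [hu, ← Real.rpow_add hNpos]
    norm_num
  have e2 : (N : ℝ) ^ (0.11 : ℝ) = u ^ 2 := by
    rw [hu, sq, ← Real.rpow_add hNpos]
    norm_num
  have e3 : omn N * N = (N : ℝ) ^ (0.5136 : ℝ) := by
    unfold omn
    have : (N : ℝ) ^ (-0.4864 : ℝ) * N = (N : ℝ) ^ (-0.4864 : ℝ) * (N : ℝ) ^ (1 : ℝ) := by
      rw [Real.rpow_one]
    rw [this, ← Real.rpow_add hNpos]
    norm_num
  have k1 : (Gn N : ℝ) / Dn N + 1 ≤ 3 * u := by
    have : (Gn N : ℝ) / Dn N ≤ 2 * u := by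
      rw [div_le_iff₀ hDpos]
      have := mul_le_mul_of_nonneg_left hDl (show 0 ≤ 2 * u by linarith)
      rw [e1] at hGu
      linarith
    linarith
  have k2 : 2 * omn N * N / Dn N + 1 ≤ 5 * u := by
    have : 2 * omn N * N / Dn N ≤ 4 * u := by
      rw [div_le_iff₀ hDpos, mul_assoc 2, e3, e1]
      have := mul_le_mul_of_nonneg_left hDl (show 0 ≤ 4 * u by linarith)
      linarith
    linarith
  have hGN : (Gn N : ℝ) ≤ N := by
    refine hGu.trans ?_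
    calc (N : ℝ) ^ (0.5136 : ℝ) ≤ (N : ℝ) ^ (1 : ℝ) :=
          Real.rpow_le_rpow_of_exponent_le hNone (by norm_num)
      _ = N := Real.rpow_one _
  have k3 : Real.log (Gn N) ≤ L := by
    have := Real.log_le_log hGpos hGN
    linarith
  have k30 : 0 ≤ Real.log (Gn N) := by
    apply Real.log_nonneg
    exact_mod_cast hG1
  have k4 : (1 : ℝ) / 2 ≤ Real.log (P1 N) := by
    have h2' : (2 : ℝ) ≤ (P1 N : ℝ) := by exact_mod_cast hP2
    have := Real.log_le_log (by norm_num) h2'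
    have := Real.log_two_gt_d9
    linarith
  have hom : 0 ≤ omn N := by
    unfold omn
    positivity
  have k5 : (Gn N / Dn N + 1) * (2 * omn N * N / Dn N + 1) * Real.log (Gn N) ≤ 3 * u * (5 * u) * L := by
    apply mul_le_mul _ k3 k30 (by positivity)
    exact mul_le_mul k1 k2 (by positivity) (by positivity)
  have k6 : ((PP (P1 N)).card : ℝ) * (1 / 2) ≤ (PP (P1 N)).card * Real.log (P1 N) :=
    mul_le_mul_of_nonneg_left k4 hcard
  have k7 : 30 * u ^ 2 * L ≤ ((PP (P1 N)).card : ℝ) * (1 / 2) := by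
    rw [e2] at g3
    have k8 : L * (30 * u ^ 2 * L) ≤ L * (((PP (P1 N)).card : ℝ) * (1 / 2)) := by
      have : L * (30 * u ^ 2 * L) = (120 * L ^ 2 * u ^ 2) / 4 := by ring
      rw [this]
      linarith
    exact le_of_mul_le_mul_left k8 (by linarith)
  linarith

end Pool.Agent.Lib.MP_6cded1_nt.ML
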