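import Pool.Agent.Lib.MP_6cded1_nt.ML.Num1

/-!
# Numerical inequalities 2: regime I

`num_small`: with `D M ≤ N / 4`: `44 D M² / P ≤ 11 N M / P ≤ 11 N^{1 + 0.5414 - 0.1104}`, `120 D² M² / G ≤ 7.5 N² / G ≤ 15 N^{2 - 0.5136}` (`0.5136 + 1.4866 = 2.0002`),
`100 D² M (1 + log N) ≤ 25 N D (1 + log N)` (exponent `1.4586`), `20 D M T (1 + log N) ≤ 5 N T (1 + log N)` (exponent `1.4864`); the right side is `N^{1.4866} / 4`.
`num_bad`: `G / D + 1 ≤ 3 N^{0.055}`, `2 ω N / D + 1 ≤ 5 N^{0.055}`, `log G ≤ log N`, `log P1 ≥ 0.1 log N`, and `card (PP P1) ≥ P1 / log (4 P1) ≥ N^{0.1104} / (2 log N)` (`card_PP_ge`).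
`num_ratio`: exponents `2 - 0.4586 - 0.7433 = 0.7981 ≤ 0.7433 + 0.1104 - small`.
-/

set_option autoImplicit false

open Finset

namespace Pool.Agent.Lib.MP_6cded1_nt.ML

theorem num_ratio : ∃ N₀ : ℕ, ∀ N : ℕ, N₀ ≤ N →
    102 * (N : ℝ) ^ 2 * (1 + Real.log N) / (Dn N * tn N) ≤ (PP (P1 N)).card * tn N := by
  obtain ⟨N1, h1⟩ := num_basic
  obtain ⟨P0, hP0, h2⟩ := card_PP_ge
  obtain ⟨N3, h3⟩ := pow_log_le 408 2 0.7981 0.8537 (by norm_num)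
  obtain ⟨N4, h4⟩ := pow_log_le (2 * (P0 : ℝ)) 0 0 0.1104 (by norm_num)
  refine ⟨max (max N1 N3) (max N4 1), fun N hN => ?_⟩
  have hN1 : N1 ≤ N := ((le_max_left _ _).trans (le_max_left _ _)).trans hN
  have hN3 : N3 ≤ N := ((le_max_right _ _).trans (le_max_left _ _)).trans hN
  have hN4 : N4 ≤ N := ((le_max_left _ _).trans (le_max_right _ _)).trans hN
  have hN5 : 1 ≤ N := ((le_max_right _ _).trans (le_max_right _ _)).trans hN
  have hNpos : (0 : ℝ) < (N : ℝ) := by exact_mod_cast hN5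
  have hNone : (1 : ℝ) ≤ (N : ℝ) := by exact_mod_cast hN5
  obtain ⟨hD1, -, -, -, hDl, -, -, hP2, hP4, -, hPl, -⟩ := h1 N hN1
  have g3 := h3 N hN3
  have g4 := h4 N hN4
  rw [pow_zero, mul_one, Real.rpow_zero, mul_one] at g4
  have hPge : P0 ≤ P1 N := by
    have : (P0 : ℝ) ≤ (P1 N : ℝ) := by linarith
    exact_mod_cast this
  have g2 := h2 (P1 N) hPge
  have hlog0 : 0 ≤ Real.log N := Real.log_nonneg hNone
  have hPpos : (0 : ℝ) < (P1 N : ℝ) := by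
    have : 0 < P1 N := by omega
    exact_mod_cast this
  have hlog : Real.log (4 * (P1 N : ℝ)) ≤ Real.log N := by
    apply Real.log_le_log (by positivity)
    exact_mod_cast hP4
  obtain ⟨L, hL⟩ : ∃ L : ℝ, L = 1 + Real.log N := ⟨_, rfl⟩
  rw [← hL] at g3 ⊢
  have hL1 : 1 ≤ L := by linarith
  have hcard : (0 : ℝ) ≤ ((PP (P1 N)).card : ℝ) := Nat.cast_nonneg _
  have g5 : (N : ℝ) ^ (0.1104 : ℝ) / 2 ≤ ((PP (P1 N)).card : ℝ) * L := by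
    have : ((PP (P1 N)).card : ℝ) * Real.log (4 * (P1 N : ℝ)) ≤ ((PP (P1 N)).card : ℝ) * L :=
      mul_le_mul_of_nonneg_left (by linarith) hcard
    linarith
  have htn : tn N = (N : ℝ) ^ (0.7433 : ℝ) := rfl
  have htpos : 0 < tn N := by rw [htn]; positivity
  have hDpos : (0 : ℝ) < (Dn N : ℝ) := by
    have : 0 < Dn N := by omega
    exact_mod_cast this
  rw [div_le_iff₀ (mul_pos hDpos htpos)]
  -- multiply by L
  have e1 : (N : ℝ) ^ 2 = (N : ℝ) ^ (1.2019 : ℝ) * (N : ℝ) ^ (0.7981 : ℝ) := by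
    rw [← Real.rpow_add hNpos, ← Real.rpow_natCast]
    norm_num
  have e2 : (N : ℝ) ^ (1.2019 : ℝ) * (N : ℝ) ^ (0.8537 : ℝ) =
      (N : ℝ) ^ (0.1104 : ℝ) * (N : ℝ) ^ (0.4586 : ℝ) * ((N : ℝ) ^ (0.7433 : ℝ)) ^ 2 := by
    rw [sq, ← Real.rpow_add hNpos, ← Real.rpow_add hNpos, ← Real.rpow_add hNpos,
      ← Real.rpow_add hNpos]
    norm_num
  have k1 : 408 * L ^ 2 * (N : ℝ) ^ 2 ≤
      (N : ℝ) ^ (0.1104 : ℝ) * (N : ℝ) ^ (0.4586 : ℝ) * (tn N) ^ 2 := by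
    rw [htn, ← e2, e1]
    have := mul_le_mul_of_nonneg_left g3 (show 0 ≤ (N : ℝ) ^ (1.2019 : ℝ) by positivity)
    linarith
  have k2 : (N : ℝ) ^ (0.1104 : ℝ) / 2 * ((N : ℝ) ^ (0.4586 : ℝ) / 2) ≤
      ((PP (P1 N)).card : ℝ) * L * (Dn N : ℝ) :=
    mul_le_mul g5 hDl (by positivity) (by positivity)
  have k3 := mul_le_mul_of_nonneg_right k2 (sq_nonneg (tn N))
  have k4 : L * (102 * (N : ℝ) ^ 2 * L) ≤
      L * (((PP (P1 N)).card : ℝ) * tn N * ((Dn N : ℝ) * tn N)) := by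
    have e3 : L * (102 * (N : ℝ) ^ 2 * L) = (408 * L ^ 2 * (N : ℝ) ^ 2) / 4 := by ring
    have e4 : L * (((PP (P1 N)).card : ℝ) * tn N * ((Dn N : ℝ) * tn N)) =
        ((PP (P1 N)).card : ℝ) * L * (Dn N : ℝ) * (tn N) ^ 2 := by ring
    rw [e3, e4]
    linarith
  exact le_of_mul_le_mul_left k4 (by linarith)

end Pool.Agent.Lib.MP_6cded1_nt.ML
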