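import Pool.Agent.Lib.MP_6cded1_nt.ML.Num1

/-!
# The pairing is large

`a d = f d` for prime `d`, `0` otherwise; the same for `b`.  For primes `d ≠ m`: `f (d m) conj (f d f m) = |f d|² |f m|² = 1` (`Mult.mul`, `Mult.one`); for `d = m`: `f (d²) = 0`; the other terms are `0`.  So the sum is the number of pairs of
different primes `d ∈ (D, 4D]`, `m ≤ M`: at least `card (PP D) * (card (PP (M / 4)) - 1)` (`PP (M / 4) ⊆ Icc 1 M`), and by `card_PP_ge` and `num_basic` (`D ≥ N^{0.4586} / 2`, `M = ⌊N / (4D)⌋ ≥ N^{0.5414} / 8`) this is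
`≥ N / (C log² N) ≥ N^{0.9999}`.  (`log (4 D) ≤ log N`, `log (4 (M / 4)) ≤ log N`.)
-/

set_option autoImplicit false

open Finset

namespace Pool.Agent.Lib.MP_6cded1_nt.ML

theorem pairing_low : ∃ N₀ : ℕ, ∀ N : ℕ, N₀ ≤ N →
    (N : ℝ) ^ (0.99999 : ℝ) ≤ ((PP (Dn N)).card : ℝ) * ((PP (Mn N / 4)).card - 1) := by
  obtain ⟨N0, hN0⟩ := num_basic
  obtain ⟨P0, hP0, hP⟩ := card_PP_ge
  obtain ⟨N1, hN1⟩ := pow_log_le 256 2 (0.99999 : ℝ) 1 (by norm_num)
  obtain ⟨N2, hN2⟩ := pow_log_le (64 * P0) 0 0 (0.4586 : ℝ) (by norm_num)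
  obtain ⟨N3, hN3⟩ := pow_log_le 128 1 0 (0.5414 : ℝ) (by norm_num)
  obtain ⟨N4, hN4⟩ := pow_log_le (64 * P0) 0 0 (0.5414 : ℝ) (by norm_num)
  refine ⟨max 1 (max N0 (max (max N1 N2) (max N3 N4))), fun N hN => ?_⟩
  have hN1' : 1 ≤ N := le_trans (le_max_left _ _) hN
  have hNa : max N0 (max (max N1 N2) (max N3 N4)) ≤ N := le_trans (le_max_right _ _) hN
  have hNb : max (max N1 N2) (max N3 N4) ≤ N := le_trans (le_max_right _ _) hNa
  obtain ⟨hD1, -, hDM, hM1, hDlo, hDhi, -, -⟩ := hN0 N (le_trans (le_max_left _ _) hNa)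
  have a1 := hN1 N (le_trans (le_trans (le_max_left _ _) (le_max_left _ _)) hNb)
  have a2 := hN2 N (le_trans (le_trans (le_max_right _ _) (le_max_left _ _)) hNb)
  have a3 := hN3 N (le_trans (le_trans (le_max_left _ _) (le_max_right _ _)) hNb)
  have a4 := hN4 N (le_trans (le_trans (le_max_right _ _) (le_max_right _ _)) hNb)
  simp only [pow_zero, pow_one, mul_one, Real.rpow_zero, Real.rpow_one] at a1 a2 a3 a4
  have hX : (1 : ℝ) ≤ N := by exact_mod_cast hN1'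
  have hX0 : (0 : ℝ) < N := by linarith
  have hP0' : (2 : ℝ) ≤ P0 := by exact_mod_cast hP0
  set L : ℝ := 1 + Real.log N with hL
  have hL1 : 1 ≤ L := by
    have := Real.log_nonneg hX
    linarith
  set X : ℝ := (N : ℝ) ^ (0.4586 : ℝ) with hXdef
  set Y : ℝ := (N : ℝ) ^ (0.5414 : ℝ) with hYdef
  have hXpos : 0 < X := Real.rpow_pos_of_pos hX0 _
  have hYpos : 0 < Y := Real.rpow_pos_of_pos hX0 _
  have hXY : (N : ℝ) = X * Y := by
    rw [hXdef, hYdef, ← Real.rpow_add hX0]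
    norm_num
  have hDpos : (0 : ℝ) < Dn N := by exact_mod_cast hD1
  -- lower bound for `M`
  have hMlo : Y / 4 - 1 ≤ (Mn N : ℝ) := by
    have h1 : N < 4 * Dn N * (Mn N + 1) := by
      have := Nat.lt_mul_div_succ N (show 0 < 4 * Dn N by omega)
      exact this
    have h2 : (N : ℝ) < 4 * Dn N * (Mn N + 1) := by exact_mod_cast h1
    have h3 : 4 * (Dn N : ℝ) * (Mn N + 1) ≤ 4 * X * (Mn N + 1) := by
      apply mul_le_mul_of_nonneg_right _ (by positivity)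
      linarith
    have h4 : X * Y < X * (4 * (Mn N + 1)) := by
      rw [← hXY]
      calc (N : ℝ) < 4 * Dn N * (Mn N + 1) := h2
        _ ≤ 4 * X * (Mn N + 1) := h3
        _ = X * (4 * (Mn N + 1)) := by ring
    have h5 := lt_of_mul_lt_mul_left h4 hXpos.le
    linarith
  have hm4 : (Mn N : ℝ) / 4 - 1 ≤ ((Mn N / 4 : ℕ) : ℝ) := by
    have h1 : Mn N < 4 * (Mn N / 4 + 1) := by omega
    have h2 : (Mn N : ℝ) < 4 * (((Mn N / 4 : ℕ) : ℝ) + 1) := by exact_mod_cast h1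
    linarith
  have hY128 : 128 ≤ Y := by nlinarith
  have hm4lo : Y / 32 ≤ ((Mn N / 4 : ℕ) : ℝ) := by linarith
  have hP0m : P0 ≤ Mn N / 4 := by
    have : (P0 : ℝ) ≤ ((Mn N / 4 : ℕ) : ℝ) := by linarith
    exact_mod_cast this
  have hP0D : P0 ≤ Dn N := by
    have : (P0 : ℝ) ≤ (Dn N : ℝ) := by linarith
    exact_mod_cast this
  have hm4N : 4 * (Mn N / 4) ≤ N := by
    have h1 : 4 * (Mn N / 4) ≤ Mn N := Nat.mul_div_le _ _
    have h2 : Mn N ≤ 4 * Dn N * Mn N := Nat.le_mul_of_pos_left _ (by omega)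
    omega
  have hDN : 4 * Dn N ≤ N := by
    have h2 : 4 * Dn N ≤ 4 * Dn N * Mn N := Nat.le_mul_of_pos_right _ (by omega)
    omega
  have hlog : ∀ P : ℕ, 1 ≤ P → 4 * P ≤ N → Real.log (4 * P) ≤ L := by
    intro P hP1 hPN
    have h1 : (4 : ℝ) * P ≤ N := by exact_mod_cast hPN
    have h2 : (0 : ℝ) < 4 * P := by
      have : (1 : ℝ) ≤ P := by exact_mod_cast hP1
      linarith
    have := Real.log_le_log h2 h1
    linarith
  have hcD : (Dn N : ℝ) ≤ (PP (Dn N)).card * L :=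
    (hP _ hP0D).trans (mul_le_mul_of_nonneg_left (hlog _ hD1 hDN) (Nat.cast_nonneg _))
  have hcM : ((Mn N / 4 : ℕ) : ℝ) ≤ (PP (Mn N / 4)).card * L :=
    (hP _ hP0m).trans (mul_le_mul_of_nonneg_left (hlog _ (by omega) hm4N) (Nat.cast_nonneg _))
  set cD : ℝ := ((PP (Dn N)).card : ℝ) with hcDdef
  set cM : ℝ := ((PP (Mn N / 4)).card : ℝ) with hcMdef
  have hLpos : 0 < L := by linarith
  have hcM2 : Y / 64 ≤ (cM - 1) * L := by
    have : Y / 32 ≤ cM * L := hm4lo.trans hcM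
    nlinarith
  have hcD2 : X / 2 ≤ cD * L := by linarith
  have h6 : X / 2 * (Y / 64) ≤ (cD * L) * ((cM - 1) * L) :=
    mul_le_mul hcD2 hcM2 (by linarith) (mul_nonneg (Nat.cast_nonneg _) hLpos.le)
  have h7 : (N : ℝ) ≤ 128 * (cD * (cM - 1)) * L ^ 2 := by
    rw [hXY]
    nlinarith
  have h8 : 256 * L ^ 2 * (N : ℝ) ^ (0.99999 : ℝ) ≤ 128 * (cD * (cM - 1)) * L ^ 2 := a1.trans h7
  have h9 : L ^ 2 * (256 * (N : ℝ) ^ (0.99999 : ℝ)) ≤ L ^ 2 * (128 * (cD * (cM - 1))) := by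
    nlinarith
  have h10 := le_of_mul_le_mul_left h9 (by positivity)
  have h11 : 0 ≤ (N : ℝ) ^ (0.99999 : ℝ) := Real.rpow_nonneg hX0.le _
  linarith

end Pool.Agent.Lib.MP_6cded1_nt.ML
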