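import Pool.Agent.Lib.MP_6cded1_nt.ML.RegI2
import Pool.Agent.Lib.MP_6cded1_nt.ML.Num2
import Pool.Agent.Lib.MP_6cded1_nt.ML.Bad2
import Pool.Agent.Lib.MP_6cded1_nt.ML.PairLow

/-!
# Regime I with the final parameters
-/

set_option autoImplicit false

open Finset

namespace Pool.Agent.Lib.MP_6cded1_nt.ML

open Classical in
theorem regI_final : ∃ N₀ : ℕ, ∀ N : ℕ, N₀ ≤ N → ∀ f : ℕ → ℂ, Mult f → ∀ (W : ℕ) (t : ℝ), 1 ≤ W →
    (∀ p : ℕ, p.Prime → p ≤ N → p ^ 2 ∣ W) →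
    EE W t (fun z => ‖F f N z‖ * sel (¬ Maj N (Dn N) z ∧ tn N < ‖B (fp f) (fp f) (Dn N) (Mn N) z‖)
      ‖B (fp f) (fp f) (Dn N) (Mn N) z‖) ≤ tn N * EE W t (fun z => ‖F f N z‖) := by
  obtain ⟨N1, h1⟩ := num_basic
  obtain ⟨N2, h2⟩ := num_small
  obtain ⟨N3, h3⟩ := num_bad
  obtain ⟨N4, h4⟩ := num_ratio
  refine ⟨max (max N1 N2) (max N3 N4), ?_⟩
  intro N hN f hf W t hW hpW
  obtain ⟨b1, b2, b3, b4, b5, b6, b7, b8, b9, b10, b11, b12, b13, b14, b15, b16, b17, b18, b19, b20, b21⟩ :=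
    h1 N (le_trans (le_max_left _ _) (le_trans (le_max_left _ _) hN))
  have c2 := h2 N (le_trans (le_max_right _ _) (le_trans (le_max_left _ _) hN))
  have c3 := h3 N (le_trans (le_max_left _ _) (le_trans (le_max_right _ _) hN))
  have c4 := h4 N (le_trans (le_max_right _ _) (le_trans (le_max_right _ _) hN))
  have hN1 : 1 ≤ N := le_trans (Nat.one_le_pow _ _ b1) b2
  have hτ : 0 < tn N := lt_of_lt_of_le one_pos b20
  have hD0 : (0 : ℝ) < Dn N := by exact_mod_cast b1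
  have hlogP : 0 < Real.log (P1 N) := Real.log_pos (by exact_mod_cast b8)
  have hbad : ∀ z, ¬ Maj N (Dn N) z →
      2 * ((PP (P1 N)).filter fun p => ∃ g ∈ Icc 1 (Gn N), p ∣ g ∧ nd (g * z) ≤ omn N).card ≤ (PP (P1 N)).card := by
    intro z hz
    have d1 := card_bad N (P1 N) (Gn N) hN1 b8 b17 (Dn N) (omn N) z hD0 b16.le hz
    have d2 : (2 * ((PP (P1 N)).filter fun p => ∃ g ∈ Icc 1 (Gn N), p ∣ g ∧ nd (g * z) ≤ omn N).card : ℝ) *
        Real.log (P1 N) ≤ (PP (P1 N)).card * Real.log (P1 N) := by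
      linarith
    have d3 := le_of_mul_le_mul_right d2 hlogP
    exact_mod_cast d3
  have key := regI f hf (fp f) (fp f) (norm_fp_le f hf) (norm_fp_le f hf) N (Dn N) (Mn N) (P1 N) (Tn N) (Gn N) W t
    (omn N) (tn N) hW (fun p hp => by
      have hp' := hp
      unfold PP at hp'
      rw [Finset.mem_filter, Finset.mem_Ioc] at hp'
      exact hpW p hp'.2 (le_trans hp'.1.2 b9)) b1 b2 b3 (le_trans one_le_two b8) b10 b12 b13 b15 b17 hτ c2 hbad
  have hE0 : 0 ≤ EE W t (fun z => ‖F f N z‖) := by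
    unfold EE
    exact div_nonneg (Finset.sum_nonneg fun j _ => norm_nonneg _) (Nat.cast_nonneg _)
  have hcard : (0 : ℝ) < (PP (P1 N)).card := by
    have h5 : 0 < 102 * (N : ℝ) ^ 2 * (1 + Real.log N) / (Dn N * tn N) := by
      have h6 : (0 : ℝ) ≤ Real.log N := Real.log_nonneg (by exact_mod_cast hN1)
      have h7 : (0 : ℝ) < N := by exact_mod_cast hN1
      positivity
    have h8 : 0 < (PP (P1 N)).card * tn N := lt_of_lt_of_le h5 c4
    exact (pos_iff_pos_of_mul_pos h8).2 hτ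
  have h9 := mul_le_mul_of_nonneg_right c4 hE0
  have h10 := key.trans h9
  rw [mul_assoc] at h10
  exact le_of_mul_le_mul_left h10 hcard

end Pool.Agent.Lib.MP_6cded1_nt.ML
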