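import Pool.Agent.Lib.MP_6cded1_nt.ML.Star1

/-!
# A star point is determined by `(p, q)`

`|v y - A| ≤ p² K / N ≤ 16 P² K / N < 1 / 2` for both, `v = v'`, so `A = A'` (integers at distance `< 1`).  `p² a - q b = p² a' - q b'`, so `p² ∣ q (b - b')`, `p ∤ q`,
`p² ∣ b - b'`, `b = b'`.
-/

set_option autoImplicit false

open Finset

namespace Pool.Agent.Lib.MP_6cded1_nt.ML

theorem star_inj (N P : ℕ) (hN : 1 ≤ N) (K : ℝ) (Λ : ℝ → Prop) (hK : 0 ≤ K) (hΛ : ∀ z, Λ z → Maj N K z)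
    (hKP : 32 * K * P ^ 2 < N) (y : ℝ) (s s' : Σ _ : ℕ, ℕ) (hs : s ∈ stars N P K Λ y) (hs' : s' ∈ stars N P K Λ y)
    (h1 : s.1 = s'.1) (h2 : sden N K y s = sden N K y s') : s = s' := by
  obtain ⟨hp1, -, hp3, hb1, hb2, hq1, -, hpq, -, -, hy, -⟩ := star_basic N P K Λ hK hΛ y s hs
  obtain ⟨-, -, -, hb1', hb2', -, -, -, -, -, hy', -⟩ := star_basic N P K Λ hK hΛ y s' hs'
  have hN0 : (0 : ℝ) < N := by exact_mod_cast hN
  have hp0 : (0 : ℝ) < s.1 := by exact_mod_cast hp1.pos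
  have hpP : (s.1 : ℝ) ≤ 4 * P := by exact_mod_cast hp3
  have hv : sv N K y s' = sv N K y s := by
    unfold sv
    rw [h1, h2]
  rw [hv] at hy'
  have hsmall : (s.1 : ℝ) ^ 2 * K / N < 1 / 2 := by
    rw [div_lt_iff₀ hN0]
    have h3 : (s.1 : ℝ) ^ 2 ≤ (4 * P) ^ 2 := pow_le_pow_left₀ hp0.le hpP 2
    have h4 : (s.1 : ℝ) ^ 2 * K ≤ (4 * P) ^ 2 * K := mul_le_mul_of_nonneg_right h3 hK
    nlinarith
  rw [← h1] at hy'
  have hA : sA N K y s = sA N K y s' := by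
    have h3 : |(sA N K y s : ℝ) - sA N K y s'| < 1 := by
      have h4 : (sA N K y s : ℝ) - sA N K y s' =
          ((sv N K y s : ℝ) * y - sA N K y s') - ((sv N K y s : ℝ) * y - sA N K y s) := by ring
      rw [h4]
      refine lt_of_le_of_lt (abs_sub _ _) ?_
      linarith
    have h5 : |sA N K y s - sA N K y s'| < 1 := by exact_mod_cast h3
    have h6 := Int.abs_lt_one_iff.mp h5
    omega
  unfold sA at hA
  rw [← h1, ← h2] at hA
  have hdvd : ((s.1 : ℤ) ^ 2) ∣ (sden N K y s : ℤ) * ((s.2 : ℤ) - s'.2) := by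
    refine ⟨round ((sden N K y s : ℝ) * pt y s) - round ((sden N K y s : ℝ) * pt y s'), ?_⟩
    linarith
  have hcop : IsCoprime ((s.1 : ℤ) ^ 2) (sden N K y s : ℤ) := by
    apply IsCoprime.pow_left
    rw [Nat.isCoprime_iff_coprime]
    exact (Nat.Prime.coprime_iff_not_dvd hp1).mpr hpq
  have hdvd2 := hcop.dvd_of_dvd_mul_left hdvd
  have hb2r : (s.2 : ℤ) < (s.1 : ℤ) ^ 2 := by exact_mod_cast hb2
  have hb2r' : (s'.2 : ℤ) < (s.1 : ℤ) ^ 2 := by
    rw [h1]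
    exact_mod_cast hb2'
  have h7 : (s.2 : ℤ) - s'.2 = 0 := by
    apply Int.eq_zero_of_abs_lt_dvd hdvd2
    rw [abs_lt]
    constructor
    · have : (0 : ℤ) < s.2 := by exact_mod_cast hb1
      linarith
    · have : (0 : ℤ) < s'.2 := by exact_mod_cast hb1'
      linarith
  have h8 : s.2 = s'.2 := by omega
  obtain ⟨p, b⟩ := s
  obtain ⟨p', b'⟩ := s'
  simp only at h1 h8
  subst h1
  subst h8
  rfl

end Pool.Agent.Lib.MP_6cded1_nt.ML
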