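import Pool.Agent.Lib.MP_6cded1_nt.ML.Near2
import Pool.Agent.Lib.MP_6cded1_nt.ML.Star4

/-!
# Case B: the sum over the grid of the number of pairs

For every `j` the map `(s, s') ↦ ((s.1, sden s), (s'.1, sden s'))` into `(PP P × QQ)²` is injective (`star_inj`), and `y = gp W t j` belongs to the set of `near_count` for `v = q p²`, `v' = q' p'²`,
`η = K / (q N)`, `η' = K / (q' N)`, `A = sA`, `A' = sA` (`star_basic`, `Dif`).  Interchange the sums.  By symmetry we may use `near_count` with the smaller of `η, η'` first: if `η ≤ η'`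
then `12 (η + η') η v v' ≤ 24 η η' v v' = 24 (K / N)² p² p'² ≤ 6144 (K P²)² / N²`.  (`η ≥ 1 / N ≥ 1 / W` since `q ≤ K`; `η v = K p² / N ≤ 16 K P² / N < 1/2`.)
-/

set_option autoImplicit false

open Finset

namespace Pool.Agent.Lib.MP_6cded1_nt.ML

open Classical in
private lemma pairs_one_aux (N W : ℕ) (hN : 1 ≤ N) (hNW : N ≤ W) (K t : ℝ) (hK : 0 < K)
    (P p q p' q' : ℕ) (hq : 1 ≤ q) (hqK : (q : ℝ) ≤ K) (hq' : 1 ≤ q')
    (hp : 1 ≤ p) (hp' : 1 ≤ p') (hp4 : p ≤ 4 * P) (hp4' : p' ≤ 4 * P)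
    (hKP : 32 * K * P ^ 2 < N) (ht : 0 ≤ t) (ht' : t ≤ 1 / W) (hqq : q' ≤ q) :
    (((range W).filter fun j => ∃ A A' : ℤ, |gp W t j - A / ((q * p ^ 2 : ℕ) : ℝ)| ≤ K / (q * N) ∧
      |gp W t j - A' / ((q' * p' ^ 2 : ℕ) : ℝ)| ≤ K / (q' * N) ∧
      A * ((q' * p' ^ 2 : ℕ) : ℤ) ≠ A' * ((q * p ^ 2 : ℕ) : ℤ)).card : ℝ) ≤
      6144 * (K * P ^ 2) ^ 2 / N ^ 2 * W := by
  have hNr : (0 : ℝ) < N := by exact_mod_cast hN
  have hWr : (0 : ℝ) < W := by exact_mod_cast (lt_of_lt_of_le hN hNW)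
  have hqr : (0 : ℝ) < q := by exact_mod_cast hq
  have hqr' : (0 : ℝ) < q' := by exact_mod_cast hq'
  have hpr : (0 : ℝ) < p := by exact_mod_cast hp
  have hpr' : (0 : ℝ) < p' := by exact_mod_cast hp'
  have hNWr : (N : ℝ) ≤ W := by exact_mod_cast hNW
  have hp4r : (p : ℝ) ≤ 4 * P := by exact_mod_cast hp4
  have hp4r' : (p' : ℝ) ≤ 4 * P := by exact_mod_cast hp4'
  have hP0 : (0 : ℝ) ≤ P := Nat.cast_nonneg P
  have hqqr : (q' : ℝ) ≤ q := by exact_mod_cast hqq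
  have hη : 1 / (W : ℝ) ≤ K / (q * N) := by
    rw [div_le_div_iff₀ hWr (by positivity)]
    have : (q : ℝ) * N ≤ K * W := mul_le_mul hqK hNWr hNr.le hK.le
    linarith
  have hη' : 0 ≤ K / (q' * N) := by positivity
  have hηv : K / (q * N) * ((q * p ^ 2 : ℕ) : ℝ) < 1 / 2 := by
    have h1 : K / (q * N) * ((q * p ^ 2 : ℕ) : ℝ) = K * p ^ 2 / N := by
      push_cast
      field_simp
    rw [h1, div_lt_div_iff₀ hNr (by norm_num)]
    have h2 : (p : ℝ) ^ 2 ≤ (4 * P) ^ 2 := pow_le_pow_left₀ hpr.le hp4r 2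
    have h3 : K * (p : ℝ) ^ 2 ≤ K * (4 * P) ^ 2 := mul_le_mul_of_nonneg_left h2 hK.le
    nlinarith
  have hmain := near_count W (q * p ^ 2) (q' * p' ^ 2) (lt_of_lt_of_le hN hNW)
    (Nat.mul_pos hq (pow_pos hp 2)) (Nat.mul_pos hq' (pow_pos hp' 2)) (K / (q * N)) (K / (q' * N)) t
    hη hη' hηv ht ht'
  refine hmain.trans ?_
  refine mul_le_mul_of_nonneg_right ?_ hWr.le
  have hle : K / (q * N) ≤ K / (q' * N) := by
    apply div_le_div_of_nonneg_left hK.le (by positivity)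
    exact mul_le_mul_of_nonneg_right hqqr hNr.le
  have h0 : 0 ≤ K / (q * N) := by positivity
  have hv0 : (0 : ℝ) ≤ ((q * p ^ 2 : ℕ) : ℝ) := Nat.cast_nonneg _
  have hv0' : (0 : ℝ) ≤ ((q' * p' ^ 2 : ℕ) : ℝ) := Nat.cast_nonneg _
  calc 12 * (K / (q * N) + K / (q' * N)) * (K / (q * N)) * ((q * p ^ 2 : ℕ) : ℝ)
        * ((q' * p' ^ 2 : ℕ) : ℝ)
      ≤ 12 * (K / (q' * N) + K / (q' * N)) * (K / (q * N)) * ((q * p ^ 2 : ℕ) : ℝ)
        * ((q' * p' ^ 2 : ℕ) : ℝ) := by gcongr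
    _ = 24 * K ^ 2 * (p ^ 2 * p' ^ 2) / N ^ 2 := by
        push_cast
        field_simp
        ring
    _ ≤ 24 * K ^ 2 * ((4 * P) ^ 2 * (4 * P) ^ 2) / N ^ 2 := by gcongr
    _ = 6144 * (K * P ^ 2) ^ 2 / N ^ 2 := by ring

open Classical in
private lemma pairs_one (N W : ℕ) (hN : 1 ≤ N) (hNW : N ≤ W) (K t : ℝ) (hK : 0 < K)
    (P p q p' q' : ℕ) (hq : 1 ≤ q) (hqK : (q : ℝ) ≤ K) (hq' : 1 ≤ q') (hqK' : (q' : ℝ) ≤ K)
    (hp : 1 ≤ p) (hp' : 1 ≤ p') (hp4 : p ≤ 4 * P) (hp4' : p' ≤ 4 * P)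
    (hKP : 32 * K * P ^ 2 < N) (ht : 0 ≤ t) (ht' : t ≤ 1 / W) :
    (((range W).filter fun j => ∃ A A' : ℤ, |gp W t j - A / ((q * p ^ 2 : ℕ) : ℝ)| ≤ K / (q * N) ∧
      |gp W t j - A' / ((q' * p' ^ 2 : ℕ) : ℝ)| ≤ K / (q' * N) ∧
      A * ((q' * p' ^ 2 : ℕ) : ℤ) ≠ A' * ((q * p ^ 2 : ℕ) : ℤ)).card : ℝ) ≤
      6144 * (K * P ^ 2) ^ 2 / N ^ 2 * W := by
  rcases le_total q' q with h | h
  · exact pairs_one_aux N W hN hNW K t hK P p q p' q' hq hqK hq' hp hp' hp4 hp4' hKP ht ht' h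
  · have h1 := pairs_one_aux N W hN hNW K t hK P p' q' p q hq' hqK' hq hp' hp hp4' hp4 hKP ht ht' h
    refine le_trans ?_ h1
    refine Nat.cast_le.2 (card_le_card ?_)
    intro j hj
    rw [mem_filter] at hj ⊢
    refine ⟨hj.1, ?_⟩
    obtain ⟨A, A', ha, hb, hc⟩ := hj.2
    exact ⟨A', A, hb, ha, fun h => hc h.symm⟩

open Classical in
theorem pairs_sum (N P W : ℕ) (hN : 1 ≤ N) (hP : 1 ≤ P) (hNW : N ≤ W) (K Q t : ℝ) (hK : 0 < K) (Λ : ℝ → Prop)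
    (hΛ : ∀ z, Λ z → Maj N K z) (hKP : 32 * K * P ^ 2 < N) (ht : 0 ≤ t) (ht' : t ≤ 1 / W) (QQ : Finset ℕ)
    (hQQ : ∀ y, ∀ s ∈ stars' N P K Q Λ y, sden N K y s ∈ QQ) :
    (∑ j ∈ range W, (((stars' N P K Q Λ (gp W t j) ×ˢ stars' N P K Q Λ (gp W t j)).filter fun x =>
      Dif N K (gp W t j) x.1 x.2).card : ℝ)) ≤
      6144 * ((PP P).card * QQ.card) ^ 2 * (K * P ^ 2) ^ 2 / N ^ 2 * W := by
  have hNr : (0 : ℝ) < N := by exact_mod_cast hN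
  have hB0 : (0 : ℝ) ≤ 6144 * (K * P ^ 2) ^ 2 / N ^ 2 * W := by positivity
  let T : ℕ → Finset ((Σ _ : ℕ, ℕ) × (Σ _ : ℕ, ℕ)) := fun j =>
    (stars' N P K Q Λ (gp W t j) ×ˢ stars' N P K Q Λ (gp W t j)).filter fun x =>
      Dif N K (gp W t j) x.1 x.2
  let m : ℕ → (Σ _ : ℕ, ℕ) × (Σ _ : ℕ, ℕ) → (ℕ × ℕ) × (ℕ × ℕ) := fun j x =>
    ((x.1.1, sden N K (gp W t j) x.1), (x.2.1, sden N K (gp W t j) x.2))
  let I : Finset ((ℕ × ℕ) × (ℕ × ℕ)) := (PP P ×ˢ QQ) ×ˢ (PP P ×ˢ QQ)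
  have hsub : ∀ y, ∀ s ∈ stars' N P K Q Λ y, s ∈ stars N P K Λ y := by
    intro y s hs
    unfold stars' at hs
    exact (mem_filter.1 hs).1
  have hPP : ∀ y, ∀ s ∈ stars' N P K Q Λ y, s.1 ∈ PP P := by
    intro y s hs
    obtain ⟨h1, h2, h3, _⟩ := star_basic N P K Λ hK.le hΛ y s (hsub y s hs)
    unfold PP
    rw [mem_filter, mem_Ioc]
    exact ⟨⟨h2, h3⟩, h1⟩
  have hinj : ∀ j, Set.InjOn (m j) (T j : Set ((Σ _ : ℕ, ℕ) × (Σ _ : ℕ, ℕ))) := by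
    intro j x hx x' hx' hxx
    have hx1 := mem_product.1 (mem_filter.1 (mem_coe.1 hx)).1
    have hx2 := mem_product.1 (mem_filter.1 (mem_coe.1 hx')).1
    have e1 := congrArg (fun z : (ℕ × ℕ) × (ℕ × ℕ) => z.1.1) hxx
    have e2 := congrArg (fun z : (ℕ × ℕ) × (ℕ × ℕ) => z.1.2) hxx
    have e3 := congrArg (fun z : (ℕ × ℕ) × (ℕ × ℕ) => z.2.1) hxx
    have e4 := congrArg (fun z : (ℕ × ℕ) × (ℕ × ℕ) => z.2.2) hxx
    apply Prod.ext
    · exact star_inj N P hN K Λ hK.le hΛ hKP _ _ _ (hsub _ _ hx1.1) (hsub _ _ hx2.1) e1 e2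
    · exact star_inj N P hN K Λ hK.le hΛ hKP _ _ _ (hsub _ _ hx1.2) (hsub _ _ hx2.2) e3 e4
  have hmaps : ∀ j, (T j).image (m j) ⊆ I := by
    intro j i hi
    obtain ⟨x, hx, rfl⟩ := mem_image.1 hi
    have hx1 := mem_product.1 (mem_filter.1 hx).1
    exact mem_product.2 ⟨mem_product.2 ⟨hPP _ _ hx1.1, hQQ _ _ hx1.1⟩,
      mem_product.2 ⟨hPP _ _ hx1.2, hQQ _ _ hx1.2⟩⟩
  have hcard : ∀ j, ((T j).card : ℝ) = ∑ i ∈ I, if i ∈ (T j).image (m j) then (1 : ℝ) else 0 := by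
    intro j
    rw [← card_image_of_injOn (hinj j), sum_ite_mem, inter_eq_right.2 (hmaps j)]
    simp
  have hone : ∀ i ∈ I, (∑ j ∈ range W, if i ∈ (T j).image (m j) then (1 : ℝ) else 0) ≤
      6144 * (K * P ^ 2) ^ 2 / N ^ 2 * W := by
    intro i hi
    by_cases hex : ∃ j ∈ range W, i ∈ (T j).image (m j)
    · obtain ⟨j0, _, hj0⟩ := hex
      obtain ⟨x, hx, hxi⟩ := mem_image.1 hj0
      have hx1 := mem_product.1 (mem_filter.1 hx).1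
      obtain ⟨a1, a2, a3, _, _, a6, a7, _⟩ :=
        star_basic N P K Λ hK.le hΛ _ _ (hsub _ _ hx1.1)
      obtain ⟨b1, b2, b3, _, _, b6, b7, _⟩ :=
        star_basic N P K Λ hK.le hΛ _ _ (hsub _ _ hx1.2)
      subst hxi
      have h1 := pairs_one N W hN hNW K t hK P x.1.1 (sden N K (gp W t j0) x.1) x.2.1
        (sden N K (gp W t j0) x.2) a6 a7 b6 b7 a1.pos b1.pos a3 b3 hKP ht ht'
      refine le_trans ?_ h1
      rw [← sum_filter, sum_const, nsmul_eq_mul, mul_one]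
      refine Nat.cast_le.2 (card_le_card ?_)
      intro j hj
      rw [mem_filter] at hj ⊢
      refine ⟨hj.1, ?_⟩
      obtain ⟨x', hx', hxx⟩ := mem_image.1 hj.2
      have hx2 := mem_product.1 (mem_filter.1 hx').1
      have hD := (mem_filter.1 hx').2
      have e1 : x'.1.1 = x.1.1 := congrArg (fun z : (ℕ × ℕ) × (ℕ × ℕ) => z.1.1) hxx
      have e2 : sden N K (gp W t j) x'.1 = sden N K (gp W t j0) x.1 :=
        congrArg (fun z : (ℕ × ℕ) × (ℕ × ℕ) => z.1.2) hxx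
      have e3 : x'.2.1 = x.2.1 := congrArg (fun z : (ℕ × ℕ) × (ℕ × ℕ) => z.2.1) hxx
      have e4 : sden N K (gp W t j) x'.2 = sden N K (gp W t j0) x.2 :=
        congrArg (fun z : (ℕ × ℕ) × (ℕ × ℕ) => z.2.2) hxx
      obtain ⟨_, _, _, _, _, _, _, _, _, _, _, c12⟩ :=
        star_basic N P K Λ hK.le hΛ _ _ (hsub _ _ hx2.1)
      obtain ⟨_, _, _, _, _, _, _, _, _, _, _, d12⟩ :=
        star_basic N P K Λ hK.le hΛ _ _ (hsub _ _ hx2.2)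
      refine ⟨sA N K (gp W t j) x'.1, sA N K (gp W t j) x'.2, ?_, ?_, ?_⟩
      · rw [← e2, ← e1]
        exact c12
      · rw [← e4, ← e3]
        exact d12
      · rw [← e1, ← e2, ← e3, ← e4]
        exact hD
    · push Not at hex
      rw [sum_eq_zero]
      · exact hB0
      · intro j hj
        rw [if_neg (hex j hj)]
  calc (∑ j ∈ range W, ((T j).card : ℝ))
      = ∑ j ∈ range W, ∑ i ∈ I, (if i ∈ (T j).image (m j) then (1 : ℝ) else 0) :=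
        sum_congr rfl fun j _ => hcard j
    _ = ∑ i ∈ I, ∑ j ∈ range W, (if i ∈ (T j).image (m j) then (1 : ℝ) else 0) := sum_comm
    _ ≤ ∑ i ∈ I, 6144 * (K * P ^ 2) ^ 2 / N ^ 2 * W := sum_le_sum hone
    _ = 6144 * ((PP P).card * QQ.card) ^ 2 * (K * P ^ 2) ^ 2 / N ^ 2 * W := by
        rw [sum_const, nsmul_eq_mul]
        have : (I.card : ℝ) = ((PP P).card * QQ.card) ^ 2 := by
          simp only [I, card_product]
          push_cast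
          ring
        rw [this]
        ring

end Pool.Agent.Lib.MP_6cded1_nt.ML
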