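import Pool.Agent.Lib.MP_6cded1_nt.ML.Near1

/-!
# Case A: grid points for one value of `h`

`y = gp W t j ∈ [0, 1]`, `v = q p²`, `|v y - A| ≤ p² K / N < 1/2`, so `0 ≤ A ≤ v = q p²`.  Two such `A` are congruent mod `p²` (`p ∤ c`, so `p²` is coprime to `c`): at most `q + 1 ≤ 2 q` values.
Each costs `≤ 3 (K / (q N)) W` grid points (`grid_interval`; `K / (q N) ≥ 1 / N ≥ 1 / W`).  Total `≤ 6 K W / N`.
-/

set_option autoImplicit false

open Finset

namespace Pool.Agent.Lib.MP_6cded1_nt.ML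

open Classical in
theorem tri_grid (N W p q : ℕ) (hN : 1 ≤ N) (hNW : N ≤ W) (hp : p.Prime) (hq : 1 ≤ q) (K t : ℝ) (hqK : (q : ℝ) ≤ K)
    (c h : ℤ) (hc : ¬ (p : ℤ) ∣ c) (hsmall : K * p ^ 2 / N < 1 / 2) (ht : 0 ≤ t) (ht' : t ≤ 1 / W) :
    (((range W).filter fun j => ∃ A : ℤ, (p : ℤ) ^ 2 ∣ A * c - h ∧
      |gp W t j - A / (q * (p : ℝ) ^ 2)| ≤ K / (q * N)).card : ℝ) ≤ 6 * K * W / N := by
  have hNr : (0 : ℝ) < N := by exact_mod_cast hN
  have hWr : (0 : ℝ) < W := lt_of_lt_of_le hNr (by exact_mod_cast hNW)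
  have hqr : (0 : ℝ) < q := by exact_mod_cast hq
  have hpr : (0 : ℝ) < p := by exact_mod_cast hp.pos
  have hW1 : 1 ≤ W := le_trans hN hNW
  set η : ℝ := K / (q * N) with hη
  set v : ℝ := q * (p : ℝ) ^ 2 with hv
  have hvpos : 0 < v := by rw [hv]; positivity
  have hηW : 1 / (W : ℝ) ≤ η := by
    rw [hη, div_le_div_iff₀ hWr (by positivity)]
    have h1 : (q : ℝ) * N ≤ K * W :=
      mul_le_mul hqK (by exact_mod_cast hNW) hNr.le (hqr.le.trans hqK)
    linarith
  have hηv : η * v < 1 / 2 := by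
    have : η * v = K * p ^ 2 / N := by rw [hη, hv]; field_simp
    rw [this]; exact hsmall
  -- the set of numerators
  set 𝒜 : Finset ℤ := (Finset.Icc (0 : ℤ) (q * p ^ 2)).filter fun A => (p : ℤ) ^ 2 ∣ A * c - h
    with h𝒜
  have hp2 : (0 : ℤ) < (p : ℤ) ^ 2 := by
    have : (0 : ℤ) < p := by exact_mod_cast hp.pos
    positivity
  have hcop : IsCoprime ((p : ℤ) ^ 2) c := by
    have h1 : IsCoprime (p : ℤ) c := by
      rcases (Int.isCoprime_iff_gcd_eq_one (m := (p : ℤ)) (n := c)) with ⟨_, h2⟩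
      apply h2
      have h3 : Nat.Coprime p c.natAbs := by
        rw [Nat.Prime.coprime_iff_not_dvd hp]
        intro hd
        exact hc (Int.natCast_dvd.2 hd)
      simpa [Int.gcd] using h3
    exact h1.pow_left
  have hcard : 𝒜.card ≤ q + 1 := by
    have hmaps : ∀ A ∈ 𝒜, A / (p : ℤ) ^ 2 ∈ Finset.Icc (0 : ℤ) q := by
      intro A hA
      have hA' := Finset.mem_Icc.1 (Finset.mem_filter.1 hA).1
      rw [Finset.mem_Icc]
      constructor
      · exact Int.ediv_nonneg hA'.1 hp2.le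
      · have := Int.ediv_le_ediv hp2 hA'.2
        rwa [Int.mul_ediv_cancel _ hp2.ne'] at this
    have hinj : Set.InjOn (fun A : ℤ => A / (p : ℤ) ^ 2) (𝒜 : Set ℤ) := by
      intro A hA A' hA' heq
      have d1 := (Finset.mem_filter.1 (Finset.mem_coe.1 hA)).2
      have d2 := (Finset.mem_filter.1 (Finset.mem_coe.1 hA')).2
      have d3 : (p : ℤ) ^ 2 ∣ (A - A') * c := by
        have := dvd_sub d1 d2
        have e : A * c - h - (A' * c - h) = (A - A') * c := by ring
        rwa [e] at this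
      have d4 : (p : ℤ) ^ 2 ∣ A - A' := hcop.dvd_of_dvd_mul_right d3
      have d5 : A % (p : ℤ) ^ 2 = A' % (p : ℤ) ^ 2 :=
        Int.emod_eq_emod_iff_emod_sub_eq_zero.2 (Int.emod_eq_zero_of_dvd d4)
      have e1 := Int.mul_ediv_add_emod A ((p : ℤ) ^ 2)
      have e2 := Int.mul_ediv_add_emod A' ((p : ℤ) ^ 2)
      have e3 : A / (p : ℤ) ^ 2 = A' / (p : ℤ) ^ 2 := heq
      rw [← e1, ← e2, e3, d5]
    have := Finset.card_le_card_of_injOn _ hmaps hinj
    simpa using this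
  -- covering
  have hsub : ((range W).filter fun j => ∃ A : ℤ, (p : ℤ) ^ 2 ∣ A * c - h ∧
      |gp W t j - A / v| ≤ η) ⊆
      𝒜.biUnion fun A => (range W).filter fun j => |gp W t j - A / v| ≤ η := by
    intro j hj
    obtain ⟨hjW, A, hA1, hA2⟩ := Finset.mem_filter.1 hj
    rw [Finset.mem_biUnion]
    refine ⟨A, ?_, Finset.mem_filter.2 ⟨hjW, hA2⟩⟩
    have hjW' : (j : ℝ) + 1 ≤ W := by exact_mod_cast Finset.mem_range.1 hjW
    have hy0 : 0 ≤ gp W t j := by unfold gp; positivity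
    have hy1 : gp W t j ≤ 1 := by
      unfold gp
      have : t + (j : ℝ) / W ≤ 1 / W + j / W := by linarith
      refine this.trans ?_
      rw [← add_div, div_le_one hWr]
      linarith
    have hab : |v * gp W t j - A| < 1 / 2 := by
      have e1 : v * gp W t j - A = v * (gp W t j - A / v) := by field_simp
      rw [e1, abs_mul, abs_of_pos hvpos]
      calc v * |gp W t j - A / v| ≤ v * η := mul_le_mul_of_nonneg_left hA2 hvpos.le
        _ = η * v := mul_comm _ _
        _ < 1 / 2 := hηv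
    rw [abs_lt] at hab
    have hvy0 : 0 ≤ v * gp W t j := mul_nonneg hvpos.le hy0
    have hvy1 : v * gp W t j ≤ v := by
      have := mul_le_mul_of_nonneg_left hy1 hvpos.le
      linarith
    have hA0 : (0 : ℤ) ≤ A := by
      have h1 : (-1 : ℝ) < A := by linarith [hab.2]
      have h2 : (-1 : ℤ) < A := by exact_mod_cast h1
      omega
    have hAv : A ≤ (q : ℤ) * (p : ℤ) ^ 2 := by
      have h1 : (A : ℝ) < v + 1 := by linarith [hab.1]
      rw [hv] at h1
      have h2 : A < (q : ℤ) * (p : ℤ) ^ 2 + 1 := by exact_mod_cast h1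
      omega
    exact Finset.mem_filter.2 ⟨Finset.mem_Icc.2 ⟨hA0, hAv⟩, hA1⟩
  have hcardle : (((range W).filter fun j => ∃ A : ℤ, (p : ℤ) ^ 2 ∣ A * c - h ∧
      |gp W t j - A / v| ≤ η).card : ℝ) ≤ (𝒜.card : ℝ) * (3 * η * W) := by
    calc (((range W).filter fun j => ∃ A : ℤ, (p : ℤ) ^ 2 ∣ A * c - h ∧
          |gp W t j - A / v| ≤ η).card : ℝ)
        ≤ ((𝒜.biUnion fun A => (range W).filter fun j => |gp W t j - A / v| ≤ η).card : ℝ) := by
          exact_mod_cast Finset.card_le_card hsub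
      _ ≤ ((∑ A ∈ 𝒜, ((range W).filter fun j => |gp W t j - A / v| ≤ η).card : ℕ) : ℝ) := by
          exact_mod_cast Finset.card_biUnion_le
      _ = ∑ A ∈ 𝒜, (((range W).filter fun j => |gp W t j - A / v| ≤ η).card : ℝ) := by
          push_cast; rfl
      _ ≤ ∑ _A ∈ 𝒜, (3 * η * W) :=
          Finset.sum_le_sum fun A _ => grid_interval W hW1 t (A / v) η hηW
      _ = (𝒜.card : ℝ) * (3 * η * W) := by rw [Finset.sum_const, nsmul_eq_mul]
  have hη0 : 0 ≤ η := le_trans (by positivity) hηW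
  have hcard2 : (𝒜.card : ℝ) ≤ 2 * q := by
    have h1 : (𝒜.card : ℝ) ≤ q + 1 := by exact_mod_cast hcard
    have h2 : (1 : ℝ) ≤ q := by exact_mod_cast hq
    linarith
  refine hcardle.trans ?_
  calc (𝒜.card : ℝ) * (3 * η * W) ≤ (2 * q) * (3 * η * W) :=
        mul_le_mul_of_nonneg_right hcard2 (by positivity)
    _ = 6 * K * W / N := by rw [hη]; field_simp; ring

end Pool.Agent.Lib.MP_6cded1_nt.ML
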