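import Pool.Agent.Lib.MP_6cded1_nt.ML.Tri1
import Pool.Agent.Lib.MP_6cded1_nt.ML.Tri2
import Pool.Agent.Lib.MP_6cded1_nt.ML.Tri3
import Pool.Agent.Lib.MP_6cded1_nt.ML.Star4

/-!
# Case A: the sum over the grid of the number of triples

For a triple `(s₁, s₂, s₃)` with pairwise different fractions (`y = gp W t j`): `p_i = s_i.1`, `q_i = sden`, `A_i = sA`, `h₂ = A₁ v₂ - A₂ v₁`, `h₃ = A₁ v₃ - A₃ v₁`: nonzero integers with `|h_i| ≤ h₀` (`tri_struct`), the `p_i` are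
distinct, `p₁ ∤ A₁`, `p₁ ∤ q_i` (`q_i ≤ K ≤ P < p₁`).  Mod `p₁²`: `A₁ q₂ p₂² ≡ h₂`, `A₁ q₃ p₃² ≡ h₃`; hence `p₁ ∤ h₂, h₃` and (cancel `A₁`) `h₃ q₂ p₂² ≡ h₂ q₃ p₃²`.
So `(p₂, p₃)` is in the set of `tri_congr` with `p = p₁`, `u = h₃ q₂`, `w = h₂ q₃`, and `j` is in the set of `tri_grid` with `p = p₁`, `q = q₁`, `c = q₂ p₂²`, `h = h₂`.  The map
`(s₁, s₂, s₃) ↦ (p₁, q₁, q₂, q₃, h₂, h₃, (p₂, p₃))` is injective for fixed `y` (`star_inj`).  Interchange the sums: `≤ card (PP P) * card QQ ^ 3 * (2 h₀)² * 186 * 6 K W / N`.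
-/

set_option autoImplicit false

open Finset

namespace Pool.Agent.Lib.MP_6cded1_nt.ML

/-- Index of a triple. -/
private abbrev TIdx : Type := (ℕ × ℕ × ℕ × ℕ × ℤ × ℤ) × (ℕ × ℕ)

/-- Nonzero integers of absolute value at most `h₀`. -/
private noncomputable def HHs (h₀ : ℕ) : Finset ℤ := (Icc (-(h₀ : ℤ)) h₀).erase 0

private theorem card_HHs (h₀ : ℕ) : (HHs h₀).card = 2 * h₀ := by
  have h0 : (0 : ℤ) ∈ Icc (-(h₀ : ℤ)) h₀ := by
    rw [mem_Icc]; constructor <;> omega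
  rw [HHs, card_erase_of_mem h0, Int.card_Icc]
  omega

private theorem mem_HHs {h₀ : ℕ} {h : ℤ} (h1 : h ≠ 0) (h2 : |(h : ℝ)| ≤ h₀) : h ∈ HHs h₀ := by
  rw [HHs, mem_erase, mem_Icc]
  refine ⟨h1, ?_⟩
  have h3 : |h| ≤ (h₀ : ℤ) := by
    have : ((|h| : ℤ) : ℝ) ≤ ((h₀ : ℤ) : ℝ) := by
      push_cast
      exact h2
    exact_mod_cast this
  exact abs_le.1 h3

/-- The validity condition of an index. -/
private def Vld (K : ℝ) (a : TIdx) : Prop :=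
  ¬ ((a.1.1 : ℕ) : ℤ) ∣ a.1.2.2.2.2.2 * (a.1.2.2.1 : ℤ) ∧
  ¬ ((a.1.1 : ℕ) : ℤ) ∣ a.1.2.2.2.2.1 * (a.1.2.2.2.1 : ℤ) ∧ 1 ≤ a.1.2.1 ∧ (a.1.2.1 : ℝ) ≤ K

/-- The congruence condition of an index. -/
private def Cng (a : TIdx) : Prop :=
  a.2.1 ≠ a.2.2 ∧ a.2.1 ≠ a.1.1 ∧ a.2.2 ≠ a.1.1 ∧
    (a.1.1 : ℤ) ^ 2 ∣ a.1.2.2.2.2.2 * (a.1.2.2.1 : ℤ) * (a.2.1 : ℤ) ^ 2 -
      a.1.2.2.2.2.1 * (a.1.2.2.2.1 : ℤ) * (a.2.2 : ℤ) ^ 2

/-- The grid condition of an index. -/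
private def Grd (N W : ℕ) (K t : ℝ) (a : TIdx) (j : ℕ) : Prop :=
  ∃ A : ℤ, (a.1.1 : ℤ) ^ 2 ∣ A * ((a.1.2.2.1 : ℤ) * (a.2.1 : ℤ) ^ 2) - a.1.2.2.2.2.1 ∧
    |gp W t j - A / ((a.1.2.1 : ℝ) * (a.1.1 : ℝ) ^ 2)| ≤ K / (a.1.2.1 * N)

/-- The index of a triple. -/
private noncomputable def tix (N : ℕ) (K y : ℝ)
    (x : (Σ _ : ℕ, ℕ) × (Σ _ : ℕ, ℕ) × (Σ _ : ℕ, ℕ)) : TIdx :=
  ((x.1.1, sden N K y x.1, sden N K y x.2.1, sden N K y x.2.2,
    sA N K y x.1 * sv N K y x.2.1 - sA N K y x.2.1 * sv N K y x.1,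
    sA N K y x.1 * sv N K y x.2.2 - sA N K y x.2.2 * sv N K y x.1), (x.2.1.1, x.2.2.1))

private theorem prime_not_dvd_small {p q P : ℕ} {K : ℝ} (hP : P < p) (hq : 1 ≤ q)
    (hqK : (q : ℝ) ≤ K) (hKP : K ≤ P) : ¬ (p : ℤ) ∣ (q : ℤ) := by
  intro h
  have h1 : p ∣ q := by exact_mod_cast h
  have h2 : p ≤ q := Nat.le_of_dvd (by omega) h1
  have h3 : (q : ℝ) ≤ (P : ℝ) := hqK.trans hKP
  have h4 : q ≤ P := by exact_mod_cast h3
  omega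

open Classical in
theorem triples_sum (N P W h₀ : ℕ) (hN : 1 ≤ N) (hP : 2 ≤ P) (hNW : N ≤ W) (K Q t : ℝ) (hK : 0 < K) (Λ : ℝ → Prop)
    (hΛ : ∀ z, Λ z → Maj N K z) (hKP : 128 * K ^ 2 * P ^ 3 < N) (hKP' : 32 * K * P ^ 2 < N) (hKleP : K ≤ P)
    (hh₀ : 512 * (K * P ^ 2) ^ 2 / N ≤ h₀) (ht : 0 ≤ t) (ht' : t ≤ 1 / W) (QQ : Finset ℕ)
    (hQQ : ∀ y, ∀ s ∈ stars' N P K Q Λ y, sden N K y s ∈ QQ) :
    (∑ j ∈ range W, (((stars' N P K Q Λ (gp W t j) ×ˢ stars' N P K Q Λ (gp W t j) ×ˢ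
      stars' N P K Q Λ (gp W t j)).filter fun x =>
      Dif N K (gp W t j) x.1 x.2.1 ∧ Dif N K (gp W t j) x.1 x.2.2 ∧ Dif N K (gp W t j) x.2.1 x.2.2).card : ℝ)) ≤
      (PP P).card * QQ.card ^ 3 * (2 * h₀) ^ 2 * 186 * (6 * K * W / N) := by
  have hN0 : (0 : ℝ) < N := by exact_mod_cast hN
  have hsub : ∀ y s, s ∈ stars' N P K Q Λ y → s ∈ stars N P K Λ y := fun y s hs =>
    (mem_filter.1 hs).1
  set Idx : Finset (ℕ × ℕ × ℕ × ℕ × ℤ × ℤ) :=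
    PP P ×ˢ QQ ×ˢ QQ ×ˢ QQ ×ˢ HHs h₀ ×ˢ HHs h₀ with hIdx
  set S : Finset TIdx := (Idx ×ˢ (PP P ×ˢ PP P)).filter fun a => Vld K a ∧ Cng a with hS
  -- the map
  have hmap : ∀ j, (((stars' N P K Q Λ (gp W t j) ×ˢ stars' N P K Q Λ (gp W t j) ×ˢ
      stars' N P K Q Λ (gp W t j)).filter fun x =>
      Dif N K (gp W t j) x.1 x.2.1 ∧ Dif N K (gp W t j) x.1 x.2.2 ∧
        Dif N K (gp W t j) x.2.1 x.2.2).card) ≤ (S.filter fun a => Grd N W K t a j).card := by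
    intro j
    refine Finset.card_le_card_of_injOn (tix N K (gp W t j)) ?_ ?_
    · rintro ⟨s1, s2, s3⟩ hx
      simp only [coe_filter, mem_product, Set.mem_setOf_eq] at hx
      obtain ⟨⟨hs1, hs2, hs3⟩, hd12, hd13, hd23⟩ := hx
      set y := gp W t j with hy
      have b1 := star_basic N P K Λ hK.le hΛ y s1 (hsub y s1 hs1)
      have b2 := star_basic N P K Λ hK.le hΛ y s2 (hsub y s2 hs2)
      have b3 := star_basic N P K Λ hK.le hΛ y s3 (hsub y s3 hs3)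
      obtain ⟨t1, t2, t3⟩ := tri_struct N P hN K Λ hK.le hΛ hKP (by omega) y s1 s2
        (hsub y s1 hs1) (hsub y s2 hs2) hd12
      obtain ⟨t4, -, t6⟩ := tri_struct N P hN K Λ hK.le hΛ hKP (by omega) y s1 s3
        (hsub y s1 hs1) (hsub y s3 hs3) hd13
      obtain ⟨t7, -, -⟩ := tri_struct N P hN K Λ hK.le hΛ hKP (by omega) y s2 s3
        (hsub y s2 hs2) (hsub y s3 hs3) hd23
      set A1 := sA N K y s1 with hA1
      set A2 := sA N K y s2 with hA2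
      set A3 := sA N K y s3 with hA3
      set q1 := sden N K y s1 with hq1
      set q2 := sden N K y s2 with hq2
      set q3 := sden N K y s3 with hq3
      set h2 : ℤ := A1 * sv N K y s2 - A2 * sv N K y s1 with hh2
      set h3 : ℤ := A1 * sv N K y s3 - A3 * sv N K y s1 with hh3
      have hv1 : (sv N K y s1 : ℤ) = (q1 : ℤ) * (s1.1 : ℤ) ^ 2 := by
        simp only [sv, ← hq1]; push_cast; rfl
      have hv2 : (sv N K y s2 : ℤ) = (q2 : ℤ) * (s2.1 : ℤ) ^ 2 := by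
        simp only [sv, ← hq2]; push_cast; rfl
      have hv3 : (sv N K y s3 : ℤ) = (q3 : ℤ) * (s3.1 : ℤ) ^ 2 := by
        simp only [sv, ← hq3]; push_cast; rfl
      have hpr1 : Prime (s1.1 : ℤ) := Nat.prime_iff_prime_int.1 b1.1
      have hpr2 : Prime (s2.1 : ℤ) := Nat.prime_iff_prime_int.1 b2.1
      have hpr3 : Prime (s3.1 : ℤ) := Nat.prime_iff_prime_int.1 b3.1
      have hndq2 : ¬ (s1.1 : ℤ) ∣ (q2 : ℤ) :=
        prime_not_dvd_small b1.2.1 b2.2.2.2.2.2.1 b2.2.2.2.2.2.2.1 hKleP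
      have hndq3 : ¬ (s1.1 : ℤ) ∣ (q3 : ℤ) :=
        prime_not_dvd_small b1.2.1 b3.2.2.2.2.2.1 b3.2.2.2.2.2.2.1 hKleP
      have hndp2 : ¬ (s1.1 : ℤ) ∣ (s2.1 : ℤ) := by
        intro h
        have h' : s1.1 ∣ s2.1 := by exact_mod_cast h
        exact t1 ((Nat.prime_dvd_prime_iff_eq b1.1 b2.1).1 h')
      have hndp3 : ¬ (s1.1 : ℤ) ∣ (s3.1 : ℤ) := by
        intro h
        have h' : s1.1 ∣ s3.1 := by exact_mod_cast h
        exact t4 ((Nat.prime_dvd_prime_iff_eq b1.1 b3.1).1 h')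
      have c2 : (s1.1 : ℤ) ^ 2 ∣ A1 * ((q2 : ℤ) * (s2.1 : ℤ) ^ 2) - h2 := by
        refine ⟨A2 * q1, ?_⟩
        rw [hh2, hv1, hv2]
        ring
      have c3 : (s1.1 : ℤ) ^ 2 ∣ A1 * ((q3 : ℤ) * (s3.1 : ℤ) ^ 2) - h3 := by
        refine ⟨A3 * q1, ?_⟩
        rw [hh3, hv1, hv3]
        ring
      have hndh2 : ¬ (s1.1 : ℤ) ∣ h2 := by
        intro h
        have h' : (s1.1 : ℤ) ∣ A1 * ((q2 : ℤ) * (s2.1 : ℤ) ^ 2) := by
          have := dvd_add ((dvd_pow_self _ two_ne_zero).trans c2) h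
          rwa [sub_add_cancel] at this
        rcases hpr1.dvd_or_dvd h' with h'' | h''
        · exact t2 h''
        · rcases hpr1.dvd_or_dvd h'' with h''' | h'''
          · exact hndq2 h'''
          · exact hndp2 (hpr1.dvd_of_dvd_pow h''')
      have hndh3 : ¬ (s1.1 : ℤ) ∣ h3 := by
        intro h
        have h' : (s1.1 : ℤ) ∣ A1 * ((q3 : ℤ) * (s3.1 : ℤ) ^ 2) := by
          have := dvd_add ((dvd_pow_self _ two_ne_zero).trans c3) h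
          rwa [sub_add_cancel] at this
        rcases hpr1.dvd_or_dvd h' with h'' | h''
        · exact t2 h''
        · rcases hpr1.dvd_or_dvd h'' with h''' | h'''
          · exact hndq3 h'''
          · exact hndp3 (hpr1.dvd_of_dvd_pow h''')
      have hcong : (s1.1 : ℤ) ^ 2 ∣ h3 * (q2 : ℤ) * (s2.1 : ℤ) ^ 2 -
          h2 * (q3 : ℤ) * (s3.1 : ℤ) ^ 2 := by
        have h1 : (s1.1 : ℤ) ^ 2 ∣ A1 * (h3 * (q2 : ℤ) * (s2.1 : ℤ) ^ 2 -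
            h2 * (q3 : ℤ) * (s3.1 : ℤ) ^ 2) := by
          have e1 := (c2.mul_left h3)
          have e2 := (c3.mul_left h2)
          have e3 := dvd_sub e1 e2
          have e4 : h3 * (A1 * ((q2 : ℤ) * (s2.1 : ℤ) ^ 2) - h2) -
              h2 * (A1 * ((q3 : ℤ) * (s3.1 : ℤ) ^ 2) - h3) =
              A1 * (h3 * (q2 : ℤ) * (s2.1 : ℤ) ^ 2 - h2 * (q3 : ℤ) * (s3.1 : ℤ) ^ 2) := by
            ring
          rwa [e4] at e3
        have hcop : IsCoprime ((s1.1 : ℤ) ^ 2) A1 :=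
          IsCoprime.pow_left ((Prime.coprime_iff_not_dvd hpr1).2 t2)
        exact hcop.dvd_of_dvd_mul_left h1
      simp only [coe_filter, Set.mem_setOf_eq, hS, hIdx, mem_filter, mem_product]
      have hpp1 : s1.1 ∈ PP P := mem_filter.2 ⟨mem_Ioc.2 ⟨b1.2.1, b1.2.2.1⟩, b1.1⟩
      have hpp2 : s2.1 ∈ PP P := mem_filter.2 ⟨mem_Ioc.2 ⟨b2.2.1, b2.2.2.1⟩, b2.1⟩
      have hpp3 : s3.1 ∈ PP P := mem_filter.2 ⟨mem_Ioc.2 ⟨b3.2.1, b3.2.2.1⟩, b3.1⟩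
      have hh2H : h2 ∈ HHs h₀ := mem_HHs (sub_ne_zero.2 hd12) (t3.trans hh₀)
      have hh3H : h3 ∈ HHs h₀ := mem_HHs (sub_ne_zero.2 hd13) (t6.trans hh₀)
      refine ⟨⟨⟨⟨hpp1, hQQ y s1 hs1, hQQ y s2 hs2, hQQ y s3 hs3, hh2H, hh3H⟩, hpp2, hpp3⟩,
        ⟨?_, ?_, b1.2.2.2.2.2.1, b1.2.2.2.2.2.2.1⟩, t7, Ne.symm t1, Ne.symm t4, hcong⟩,
        A1, c2, ?_⟩
      · intro h
        rcases hpr1.dvd_or_dvd h with h' | h'
        · exact hndh3 h'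
        · exact hndq2 h'
      · intro h
        rcases hpr1.dvd_or_dvd h with h' | h'
        · exact hndh2 h'
        · exact hndq3 h'
      · have := b1.2.2.2.2.2.2.2.2.2.2.2
        have e1 : ((sv N K y s1 : ℕ) : ℝ) = (q1 : ℝ) * (s1.1 : ℝ) ^ 2 := by
          simp only [sv, ← hq1]; push_cast; rfl
        rw [e1] at this
        exact this
    · rintro ⟨s1, s2, s3⟩ hx ⟨s1', s2', s3'⟩ hx' heq
      simp only [coe_filter, mem_product, Set.mem_setOf_eq] at hx hx'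
      obtain ⟨⟨hs1, hs2, hs3⟩, -⟩ := hx
      obtain ⟨⟨hs1', hs2', hs3'⟩, -⟩ := hx'
      simp only [tix, Prod.mk.injEq] at heq
      obtain ⟨⟨e1, e2, e3, e4, -, -⟩, e5, e6⟩ := heq
      have f1 := star_inj N P hN K Λ hK.le hΛ hKP' _ s1 s1' (hsub _ s1 hs1) (hsub _ s1' hs1') e1 e2
      have f2 := star_inj N P hN K Λ hK.le hΛ hKP' _ s2 s2' (hsub _ s2 hs2) (hsub _ s2' hs2') e5 e3
      have f3 := star_inj N P hN K Λ hK.le hΛ hKP' _ s3 s3' (hsub _ s3 hs3) (hsub _ s3' hs3') e6 e4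
      rw [f1, f2, f3]
  -- the grid points
  have hgrid : ∀ a ∈ S, (((range W).filter fun j => Grd N W K t a j).card : ℝ) ≤
      6 * K * W / N := by
    intro a ha
    simp only [hS, hIdx, mem_filter, mem_product] at ha
    obtain ⟨⟨⟨hp1, -⟩, hp2, -⟩, ⟨v1, -, v3, v4⟩, ⟨-, c2, -⟩⟩ := ha
    have hp1' := mem_filter.1 hp1
    have hp2' := mem_filter.1 hp2
    have hle : a.1.1 ≤ 4 * P := (mem_Ioc.1 hp1'.1).2
    have hpr1 : Prime (a.1.1 : ℤ) := Nat.prime_iff_prime_int.1 hp1'.2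
    refine tri_grid N W a.1.1 a.1.2.1 hN hNW hp1'.2 v3 K t v4
      ((a.1.2.2.1 : ℤ) * (a.2.1 : ℤ) ^ 2) a.1.2.2.2.2.1 ?_ ?_ ht ht'
    · intro h
      rcases hpr1.dvd_or_dvd h with h' | h'
      · exact v1 (h'.mul_left _)
      · have h'' := hpr1.dvd_of_dvd_pow h'
        have h3 : a.1.1 ∣ a.2.1 := by exact_mod_cast h''
        exact c2 ((Nat.prime_dvd_prime_iff_eq hp1'.2 hp2'.2).1 h3).symm
    · rw [div_lt_iff₀ hN0]
      have h1 : (a.1.1 : ℝ) ≤ 4 * P := by exact_mod_cast hle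
      have h2 : (a.1.1 : ℝ) ^ 2 ≤ (4 * P) ^ 2 := pow_le_pow_left₀ (Nat.cast_nonneg _) h1 2
      nlinarith
  -- the number of indices
  have hcardS : (S.card : ℝ) ≤ (PP P).card * QQ.card ^ 3 * (2 * h₀) ^ 2 * 186 := by
    have h1 : S.card ≤ Idx.card * 186 := by
      rw [hS, card_filter, sum_product, ← smul_eq_mul, ← sum_const]
      refine sum_le_sum fun ι hι => ?_
      rw [← card_filter]
      by_cases hv : ¬ ((ι.1 : ℕ) : ℤ) ∣ ι.2.2.2.2.2 * (ι.2.2.1 : ℤ) ∧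
          ¬ ((ι.1 : ℕ) : ℤ) ∣ ι.2.2.2.2.1 * (ι.2.2.2.1 : ℤ)
      · have hp1 : ι.1 ∈ PP P := by
          simp only [hIdx, mem_product] at hι
          exact hι.1
        refine le_trans (card_le_card ?_) (tri_congr P ι.1 hp1 hP
          (ι.2.2.2.2.2 * (ι.2.2.1 : ℤ)) (ι.2.2.2.2.1 * (ι.2.2.2.1 : ℤ)) hv.1 hv.2)
        intro r hr
        simp only [mem_filter] at hr ⊢
        exact ⟨hr.1, hr.2.2⟩
      · rw [filter_false_of_mem]
        · simp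
        · intro r _ h
          exact hv ⟨h.1.1, h.1.2.1⟩
    have h2 : Idx.card = (PP P).card * (QQ.card * (QQ.card * (QQ.card *
        ((2 * h₀) * (2 * h₀))))) := by
      simp only [hIdx, card_product, card_HHs]
    have h3 : (S.card : ℝ) ≤ ((Idx.card * 186 : ℕ) : ℝ) := by exact_mod_cast h1
    refine h3.trans (le_of_eq ?_)
    rw [h2]
    push_cast
    ring
  -- conclusion
  have hswap : (∑ j ∈ range W, ((S.filter fun a => Grd N W K t a j).card : ℝ)) =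
      ∑ a ∈ S, (((range W).filter fun j => Grd N W K t a j).card : ℝ) := by
    simp only [card_filter, Nat.cast_sum]
    exact sum_comm
  calc (∑ j ∈ range W, (((stars' N P K Q Λ (gp W t j) ×ˢ stars' N P K Q Λ (gp W t j) ×ˢ
      stars' N P K Q Λ (gp W t j)).filter fun x =>
      Dif N K (gp W t j) x.1 x.2.1 ∧ Dif N K (gp W t j) x.1 x.2.2 ∧ Dif N K (gp W t j) x.2.1 x.2.2).card : ℝ))
      ≤ ∑ j ∈ range W, ((S.filter fun a => Grd N W K t a j).card : ℝ) :=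
        sum_le_sum fun j _ => by exact_mod_cast hmap j
    _ = ∑ a ∈ S, (((range W).filter fun j => Grd N W K t a j).card : ℝ) := hswap
    _ ≤ ∑ _a ∈ S, (6 * K * W / N) := sum_le_sum hgrid
    _ = S.card * (6 * K * W / N) := by rw [sum_const, nsmul_eq_mul]
    _ ≤ (PP P).card * QQ.card ^ 3 * (2 * h₀) ^ 2 * 186 * (6 * K * W / N) := by
        apply mul_le_mul_of_nonneg_right hcardS
        positivity

end Pool.Agent.Lib.MP_6cded1_nt.ML
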