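import Pool.Agent.Lib.MP_6cded1_nt.ML.Level1
import Pool.Agent.Lib.MP_6cded1_nt.ML.PairSum
import Pool.Agent.Lib.MP_6cded1_nt.ML.TriSum
import Pool.Agent.Lib.MP_6cded1_nt.ML.Comb

/-!
# The two cases of regime II

`levelB`: `level_split` with `X = 12288 (card (PP P) card QQ)² (K P²)² / N²`: for every grid point `y` with `4 C₂ ≤ card (stars' y)`, `card² ≤ 2 #{pairs with Dif}` (`pairs_ge`), so
`EE (...) ≤ (2 / W) ∑_j #pairs ≤ X` (`pairs_sum`).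
`levelA`: `X = 1116 card (PP P) card QQ ^ 3 (2 h₀)² K / N` with `triples_ge`, `triples_sum` (`186 * 6 = 1116`).
-/

set_option autoImplicit false

open Finset

namespace Pool.Agent.Lib.MP_6cded1_nt.ML

open Classical in
theorem levelA (f : ℕ → ℂ) (hf : Mult f) (a b : ℕ → ℂ) (N D M P W h₀ : ℕ) (K Q H t : ℝ) (hN : 1 ≤ N)
    (hP : 2 ≤ P) (hNW : N ≤ W) (hPW : ∀ p ∈ PP P, p ^ 2 ∣ W) (hK : 0 < K) (hH : 0 ≤ H) (Λ : ℝ → Prop)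
    (hΛ : ∀ z, Λ z → Maj N K z) (hΛp : ∀ (z : ℝ) (k : ℤ), Λ (z + k) ↔ Λ z)
    (hΛB : ∀ z, Λ z → ‖B a b D M z‖ ≤ 2 * H) (C₂ : ℕ) (h1 : 1 ≤ C₂)
    (hC₂ : ∀ q : ℕ, 1 ≤ q → (q : ℝ) ≤ K → ((PP P).filter fun p => p ∣ q).card + 1 ≤ C₂)
    (hC₂P : 2 * C₂ ≤ (PP P).card) (hQ : 512 * K * P ^ 4 * Q ≤ N)
    (hpars : EE W t (fun x => ‖F f N x‖ ^ 2) ≤ N)
    (hKP : 32 * K * P ^ 2 < N) (hKP3 : 128 * K ^ 2 * P ^ 3 < N) (hKleP : K ≤ P)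
    (hh₀ : 512 * (K * P ^ 2) ^ 2 / N ≤ h₀) (ht : 0 ≤ t) (ht' : t ≤ 1 / W) (QQ : Finset ℕ)
    (hQQ : ∀ y, ∀ s ∈ stars' N P K Q Λ y, sden N K y s ∈ QQ) :
    (PP P).card * EE W t (fun z => ‖F f N z‖ * sel (Λ z) ‖B a b D M z‖) ≤
      4 * H * (5 * C₂ * EE W t (fun z => ‖F f N z‖) +
        2 * Real.sqrt (N * (1116 * (PP P).card * QQ.card ^ 3 * (2 * h₀) ^ 2 * K / N))) := by
  have hW : 1 ≤ W := le_trans hN hNW
  have hW0 : (0 : ℝ) < W := by exact_mod_cast hW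
  have hN0 : (0 : ℝ) < N := by exact_mod_cast hN
  refine level_split f hf a b N D M P W K Q H t _ hN (by omega) hW hPW hK hH Λ hΛ hΛp hΛB C₂ hC₂ hC₂P hQ
    hpars ?_
  have hsum := triples_sum N P W h₀ hN hP hNW K Q t hK Λ hΛ hKP3 hKP hKleP hh₀ ht ht' QQ hQQ
  have hle : (∑ j ∈ range W, sel (4 * C₂ ≤ (stars' N P K Q Λ (gp W t j)).card)
      (((stars' N P K Q Λ (gp W t j)).card : ℝ) ^ 2)) ≤
      ∑ j ∈ range W, (((stars' N P K Q Λ (gp W t j) ×ˢ stars' N P K Q Λ (gp W t j) ×ˢ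
      stars' N P K Q Λ (gp W t j)).filter fun x =>
      Dif N K (gp W t j) x.1 x.2.1 ∧ Dif N K (gp W t j) x.1 x.2.2 ∧ Dif N K (gp W t j) x.2.1 x.2.2).card : ℝ) := by
    refine Finset.sum_le_sum ?_
    intro j _
    by_cases hA : 4 * C₂ ≤ (stars' N P K Q Λ (gp W t j)).card
    · rw [sel_pos hA]
      have h3 := triples_ge N P K Λ hK.le hΛ (gp W t j) C₂ h1 hC₂ (stars' N P K Q Λ (gp W t j))
        (Finset.filter_subset _ _) hA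
      exact_mod_cast h3
    · rw [sel_neg hA]
      exact Nat.cast_nonneg _
  unfold EE
  rw [div_le_iff₀ hW0]
  refine (hle.trans hsum).trans (le_of_eq ?_)
  field_simp
  ring

end Pool.Agent.Lib.MP_6cded1_nt.ML
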