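import Pool.Agent.Lib.MP_6cded1_nt.ML.Num4
import Pool.Agent.Lib.MP_6cded1_nt.ML.Num3

/-!
# Numerical inequalities 5: the error terms

`num_B`: `2 √(N * 12288 (p J)² (K P²)² / N²) = 2 √12288 p J (K P²) / √N` with `p = card (PP P)`; times `4 H / p`: `≤ 8 * 111 * H * J * V / √N`; `H ≤ P τ N^{-0.0002}` (from `Pn = ⌈N^{0.0002} H / τ⌉ ≥ N^{0.0002} H / τ`) and
`P ≤ N^{0.2135}`: exponent `0.2135 + 0.7433 - 0.0002 + 0.0279 + 0.5138 - 0.5 = 0.9983`.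
`num_A`: `8 H √(1116 p J³ (2 h₀)² K)`, `h₀ ≤ 513 V² / N` (`V² ≥ N`), `K ≤ V / P² ≤ V N^{-0.427}`, `H ≤ P τ N^{-0.0002}`, `P² / p ≤ P log N ≤ 2 N^{0.2569} log N`:
`(4 H / p) * 2 √(...) ≤ 16 h₀ √1116 (H / √p) J^{3/2} √K`, exponent `0.0276 + (0.2569 / 2 + 0.7431) + 0.04185 + 0.0434 = 0.98440`.
`num_A2`: `K² P³ = (K P²)² / P ≤ V² / P`, exponent `1.0276 - 0.2135 < 1`; `K ≤ V / P² ≤ N^{0.0868 + small} ≤ P`.
-/

set_option autoImplicit false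

open Finset

namespace Pool.Agent.Lib.MP_6cded1_nt.ML

theorem num_A : ∃ N₀ : ℕ, ∀ N : ℕ, N₀ ≤ N → ∀ H : ℝ, tn N ≤ H → H ≤ N → (N : ℝ) ^ (0.2135 : ℝ) ≤ Pn N H →
    ∀ J : ℝ, 0 ≤ J → J ≤ (N : ℝ) ^ (0.0279 : ℝ) → ∀ h₀ : ℕ, (h₀ : ℝ) ≤ 512 * (Vn N) ^ 2 / N + 1 →
    4 * H * (2 * Real.sqrt (N * (1116 * (PP (Pn N H)).card * J ^ 3 * (2 * h₀) ^ 2 * Kn N H / N))) ≤
      (PP (Pn N H)).card * (N : ℝ) ^ (0.999 : ℝ) := by
  obtain ⟨P₀, hP₀2, hcard⟩ := card_PP_ge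
  obtain ⟨N1, h1⟩ := num_level
  obtain ⟨N2, h2⟩ := pow_log_le (P₀ : ℝ) 0 0 0.2135 (by norm_num)
  obtain ⟨N3, h3⟩ := pow_log_le (285696 * 513 ^ 2 * 152 ^ 5) 6 2.1389 2.2115 (by norm_num)
  refine ⟨max (max N1 N3) (max N2 1), fun N hN H hH1 hH2 hP J hJ0 hJ h₀ hh₀ => ?_⟩
  have hN1 : N1 ≤ N := ((le_max_left _ _).trans (le_max_left _ _)).trans hN
  have hN3 : N3 ≤ N := ((le_max_right _ _).trans (le_max_left _ _)).trans hN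
  have hN2 : N2 ≤ N := ((le_max_left _ _).trans (le_max_right _ _)).trans hN
  have hN5 : 1 ≤ N := ((le_max_right _ _).trans (le_max_right _ _)).trans hN
  have hNpos : (0 : ℝ) < (N : ℝ) := by exact_mod_cast hN5
  have hNone : (1 : ℝ) ≤ (N : ℝ) := by exact_mod_cast hN5
  obtain ⟨hK1, -, -, -, hX, h4P', -, -, -, -, -⟩ := h1 N hN1 H hH1 hH2
  have h4P : 4 * (Pn N H : ℝ) ≤ N := by exact_mod_cast h4P'
  have g2 := h2 N hN2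
  rw [pow_zero, mul_one, Real.rpow_zero, mul_one] at g2
  have g3 := h3 N hN3
  have hlog0 : 0 ≤ Real.log N := Real.log_nonneg hNone
  have htn : tn N = (N : ℝ) ^ (0.7433 : ℝ) := rfl
  have htpos : 0 < tn N := by rw [htn]; positivity
  have hHpos : 0 < H := lt_of_lt_of_le htpos hH1
  have hceil : (N : ℝ) ^ (0.0002 : ℝ) * H / tn N ≤ (Pn N H : ℝ) := Nat.le_ceil _
  have hPP0 : P₀ ≤ Pn N H := by exact_mod_cast g2.trans hP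
  have hcardP := hcard (Pn N H) hPP0
  obtain ⟨L, hL⟩ : ∃ L : ℝ, L = 1 + Real.log N := ⟨_, rfl⟩
  have hL1 : 1 ≤ L := by linarith
  obtain ⟨P, hPd⟩ : ∃ P : ℝ, P = (Pn N H : ℝ) := ⟨_, rfl⟩
  obtain ⟨K, hKd⟩ : ∃ K : ℝ, K = Kn N H := ⟨_, rfl⟩
  obtain ⟨V, hVd⟩ : ∃ V : ℝ, V = Vn N := ⟨_, rfl⟩
  obtain ⟨p, hpd⟩ : ∃ p : ℝ, p = ((PP (Pn N H)).card : ℝ) := ⟨_, rfl⟩
  rw [← hPd] at hP hX h4P hceil hcardP
  rw [← hKd] at hX hK1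
  rw [← hVd] at hX hh₀
  rw [← hpd] at hcardP
  rw [← hL] at g3
  rw [← hpd, ← hKd]
  have hV : V = 152 * L * (N : ℝ) ^ (0.5138 : ℝ) := by rw [hVd, hL]; rfl
  have hp0 : 0 ≤ p := by rw [hpd]; exact Nat.cast_nonneg _
  have hPpos : 0 < P := lt_of_lt_of_le (by positivity) hP
  have hVpos : 0 < V := by rw [hV]; positivity
  -- the number of primes
  have hpL : P ≤ p * L := by
    have h4 : Real.log (4 * P) ≤ L := by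
      have := Real.log_le_log (by positivity) h4P
      linarith
    exact hcardP.trans (mul_le_mul_of_nonneg_left h4 hp0)
  -- the bound for `H`
  have hHb : H ≤ P * (N : ℝ) ^ (0.7431 : ℝ) := by
    have a1 : (N : ℝ) ^ (0.0002 : ℝ) * H ≤ P * tn N := by
      rwa [div_le_iff₀ htpos] at hceil
    have a2 : P * tn N = (N : ℝ) ^ (0.0002 : ℝ) * (P * (N : ℝ) ^ (0.7431 : ℝ)) := by
      have : tn N = (N : ℝ) ^ (0.0002 : ℝ) * (N : ℝ) ^ (0.7431 : ℝ) := by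
        rw [htn, ← Real.rpow_add hNpos]
        norm_num
      rw [this]; ring
    rw [a2] at a1
    exact le_of_mul_le_mul_left a1 (by positivity)
  -- `H² K`
  have hHK : H ^ 2 * K ≤ V * (N : ℝ) ^ (1.4862 : ℝ) := by
    have b1 : H ^ 2 ≤ P ^ 2 * (N : ℝ) ^ (1.4862 : ℝ) := by
      calc H ^ 2 ≤ (P * (N : ℝ) ^ (0.7431 : ℝ)) ^ 2 := pow_le_pow_left₀ hHpos.le hHb 2
        _ = P ^ 2 * (N : ℝ) ^ (1.4862 : ℝ) := by
          rw [mul_pow, ← Real.rpow_natCast ((N : ℝ) ^ (0.7431 : ℝ)) 2, ← Real.rpow_mul hNpos.le]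
          norm_num
    calc H ^ 2 * K ≤ P ^ 2 * (N : ℝ) ^ (1.4862 : ℝ) * K :=
          mul_le_mul_of_nonneg_right b1 (by linarith)
      _ = (K * P ^ 2) * (N : ℝ) ^ (1.4862 : ℝ) := by ring
      _ ≤ V * (N : ℝ) ^ (1.4862 : ℝ) := mul_le_mul_of_nonneg_right hX (by positivity)
  -- `V² ≥ N`
  have hVN : (N : ℝ) ≤ V ^ 2 := by
    have c1 : (N : ℝ) ^ (0.5138 : ℝ) ≤ V := by
      rw [hV]
      have : 0 ≤ (N : ℝ) ^ (0.5138 : ℝ) := by positivity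
      nlinarith
    have c2 : (N : ℝ) ≤ ((N : ℝ) ^ (0.5138 : ℝ)) ^ 2 := by
      rw [← Real.rpow_natCast, ← Real.rpow_mul hNpos.le]
      calc (N : ℝ) = (N : ℝ) ^ (1 : ℝ) := (Real.rpow_one _).symm
        _ ≤ _ := Real.rpow_le_rpow_of_exponent_le hNone (by norm_num)
    exact c2.trans (pow_le_pow_left₀ (by positivity) c1 2)
  have hh : (h₀ : ℝ) ≤ 513 * V ^ 2 / N := by
    have d1 : (1 : ℝ) ≤ V ^ 2 / N := by rw [le_div_iff₀ hNpos]; linarith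
    calc (h₀ : ℝ) ≤ 512 * V ^ 2 / N + 1 := hh₀
      _ ≤ 512 * V ^ 2 / N + V ^ 2 / N := by linarith
      _ = 513 * V ^ 2 / N := by ring
  have hh0 : (0 : ℝ) ≤ h₀ := Nat.cast_nonneg _
  have hJ3 : J ^ 3 ≤ (N : ℝ) ^ (0.0837 : ℝ) := by
    calc J ^ 3 ≤ ((N : ℝ) ^ (0.0279 : ℝ)) ^ 3 := pow_le_pow_left₀ hJ0 hJ 3
      _ = (N : ℝ) ^ (0.0837 : ℝ) := by
        rw [← Real.rpow_natCast, ← Real.rpow_mul hNpos.le]
        norm_num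
  have hJ30 : 0 ≤ J ^ 3 := by positivity
  -- the main inequality
  have hmain : 285696 * (H ^ 2 * K) * J ^ 3 * (h₀ : ℝ) ^ 2 ≤ p * ((N : ℝ) ^ (0.999 : ℝ)) ^ 2 := by
    have e0 : (h₀ : ℝ) ^ 2 ≤ (513 * V ^ 2 / N) ^ 2 := pow_le_pow_left₀ hh0 hh 2
    have hK0 : 0 ≤ K := by linarith
    have e1 : 285696 * (H ^ 2 * K) * J ^ 3 * (h₀ : ℝ) ^ 2 ≤
        285696 * (V * (N : ℝ) ^ (1.4862 : ℝ)) * (N : ℝ) ^ (0.0837 : ℝ) * (513 * V ^ 2 / N) ^ 2 := by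
      apply mul_le_mul _ e0 (by positivity) (by positivity)
      apply mul_le_mul _ hJ3 hJ30 (by positivity)
      exact mul_le_mul_of_nonneg_left hHK (by norm_num)
    have e2 : L * (285696 * (V * (N : ℝ) ^ (1.4862 : ℝ)) * (N : ℝ) ^ (0.0837 : ℝ) * (513 * V ^ 2 / N) ^ 2)
        = 285696 * 513 ^ 2 * 152 ^ 5 * L ^ 6 * (N : ℝ) ^ (2.1389 : ℝ) := by
      have f1 : ((N : ℝ) ^ (0.5138 : ℝ)) ^ 5 * (N : ℝ) ^ (1.4862 : ℝ) * (N : ℝ) ^ (0.0837 : ℝ) =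
          (N : ℝ) ^ (2.1389 : ℝ) * (N : ℝ) ^ 2 := by
        rw [← Real.rpow_natCast ((N : ℝ) ^ (0.5138 : ℝ)) 5, ← Real.rpow_mul hNpos.le,
          ← Real.rpow_natCast (N : ℝ) 2, ← Real.rpow_add hNpos, ← Real.rpow_add hNpos,
          ← Real.rpow_add hNpos]
        norm_num
      rw [hV]
      calc L * (285696 * (152 * L * (N : ℝ) ^ (0.5138 : ℝ) * (N : ℝ) ^ (1.4862 : ℝ)) * (N : ℝ) ^ (0.0837 : ℝ) *
            (513 * (152 * L * (N : ℝ) ^ (0.5138 : ℝ)) ^ 2 / N) ^ 2)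
          = 285696 * 513 ^ 2 * 152 ^ 5 * L ^ 6 * ((((N : ℝ) ^ (0.5138 : ℝ)) ^ 5 * (N : ℝ) ^ (1.4862 : ℝ) *
            (N : ℝ) ^ (0.0837 : ℝ)) / (N : ℝ) ^ 2) := by ring
        _ = 285696 * 513 ^ 2 * 152 ^ 5 * L ^ 6 * (N : ℝ) ^ (2.1389 : ℝ) := by
          rw [f1]
          field_simp
    have e3 : (N : ℝ) ^ (2.2115 : ℝ) ≤ P * ((N : ℝ) ^ (0.999 : ℝ)) ^ 2 := by
      have f2 : (N : ℝ) ^ (2.2115 : ℝ) = (N : ℝ) ^ (0.2135 : ℝ) * ((N : ℝ) ^ (0.999 : ℝ)) ^ 2 := by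
        rw [← Real.rpow_natCast, ← Real.rpow_mul hNpos.le, ← Real.rpow_add hNpos]
        norm_num
      rw [f2]
      exact mul_le_mul_of_nonneg_right hP (by positivity)
    have e4 : P * ((N : ℝ) ^ (0.999 : ℝ)) ^ 2 ≤ L * (p * ((N : ℝ) ^ (0.999 : ℝ)) ^ 2) := by
      calc P * ((N : ℝ) ^ (0.999 : ℝ)) ^ 2 ≤ (p * L) * ((N : ℝ) ^ (0.999 : ℝ)) ^ 2 :=
            mul_le_mul_of_nonneg_right hpL (by positivity)
        _ = _ := by ring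
    have e5 : L * (285696 * (V * (N : ℝ) ^ (1.4862 : ℝ)) * (N : ℝ) ^ (0.0837 : ℝ) * (513 * V ^ 2 / N) ^ 2) ≤
        L * (p * ((N : ℝ) ^ (0.999 : ℝ)) ^ 2) := by
      rw [e2]
      exact g3.trans (e3.trans e4)
    exact e1.trans (le_of_mul_le_mul_left e5 (by linarith))
  -- the square root
  have hin : (N : ℝ) * (1116 * p * J ^ 3 * (2 * (h₀ : ℝ)) ^ 2 * K / N) =
      1116 * p * J ^ 3 * (2 * (h₀ : ℝ)) ^ 2 * K := by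
    field_simp
  rw [hin]
  have hpN : 0 ≤ p * (N : ℝ) ^ (0.999 : ℝ) := by positivity
  have hsq : Real.sqrt (1116 * p * J ^ 3 * (2 * (h₀ : ℝ)) ^ 2 * K) ≤
      p * (N : ℝ) ^ (0.999 : ℝ) / (8 * H) := by
    rw [Real.sqrt_le_iff]
    refine ⟨by positivity, ?_⟩
    rw [div_pow, le_div_iff₀ (by positivity)]
    calc 1116 * p * J ^ 3 * (2 * (h₀ : ℝ)) ^ 2 * K * (8 * H) ^ 2
        = p * (285696 * (H ^ 2 * K) * J ^ 3 * (h₀ : ℝ) ^ 2) := by ring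
      _ ≤ p * (p * ((N : ℝ) ^ (0.999 : ℝ)) ^ 2) := mul_le_mul_of_nonneg_left hmain hp0
      _ = (p * (N : ℝ) ^ (0.999 : ℝ)) ^ 2 := by ring
  calc 4 * H * (2 * Real.sqrt (1116 * p * J ^ 3 * (2 * (h₀ : ℝ)) ^ 2 * K))
      ≤ 4 * H * (2 * (p * (N : ℝ) ^ (0.999 : ℝ) / (8 * H))) := by
        apply mul_le_mul_of_nonneg_left _ (by positivity)
        linarith
    _ = p * (N : ℝ) ^ (0.999 : ℝ) := by
        field_simp
        ring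

end Pool.Agent.Lib.MP_6cded1_nt.ML
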