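import Pool.Agent.Lib.MP_6cded1_nt.ML.Num4
import Pool.Agent.Lib.MP_6cded1_nt.ML.Num3

/-!
# Numerical inequalities 5: the error terms

`num_B`: `2 √(N * 12288 (p J)² (K P²)² / N²) = 2 √12288 p J (K P²) / √N` with `p = card (PP P)`; times `4 H / p`: `≤ 8 * 111 * H * J * V / √N`; `H ≤ P τ N^{-0.0002}` (from `Pn = ⌈N^{0.0002} H / τ⌉ ≥ N^{0.0002} H / τ`) and
`P ≤ N^{0.2135}`: exponent `0.2135 + 0.7433 - 0.0002 + 0.0279 + 0.5138 - 0.5 = 0.9983`.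
`num_A`: `8 H √(1116 p J³ (2 h₀)² K)`, `h₀ ≤ 513 V² / N` (`V² ≥ N`), `K ≤ V / P² ≤ V N^{-0.427}`, `H ≤ P τ N^{-0.0002}`, `P² / p ≤ P log N ≤ 2 N^{0.2569} log N`:
`(4 H / p) * 2 √(...) ≤ 16 h₀ √1116 (H / √p) J^{3/2} √K`, exponent `0.0276 + (0.2569 / 2 + 0.7431) + 0.04185 + 0.0434 = 0.98440`.
`num_A2`: `K² P³ = (K P²)² / P ≤ V² / P`, exponent `1.0276 - 0.2135 < 1`; `K ≤ V / P² ≤ N^{0.0868 + small} ≤ P`.
-/

set_option autoImplicit false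

open Finset

namespace Pool.Agent.Lib.MP_6cded1_nt.ML

theorem num_A2 : ∃ N₀ : ℕ, ∀ N : ℕ, N₀ ≤ N → ∀ H : ℝ, tn N ≤ H → H ≤ N → (N : ℝ) ^ (0.2135 : ℝ) ≤ Pn N H →
    128 * Kn N H ^ 2 * Pn N H ^ 3 < N ∧ Kn N H ≤ Pn N H := by
  obtain ⟨N1, h1⟩ := num_level
  obtain ⟨N2, h2⟩ := pow_log_le (128 * 152 ^ 2) 2 (1.0276 - 0.2135) 0.9 (by norm_num)
  obtain ⟨N3, h3⟩ := pow_log_le 152 1 (0.5138 - 0.2135 - 0.2135) 0.2135 (by norm_num)
  refine ⟨max (max N1 N2) (max N3 2), fun N hN H hH1 hH2 hP => ?_⟩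
  have hN1 : N1 ≤ N := le_trans (le_trans (le_max_left _ _) (le_max_left _ _)) hN
  have hN2 : N2 ≤ N := le_trans (le_trans (le_max_right _ _) (le_max_left _ _)) hN
  have hN3 : N3 ≤ N := le_trans (le_trans (le_max_left _ _) (le_max_right _ _)) hN
  have hN4 : 2 ≤ N := le_trans (le_trans (le_max_right _ _) (le_max_right _ _)) hN
  obtain ⟨hK1, -, -, -, hKP, -⟩ := h1 N hN1 H hH1 hH2
  have g2 := h2 N hN2
  have g3 := h3 N hN3
  have hNr : (2 : ℝ) ≤ N := by exact_mod_cast hN4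
  have hN0 : (0 : ℝ) < N := by linarith
  set K := Kn N H with hKdef
  set P : ℝ := (Pn N H : ℝ) with hPdef
  set L : ℝ := 1 + Real.log N with hLdef
  have hL0 : 0 ≤ L := by
    have := Real.log_nonneg (by linarith : (1 : ℝ) ≤ N)
    linarith
  have ha0 : 0 < (N : ℝ) ^ (0.2135 : ℝ) := Real.rpow_pos_of_pos hN0 _
  have hP0 : 0 < P := lt_of_lt_of_le ha0 hP
  have hK0 : 0 < K := by linarith
  have hV : Vn N = 152 * L * (N : ℝ) ^ (0.5138 : ℝ) := rfl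
  have hV0 : 0 ≤ Vn N := by
    rw [hV]
    positivity
  constructor
  · -- `128 K² P³ * N^{0.2135} ≤ 128 V²`
    have e1 : 128 * K ^ 2 * P ^ 3 * (N : ℝ) ^ (0.2135 : ℝ) ≤ 128 * (Vn N) ^ 2 := by
      calc 128 * K ^ 2 * P ^ 3 * (N : ℝ) ^ (0.2135 : ℝ) ≤ 128 * K ^ 2 * P ^ 3 * P :=
            mul_le_mul_of_nonneg_left hP (by positivity)
        _ = 128 * (K * P ^ 2) ^ 2 := by ring
        _ ≤ 128 * (Vn N) ^ 2 := by
            apply mul_le_mul_of_nonneg_left _ (by norm_num)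
            exact pow_le_pow_left₀ (by positivity) hKP 2
    have e2 : 128 * (Vn N) ^ 2 = (128 * 152 ^ 2 * L ^ 2 * (N : ℝ) ^ (1.0276 - 0.2135 : ℝ)) * (N : ℝ) ^ (0.2135 : ℝ) := by
      rw [hV, mul_assoc (128 * 152 ^ 2 * L ^ 2), ← Real.rpow_add hN0]
      have : (1.0276 - 0.2135 + 0.2135 : ℝ) = 0.5138 + 0.5138 := by norm_num
      rw [this, Real.rpow_add hN0]
      ring
    rw [e2] at e1
    have e3 := le_of_mul_le_mul_right e1 ha0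
    have e4 : (N : ℝ) ^ (0.9 : ℝ) < N := by
      calc (N : ℝ) ^ (0.9 : ℝ) < (N : ℝ) ^ (1 : ℝ) :=
            Real.rpow_lt_rpow_of_exponent_lt (by linarith) (by norm_num)
        _ = N := Real.rpow_one _
    exact lt_of_le_of_lt (e3.trans g2) e4
  · have e1 : K * ((N : ℝ) ^ (0.2135 : ℝ)) ^ 2 ≤ Vn N :=
      le_trans (mul_le_mul_of_nonneg_left (pow_le_pow_left₀ ha0.le hP 2) hK0.le) hKP
    have e2 : Vn N = (152 * L ^ 1 * (N : ℝ) ^ (0.5138 - 0.2135 - 0.2135 : ℝ)) * ((N : ℝ) ^ (0.2135 : ℝ)) ^ 2 := by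
      rw [hV, pow_two ((N : ℝ) ^ (0.2135 : ℝ)), ← Real.rpow_add hN0, mul_assoc (152 * L ^ 1), ← Real.rpow_add hN0, pow_one]
      congr 2
      norm_num
    rw [e2] at e1
    have e3 := le_of_mul_le_mul_right e1 (by positivity)
    exact (e3.trans g3).trans hP

end Pool.Agent.Lib.MP_6cded1_nt.ML
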