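import Pool.Agent.Lib.MP_6cded1_nt.ML.Num5a
import Pool.Agent.Lib.MP_6cded1_nt.ML.Num5b
import Pool.Agent.Lib.MP_6cded1_nt.ML.Num5c

/-!
# Umbrella file
-/
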