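import Pool.Agent.Lib.MP_6cded1_nt.ML.Level2
import Pool.Agent.Lib.MP_6cded1_nt.ML.Level3
import Pool.Agent.Lib.MP_6cded1_nt.ML.Num5
import Pool.Agent.Lib.MP_6cded1_nt.ML.Num6
import Pool.Agent.Lib.MP_6cded1_nt.ML.Grid2
import Pool.Agent.Lib.MP_6cded1_nt.ML.Diag2
import Pool.Agent.Lib.MP_6cded1_nt.ML.PairLow

/-!
# Regime II with the final parameters
-/

set_option autoImplicit false

open Finset

namespace Pool.Agent.Lib.MP_6cded1_nt.ML

theorem norm_le_one_of_mult (f : ℕ → ℂ) (hf : Mult f) (n : ℕ) : ‖f n‖ ≤ 1 := by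
  by_cases h : Squarefree n
  · exact (hf.one n h).le
  · rw [hf.zero n h, norm_zero]
    exact zero_le_one

open Classical in
theorem level_final : ∃ N₀ : ℕ, ∀ N : ℕ, N₀ ≤ N → ∀ f : ℕ → ℂ, Mult f → ∀ (W : ℕ) (t : ℝ), N < W →
    (∀ p : ℕ, p.Prime → p ≤ N → p ^ 2 ∣ W) → 0 ≤ t → t ≤ 1 / W → ∀ H : ℝ, tn N ≤ H → H ≤ N →
    EE W t (fun z => ‖F f N z‖ * sel (Maj N (Dn N) z ∧ H < ‖B (fp f) (fp f) (Dn N) (Mn N) z‖ ∧
      ‖B (fp f) (fp f) (Dn N) (Mn N) z‖ ≤ 2 * H) ‖B (fp f) (fp f) (Dn N) (Mn N) z‖) ≤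
      tn N * EE W t (fun z => ‖F f N z‖) + (N : ℝ) ^ (0.999 : ℝ) := by
  obtain ⟨N1, h1⟩ := num_basic
  obtain ⟨N2, h2⟩ := num_level
  obtain ⟨N3, h3⟩ := num_V
  obtain ⟨N4, h4⟩ := num_hm
  obtain ⟨N5, h5⟩ := num_Y
  obtain ⟨N6, h6⟩ := num_PP
  obtain ⟨N7, h7⟩ := num_tau
  obtain ⟨N8, h8⟩ := num_B
  obtain ⟨N9, h9⟩ := num_A
  obtain ⟨N10, h10⟩ := num_A2
  obtain ⟨N11, h11⟩ := num_C2
  obtain ⟨N12, h12⟩ := num_dm
  refine ⟨N1 + N2 + N3 + N4 + N5 + N6 + N7 + N8 + N9 + N10 + N11 + N12, ?_⟩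
  intro N hN f hf W t hW hpW ht ht' H hH hHN
  obtain ⟨b1, b2, b3, b4, b5, b6, b7, b8, b9, b10, b11, b12, b13, b14, b15, b16, b17, b18, b19, b20, b21⟩ :=
    h1 N (by omega)
  obtain ⟨l1, l2, l3, l4, l5, l6, l7, l8, l9, l10, l11⟩ := h2 N (by omega) H hH hHN
  obtain ⟨v1, v2⟩ := h3 N (by omega)
  have hm := h4 N (by omega) H hH hHN
  have hY := h5 N (by omega) H hH hHN
  obtain ⟨hPP, hPP2⟩ := h6 N (by omega) H hH hHN
  have htau := h7 N (by omega) H hH hHN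
  have hBn := h8 N (by omega) H hH hHN
  have hAn := h9 N (by omega) H hH hHN
  have hAn2 := h10 N (by omega) H hH hHN
  have hC2 := h11 N (by omega) H hH hHN
  have hdm := h12 N (by omega)
  have hN1 : 1 ≤ N := le_trans (Nat.one_le_pow _ _ b1) b2
  have hNr : (0 : ℝ) < N := by exact_mod_cast hN1
  have hτ : 0 < tn N := lt_of_lt_of_le one_pos b20
  have hH0 : 0 < H := lt_of_lt_of_le hτ hH
  have hDN : Dn N ≤ N := by
    have : Dn N ≤ Dn N ^ 2 := Nat.le_self_pow (by norm_num) _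
    omega
  have hP1 : 1 ≤ Pn N H := le_trans one_le_two l8
  set a := fp f with ha_def
  have ha : ∀ d, ‖a d‖ ≤ 1 := norm_fp_le f hf
  set K := Kn N H with hK_def
  set Q := Qn N H with hQ_def
  set P := Pn N H with hP_def
  have hK0 : 0 < K := lt_of_lt_of_le one_pos l1
  set Λ : ℝ → Prop := fun z => Maj N (Dn N) z ∧ H < ‖B a a (Dn N) (Mn N) z‖ ∧
      ‖B a a (Dn N) (Mn N) z‖ ≤ 2 * H with hΛ_def
  have hΛ : ∀ z, Λ z → Maj N K z := by
    intro z hz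
    rcases le_total (Dn N : ℝ) (38 * N ^ 2 * (1 + Real.log N) / H ^ 2) with hc | hc
    · have : K = Dn N := by
        rw [hK_def]
        unfold Kn
        exact min_eq_left hc
      rw [this]
      exact hz.1
    · have hKe : K = 38 * N ^ 2 * (1 + Real.log N) / H ^ 2 := by
        rw [hK_def]
        unfold Kn
        exact min_eq_right hc
      by_contra hcon
      have hd := diag_bound N (Dn N) (Mn N) K z l1 l2 b2 b3 hcon
      have hd2 := norm_B_sq_le a a ha ha (Dn N) (Mn N) z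
      have hd3 : H ^ 2 < ‖B a a (Dn N) (Mn N) z‖ ^ 2 := pow_lt_pow_left₀ hz.2.1 hH0.le (by norm_num)
      have hd4 : 38 * (N : ℝ) ^ 2 * (1 + Real.log N) / K = H ^ 2 := by
        have hlog : (0 : ℝ) ≤ Real.log N := Real.log_nonneg (by exact_mod_cast hN1)
        have hne : (38 * (N : ℝ) ^ 2 * (1 + Real.log N)) ≠ 0 := by positivity
        rw [hKe]
        field_simp
      linarith
  have hΛp : ∀ (z : ℝ) (k : ℤ), Λ (z + k) ↔ Λ z := by
    intro z k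
    rw [hΛ_def]
    simp only [Maj_add_int, B_add_int]
  have hΛB : ∀ z, Λ z → ‖B a a (Dn N) (Mn N) z‖ ≤ 2 * H := fun z hz => hz.2.2
  have hΛH : ∀ z, Λ z → H < ‖B a a (Dn N) (Mn N) z‖ := fun z hz => hz.2.1
  have hdm' : ∀ q : ℕ, 1 ≤ q → (q : ℝ) ≤ K → (q.divisors.card : ℝ) ≤ (N : ℝ) ^ (0.0001 : ℝ) := by
    intro q hq hqK
    refine hdm q hq ?_
    have : (q : ℝ) ≤ Dn N := le_trans hqK l2
    have h' : q ≤ Dn N := by exact_mod_cast this
    exact le_trans h' hDN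
  obtain ⟨QQ, hQQ, hQQc⟩ := exists_QQ a a ha ha N (Dn N) (Mn N) P hN1 b4 K Q H _ l9 hH0 l1 l2 b3 hm hdm' Λ hΛ hΛH
  have hJ : (QQ.card : ℝ) ≤ (N : ℝ) ^ (0.0279 : ℝ) := hY QQ.card (Nat.cast_nonneg _) hQQc
  have hpars : EE W t (fun x => ‖F f N x‖ ^ 2) ≤ N := grid_parseval f (norm_le_one_of_mult f hf) N W hW t
  have hPW : ∀ p ∈ PP P, p ^ 2 ∣ W := by
    intro p hp
    unfold PP at hp
    rw [Finset.mem_filter, Finset.mem_Ioc] at hp
    exact hpW p hp.2 (le_trans hp.1.2 l6)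
  have hKP : 32 * K * P ^ 2 < N := by
    have : 32 * K * (P : ℝ) ^ 2 = 32 * (K * P ^ 2) := by ring
    rw [this]
    linarith
  have hE0 : 0 ≤ EE W t (fun z => ‖F f N z‖) := by
    unfold EE
    exact div_nonneg (Finset.sum_nonneg fun j _ => norm_nonneg _) (Nat.cast_nonneg _)
  have hcard : (0 : ℝ) < (PP P).card := by
    have : 0 < (PP P).card := by omega
    exact_mod_cast this
  have h51 : (4 * H) * (5 * ((5001 : ℕ) : ℝ) * EE W t (fun z => ‖F f N z‖)) ≤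
      (PP P).card * (tn N * EE W t (fun z => ‖F f N z‖)) := by
    have := mul_le_mul_of_nonneg_right htau hE0
    push_cast
    linarith
  have hfin : (PP P).card * EE W t (fun z => ‖F f N z‖ * sel (Λ z) ‖B a a (Dn N) (Mn N) z‖) ≤
      (PP P).card * (tn N * EE W t (fun z => ‖F f N z‖) + (N : ℝ) ^ (0.999 : ℝ)) := by
    rcases le_total (P : ℝ) ((N : ℝ) ^ (0.2135 : ℝ)) with hc | hc
    · have hb := levelB f hf a a N (Dn N) (Mn N) P W K Q H t hN1 hP1 hW.le hPW hK0 hH0.le Λ hΛ hΛp hΛB 5001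
        (by norm_num) hC2 hPP2 l10 hpars hKP ht ht' QQ hQQ
      have hb2 := hBn hc QQ.card (Nat.cast_nonneg _) hJ
      rw [mul_add] at hb
      rw [mul_add]
      exact hb.trans (add_le_add h51 hb2)
    · obtain ⟨w1, w2⟩ := hAn2 hc
      have hV2 : 512 * (K * (P : ℝ) ^ 2) ^ 2 / N ≤ (⌈512 * (Vn N) ^ 2 / N⌉₊ : ℝ) := by
        refine le_trans ?_ (Nat.le_ceil _)
        have hKP0 : 0 ≤ K * (P : ℝ) ^ 2 := by positivity
        have := pow_le_pow_left₀ hKP0 l5 2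
        gcongr
      have hceil : ((⌈512 * (Vn N) ^ 2 / N⌉₊ : ℕ) : ℝ) ≤ 512 * (Vn N) ^ 2 / N + 1 := by
        refine (Nat.ceil_lt_add_one ?_).le
        positivity
      have hb := levelA f hf a a N (Dn N) (Mn N) P W _ K Q H t hN1 l8 hW.le hPW hK0 hH0.le Λ hΛ hΛp hΛB 5001
        (by norm_num) hC2 hPP2 l10 hpars hKP w1 w2 hV2 ht ht' QQ hQQ
      have hb2 := hAn hc QQ.card (Nat.cast_nonneg _) hJ _ hceil
      rw [mul_add] at hb
      rw [mul_add]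
      exact hb.trans (add_le_add h51 hb2)
  exact le_of_mul_le_mul_left hfin hcard

end Pool.Agent.Lib.MP_6cded1_nt.ML
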