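import Pool.Agent.Lib.MP_6cded1_nt.ML.Num1

/-!
# The final numerical inequality

`N^{0.99999} - (log₂ N + 1) N^{0.999} ≥ N^{0.99999} / 2`, so `L ≥ N^{0.99999 - 0.7433} / (2 (log₂ N + 3)) ≥ N^{1/4 + 1/150}` (`0.99999 - 0.7433 = 0.25669 > 0.2566667`), by `pow_log_le`
(`Nat.log 2 N ≤ 2 log N`).
-/

set_option autoImplicit false

open Finset

namespace Pool.Agent.Lib.MP_6cded1_nt.ML

/-- final numerical inequality -/
theorem num_final : ∃ N₀ : ℕ, ∀ N : ℕ, N₀ ≤ N → ∀ L : ℝ,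
    (N : ℝ) ^ (0.99999 : ℝ) ≤ tn N * L + tn N * L +
      ((Nat.log 2 N + 1 : ℕ) : ℝ) * (tn N * L + (N : ℝ) ^ (0.999 : ℝ)) →
    (N : ℝ) ^ ((1 : ℝ) / 4 + 1 / 150) ≤ L := by
  obtain ⟨N1, h1⟩ := pow_log_le 4 1 0.999 0.99999 (by norm_num)
  obtain ⟨N2, h2⟩ := pow_log_le 9 1 (0.7433 + (1 / 4 + 1 / 150)) 0.99999 (by norm_num)
  refine ⟨max (max N1 N2) 1, fun N hN L hL => ?_⟩
  have hN1 : N1 ≤ N := le_trans (le_trans (le_max_left _ _) (le_max_left _ _)) hN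
  have hN2 : N2 ≤ N := le_trans (le_trans (le_max_right _ _) (le_max_left _ _)) hN
  have hN3 : 1 ≤ N := le_trans (le_max_right _ _) hN
  have hx1 : (1 : ℝ) ≤ (N : ℝ) := by exact_mod_cast hN3
  have hx0 : (0 : ℝ) < (N : ℝ) := by linarith
  have hlog0 : 0 ≤ Real.log (N : ℝ) := Real.log_nonneg hx1
  have g1 := h1 N hN1
  have g2 := h2 N hN2
  rw [pow_one] at g1 g2
  set k : ℝ := ((Nat.log 2 N + 1 : ℕ) : ℝ) with hk
  have hk0 : 0 ≤ k := Nat.cast_nonneg _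
  have hk2 : k ≤ 2 * (1 + Real.log (N : ℝ)) := by
    have e1 : ((Nat.log 2 N : ℕ) : ℝ) * Real.log 2 ≤ Real.log (N : ℝ) := by
      rw [← Real.log_pow]
      apply Real.log_le_log (by positivity)
      exact_mod_cast Nat.pow_log_le_self 2 (by omega)
    have e2 : (0.6931471803 : ℝ) < Real.log 2 := Real.log_two_gt_d9
    have e3 : (0 : ℝ) ≤ ((Nat.log 2 N : ℕ) : ℝ) := Nat.cast_nonneg _
    rw [hk]
    push_cast
    nlinarith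
  have htn : tn N = (N : ℝ) ^ (0.7433 : ℝ) := rfl
  have htn0 : 0 < tn N := by
    rw [htn]
    exact Real.rpow_pos_of_pos hx0 _
  have hX : 0 < (N : ℝ) ^ (0.99999 : ℝ) := Real.rpow_pos_of_pos hx0 _
  have hY : 0 < (N : ℝ) ^ (0.999 : ℝ) := Real.rpow_pos_of_pos hx0 _
  have hZ : 0 < (N : ℝ) ^ ((1 : ℝ) / 4 + 1 / 150) := Real.rpow_pos_of_pos hx0 _
  by_contra hc
  push Not at hc
  have a1 : (2 + k) * (tn N * L) ≤ (2 + k) * (tn N * (N : ℝ) ^ ((1 : ℝ) / 4 + 1 / 150)) := by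
    apply mul_le_mul_of_nonneg_left _ (by linarith)
    exact mul_le_mul_of_nonneg_left hc.le htn0.le
  have a2 : tn N * (N : ℝ) ^ ((1 : ℝ) / 4 + 1 / 150) =
      (N : ℝ) ^ ((0.7433 : ℝ) + (1 / 4 + 1 / 150)) := by
    rw [htn, ← Real.rpow_add hx0]
  have a3 : (2 + k) * (tn N * (N : ℝ) ^ ((1 : ℝ) / 4 + 1 / 150)) ≤
      4 * (1 + Real.log (N : ℝ)) * (N : ℝ) ^ ((0.7433 : ℝ) + (1 / 4 + 1 / 150)) := by
    rw [a2]
    apply mul_le_mul_of_nonneg_right _ (Real.rpow_pos_of_pos hx0 _).le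
    linarith
  have a4 : k * (N : ℝ) ^ (0.999 : ℝ) ≤ 2 * (1 + Real.log (N : ℝ)) * (N : ℝ) ^ (0.999 : ℝ) :=
    mul_le_mul_of_nonneg_right hk2 hY.le
  have a5 : (N : ℝ) ^ (0.99999 : ℝ) ≤ (2 + k) * (tn N * L) + k * (N : ℝ) ^ (0.999 : ℝ) := by
    calc (N : ℝ) ^ (0.99999 : ℝ) ≤ _ := hL
      _ = (2 + k) * (tn N * L) + k * (N : ℝ) ^ (0.999 : ℝ) := by ring
  linarith

end Pool.Agent.Lib.MP_6cded1_nt.ML
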