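import Pool.Agent.Lib.MP_6cded1_nt.ML.Final1
import Pool.Agent.Lib.MP_6cded1_nt.ML.Final2
import Pool.Agent.Lib.MP_6cded1_nt.ML.Grid1
import Pool.Agent.Lib.MP_6cded1_nt.ML.Sieve
import Pool.Agent.Lib.MP_6cded1_nt.ML.NumFinal

/-!
# The main theorem
-/

set_option autoImplicit false

open Finset

namespace Pool.Agent.Lib.MP_6cded1_nt.ML

theorem EE_mono (W : ℕ) (t : ℝ) (g h : ℝ → ℝ) (hgh : ∀ x, g x ≤ h x) : EE W t g ≤ EE W t h := by
  unfold EE
  exact div_le_div_of_nonneg_right (Finset.sum_le_sum fun j _ => hgh _) (Nat.cast_nonneg _)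

theorem EE_add (W : ℕ) (t : ℝ) (g h : ℝ → ℝ) : EE W t (fun x => g x + h x) = EE W t g + EE W t h := by
  unfold EE
  rw [Finset.sum_add_distrib, add_div]

theorem EE_sum (W : ℕ) (t : ℝ) (J : ℕ) (g : ℕ → ℝ → ℝ) :
    EE W t (fun x => ∑ j ∈ range J, g j x) = ∑ j ∈ range J, EE W t (g j) := by
  unfold EE
  rw [Finset.sum_comm, Finset.sum_div]

theorem EE_const_mul (W : ℕ) (t c : ℝ) (g : ℝ → ℝ) : EE W t (fun x => c * g x) = c * EE W t g := by
  unfold EE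
  rw [← Finset.mul_sum, mul_div_assoc]

/-- pointwise splitting of `‖B‖` into levels -/
theorem split_levels (τ b : ℝ) (J : ℕ) (hτ : 0 < τ) (hb : b ≤ 2 ^ J * τ) (Mj : Prop) :
    b ≤ τ + sel (¬ Mj ∧ τ < b) b + ∑ j ∈ range J, sel (Mj ∧ 2 ^ j * τ < b ∧ b ≤ 2 * (2 ^ j * τ)) b := by
  by_cases h1 : b ≤ τ
  · by_cases hb0 : 0 ≤ b
    · have e1 : 0 ≤ sel (¬ Mj ∧ τ < b) b := sel_nonneg hb0
      have e2 : 0 ≤ ∑ j ∈ range J, sel (Mj ∧ 2 ^ j * τ < b ∧ b ≤ 2 * (2 ^ j * τ)) b :=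
        Finset.sum_nonneg fun j _ => sel_nonneg hb0
      linarith
    · push Not at hb0
      have e1 : sel (¬ Mj ∧ τ < b) b = 0 := sel_neg (fun h => by linarith [h.2]) _
      have e2 : ∑ j ∈ range J, sel (Mj ∧ 2 ^ j * τ < b ∧ b ≤ 2 * (2 ^ j * τ)) b = 0 := by
        refine Finset.sum_eq_zero ?_
        intro j _
        refine sel_neg (fun h => ?_) _
        have : 0 < 2 ^ j * τ := by positivity
        linarith [h.2.1]
      rw [e1, e2]
      linarith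
  · push Not at h1
    have hb0 : 0 < b := lt_trans hτ h1
    by_cases h2 : Mj
    · have e1 : 0 ≤ sel (¬ Mj ∧ τ < b) b := sel_nonneg hb0.le
      have hex : ∃ j, b ≤ 2 ^ j * τ := ⟨J, hb⟩
      classical
      set k := Nat.find hex with hk
      have hk1 : b ≤ 2 ^ k * τ := Nat.find_spec hex
      have hk0 : k ≠ 0 := by
        intro h0
        rw [h0, pow_zero, one_mul] at hk1
        linarith
      obtain ⟨i, hi⟩ : ∃ i, k = i + 1 := ⟨k - 1, by omega⟩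
      have hi1 : ¬ b ≤ 2 ^ i * τ := Nat.find_min hex (by omega)
      have hkJ : k ≤ J := Nat.find_min' hex hb
      have hiJ : i ∈ range J := Finset.mem_range.2 (by omega)
      have e2 : b ≤ ∑ j ∈ range J, sel (Mj ∧ 2 ^ j * τ < b ∧ b ≤ 2 * (2 ^ j * τ)) b := by
        have e3 : sel (Mj ∧ 2 ^ i * τ < b ∧ b ≤ 2 * (2 ^ i * τ)) b = b := by
          refine sel_pos ⟨h2, not_le.1 hi1, ?_⟩ _
          rw [hi, pow_succ] at hk1
          linarith
        calc b = sel (Mj ∧ 2 ^ i * τ < b ∧ b ≤ 2 * (2 ^ i * τ)) b := e3.symm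
          _ ≤ _ := Finset.single_le_sum (f := fun j => sel (Mj ∧ 2 ^ j * τ < b ∧ b ≤ 2 * (2 ^ j * τ)) b)
              (fun j _ => sel_nonneg hb0.le) hiJ
      linarith
    · have e1 : sel (¬ Mj ∧ τ < b) b = b := sel_pos ⟨h2, h1⟩ _
      have e2 : 0 ≤ ∑ j ∈ range J, sel (Mj ∧ 2 ^ j * τ < b ∧ b ≤ 2 * (2 ^ j * τ)) b :=
        Finset.sum_nonneg fun j _ => sel_nonneg hb0.le
      rw [e1]
      linarith

theorem main_grid : ∃ N₀ : ℕ, ∀ N : ℕ, N₀ ≤ N → ∀ f : ℕ → ℂ, Mult f →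
    (N : ℝ) ^ ((1 : ℝ) / 4 + 1 / 150) ≤ ∫ x in (0 : ℝ)..1, ‖F f N x‖ := by
  obtain ⟨N1, h1⟩ := regI_final
  obtain ⟨N2, h2⟩ := level_final
  obtain ⟨N3, h3⟩ := pairing_low
  obtain ⟨N4, h4⟩ := num_final
  obtain ⟨N5, h5⟩ := num_basic
  refine ⟨N1 + N2 + N3 + N4 + N5 + 4, ?_⟩
  intro N hN f hf
  obtain ⟨b1, b2, b3, b4, b5, b6, b7, b8, b9, b10, b11, b12, b13, b14, b15, b16, b17, b18, b19, b20, b21⟩ :=
    h5 N (by omega)
  have hN4 : 4 ≤ N := by omega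
  have hτ : 0 < tn N := lt_of_lt_of_le one_pos b20
  set W : ℕ := (N.factorial) ^ 2 with hW_def
  have hWN : N < W := by
    have e1 : N ≤ N.factorial := Nat.self_le_factorial N
    have e2 : N * N ≤ W := by
      rw [hW_def, sq]
      exact Nat.mul_le_mul e1 e1
    have e3 : N < N * N := by nlinarith
    omega
  have hW1 : 1 ≤ W := by omega
  have hpW : ∀ p : ℕ, p.Prime → p ≤ N → p ^ 2 ∣ W := by
    intro p hp hpN
    exact pow_dvd_pow_of_dvd (Nat.dvd_factorial hp.pos hpN) 2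
  obtain ⟨t, ht0, ht1, htL⟩ := exists_grid f N W hW1
  have k1 := h1 N (by omega) f hf W t hW1 hpW
  have k2 := h2 N (by omega) f hf W t hWN hpW ht0 ht1
  have k3 := h3 N (by omega)
  set L := EE W t (fun z => ‖F f N z‖) with hL
  have hL0 : 0 ≤ L := by
    rw [hL]
    unfold EE
    exact div_nonneg (Finset.sum_nonneg fun j _ => norm_nonneg _) (Nat.cast_nonneg _)
  refine le_trans ?_ htL
  apply h4 N (by omega) L
  set a := fp f with ha_def
  have ha : ∀ d, ‖a d‖ ≤ 1 := norm_fp_le f hf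
  have hBN : ∀ z, ‖B a a (Dn N) (Mn N) z‖ ≤ N := by
    intro z
    refine (norm_B_le a a ha ha (Dn N) (Mn N) z).trans ?_
    have e1 : ((4 * Dn N * Mn N : ℕ) : ℝ) ≤ N := by exact_mod_cast b3
    push_cast at e1
    have e2 : (0 : ℝ) ≤ (Dn N : ℝ) * Mn N := by positivity
    nlinarith
  have hJ : ∀ z, ‖B a a (Dn N) (Mn N) z‖ ≤ 2 ^ (Nat.log 2 N + 1) * tn N := by
    intro z
    refine (hBN z).trans ?_
    have e1 : N < 2 ^ (Nat.log 2 N + 1) := Nat.lt_pow_succ_log_self (by norm_num) N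
    have e2 : (N : ℝ) ≤ 2 ^ (Nat.log 2 N + 1) := by exact_mod_cast e1.le
    have e3 : (0 : ℝ) ≤ 2 ^ (Nat.log 2 N + 1) := by positivity
    nlinarith
  -- the pairing
  have hpair := grid_pairing f a a N (Dn N) (Mn N) W hWN b3 t
  have hcount := pairing_count f hf (Dn N) (Mn N)
  rw [← hpair] at hcount
  have hup : ‖(∑ j ∈ range W, F f N (gp W t j) * (starRingEnd ℂ) (B a a (Dn N) (Mn N) (gp W t j))) / W‖ ≤
      EE W t (fun z => ‖F f N z‖ * ‖B a a (Dn N) (Mn N) z‖) := by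
    unfold EE
    rw [norm_div, Complex.norm_natCast]
    refine div_le_div_of_nonneg_right ?_ (Nat.cast_nonneg _)
    refine (norm_sum_le _ _).trans (Finset.sum_le_sum ?_)
    intro j _
    rw [norm_mul, RCLike.norm_conj]
  have hpt : ∀ z, ‖F f N z‖ * ‖B a a (Dn N) (Mn N) z‖ ≤ (tn N * ‖F f N z‖ +
      ‖F f N z‖ * sel (¬ Maj N (Dn N) z ∧ tn N < ‖B a a (Dn N) (Mn N) z‖) ‖B a a (Dn N) (Mn N) z‖) +
      ∑ j ∈ range (Nat.log 2 N + 1), ‖F f N z‖ * sel (Maj N (Dn N) z ∧ 2 ^ j * tn N < ‖B a a (Dn N) (Mn N) z‖ ∧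
        ‖B a a (Dn N) (Mn N) z‖ ≤ 2 * (2 ^ j * tn N)) ‖B a a (Dn N) (Mn N) z‖ := by
    intro z
    have e1 := split_levels (tn N) ‖B a a (Dn N) (Mn N) z‖ (Nat.log 2 N + 1) hτ (hJ z) (Maj N (Dn N) z)
    have e2 := mul_le_mul_of_nonneg_left e1 (norm_nonneg (F f N z))
    rw [← Finset.mul_sum]
    linarith
  have htot := EE_mono W t _ _ hpt
  rw [EE_add, EE_add, EE_const_mul, EE_sum] at htot
  have hlev : ∑ j ∈ range (Nat.log 2 N + 1), EE W t (fun z => ‖F f N z‖ *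
      sel (Maj N (Dn N) z ∧ 2 ^ j * tn N < ‖B a a (Dn N) (Mn N) z‖ ∧
        ‖B a a (Dn N) (Mn N) z‖ ≤ 2 * (2 ^ j * tn N)) ‖B a a (Dn N) (Mn N) z‖) ≤
      ((Nat.log 2 N + 1 : ℕ) : ℝ) * (tn N * L + (N : ℝ) ^ (0.999 : ℝ)) := by
    have e1 : ∀ j ∈ range (Nat.log 2 N + 1), EE W t (fun z => ‖F f N z‖ *
      sel (Maj N (Dn N) z ∧ 2 ^ j * tn N < ‖B a a (Dn N) (Mn N) z‖ ∧
        ‖B a a (Dn N) (Mn N) z‖ ≤ 2 * (2 ^ j * tn N)) ‖B a a (Dn N) (Mn N) z‖) ≤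
        tn N * L + (N : ℝ) ^ (0.999 : ℝ) := by
      intro j _
      have hge : tn N ≤ 2 ^ j * tn N := by
        have : (1 : ℝ) ≤ 2 ^ j := one_le_pow₀ (by norm_num)
        nlinarith
      rcases le_total (2 ^ j * tn N) (N : ℝ) with hc | hc
      · exact k2 (2 ^ j * tn N) hge hc
      · have e4 : EE W t (fun z => ‖F f N z‖ *
          sel (Maj N (Dn N) z ∧ 2 ^ j * tn N < ‖B a a (Dn N) (Mn N) z‖ ∧
            ‖B a a (Dn N) (Mn N) z‖ ≤ 2 * (2 ^ j * tn N)) ‖B a a (Dn N) (Mn N) z‖) = 0 := by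
          unfold EE
          rw [Finset.sum_eq_zero, zero_div]
          intro i _
          simp only
          rw [sel_neg, mul_zero]
          rintro ⟨_, h, _⟩
          have := hBN (gp W t i)
          linarith
        rw [e4]
        positivity
    refine (Finset.sum_le_sum e1).trans ?_
    rw [Finset.sum_const, Finset.card_range, nsmul_eq_mul]
  have hall := k3.trans (hcount.trans (hup.trans htot))
  linarith

end Pool.Agent.Lib.MP_6cded1_nt.ML
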