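import Pool.Agent.Lib.MP_6cded1_nt.ML.Nd

/-!
# Halasz-Montgomery 1: solutions in one box

Let `g = gcd q q'`.  For an integer `r` the number of `(d, d')`, `d0 ≤ d < d0 + q`, `d0' ≤ d' < d0' + q'` with `q q' ∣ d a q' - d' a' q - r` is `≤ g`, and it is `0` unless `g ∣ r`:
if `(d₁, d₁')`, `(d₂, d₂')` are solutions then `(d₁ - d₂) a q' ≡ (d₁' - d₂') a' q mod q q'`, so (`q = g x`, `q' = g y`, `gcd x y = 1`) `x ∣ (d₁ - d₂)`: at most `g` values of `d`; and
`d` determines `d' a'` mod `q'`, hence `d'`.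
If `nd (d a / q - d' a' / q') ≤ ξ` then `d a q' - d' a' q ≡ r mod q q'` for an integer `r`, `|r| ≤ ξ q q'`; there are at most `2 ξ q q' / g + 1` multiples of `g` among these.
Total `≤ g (2 ξ q q' / g + 1)`.
-/

set_option autoImplicit false

open Finset

namespace Pool.Agent.Lib.MP_6cded1_nt.ML

private theorem HM1_nat_eq {m n x : ℕ} (hd : (x : ℤ) ∣ (m : ℤ) - n) (hq : m / x = n / x) : m = n := by
  have h1 : m % x = n % x := by
    have h2 : n ≡ m [MOD x] := (Nat.modEq_iff_dvd).2 hd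
    exact h2.symm
  rw [← Nat.div_add_mod m x, ← Nat.div_add_mod n x, hq, h1]

private theorem HM1_fibre (q q' d0 d0' : ℕ) (a a' : ℤ) (hq : 1 ≤ q)
    (ha : IsCoprime a (q : ℤ)) (ha' : IsCoprime a' (q' : ℤ)) (A : Finset (ℕ × ℕ))
    (hA : ∀ s ∈ A, s.1 ∈ Ico d0 (d0 + q) ∧ s.2 ∈ Ico d0' (d0' + q')) (r : ℤ)
    (hr : ∀ s ∈ A, (q : ℤ) * q' ∣ s.1 * a * q' - s.2 * a' * q - r) : A.card ≤ Nat.gcd q q' := by
  obtain ⟨x, y, hxy, hqx, hqy⟩ := Nat.exists_coprime q q'
  set g := Nat.gcd q q' with hg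
  have hgpos : 0 < g := Nat.gcd_pos_of_pos_left _ hq
  have hxpos : 0 < x := by
    rcases Nat.eq_zero_or_pos x with h | h
    · rw [h, zero_mul] at hqx
      omega
    · exact h
  have hkey : ∀ s ∈ A, ∀ t ∈ A, (x : ℤ) ∣ (s.1 : ℤ) - t.1 := by
    intro s hs t ht
    have h1 := dvd_sub (hr s hs) (hr t ht)
    have h2 : (q : ℤ) ∣ ((s.1 : ℤ) - t.1) * a * q' := by
      have h3 : (q : ℤ) ∣ (s.1 * a * q' - s.2 * a' * q - r) - (t.1 * a * q' - t.2 * a' * q - r) :=
        (Dvd.intro _ rfl).trans h1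
      have h4 : ((s.1 : ℤ) - t.1) * a * q' =
          ((s.1 * a * q' - s.2 * a' * q - r) - (t.1 * a * q' - t.2 * a' * q - r)) +
            q * ((s.2 - t.2) * a') := by ring
      rw [h4]
      exact dvd_add h3 (Dvd.intro _ rfl)
    have h5 : (q : ℤ) ∣ ((s.1 : ℤ) - t.1) * q' := by
      have h6 : ((s.1 : ℤ) - t.1) * a * q' = a * (((s.1 : ℤ) - t.1) * q') := by ring
      rw [h6] at h2
      exact (ha.symm).dvd_of_dvd_mul_left h2
    have h7 : (x : ℤ) * g ∣ ((s.1 : ℤ) - t.1) * y * g := by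
      have h8 : ((x * g : ℕ) : ℤ) ∣ ((s.1 : ℤ) - t.1) * ((y * g : ℕ) : ℤ) := by
        rw [← hqx, ← hqy]
        exact h5
      push_cast at h8
      rw [← mul_assoc] at h8
      exact h8
    have h9 : (x : ℤ) ∣ ((s.1 : ℤ) - t.1) * y :=
      (mul_dvd_mul_iff_right (by exact_mod_cast hgpos.ne')).1 h7
    have h10 : IsCoprime (x : ℤ) (y : ℤ) := Nat.isCoprime_iff_coprime.2 hxy
    exact h10.dvd_of_dvd_mul_right h9
  have hcard : A.card ≤ (range g).card := by
    refine Finset.card_le_card_of_injOn (fun s => (s.1 - d0) / x) ?_ ?_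
    · intro s hs
      have h1 := (hA s hs).1
      rw [mem_Ico] at h1
      have h2 : (s.1 - d0) / x < g := by
        rw [Nat.div_lt_iff_lt_mul hxpos, mul_comm, ← hqx]
        omega
      simpa using h2
    · intro s hs t ht hst
      have h1 := (hA s hs).1
      have h2 := (hA t ht).1
      rw [mem_Ico] at h1 h2
      have h3 : s.1 - d0 = t.1 - d0 := by
        apply HM1_nat_eq (x := x) _ hst
        have h4 := hkey s hs t ht
        have h5 : ((s.1 - d0 : ℕ) : ℤ) - ((t.1 - d0 : ℕ) : ℤ) = (s.1 : ℤ) - t.1 := by omega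
        rw [h5]
        exact h4
      have h6 : s.1 = t.1 := by omega
      have h7 := dvd_sub (hr s hs) (hr t ht)
      rw [h6] at h7
      have h8 : (q : ℤ) * q' ∣ q * (((t.2 : ℤ) - s.2) * a') := by
        have h9 : (q : ℤ) * (((t.2 : ℤ) - s.2) * a') =
          (t.1 * a * q' - s.2 * a' * q - r) - (t.1 * a * q' - t.2 * a' * q - r) := by ring
        rw [h9]
        exact h7
      have h10 : (q' : ℤ) ∣ ((t.2 : ℤ) - s.2) * a' :=
        (mul_dvd_mul_iff_left (by exact_mod_cast (by omega : q ≠ 0))).1 h8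
      have h11 : (q' : ℤ) ∣ (t.2 : ℤ) - s.2 := (ha'.symm).dvd_of_dvd_mul_right h10
      have h12 := (hA s hs).2
      have h13 := (hA t ht).2
      rw [mem_Ico] at h12 h13
      have h14 : (t.2 : ℤ) - s.2 = 0 := by
        apply Int.eq_zero_of_abs_lt_dvd h11
        rw [abs_lt]
        constructor <;> omega
      apply Prod.ext h6
      omega
  rwa [card_range] at hcard

theorem box_count (q q' d0 d0' : ℕ) (a a' : ℤ) (hq : 1 ≤ q) (hq' : 1 ≤ q') (ha : IsCoprime a (q : ℤ))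
    (ha' : IsCoprime a' (q' : ℤ)) (ξ : ℝ) (hξ : 0 ≤ ξ) :
    ((((Ico d0 (d0 + q)) ×ˢ (Ico d0' (d0' + q'))).filter fun s : ℕ × ℕ =>
      nd ((s.1 : ℝ) * a / q - (s.2 : ℝ) * a' / q') ≤ ξ).card : ℝ) ≤ 2 * ξ * q * q' + Nat.gcd q q' := by
  classical
  set A := (((Ico d0 (d0 + q)) ×ˢ (Ico d0' (d0' + q'))).filter fun s : ℕ × ℕ =>
      nd ((s.1 : ℝ) * a / q - (s.2 : ℝ) * a' / q') ≤ ξ) with hA
  have hgpos : 0 < Nat.gcd q q' := Nat.gcd_pos_of_pos_left _ hq
  obtain ⟨x, y, hxy, hqx, hqy⟩ := Nat.exists_coprime q q'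
  set g := Nat.gcd q q' with hg
  have hq0 : (0 : ℝ) < q := by exact_mod_cast hq
  have hq0' : (0 : ℝ) < q' := by exact_mod_cast hq'
  have hg0 : (0 : ℝ) < g := by exact_mod_cast hgpos
  set X : ℝ := ξ * q * q' / g with hX
  have hX0 : 0 ≤ X := by positivity
  -- the residue divided by `g`
  let R : ℕ × ℕ → ℤ := fun s => s.1 * a * y - s.2 * a' * x -
    x * y * g * round ((s.1 : ℝ) * a / q - (s.2 : ℝ) * a' / q')
  have hRg : ∀ s : ℕ × ℕ, (g : ℤ) * R s = s.1 * a * q' - s.2 * a' * q -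
      q * q' * round ((s.1 : ℝ) * a / q - (s.2 : ℝ) * a' / q') := by
    intro s
    have e1 : (q : ℤ) = x * g := by exact_mod_cast hqx
    have e2 : (q' : ℤ) = y * g := by exact_mod_cast hqy
    change (g : ℤ) * (s.1 * a * y - s.2 * a' * x -
      x * y * g * round ((s.1 : ℝ) * a / q - (s.2 : ℝ) * a' / q')) = _
    generalize round ((s.1 : ℝ) * a / q - (s.2 : ℝ) * a' / q') = k
    rw [e1, e2]
    ring
  have hRabs : ∀ s : ℕ × ℕ, (g : ℝ) * |(R s : ℝ)| =
      q * q' * nd ((s.1 : ℝ) * a / q - (s.2 : ℝ) * a' / q') := by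
    intro s
    have h1 : ((g : ℝ) * (R s : ℝ)) = s.1 * a * q' - s.2 * a' * q -
      q * q' * round ((s.1 : ℝ) * a / q - (s.2 : ℝ) * a' / q') := by
      exact_mod_cast hRg s
    have h2 : (g : ℝ) * |(R s : ℝ)| = |(g : ℝ) * (R s : ℝ)| := by
      rw [abs_mul, abs_of_pos hg0]
    rw [h2, h1]
    unfold nd
    have h3 : (q : ℝ) * q' = |(q : ℝ) * q'| := (abs_of_pos (by positivity)).symm
    have h4 : (q : ℝ) * q' * |((s.1 : ℝ) * a / q - (s.2 : ℝ) * a' / q') -
        round ((s.1 : ℝ) * a / q - (s.2 : ℝ) * a' / q')| =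
        |(q : ℝ) * q'| * |((s.1 : ℝ) * a / q - (s.2 : ℝ) * a' / q') -
        round ((s.1 : ℝ) * a / q - (s.2 : ℝ) * a' / q')| := by rw [← h3]
    rw [h4, ← abs_mul]
    congr 1
    field_simp
  have himage : A.image R ⊆ Icc (-⌊X⌋) ⌊X⌋ := by
    intro r hr
    rw [mem_image] at hr
    obtain ⟨s, hs, rfl⟩ := hr
    rw [hA, mem_filter] at hs
    have h1 := hRabs s
    have h2 : (g : ℝ) * |(R s : ℝ)| ≤ q * q' * ξ := by
      rw [h1]
      exact mul_le_mul_of_nonneg_left hs.2 (by positivity)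
    have h3 : |(R s : ℝ)| ≤ X := by
      rw [hX, le_div_iff₀ hg0]
      linarith
    have h4 : |R s| ≤ ⌊X⌋ := by
      rw [Int.le_floor]
      push_cast
      exact h3
    rw [mem_Icc]
    exact abs_le.1 h4
  have hfib : ∀ r ∈ A.image R, (A.filter fun s => R s = r).card ≤ g := by
    intro r _
    refine HM1_fibre q q' d0 d0' a a' hq ha ha' _ ?_ (g * r) ?_
    · intro s hs
      rw [mem_filter, hA, mem_filter, mem_product] at hs
      exact hs.1.1
    · intro s hs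
      rw [mem_filter] at hs
      refine ⟨round ((s.1 : ℝ) * a / q - (s.2 : ℝ) * a' / q'), ?_⟩
      rw [← hs.2, hRg s]
      ring
  have hcard := Finset.card_le_mul_card_image A g hfib
  have hcard2 : ((A.image R).card : ℝ) ≤ 2 * X + 1 := by
    have h1 := card_le_card himage
    have h0 : 0 ≤ ⌊X⌋ := Int.floor_nonneg.2 hX0
    have h2 : ((Icc (-⌊X⌋) ⌊X⌋).card : ℤ) = 2 * ⌊X⌋ + 1 := by
      rw [Int.card_Icc, Int.toNat_of_nonneg (by omega)]
      ring
    have h3 : ((Icc (-⌊X⌋) ⌊X⌋).card : ℝ) = 2 * (⌊X⌋ : ℝ) + 1 := by exact_mod_cast h2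
    have h4 : ((A.image R).card : ℝ) ≤ ((Icc (-⌊X⌋) ⌊X⌋).card : ℝ) := by exact_mod_cast h1
    have h5 := Int.floor_le X
    linarith
  have h1 : (A.card : ℝ) ≤ g * ((A.image R).card : ℝ) := by exact_mod_cast hcard
  have h2 : (g : ℝ) * ((A.image R).card : ℝ) ≤ g * (2 * X + 1) :=
    mul_le_mul_of_nonneg_left hcard2 hg0.le
  have h3 : (g : ℝ) * (2 * X + 1) = 2 * ξ * q * q' + g := by
    rw [hX]
    field_simp
  linarith

end Pool.Agent.Lib.MP_6cded1_nt.ML
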