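import Pool.Agent.Lib.MP_6cded1_nt.ML.HM1

/-!
# Halasz-Montgomery 2: pair count

Cover `(D, 4D]` by `⌊3D/q⌋ + 1 ≤ 4 D / q` intervals of length `q` and by `⌊3D/q'⌋ + 1 ≤ 4 D / q'` intervals of length `q'` (`q, q' ≤ D`); `box_count` for each pair of intervals:
total `≤ (16 D² / (q q')) (2 ξ q q' + gcd)`.
-/

set_option autoImplicit false

open Finset

namespace Pool.Agent.Lib.MP_6cded1_nt.ML

private theorem num_bound (D q : ℕ) (hq : 1 ≤ q) (hqD : q ≤ D) :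
    (((3 * D / q + 1 : ℕ)) : ℝ) ≤ 4 * D / q := by
  have hq0 : (0 : ℝ) < q := by exact_mod_cast hq
  rw [le_div_iff₀ hq0]
  have h1 : 3 * D / q * q ≤ 3 * D := Nat.div_mul_le_self _ _
  have h2 : (3 * D / q + 1) * q ≤ 4 * D := by
    rw [add_mul, one_mul]
    omega
  exact_mod_cast h2

private theorem mem_cover (D q d : ℕ) (hq : 1 ≤ q) (hd : d ∈ Ioc D (4 * D)) :
    (d - (D + 1)) / q ∈ range (3 * D / q + 1) ∧
      d ∈ Ico (D + 1 + (d - (D + 1)) / q * q) (D + 1 + (d - (D + 1)) / q * q + q) := by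
  rw [mem_Ioc] at hd
  obtain ⟨h1, h2⟩ := hd
  have hq' : 0 < q := hq
  have h3 := Nat.div_add_mod (d - (D + 1)) q
  have h4 := Nat.mod_lt (d - (D + 1)) hq'
  constructor
  · rw [mem_range, Nat.lt_succ_iff]
    apply Nat.div_le_div_right
    omega
  · rw [mem_Ico]
    rw [mul_comm q] at h3
    constructor
    · omega
    · omega

theorem pair_count (D q q' : ℕ) (a a' : ℤ) (hq : 1 ≤ q) (hq' : 1 ≤ q') (hqD : q ≤ D) (hqD' : q' ≤ D)
    (ha : IsCoprime a (q : ℤ)) (ha' : IsCoprime a' (q' : ℤ)) (ξ : ℝ) (hξ : 0 ≤ ξ) :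
    ((((Ioc D (4 * D)) ×ˢ (Ioc D (4 * D))).filter fun s : ℕ × ℕ =>
      nd ((s.1 : ℝ) * a / q - (s.2 : ℝ) * a' / q') ≤ ξ).card : ℝ) ≤
      32 * D ^ 2 * ξ + 16 * D ^ 2 * Nat.gcd q q' / (q * q') := by
  classical
  have hq0 : (0 : ℝ) < q := by exact_mod_cast hq
  have hq0' : (0 : ℝ) < q' := by exact_mod_cast hq'
  have hsub : (((Ioc D (4 * D)) ×ˢ (Ioc D (4 * D))).filter fun s : ℕ × ℕ =>
      nd ((s.1 : ℝ) * a / q - (s.2 : ℝ) * a' / q') ≤ ξ) ⊆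
      (range (3 * D / q + 1) ×ˢ range (3 * D / q' + 1)).biUnion fun i =>
        ((Ico (D + 1 + i.1 * q) (D + 1 + i.1 * q + q)) ×ˢ
          (Ico (D + 1 + i.2 * q') (D + 1 + i.2 * q' + q'))).filter fun s : ℕ × ℕ =>
            nd ((s.1 : ℝ) * a / q - (s.2 : ℝ) * a' / q') ≤ ξ := by
    intro s hs
    rw [mem_filter, mem_product] at hs
    obtain ⟨⟨h1, h2⟩, h3⟩ := hs
    obtain ⟨h4, h5⟩ := mem_cover D q s.1 hq h1
    obtain ⟨h6, h7⟩ := mem_cover D q' s.2 hq' h2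
    rw [mem_biUnion]
    exact ⟨((s.1 - (D + 1)) / q, (s.2 - (D + 1)) / q'), mem_product.mpr ⟨h4, h6⟩,
      mem_filter.mpr ⟨mem_product.mpr ⟨h5, h7⟩, h3⟩⟩
  have h1 : ((((Ioc D (4 * D)) ×ˢ (Ioc D (4 * D))).filter fun s : ℕ × ℕ =>
      nd ((s.1 : ℝ) * a / q - (s.2 : ℝ) * a' / q') ≤ ξ).card : ℝ) ≤
      ∑ i ∈ range (3 * D / q + 1) ×ˢ range (3 * D / q' + 1), (2 * ξ * q * q' + Nat.gcd q q') := by
    refine le_trans (Nat.cast_le.mpr (card_le_card hsub)) ?_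
    refine le_trans (Nat.cast_le.mpr card_biUnion_le) ?_
    rw [Nat.cast_sum]
    refine sum_le_sum ?_
    intro i _
    exact box_count q q' _ _ a a' hq hq' ha ha' ξ hξ
  refine h1.trans ?_
  rw [sum_const, card_product, card_range, card_range, nsmul_eq_mul]
  have hg : (0 : ℝ) ≤ 2 * ξ * q * q' + Nat.gcd q q' := by positivity
  have h2 := num_bound D q hq hqD
  have h3 := num_bound D q' hq' hqD'
  calc (((3 * D / q + 1) * (3 * D / q' + 1) : ℕ) : ℝ) * (2 * ξ * q * q' + Nat.gcd q q')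
      ≤ (4 * D / q * (4 * D / q')) * (2 * ξ * q * q' + Nat.gcd q q') := by
        refine mul_le_mul_of_nonneg_right ?_ hg
        rw [Nat.cast_mul]
        exact mul_le_mul h2 h3 (Nat.cast_nonneg _) (by positivity)
    _ = 32 * D ^ 2 * ξ + 16 * D ^ 2 * Nat.gcd q q' / (q * q') := by
        field_simp
        ring

end Pool.Agent.Lib.MP_6cded1_nt.ML
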