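import Pool.Agent.Lib.MP_6cded1_nt.ML.HM2

/-!
# Halasz-Montgomery 3: the bound of `E`

`cap_layer`: `0 ≤ x ≤ 1/2`, `L = Nat.log 2 M`.  If `x ≤ 1 / M` the term `k = 0` is `M ≥ cap`.  Otherwise let `k ≥ 1` be least with `x ≤ 2^k / M`; `2^(k-1) / M < x ≤ 1/2` gives `2^k < M`...
so `k ≤ L`, and `cap ≤ 1 / (2 x) < M / 2^k` (`cap_le_inv`).
`E_hm`: `|d z - d' z' - (d a / q - d' a' / q')| ≤ 8 D ϑ`, so `nd (d z - d' z') ≤ 2^k / M` implies `nd (d a / q - d' a' / q') ≤ 2^k / M + 8 D ϑ`.  By `cap_layer` and `pair_count`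
`E ≤ ∑_{k ≤ L} (M / 2^k) (32 D² (2^k / M + 8 D ϑ) + 16 D² g / (q q')) ≤ 32 D² (L + 1) + 2 M (256 D³ ϑ + 16 D² g / (q q'))`.
-/

set_option autoImplicit false

open Finset

namespace Pool.Agent.Lib.MP_6cded1_nt.ML

theorem cap_layer (M : ℕ) (hM : 1 ≤ M) (x : ℝ) (hx0 : 0 ≤ x) (hx : x ≤ 1 / 2) :
    cap M (2 * x) ≤ ∑ k ∈ range (Nat.log 2 M + 1), if x ≤ 2 ^ k / M then (M : ℝ) / 2 ^ k else 0 := by
  have hM0 : (0 : ℝ) < M := by exact_mod_cast hM
  have hnn : ∀ k ∈ range (Nat.log 2 M + 1), (0 : ℝ) ≤ if x ≤ 2 ^ k / M then (M : ℝ) / 2 ^ k else 0 := by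
    intro k _
    split_ifs
    · positivity
    · exact le_rfl
  by_cases h1 : x ≤ 1 / M
  · have h0 : (0 : ℕ) ∈ range (Nat.log 2 M + 1) := by simp
    refine le_trans ?_ (Finset.single_le_sum hnn h0)
    rw [if_pos (by simpa using h1)]
    simpa using cap_le hM0.le (2 * x)
  · push Not at h1
    have hx1 : 0 < x := lt_trans (by positivity) h1
    have hex : ∃ k : ℕ, x ≤ 2 ^ k / M := by
      refine ⟨Nat.log 2 M + 1, ?_⟩
      have h2 : M < 2 ^ (Nat.log 2 M + 1) := Nat.lt_pow_succ_log_self (by norm_num) M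
      have h3 : (M : ℝ) < 2 ^ (Nat.log 2 M + 1) := by exact_mod_cast h2
      rw [le_div_iff₀ hM0]
      nlinarith
    classical
    set k := Nat.find hex with hk
    have hk1 : x ≤ 2 ^ k / M := Nat.find_spec hex
    have hk0 : k ≠ 0 := by
      intro h0
      rw [h0, pow_zero] at hk1
      exact absurd hk1 (not_le.mpr h1)
    obtain ⟨j, hj⟩ := Nat.exists_eq_succ_of_ne_zero hk0
    have hj1 : ¬ x ≤ 2 ^ j / M := Nat.find_min hex (by omega)
    push Not at hj1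
    have hj2 : (2 : ℝ) ^ j < x * M := by
      rwa [div_lt_iff₀ hM0] at hj1
    have h2k : (2 : ℝ) ^ k = 2 * 2 ^ j := by
      rw [hj, pow_succ]
      ring
    have hkM : (2 : ℝ) ^ k < M := by
      rw [h2k]
      nlinarith
    have hkL : k ≤ Nat.log 2 M := by
      refine Nat.le_log_of_pow_le (by norm_num) ?_
      exact_mod_cast hkM.le
    have hkm : k ∈ range (Nat.log 2 M + 1) := by
      rw [Finset.mem_range]
      omega
    refine le_trans ?_ (Finset.single_le_sum hnn hkm)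
    rw [if_pos hk1]
    refine (cap_le_inv hM0.le (by positivity)).trans ?_
    rw [div_le_div_iff₀ (by positivity) (by positivity), h2k]
    nlinarith

theorem sum_div_pow_le (M : ℕ) (L : ℕ) : ∑ k ∈ range L, (M : ℝ) / 2 ^ k ≤ 2 * M := by
  have h : ∀ n : ℕ, ∑ k ∈ range n, (M : ℝ) / 2 ^ k = 2 * M - 2 * M / 2 ^ n := by
    intro n
    induction n with
    | zero => simp
    | succ n ih =>
      rw [Finset.sum_range_succ, ih, pow_succ]
      field_simp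
      ring
  rw [h]
  have : (0 : ℝ) ≤ 2 * M / 2 ^ L := by positivity
  linarith

theorem E_hm (D M q q' : ℕ) (a a' : ℤ) (z z' ϑ : ℝ) (hM : 1 ≤ M) (hq : 1 ≤ q) (hq' : 1 ≤ q') (hqD : q ≤ D)
    (hqD' : q' ≤ D) (ha : IsCoprime a (q : ℤ)) (ha' : IsCoprime a' (q' : ℤ)) (hz : |z - a / q| ≤ ϑ)
    (hz' : |z' - a' / q'| ≤ ϑ) :
    E D M z z' ≤ 32 * D ^ 2 * (Nat.log 2 M + 1) + 512 * D ^ 3 * M * ϑ + 32 * M * D ^ 2 * Nat.gcd q q' / (q * q') := by
  have hM0 : (0 : ℝ) < M := by exact_mod_cast hM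
  have hϑ : 0 ≤ ϑ := (abs_nonneg _).trans hz
  have hD0 : (0 : ℝ) ≤ D := Nat.cast_nonneg D
  set S := (Ioc D (4 * D)) ×ˢ (Ioc D (4 * D)) with hS
  set L := Nat.log 2 M with hL
  -- the distance estimate
  have hdist : ∀ s ∈ S, nd ((s.1 : ℝ) * a / q - (s.2 : ℝ) * a' / q') ≤
      nd ((s.1 : ℝ) * z - s.2 * z') + 8 * D * ϑ := by
    intro s hs
    rw [hS, Finset.mem_product, Finset.mem_Ioc, Finset.mem_Ioc] at hs
    obtain ⟨⟨_, h1⟩, _, h2⟩ := hs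
    have h1' : (s.1 : ℝ) ≤ 4 * D := by exact_mod_cast h1
    have h2' : (s.2 : ℝ) ≤ 4 * D := by exact_mod_cast h2
    refine (nd_le_add_abs _ ((s.1 : ℝ) * z - s.2 * z')).trans ?_
    have h3 : (s.1 : ℝ) * a / q - (s.2 : ℝ) * a' / q' - ((s.1 : ℝ) * z - s.2 * z') =
        (s.2 : ℝ) * (z' - a' / q') - (s.1 : ℝ) * (z - a / q) := by ring
    rw [h3]
    have h4 : |(s.2 : ℝ) * (z' - a' / q') - (s.1 : ℝ) * (z - a / q)| ≤
        (s.2 : ℝ) * |z' - a' / q'| + (s.1 : ℝ) * |z - a / q| := by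
      refine (abs_sub _ _).trans ?_
      rw [abs_mul, abs_mul, Nat.abs_cast, Nat.abs_cast]
    have h5 : (s.2 : ℝ) * |z' - a' / q'| ≤ 4 * D * ϑ :=
      mul_le_mul h2' hz' (abs_nonneg _) (by positivity)
    have h6 : (s.1 : ℝ) * |z - a / q| ≤ 4 * D * ϑ :=
      mul_le_mul h1' hz (abs_nonneg _) (by positivity)
    linarith
  have hE : E D M z z' = ∑ s ∈ S, cap M (2 * nd ((s.1 : ℝ) * z - s.2 * z')) := by
    unfold E
    rw [hS, Finset.sum_product]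
  have h1 : E D M z z' ≤ ∑ s ∈ S, ∑ k ∈ range (L + 1),
      if nd ((s.1 : ℝ) * z - s.2 * z') ≤ 2 ^ k / M then (M : ℝ) / 2 ^ k else 0 := by
    rw [hE]
    exact Finset.sum_le_sum fun s _ => cap_layer M hM _ (nd_nonneg _) (nd_le_half _)
  rw [Finset.sum_comm] at h1
  have h2 : ∀ k ∈ range (L + 1), (∑ s ∈ S,
      if nd ((s.1 : ℝ) * z - s.2 * z') ≤ 2 ^ k / M then (M : ℝ) / 2 ^ k else 0) ≤
      32 * D ^ 2 + (M : ℝ) / 2 ^ k * (256 * D ^ 3 * ϑ + 16 * D ^ 2 * Nat.gcd q q' / (q * q')) := by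
    intro k _
    rw [← Finset.sum_filter, Finset.sum_const, nsmul_eq_mul]
    have hp := pair_count D q q' a a' hq hq' hqD hqD' ha ha' (2 ^ k / M + 8 * D * ϑ) (by positivity)
    have hc : ((S.filter fun s : ℕ × ℕ => nd ((s.1 : ℝ) * z - s.2 * z') ≤ 2 ^ k / M).card : ℝ) ≤
        32 * D ^ 2 * (2 ^ k / M + 8 * D * ϑ) + 16 * D ^ 2 * Nat.gcd q q' / (q * q') := by
      refine le_trans ?_ hp
      have : (S.filter fun s : ℕ × ℕ => nd ((s.1 : ℝ) * z - s.2 * z') ≤ 2 ^ k / M) ⊆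
          (((Ioc D (4 * D)) ×ˢ (Ioc D (4 * D))).filter fun s : ℕ × ℕ =>
            nd ((s.1 : ℝ) * a / q - (s.2 : ℝ) * a' / q') ≤ 2 ^ k / M + 8 * D * ϑ) := by
        intro s hs
        rw [Finset.mem_filter] at hs ⊢
        refine ⟨hs.1, (hdist s hs.1).trans ?_⟩
        linarith [hs.2]
      exact_mod_cast Finset.card_le_card this
    have hpos : (0 : ℝ) ≤ (M : ℝ) / 2 ^ k := by positivity
    refine (mul_le_mul_of_nonneg_right hc hpos).trans ?_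
    apply le_of_eq
    have h3 : (2 : ℝ) ^ k / M * (M / 2 ^ k) = 1 := by
      field_simp
    calc (32 * (D : ℝ) ^ 2 * (2 ^ k / M + 8 * D * ϑ) + 16 * D ^ 2 * Nat.gcd q q' / (q * q')) * (M / 2 ^ k)
        = 32 * (D : ℝ) ^ 2 * (2 ^ k / M * (M / 2 ^ k)) +
          M / 2 ^ k * (256 * D ^ 3 * ϑ + 16 * D ^ 2 * Nat.gcd q q' / (q * q')) := by ring
      _ = _ := by rw [h3, mul_one]
  refine (h1.trans (Finset.sum_le_sum h2)).trans ?_
  rw [Finset.sum_add_distrib, Finset.sum_const, Finset.card_range, nsmul_eq_mul, ← Finset.sum_mul]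
  have h3 := sum_div_pow_le M (L + 1)
  have h4 : (0 : ℝ) ≤ 256 * D ^ 3 * ϑ + 16 * D ^ 2 * Nat.gcd q q' / (q * q') := by positivity
  have h5 := mul_le_mul_of_nonneg_right h3 h4
  have h6 : 2 * (M : ℝ) * (256 * D ^ 3 * ϑ + 16 * D ^ 2 * Nat.gcd q q' / (q * q')) =
      512 * D ^ 3 * M * ϑ + 32 * M * D ^ 2 * Nat.gcd q q' / (q * q') := by ring
  push_cast
  linarith

end Pool.Agent.Lib.MP_6cded1_nt.ML
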