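import Pool.Agent.Lib.MP_6cded1_nt.ML.Res

/-!
# A gcd sum

`gcd(q, q') ≤ ∑_{g ∣ q, g ∣ q'} g`; interchange: `∑_{g ∣ q} ∑_{q' ≤ K, g ∣ q'} g / q' = ∑_{g ∣ q} ∑_{k ≤ K / g} 1 / k ≤ d(q) (1 + log K)` (`harmonic_le`, monotonicity of `log`;
if `K / g = 0` the sum is empty).
-/

set_option autoImplicit false

open Finset

namespace Pool.Agent.Lib.MP_6cded1_nt.ML

private theorem gcd_le_sum (q q' : ℕ) (hq : 1 ≤ q) :
    (Nat.gcd q q' : ℝ) ≤ ∑ g ∈ q.divisors, if g ∣ q' then (g : ℝ) else 0 := by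
  have h1 : Nat.gcd q q' ∈ q.divisors := by
    rw [Nat.mem_divisors]
    exact ⟨Nat.gcd_dvd_left _ _, by omega⟩
  have h2 := single_le_sum (f := fun g : ℕ => if g ∣ q' then (g : ℝ) else 0) (s := q.divisors)
    (by
      intro g _
      split_ifs
      · exact Nat.cast_nonneg _
      · exact le_rfl) h1
  rw [if_pos (Nat.gcd_dvd_right q q')] at h2
  exact h2

private theorem inner_sum (K g : ℕ) (hg : 1 ≤ g) :
    ∑ q' ∈ Icc 1 K, (if g ∣ q' then (g : ℝ) else 0) / q' ≤ 1 + Real.log K := by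
  have hg0 : (0 : ℝ) < g := by exact_mod_cast hg
  have h1 : ∑ q' ∈ Icc 1 K, (if g ∣ q' then (g : ℝ) else 0) / q' =
      ∑ q' ∈ (Icc 1 K).filter (fun q' => g ∣ q'), (g : ℝ) / q' := by
    rw [sum_filter]
    refine sum_congr rfl ?_
    intro q' _
    split_ifs
    · rfl
    · exact zero_div _
  have h2 : ∑ q' ∈ (Icc 1 K).filter (fun q' => g ∣ q'), (g : ℝ) / q' =
      ∑ k ∈ Icc 1 (K / g), (1 : ℝ) / k := by
    symm
    refine sum_bij (fun k _ => g * k) ?_ ?_ ?_ ?_
    · intro k hk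
      rw [mem_Icc] at hk
      rw [mem_filter, mem_Icc]
      refine ⟨⟨Nat.mul_pos hg hk.1, ?_⟩, Dvd.intro _ rfl⟩
      calc g * k ≤ g * (K / g) := Nat.mul_le_mul_left _ hk.2
        _ ≤ K := Nat.mul_div_le _ _
    · intro k _ k' _ h
      exact Nat.eq_of_mul_eq_mul_left hg h
    · intro q' hq'
      rw [mem_filter, mem_Icc] at hq'
      obtain ⟨⟨h3, h4⟩, k, rfl⟩ := hq'
      refine ⟨k, ?_, rfl⟩
      rw [mem_Icc]
      constructor
      · by_contra h5
        have : k = 0 := by omega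
        subst this
        simp at h3
      · rw [Nat.le_div_iff_mul_le hg, mul_comm]
        exact h4
    · intro k hk
      rw [mem_Icc] at hk
      have hk0 : (0 : ℝ) < k := by exact_mod_cast hk.1
      push_cast
      field_simp
  rw [h1, h2]
  have hlogK : 0 ≤ Real.log K := Real.log_natCast_nonneg _
  rcases Nat.eq_zero_or_pos (K / g) with h3 | h3
  · rw [h3]
    simp
    linarith
  · refine (harmonic_le (K / g)).trans ?_
    have h4 : Real.log ((K / g : ℕ) : ℝ) ≤ Real.log K := by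
      apply Real.log_le_log
      · exact_mod_cast h3
      · exact_mod_cast Nat.div_le_self _ _
    linarith

theorem sum_gcd_div (K q : ℕ) (hK : 1 ≤ K) (hq : 1 ≤ q) :
    ∑ q' ∈ Icc 1 K, (Nat.gcd q q' : ℝ) / q' ≤ q.divisors.card * (1 + Real.log K) := by
  calc ∑ q' ∈ Icc 1 K, (Nat.gcd q q' : ℝ) / q'
      ≤ ∑ q' ∈ Icc 1 K, ∑ g ∈ q.divisors, (if g ∣ q' then (g : ℝ) else 0) / q' := by
        refine sum_le_sum ?_
        intro q' _
        rw [← sum_div]
        exact div_le_div_of_nonneg_right (gcd_le_sum q q' hq) (Nat.cast_nonneg _)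
    _ = ∑ g ∈ q.divisors, ∑ q' ∈ Icc 1 K, (if g ∣ q' then (g : ℝ) else 0) / q' := sum_comm
    _ ≤ ∑ g ∈ q.divisors, (1 + Real.log K) := by
        refine sum_le_sum ?_
        intro g hg
        exact inner_sum K g (Nat.pos_of_mem_divisors hg)
    _ = q.divisors.card * (1 + Real.log K) := by
        rw [sum_const, nsmul_eq_mul]

end Pool.Agent.Lib.MP_6cded1_nt.ML
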