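import Pool.Agent.Lib.MP_6cded1_nt.ML.HM3
import Pool.Agent.Lib.MP_6cded1_nt.ML.HM4
import Pool.Agent.Lib.MP_6cded1_nt.ML.Sieve

/-!
# Halasz-Montgomery 4: the number of denominators

`J = card QQ`.  `J² H² ≤ (∑ ‖B (z q)‖)² ≤ M ∑_{q, q'} E (z q) (z q')` (`large_sieve`), `E_hm` with `ϑ = K / (Q N)` (`|z - a / q| = nd (q z) / q ≤ K / (q N) ≤ K / (Q N)`, `a = round (q z)`):
`≤ J² (32 M D² (L + 1) + 512 D³ M² K / (Q N)) + 32 M² D² ∑ gcd / (q q')`.  With `4 D M ≤ N`: `32 M D² (L+1) ≤ 8 N D (L + 1)`, `512 D³ M² K / (Q N) ≤ 32 N D K / Q`; by `hH` the first part is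
`≤ J² H² / 2`.  `∑_{q ∈ QQ} (1 / q) ∑_{q' ≤ K} gcd / q' ≤ J (1 / Q) dm (1 + log K)` (`sum_gcd_div` with `⌊K⌋`).  So `J² H² / 2 ≤ 32 M² D² J dm (1 + log K) / Q`, `M D ≤ N / 4`.
-/

set_option autoImplicit false

open Finset

namespace Pool.Agent.Lib.MP_6cded1_nt.ML

/-- the distance of `z` to the fraction `round (q z) / q` -/
private theorem hm5_dist {N q : ℕ} {z K Q : ℝ} (hN : 1 ≤ N) (hq : 1 ≤ q) (hQ : 0 < Q)
    (hQq : Q ≤ q) (hK : 0 ≤ K) (h : nd (q * z) ≤ K / N) :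
    |z - (round ((q : ℝ) * z) : ℤ) / q| ≤ K / (Q * N) := by
  have hq0 : (0 : ℝ) < q := by exact_mod_cast hq
  have hN0 : (0 : ℝ) < N := by exact_mod_cast hN
  have e1 : z - (round ((q : ℝ) * z) : ℤ) / q = ((q : ℝ) * z - (round ((q : ℝ) * z) : ℤ)) / q := by
    field_simp
  rw [e1, abs_div, abs_of_pos hq0]
  have h' : |(q : ℝ) * z - (round ((q : ℝ) * z) : ℤ)| ≤ K / N := h
  calc |(q : ℝ) * z - (round ((q : ℝ) * z) : ℤ)| / q ≤ (K / N) / q :=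
        div_le_div_of_nonneg_right h' hq0.le
    _ ≤ (K / N) / Q := div_le_div_of_nonneg_left (by positivity) hQ hQq
    _ = K / (Q * N) := by
        rw [div_div, mul_comm]

/-- the gcd sum -/
private theorem hm5_gcd {K Q dm : ℝ} (hQ : 0 < Q) (hK1 : 1 ≤ K) (QQ : Finset ℕ)
    (hQQ : ∀ q ∈ QQ, 1 ≤ q ∧ Q ≤ q ∧ (q : ℝ) ≤ K)
    (hdm : ∀ q : ℕ, 1 ≤ q → (q : ℝ) ≤ K → (q.divisors.card : ℝ) ≤ dm) :
    ∑ q ∈ QQ, ∑ q' ∈ QQ, (Nat.gcd q q' : ℝ) / (q * q') ≤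
      QQ.card * (dm * (1 + Real.log K) / Q) := by
  have hfl : 1 ≤ ⌊K⌋₊ := Nat.le_floor (by simpa using hK1)
  have hlog : Real.log (⌊K⌋₊ : ℝ) ≤ Real.log K :=
    Real.log_le_log (by exact_mod_cast hfl) (Nat.floor_le (by linarith))
  have hlog0 : 0 ≤ Real.log (⌊K⌋₊ : ℝ) := Real.log_nonneg (by exact_mod_cast hfl)
  rw [← nsmul_eq_mul]
  apply Finset.sum_le_card_nsmul
  intro q hq
  obtain ⟨h1, h2, h3⟩ := hQQ q hq
  have hq0 : (0 : ℝ) < q := by exact_mod_cast h1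
  have e1 : ∑ q' ∈ QQ, (Nat.gcd q q' : ℝ) / (q * q') =
      (1 / q) * ∑ q' ∈ QQ, (Nat.gcd q q' : ℝ) / q' := by
    rw [Finset.mul_sum]
    refine Finset.sum_congr rfl fun q' _ => ?_
    rw [div_mul_div_comm, one_mul]
  rw [e1]
  have e2 : ∑ q' ∈ QQ, (Nat.gcd q q' : ℝ) / q' ≤ ∑ q' ∈ Icc 1 ⌊K⌋₊, (Nat.gcd q q' : ℝ) / q' := by
    apply Finset.sum_le_sum_of_subset_of_nonneg
    · intro q' hq'
      obtain ⟨g1, -, g3⟩ := hQQ q' hq'
      exact Finset.mem_Icc.2 ⟨g1, Nat.le_floor g3⟩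
    · intro i _ _
      positivity
  have e3 := sum_gcd_div ⌊K⌋₊ q hfl h1
  have hd := hdm q h1 h3
  have hd0 : (0 : ℝ) ≤ q.divisors.card := Nat.cast_nonneg _
  have e4 : (q.divisors.card : ℝ) * (1 + Real.log (⌊K⌋₊ : ℝ)) ≤ dm * (1 + Real.log K) :=
    mul_le_mul hd (by linarith) (by linarith) (hd0.trans hd)
  have hnn : 0 ≤ dm * (1 + Real.log K) :=
    mul_nonneg (hd0.trans hd) (by linarith)
  calc (1 / (q : ℝ)) * ∑ q' ∈ QQ, (Nat.gcd q q' : ℝ) / q' ≤ (1 / q) * (dm * (1 + Real.log K)) :=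
        mul_le_mul_of_nonneg_left ((e2.trans e3).trans e4) (by positivity)
    _ ≤ (1 / Q) * (dm * (1 + Real.log K)) :=
        mul_le_mul_of_nonneg_right (one_div_le_one_div_of_le hQ h2) hnn
    _ = dm * (1 + Real.log K) / Q := by ring

theorem hm_count (a b : ℕ → ℂ) (ha : ∀ d, ‖a d‖ ≤ 1) (hb : ∀ m, ‖b m‖ ≤ 1) (N D M : ℕ) (hN : 1 ≤ N) (hM : 1 ≤ M)
    (K Q H dm : ℝ) (hQ : 0 < Q) (hH0 : 0 < H) (hK1 : 1 ≤ K) (QQ : Finset ℕ) (z : ℕ → ℝ)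
    (hQQ : ∀ q ∈ QQ, 1 ≤ q ∧ Q ≤ q ∧ (q : ℝ) ≤ K ∧ nd (q * z q) ≤ K / N ∧
      IsCoprime (round ((q : ℝ) * z q)) (q : ℤ) ∧ H < ‖B a b D M (z q)‖)
    (hKD : K ≤ D) (hDM : 4 * D * M ≤ N)
    (hH : 8 * N * D * (Nat.log 2 M + 1) + 32 * N * D * K / Q ≤ H ^ 2 / 2)
    (hdm : ∀ q : ℕ, 1 ≤ q → (q : ℝ) ≤ K → (q.divisors.card : ℝ) ≤ dm) :
    (QQ.card : ℝ) * Q * H ^ 2 ≤ 4 * N ^ 2 * dm * (1 + Real.log K) := by
  have hN0 : (0 : ℝ) < N := by exact_mod_cast hN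
  have hM0 : (0 : ℝ) < M := by exact_mod_cast hM
  have hlogK : 0 ≤ Real.log K := Real.log_nonneg hK1
  have hdm1 : 1 ≤ dm := by
    have := hdm 1 le_rfl (by simpa using hK1)
    simpa using this
  set J : ℝ := (QQ.card : ℝ) with hJ
  have hJ0 : 0 ≤ J := Nat.cast_nonneg _
  rcases hJ0.eq_or_lt with hJz | hJpos
  · rw [← hJz]
    have : 0 ≤ 4 * (N : ℝ) ^ 2 * dm * (1 + Real.log K) := by positivity
    linarith
  -- lower bound
  have hlow : J * H ≤ ∑ q ∈ QQ, ‖B a b D M (z q)‖ := by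
    rw [hJ, ← nsmul_eq_mul]
    apply Finset.card_nsmul_le_sum
    intro q hq
    exact (hQQ q hq).2.2.2.2.2.le
  have hls := large_sieve a b ha hb D M QQ z
  set L1 : ℝ := (Nat.log 2 M : ℝ) + 1 with hL1
  have hL10 : 0 ≤ L1 := by positivity
  -- the bound of `E`
  have hE : ∀ q ∈ QQ, ∀ q' ∈ QQ, E D M (z q) (z q') ≤
      (32 * D ^ 2 * L1 + 512 * D ^ 3 * M * (K / (Q * N))) +
        32 * M * D ^ 2 * ((Nat.gcd q q' : ℝ) / (q * q')) := by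
    intro q hq q' hq'
    obtain ⟨h1, h2, h3, h4, h5, -⟩ := hQQ q hq
    obtain ⟨g1, g2, g3, g4, g5, -⟩ := hQQ q' hq'
    have hqD : q ≤ D := by exact_mod_cast h3.trans hKD
    have hqD' : q' ≤ D := by exact_mod_cast g3.trans hKD
    have := E_hm D M q q' (round ((q : ℝ) * z q)) (round ((q' : ℝ) * z q')) (z q) (z q')
      (K / (Q * N)) hM h1 g1 hqD hqD' h5 g5 (hm5_dist hN h1 hQ h2 (by linarith) h4)
      (hm5_dist hN g1 hQ g2 (by linarith) g4)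
    refine this.trans (le_of_eq ?_)
    rw [hL1]
    ring
  have hsum : ∑ q ∈ QQ, ∑ q' ∈ QQ, E D M (z q) (z q') ≤
      J * (J * (32 * D ^ 2 * L1 + 512 * D ^ 3 * M * (K / (Q * N)))) +
        32 * M * D ^ 2 * (J * (dm * (1 + Real.log K) / Q)) := by
    refine (Finset.sum_le_sum fun q hq => Finset.sum_le_sum fun q' hq' => hE q hq q' hq').trans ?_
    simp only [Finset.sum_add_distrib, Finset.sum_const, nsmul_eq_mul, ← Finset.mul_sum]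
    have hg := hm5_gcd hQ hK1 QQ (fun q hq => ⟨(hQQ q hq).1, (hQQ q hq).2.1, (hQQ q hq).2.2.1⟩) hdm
    have hc : (0 : ℝ) ≤ 32 * M * D ^ 2 := by positivity
    have := mul_le_mul_of_nonneg_left hg hc
    linarith
  -- numerical simplification
  have hX : (4 : ℝ) * D * M ≤ N := by exact_mod_cast hDM
  have hX0 : (0 : ℝ) ≤ 4 * D * M := by positivity
  have hD0 : (0 : ℝ) ≤ D := Nat.cast_nonneg _
  have n1 : (M : ℝ) * (32 * D ^ 2 * L1) ≤ 8 * N * D * L1 := by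
    have e1 : (M : ℝ) * (32 * D ^ 2 * L1) = 8 * (4 * D * M) * D * L1 := by ring
    rw [e1]
    have : (4 * (D : ℝ) * M) * (D * L1) ≤ N * (D * L1) :=
      mul_le_mul_of_nonneg_right hX (by positivity)
    linarith
  have n2 : (M : ℝ) * (512 * D ^ 3 * M * (K / (Q * N))) ≤ 32 * N * D * K / Q := by
    have e1 : (M : ℝ) * (512 * D ^ 3 * M * (K / (Q * N))) =
        (4 * D * M) ^ 2 * (32 * D * (K / (Q * N))) := by ring
    have e2 : 32 * N * D * K / Q = (N : ℝ) ^ 2 * (32 * D * (K / (Q * N))) := by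
      field_simp
    rw [e1, e2]
    apply mul_le_mul_of_nonneg_right (pow_le_pow_left₀ hX0 hX 2)
    have : 0 ≤ K := by linarith
    positivity
  have n3 : (M : ℝ) * (32 * M * D ^ 2 * (J * (dm * (1 + Real.log K) / Q))) ≤
      2 * N ^ 2 * (J * (dm * (1 + Real.log K) / Q)) := by
    have e1 : (M : ℝ) * (32 * M * D ^ 2 * (J * (dm * (1 + Real.log K) / Q))) =
        2 * (4 * D * M) ^ 2 * (J * (dm * (1 + Real.log K) / Q)) := by ring
    rw [e1]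
    apply mul_le_mul_of_nonneg_right
    · have := pow_le_pow_left₀ hX0 hX 2
      linarith
    · positivity
  have hsq : (J * H) ^ 2 ≤ M * ∑ q ∈ QQ, ∑ q' ∈ QQ, E D M (z q) (z q') :=
    (pow_le_pow_left₀ (by positivity) hlow 2).trans hls
  have hfin : (J * H) ^ 2 ≤ J * J * (H ^ 2 / 2) + 2 * N ^ 2 * (J * (dm * (1 + Real.log K) / Q)) := by
    refine hsq.trans ((mul_le_mul_of_nonneg_left hsum hM0.le).trans ?_)
    have e1 : (M : ℝ) * (J * (J * (32 * D ^ 2 * L1 + 512 * D ^ 3 * M * (K / (Q * N)))) +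
        32 * M * D ^ 2 * (J * (dm * (1 + Real.log K) / Q))) =
        J * J * ((M : ℝ) * (32 * D ^ 2 * L1) + (M : ℝ) * (512 * D ^ 3 * M * (K / (Q * N)))) +
        (M : ℝ) * (32 * M * D ^ 2 * (J * (dm * (1 + Real.log K) / Q))) := by ring
    rw [e1]
    have e2 : (M : ℝ) * (32 * D ^ 2 * L1) + (M : ℝ) * (512 * D ^ 3 * M * (K / (Q * N))) ≤
        H ^ 2 / 2 := by
      linarith
    have e3 := mul_le_mul_of_nonneg_left e2 (mul_nonneg hJ0 hJ0)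
    linarith
  have h5 : J * (J * H ^ 2) ≤ J * (4 * N ^ 2 * (dm * (1 + Real.log K) / Q)) := by
    have e1 : (J * H) ^ 2 = J * (J * H ^ 2) := by ring
    have e2 : J * J * (H ^ 2 / 2) = J * (J * H ^ 2) / 2 := by ring
    rw [e1, e2] at hfin
    have e3 : J * (4 * N ^ 2 * (dm * (1 + Real.log K) / Q)) =
        2 * (2 * N ^ 2 * (J * (dm * (1 + Real.log K) / Q))) := by ring
    rw [e3]
    linarith
  have h6 : J * H ^ 2 ≤ 4 * N ^ 2 * (dm * (1 + Real.log K) / Q) := le_of_mul_le_mul_left h5 hJpos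
  have h7 := mul_le_mul_of_nonneg_right h6 hQ.le
  have e1 : 4 * (N : ℝ) ^ 2 * (dm * (1 + Real.log K) / Q) * Q =
      4 * N ^ 2 * dm * (1 + Real.log K) := by
    field_simp
  rw [e1] at h7
  linarith

end Pool.Agent.Lib.MP_6cded1_nt.ML
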