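import Pool.Agent.Lib.MP_6cded1_nt.ML.Star2

/-!
# The gap; only one fraction has a small denominator

`star_gap`: `A v' - A' v` is a nonzero integer, so `1 ≤ v v' |A / v - A' / v'| ≤ v v' (K / N) (1 / q + 1 / q') = (K / N) (q + q') p² p'² ≤ 256 (K / N) P⁴ (q + q')`.
`star_split`: star points with `q < Q` are pairwise not `Dif`: otherwise `N ≤ 256 K P⁴ (q + q') < 512 K P⁴ Q ≤ N`.  So there are at most `C₂` of them (`star_mult`).
-/

set_option autoImplicit false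

open Finset

namespace Pool.Agent.Lib.MP_6cded1_nt.ML

theorem star_gap (N P : ℕ) (hN : 1 ≤ N) (K : ℝ) (Λ : ℝ → Prop) (hK : 0 ≤ K) (hΛ : ∀ z, Λ z → Maj N K z) (y : ℝ)
    (s s' : Σ _ : ℕ, ℕ) (hs : s ∈ stars N P K Λ y) (hs' : s' ∈ stars N P K Λ y) (hd : Dif N K y s s') :
    (N : ℝ) ≤ 256 * K * P ^ 4 * (sden N K y s + sden N K y s') := by
  obtain ⟨hp1, -, hp3, -, -, hq1, -, -, -, -, -, hy⟩ := star_basic N P K Λ hK hΛ y s hs
  obtain ⟨hp1', -, hp3', -, -, hq1', -, -, -, -, -, hy'⟩ := star_basic N P K Λ hK hΛ y s' hs'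
  have hN0 : (0 : ℝ) < N := by exact_mod_cast hN
  have hq0 : (0 : ℝ) < sden N K y s := by exact_mod_cast hq1
  have hq0' : (0 : ℝ) < sden N K y s' := by exact_mod_cast hq1'
  have hp0 : (0 : ℝ) < s.1 := by exact_mod_cast hp1.pos
  have hp0' : (0 : ℝ) < s'.1 := by exact_mod_cast hp1'.pos
  have hpP : (s.1 : ℝ) ≤ 4 * P := by exact_mod_cast hp3
  have hpP' : (s'.1 : ℝ) ≤ 4 * P := by exact_mod_cast hp3'
  have hvr : (sv N K y s : ℝ) = sden N K y s * (s.1 : ℝ) ^ 2 := by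
    unfold sv
    push_cast
    ring
  have hvr' : (sv N K y s' : ℝ) = sden N K y s' * (s'.1 : ℝ) ^ 2 := by
    unfold sv
    push_cast
    ring
  have hv0 : (0 : ℝ) < sv N K y s := by
    rw [hvr]
    positivity
  have hv0' : (0 : ℝ) < sv N K y s' := by
    rw [hvr']
    positivity
  have h1 : (1 : ℝ) ≤ |(sA N K y s : ℝ) * sv N K y s' - sA N K y s' * sv N K y s| := by
    have h2 : sA N K y s * (sv N K y s' : ℤ) - sA N K y s' * (sv N K y s : ℤ) ≠ 0 :=
      sub_ne_zero.mpr hd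
    have h3 := Int.one_le_abs h2
    exact_mod_cast h3
  have h2 : (sA N K y s : ℝ) * sv N K y s' - sA N K y s' * sv N K y s =
      (sv N K y s * sv N K y s') *
        ((y - (sA N K y s' : ℝ) / sv N K y s') - (y - (sA N K y s : ℝ) / sv N K y s)) := by
    field_simp
    ring
  rw [h2, abs_mul, abs_of_pos (mul_pos hv0 hv0')] at h1
  have h3 : |(y - (sA N K y s' : ℝ) / sv N K y s') - (y - (sA N K y s : ℝ) / sv N K y s)| ≤
      K / (sden N K y s' * N) + K / (sden N K y s * N) :=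
    (abs_sub _ _).trans (add_le_add hy' hy)
  have h4 : (1 : ℝ) ≤ (sv N K y s * sv N K y s') *
      (K / (sden N K y s' * N) + K / (sden N K y s * N)) :=
    h1.trans (mul_le_mul_of_nonneg_left h3 (mul_pos hv0 hv0').le)
  have h5 : (sv N K y s * sv N K y s' : ℝ) *
      (K / (sden N K y s' * N) + K / (sden N K y s * N)) =
      K * ((s.1 : ℝ) ^ 2 * (s'.1 : ℝ) ^ 2) * (sden N K y s + sden N K y s') / N := by
    rw [hvr, hvr']
    field_simp
  rw [h5, le_div_iff₀ hN0, one_mul] at h4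
  refine h4.trans ?_
  have h6 : (s.1 : ℝ) ^ 2 * (s'.1 : ℝ) ^ 2 ≤ 256 * P ^ 4 := by
    have h7 : (s.1 : ℝ) ^ 2 ≤ (4 * P) ^ 2 := pow_le_pow_left₀ hp0.le hpP 2
    have h8 : (s'.1 : ℝ) ^ 2 ≤ (4 * P) ^ 2 := pow_le_pow_left₀ hp0'.le hpP' 2
    calc (s.1 : ℝ) ^ 2 * (s'.1 : ℝ) ^ 2 ≤ (4 * P) ^ 2 * (4 * P) ^ 2 :=
          mul_le_mul h7 h8 (by positivity) (by positivity)
      _ = 256 * P ^ 4 := by ring
  calc K * ((s.1 : ℝ) ^ 2 * (s'.1 : ℝ) ^ 2) * (sden N K y s + sden N K y s')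
      ≤ K * (256 * P ^ 4) * (sden N K y s + sden N K y s') := by
        refine mul_le_mul_of_nonneg_right ?_ (by positivity)
        exact mul_le_mul_of_nonneg_left h6 hK
    _ = 256 * K * P ^ 4 * (sden N K y s + sden N K y s') := by ring

theorem star_split (N P : ℕ) (hN : 1 ≤ N) (K Q : ℝ) (Λ : ℝ → Prop) (hK : 0 < K) (hP : 1 ≤ P)
    (hΛ : ∀ z, Λ z → Maj N K z) (y : ℝ) (C₂ : ℕ)
    (hC₂ : ∀ q : ℕ, 1 ≤ q → (q : ℝ) ≤ K → ((PP P).filter fun p => p ∣ q).card + 1 ≤ C₂)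
    (hQ : 512 * K * P ^ 4 * Q ≤ N) :
    (stars N P K Λ y).card ≤ C₂ + (stars' N P K Q Λ y).card := by
  classical
  have hP0 : (0 : ℝ) < P := by exact_mod_cast hP
  have h1 : ((stars N P K Λ y).filter fun s => ¬ Q ≤ (sden N K y s : ℝ)).card ≤ C₂ := by
    apply star_mult N P K Λ hK.le hΛ y C₂ hC₂ _ (filter_subset _ _)
    intro s hs s' hs' hd
    rw [mem_filter, not_le] at hs hs'
    have h2 := star_gap N P hN K Λ hK.le hΛ y s s' hs.1 hs'.1 hd
    have h3 : 256 * K * P ^ 4 * ((sden N K y s : ℝ) + sden N K y s') <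
        256 * K * P ^ 4 * (Q + Q) :=
      mul_lt_mul_of_pos_left (add_lt_add hs.2 hs'.2) (by positivity)
    linarith
  have h2 : (stars N P K Λ y).card =
      ((stars N P K Λ y).filter fun s => ¬ Q ≤ (sden N K y s : ℝ)).card +
        ((stars N P K Λ y).filter fun s => Q ≤ (sden N K y s : ℝ)).card := by
    rw [add_comm]
    exact (card_filter_add_card_filter_not _).symm
  rw [h2]
  refine add_le_add h1 (le_of_eq ?_)
  unfold stars'
  congr 1

end Pool.Agent.Lib.MP_6cded1_nt.ML
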