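import Pool.Agent.Lib.MP_6cded1_nt.ML.Amp
import Pool.Agent.Lib.MP_6cded1_nt.ML.Star3

/-!
# Regime II: amplification and splitting

`m y = card (stars y)`, `m' y = card (stars' y)`.  `amplify` with `R = PP P`, `g z = sel (Λ z) ‖B z‖`, `ok p z = ¬ p ∣ qm N K z`, `n₀ = card (PP P) / 2` (for `Λ z`: `q = qm z` has at most `C₂ - 1` prime divisors in `PP P`,
`2 C₂ ≤ card (PP P)`), the inner sum is `≤ 2 H m y`.  So `card (PP P) * EE (‖F‖ g) ≤ 4 H EE (‖F‖ m)`.  By `star_split` `m ≤ C₂ + m'`: if `m' < 4 C₂` then `m ≤ 5 C₂`, otherwise `m ≤ 2 m'`.  Cauchy-Schwarz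
(`Finset.sum_mul_sq_le_sq_mul_sq` or `inner_mul_le_norm_mul_norm`): `EE (‖F‖ 2 m' 1[4 C₂ ≤ m']) ≤ 2 √(EE ‖F‖²) √X ≤ 2 √(N X)`.
-/

set_option autoImplicit false

open Finset

namespace Pool.Agent.Lib.MP_6cded1_nt.ML


private theorem EEm (W : ℕ) (t : ℝ) (g h : ℝ → ℝ) (hgh : ∀ x, g x ≤ h x) : EE W t g ≤ EE W t h := by
  unfold EE
  exact div_le_div_of_nonneg_right (Finset.sum_le_sum fun j _ => hgh _) (Nat.cast_nonneg _)

private theorem EEa (W : ℕ) (t : ℝ) (g h : ℝ → ℝ) :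
    EE W t (fun x => g x + h x) = EE W t g + EE W t h := by
  unfold EE
  rw [Finset.sum_add_distrib, add_div]

private theorem EEc (W : ℕ) (t c : ℝ) (g : ℝ → ℝ) : EE W t (fun x => c * g x) = c * EE W t g := by
  unfold EE
  rw [← Finset.mul_sum, mul_div_assoc]

private theorem EE_cs (W : ℕ) (t : ℝ) (g h : ℝ → ℝ) :
    EE W t (fun x => g x * h x) ^ 2 ≤ EE W t (fun x => g x ^ 2) * EE W t (fun x => h x ^ 2) := by
  unfold EE
  rw [div_pow, div_mul_div_comm, ← pow_two (W : ℝ)]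
  exact div_le_div_of_nonneg_right (Finset.sum_mul_sq_le_sq_mul_sq _ _ _) (by positivity)

open Classical in
private theorem inner_le (N D M P : ℕ) (K H : ℝ) (a b : ℕ → ℂ) (Λ : ℝ → Prop)
    (hΛB : ∀ z, Λ z → ‖B a b D M z‖ ≤ 2 * H) (y : ℝ) :
    ∑ s ∈ (PP P).sigma (fun p => Ioo 0 (p ^ 2)),
        sel (¬ s.1 ∣ qm N K (pt y s)) (sel (Λ (pt y s)) ‖B a b D M (pt y s)‖) ≤
      2 * H * ((stars N P K Λ y).card : ℝ) := by
  unfold stars
  rw [Finset.card_filter]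
  push_cast
  rw [Finset.mul_sum]
  refine Finset.sum_le_sum fun s _ => ?_
  by_cases h1 : Λ (pt y s)
  · by_cases h2 : ¬ s.1 ∣ qm N K (pt y s)
    · have h3 : Λ (y + s.2 / (s.1 : ℝ) ^ 2) ∧ ¬ s.1 ∣ qm N K (y + s.2 / (s.1 : ℝ) ^ 2) := ⟨h1, h2⟩
      rw [if_pos h3, sel_pos h2, sel_pos h1, mul_one]
      exact hΛB _ h1
    · have h3 : ¬ (Λ (y + s.2 / (s.1 : ℝ) ^ 2) ∧ ¬ s.1 ∣ qm N K (y + s.2 / (s.1 : ℝ) ^ 2)) :=
        fun h => h2 h.2
      rw [if_neg h3, sel_neg h2, mul_zero]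
  · have h3 : ¬ (Λ (y + s.2 / (s.1 : ℝ) ^ 2) ∧ ¬ s.1 ∣ qm N K (y + s.2 / (s.1 : ℝ) ^ 2)) :=
      fun h => h1 h.1
    rw [if_neg h3, sel_neg h1, mul_zero]
    exact sel_le le_rfl

private theorem split_pt (c m m' F : ℝ) (A : Prop) (hF : 0 ≤ F) (hA : A ↔ 4 * c ≤ m') (hm : m ≤ c + m')
    (hc : 0 ≤ c) : F * m ≤ 5 * c * F + 2 * (F * sel A m') := by
  by_cases h : A
  · rw [sel_pos h]
    have h1 := hA.1 h
    nlinarith [mul_nonneg hF hc, mul_nonneg hF (sub_nonneg.2 h1), mul_nonneg hF (sub_nonneg.2 hm)]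
  · rw [sel_neg h]
    have h1 : m' < 4 * c := lt_of_not_ge fun h2 => h (hA.2 h2)
    nlinarith [mul_nonneg hF (sub_nonneg.2 h1.le), mul_nonneg hF (sub_nonneg.2 hm)]

open Classical in
theorem level_split (f : ℕ → ℂ) (hf : Mult f) (a b : ℕ → ℂ) (N D M P W : ℕ) (K Q H t X : ℝ) (hN : 1 ≤ N)
    (hP : 1 ≤ P) (hW : 1 ≤ W) (hPW : ∀ p ∈ PP P, p ^ 2 ∣ W) (hK : 0 < K) (hH : 0 ≤ H) (Λ : ℝ → Prop)
    (hΛ : ∀ z, Λ z → Maj N K z) (hΛp : ∀ (z : ℝ) (k : ℤ), Λ (z + k) ↔ Λ z)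
    (hΛB : ∀ z, Λ z → ‖B a b D M z‖ ≤ 2 * H) (C₂ : ℕ)
    (hC₂ : ∀ q : ℕ, 1 ≤ q → (q : ℝ) ≤ K → ((PP P).filter fun p => p ∣ q).card + 1 ≤ C₂)
    (hC₂P : 2 * C₂ ≤ (PP P).card) (hQ : 512 * K * P ^ 4 * Q ≤ N)
    (hpars : EE W t (fun x => ‖F f N x‖ ^ 2) ≤ N)
    (hX : EE W t (fun y => sel (4 * C₂ ≤ (stars' N P K Q Λ y).card) (((stars' N P K Q Λ y).card : ℝ) ^ 2)) ≤ X) :
    (PP P).card * EE W t (fun z => ‖F f N z‖ * sel (Λ z) ‖B a b D M z‖) ≤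
      4 * H * (5 * C₂ * EE W t (fun z => ‖F f N z‖) + 2 * Real.sqrt (N * X)) := by
  classical
  set G : ℝ → ℝ := fun z => sel (Λ z) ‖B a b D M z‖ with hG
  have hG0 : ∀ z, 0 ≤ G z := fun z => sel_nonneg (norm_nonneg _)
  have hGp : ∀ (z : ℝ) (k : ℤ), G (z + k) = G z := by
    intro z k
    by_cases h : Λ z
    · simp only [hG]
      rw [sel_pos h, sel_pos ((hΛp z k).2 h), B_add_int]
    · simp only [hG]
      rw [sel_neg h, sel_neg (fun h' => h ((hΛp z k).1 h'))]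
  have hR : ∀ p ∈ PP P, p.Prime ∧ p ^ 2 ∣ W := fun p hp =>
    ⟨(Finset.mem_filter.1 hp).2, hPW p hp⟩
  have hn : ∀ z, G z ≠ 0 →
      ((PP P).card : ℝ) / 2 ≤ (((PP P).filter fun p => ¬ p ∣ qm N K z).card : ℝ) := by
    intro z hz
    have hΛz : Λ z := by
      by_contra h
      exact hz (sel_neg h _)
    obtain ⟨h1, h2, -, -⟩ := qm_spec N K z hK.le (hΛ z hΛz)
    have h3 := hC₂ _ h1 h2
    have h4 := Finset.card_filter_add_card_filter_not (s := PP P) (fun p => p ∣ qm N K z)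
    have h5 : (PP P).card ≤ 2 * ((PP P).filter fun p => ¬ p ∣ qm N K z).card := by omega
    have h6 : ((PP P).card : ℝ) ≤ 2 * (((PP P).filter fun p => ¬ p ∣ qm N K z).card : ℝ) := by
      exact_mod_cast h5
    linarith
  have hamp := amplify f hf N W hW t (PP P) hR G hG0 hGp (fun p z => ¬ p ∣ qm N K z)
    (fun p z k => by rw [qm_add_int]) (((PP P).card : ℝ) / 2) (fun z hz => by convert hn z hz)
  have hin : EE W t (fun y => ‖F f N y‖ * ∑ s ∈ (PP P).sigma (fun p => Ioo 0 (p ^ 2)),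
        sel (¬ s.1 ∣ qm N K (pt y s)) (G (pt y s))) ≤
      EE W t (fun y => 2 * H * (‖F f N y‖ * ((stars N P K Λ y).card : ℝ))) := by
    refine EEm _ _ _ _ fun y => ?_
    have h1 := inner_le N D M P K H a b Λ hΛB y
    calc ‖F f N y‖ * ∑ s ∈ (PP P).sigma (fun p => Ioo 0 (p ^ 2)),
          sel (¬ s.1 ∣ qm N K (pt y s)) (G (pt y s))
        ≤ ‖F f N y‖ * (2 * H * ((stars N P K Λ y).card : ℝ)) :=
          mul_le_mul_of_nonneg_left h1 (norm_nonneg _)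
      _ = 2 * H * (‖F f N y‖ * ((stars N P K Λ y).card : ℝ)) := by ring
  rw [EEc] at hin
  have hsp : EE W t (fun y => ‖F f N y‖ * ((stars N P K Λ y).card : ℝ)) ≤
      5 * C₂ * EE W t (fun z => ‖F f N z‖) + 2 * EE W t (fun y => ‖F f N y‖ *
        sel (4 * C₂ ≤ (stars' N P K Q Λ y).card) ((stars' N P K Q Λ y).card : ℝ)) := by
    rw [← EEc, ← EEc, ← EEa]
    refine EEm _ _ _ _ fun y => ?_
    refine split_pt _ _ _ _ _ (norm_nonneg _) ?_ ?_ (Nat.cast_nonneg _)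
    · constructor
      · intro h
        exact_mod_cast h
      · intro h
        exact_mod_cast h
    · have h := star_split N P hN K Q Λ hK hP hΛ y C₂ hC₂ hQ
      exact_mod_cast h
  have hcs : EE W t (fun y => ‖F f N y‖ *
      sel (4 * C₂ ≤ (stars' N P K Q Λ y).card) ((stars' N P K Q Λ y).card : ℝ)) ≤ Real.sqrt (N * X) := by
    apply Real.le_sqrt_of_sq_le
    refine (EE_cs W t _ _).trans ?_
    have h2 : EE W t (fun y =>
        sel (4 * C₂ ≤ (stars' N P K Q Λ y).card) ((stars' N P K Q Λ y).card : ℝ) ^ 2) ≤ X := by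
      refine le_trans (EEm _ _ _ _ fun y => ?_) hX
      by_cases h : 4 * C₂ ≤ (stars' N P K Q Λ y).card
      · rw [sel_pos h, sel_pos h]
      · rw [sel_neg h, sel_neg h]
        norm_num
    have h3 : 0 ≤ EE W t (fun y =>
        sel (4 * C₂ ≤ (stars' N P K Q Λ y).card) ((stars' N P K Q Λ y).card : ℝ) ^ 2) := by
      unfold EE
      exact div_nonneg (Finset.sum_nonneg fun j _ => sq_nonneg _) (Nat.cast_nonneg _)
    exact mul_le_mul hpars h2 h3 (Nat.cast_nonneg _)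
  have hH4 : 0 ≤ 4 * H := by linarith
  have e1 : ((PP P).card : ℝ) * EE W t (fun z => ‖F f N z‖ * G z) ≤
      4 * H * EE W t (fun y => ‖F f N y‖ * ((stars N P K Λ y).card : ℝ)) := by
    have h1 := hamp.trans hin
    linarith
  refine e1.trans (mul_le_mul_of_nonneg_left ?_ hH4)
  linarith

end Pool.Agent.Lib.MP_6cded1_nt.ML
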