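import Pool.Agent.Lib.MP_6cded1_nt.ML.HM5
import Pool.Agent.Lib.MP_6cded1_nt.ML.Star3

/-!
# The finset of denominators

`QQ` = the `q ∈ Icc 1 ⌊K⌋₊` with `Q ≤ q` and `q = qm N K z` for some `z` with `Λ z`.  Choose such a `z q` for every `q ∈ QQ` and apply `hm_count` (`qm_spec` gives `nd (q z) ≤ K / N` and the coprimality).
A star point `s ∈ stars'` has `Λ (pt y s)` and `sden N K y s = qm N K (pt y s)`, `1 ≤ sden ≤ K`, `Q ≤ sden`, so `sden ∈ QQ`.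
-/

set_option autoImplicit false

open Finset

namespace Pool.Agent.Lib.MP_6cded1_nt.ML

theorem exists_QQ (a b : ℕ → ℂ) (ha : ∀ d, ‖a d‖ ≤ 1) (hb : ∀ m, ‖b m‖ ≤ 1) (N D M P : ℕ) (hN : 1 ≤ N) (hM : 1 ≤ M)
    (K Q H dm : ℝ) (hQ : 0 < Q) (hH0 : 0 < H) (hK1 : 1 ≤ K) (hKD : K ≤ D) (hDM : 4 * D * M ≤ N)
    (hH : 8 * N * D * (Nat.log 2 M + 1) + 32 * N * D * K / Q ≤ H ^ 2 / 2)
    (hdm : ∀ q : ℕ, 1 ≤ q → (q : ℝ) ≤ K → (q.divisors.card : ℝ) ≤ dm) (Λ : ℝ → Prop)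
    (hΛ : ∀ z, Λ z → Maj N K z) (hΛH : ∀ z, Λ z → H < ‖B a b D M z‖) :
    ∃ QQ : Finset ℕ, (∀ y, ∀ s ∈ stars' N P K Q Λ y, sden N K y s ∈ QQ) ∧
      (QQ.card : ℝ) * Q * H ^ 2 ≤ 4 * N ^ 2 * dm * (1 + Real.log K) := by
  classical
  have hK0 : 0 ≤ K := by linarith
  let z : ℕ → ℝ := fun q => if h : ∃ z, Λ z ∧ qm N K z = q then h.choose else 0
  have hz : ∀ q : ℕ, (∃ z, Λ z ∧ qm N K z = q) → Λ (z q) ∧ qm N K (z q) = q := by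
    intro q h
    have e : z q = h.choose := dif_pos h
    rw [e]
    exact h.choose_spec
  refine ⟨(Icc 1 ⌊K⌋₊).filter fun q : ℕ => Q ≤ (q : ℝ) ∧ ∃ z, Λ z ∧ qm N K z = q, ?_, ?_⟩
  · intro y s hs
    unfold stars' at hs
    rw [mem_filter] at hs
    obtain ⟨-, -, -, -, -, h6, h7, -, h9, -⟩ := star_basic N P K Λ hK0 hΛ y s hs.1
    rw [mem_filter, mem_Icc]
    exact ⟨⟨h6, Nat.le_floor h7⟩, hs.2, pt y s, h9, rfl⟩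
  · refine hm_count a b ha hb N D M hN hM K Q H dm hQ hH0 hK1 _ z ?_ hKD hDM hH hdm
    intro q hq
    rw [mem_filter, mem_Icc] at hq
    obtain ⟨⟨h1, h2⟩, h3, h4⟩ := hq
    obtain ⟨g1, g2⟩ := hz q h4
    obtain ⟨s1, s2, s3, s4⟩ := qm_spec N K (z q) hK0 (hΛ _ g1)
    rw [g2] at s1 s2 s3 s4
    exact ⟨h1, h3, s2, s3, s4, hΛH _ g1⟩

end Pool.Agent.Lib.MP_6cded1_nt.ML
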