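import Pool.Agent.Lib.MP_6cded1_nt.ML.Num1

/-!
# Numerical inequalities 2: regime I

`num_small`: with `D M ≤ N / 4`: `44 D M² / P ≤ 11 N M / P ≤ 11 N^{1 + 0.5414 - 0.1104}`, `120 D² M² / G ≤ 7.5 N² / G ≤ 15 N^{2 - 0.5136}` (`0.5136 + 1.4866 = 2.0002`),
`100 D² M (1 + log N) ≤ 25 N D (1 + log N)` (exponent `1.4586`), `20 D M T (1 + log N) ≤ 5 N T (1 + log N)` (exponent `1.4864`); the right side is `N^{1.4866} / 4`.
`num_bad`: `G / D + 1 ≤ 3 N^{0.055}`, `2 ω N / D + 1 ≤ 5 N^{0.055}`, `log G ≤ log N`, `log P1 ≥ 0.1 log N`, and `card (PP P1) ≥ P1 / log (4 P1) ≥ N^{0.1104} / (2 log N)` (`card_PP_ge`).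
`num_ratio`: exponents `2 - 0.4586 - 0.7433 = 0.7981 ≤ 0.7433 + 0.1104 - small`.
-/

set_option autoImplicit false

open Finset

namespace Pool.Agent.Lib.MP_6cded1_nt.ML

theorem num_small : ∃ N₀ : ℕ, ∀ N : ℕ, N₀ ≤ N →
    (Mn N : ℝ) * (44 * Dn N * Mn N / P1 N + 120 * Dn N ^ 2 * Mn N / Gn N + 100 * Dn N ^ 2 * (1 + Real.log N) +
      20 * Dn N * Tn N * (1 + Real.log N)) ≤ tn N ^ 2 / 4 := by
  obtain ⟨N1, hN1⟩ := num_basic
  obtain ⟨N2, hN2⟩ := pow_log_le 224 1 1.4864 1.4866 (by norm_num)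
  refine ⟨max (max N1 N2) 1, ?_⟩
  intro N hN
  have hNa : N1 ≤ N := le_trans (le_trans (le_max_left _ _) (le_max_left _ _)) hN
  have hNb : N2 ≤ N := le_trans (le_trans (le_max_right _ _) (le_max_left _ _)) hN
  have hNc : 1 ≤ N := le_trans (le_max_right _ _) hN
  obtain ⟨b1, b2, b3, b4, b5, b6, b7, b8, b9, b10, b11, b12, b13, b14, b15, b16, b17, b18, b19,
    b20, b21⟩ := hN1 N hNa
  have hlog := hN2 N hNb
  rw [pow_one] at hlog
  set n : ℝ := (N : ℝ) with hn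
  have hn1 : (1 : ℝ) ≤ n := by rw [hn]; exact_mod_cast hNc
  have hn0 : (0 : ℝ) < n := by linarith
  set D : ℝ := (Dn N : ℝ) with hD
  set M : ℝ := (Mn N : ℝ) with hM
  set P : ℝ := (P1 N : ℝ) with hP
  set T : ℝ := (Tn N : ℝ) with hT
  set G : ℝ := (Gn N : ℝ) with hG
  set L : ℝ := 1 + Real.log n with hL
  have hL1 : 1 ≤ L := by
    have := Real.log_nonneg hn1
    linarith
  have hD0 : 0 ≤ D := Nat.cast_nonneg _
  have hM0 : 0 ≤ M := Nat.cast_nonneg _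
  have hT0 : 0 ≤ T := Nat.cast_nonneg _
  have hDM : D * M ≤ n / 4 := by
    have : ((4 * Dn N * Mn N : ℕ) : ℝ) ≤ ((N : ℕ) : ℝ) := by exact_mod_cast b3
    push_cast at this
    rw [← hD, ← hM, ← hn] at this
    linarith
  have hDM0 : 0 ≤ D * M := mul_nonneg hD0 hM0
  have hpP : 0 < n ^ (0.1104 : ℝ) := Real.rpow_pos_of_pos hn0 _
  have hpG : 0 < n ^ (0.5136 : ℝ) := Real.rpow_pos_of_pos hn0 _
  have hP0 : 0 < P := by linarith
  have hG0 : 0 < G := by linarith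
  -- the four terms
  have e1 : n * n ^ (0.5414 : ℝ) = n ^ (1.431 : ℝ) * n ^ (0.1104 : ℝ) := by
    rw [← Real.rpow_add hn0]
    nth_rewrite 1 [← Real.rpow_one n]
    rw [← Real.rpow_add hn0]
    norm_num
  have e2 : n * n = n ^ (1.4864 : ℝ) * n ^ (0.5136 : ℝ) := by
    rw [← Real.rpow_add hn0]
    nth_rewrite 1 [← Real.rpow_one n]
    nth_rewrite 2 [← Real.rpow_one n]
    rw [← Real.rpow_add hn0]
    norm_num
  have e3 : n * n ^ (0.4586 : ℝ) = n ^ (1.4586 : ℝ) := by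
    nth_rewrite 1 [← Real.rpow_one n]
    rw [← Real.rpow_add hn0]
    norm_num
  have e4 : n * n ^ (0.4864 : ℝ) = n ^ (1.4864 : ℝ) := by
    nth_rewrite 1 [← Real.rpow_one n]
    rw [← Real.rpow_add hn0]
    norm_num
  have m1 : n ^ (1.431 : ℝ) ≤ n ^ (1.4864 : ℝ) := Real.rpow_le_rpow_of_exponent_le hn1 (by norm_num)
  have m2 : n ^ (1.4586 : ℝ) ≤ n ^ (1.4864 : ℝ) := Real.rpow_le_rpow_of_exponent_le hn1 (by norm_num)
  have hX0 : 0 < n ^ (1.4864 : ℝ) := Real.rpow_pos_of_pos hn0 _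
  have t1 : M * (44 * D * M / P) ≤ 11 * n ^ (1.4864 : ℝ) := by
    have h1 : M * (44 * D * M / P) = 44 * ((D * M) * M) / P := by ring
    rw [h1, div_le_iff₀ hP0]
    calc 44 * ((D * M) * M) ≤ 44 * ((n / 4) * (n ^ (0.5414 : ℝ) / 2)) := by gcongr
      _ = 11 * (n * n ^ (0.5414 : ℝ)) / 2 := by ring
      _ = 11 * n ^ (1.431 : ℝ) * (n ^ (0.1104 : ℝ) / 2) := by rw [e1]; ring
      _ ≤ 11 * n ^ (1.4864 : ℝ) * P := by gcongr
  have t2 : M * (120 * D ^ 2 * M / G) ≤ 15 * n ^ (1.4864 : ℝ) := by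
    have h1 : M * (120 * D ^ 2 * M / G) = 120 * ((D * M) * (D * M)) / G := by ring
    rw [h1, div_le_iff₀ hG0]
    calc 120 * ((D * M) * (D * M)) ≤ 120 * ((n / 4) * (n / 4)) := by gcongr
      _ = 15 * (n * n) / 2 := by ring
      _ = 15 * n ^ (1.4864 : ℝ) * (n ^ (0.5136 : ℝ) / 2) := by rw [e2]; ring
      _ ≤ 15 * n ^ (1.4864 : ℝ) * G := by gcongr
  have t3 : M * (100 * D ^ 2 * L) ≤ 25 * n ^ (1.4864 : ℝ) * L := by
    calc M * (100 * D ^ 2 * L) = 100 * ((D * M) * D) * L := by ring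
      _ ≤ 100 * ((n / 4) * n ^ (0.4586 : ℝ)) * L := by gcongr
      _ = 25 * (n * n ^ (0.4586 : ℝ)) * L := by ring
      _ = 25 * n ^ (1.4586 : ℝ) * L := by rw [e3]
      _ ≤ 25 * n ^ (1.4864 : ℝ) * L := by gcongr
  have t4 : M * (20 * D * T * L) ≤ 5 * n ^ (1.4864 : ℝ) * L := by
    calc M * (20 * D * T * L) = 20 * ((D * M) * T) * L := by ring
      _ ≤ 20 * ((n / 4) * n ^ (0.4864 : ℝ)) * L := by gcongr
      _ = 5 * (n * n ^ (0.4864 : ℝ)) * L := by ring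
      _ = 5 * n ^ (1.4864 : ℝ) * L := by rw [e4]
  have t5 : n ^ (1.4864 : ℝ) ≤ n ^ (1.4864 : ℝ) * L := by nlinarith
  have ht : tn N ^ 2 = n ^ (1.4866 : ℝ) := by
    unfold tn
    rw [← hn, ← Real.rpow_natCast, ← Real.rpow_mul hn0.le]
    norm_num
  rw [ht]
  have hsum : M * (44 * D * M / P + 120 * D ^ 2 * M / G + 100 * D ^ 2 * L + 20 * D * T * L) =
      M * (44 * D * M / P) + M * (120 * D ^ 2 * M / G) + M * (100 * D ^ 2 * L) +
        M * (20 * D * T * L) := by ring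
  rw [hsum]
  have hlog' : 224 * (n ^ (1.4864 : ℝ) * L) ≤ n ^ (1.4866 : ℝ) := by
    calc 224 * (n ^ (1.4864 : ℝ) * L) = 224 * L * n ^ (1.4864 : ℝ) := by ring
      _ ≤ _ := hlog
  linarith

end Pool.Agent.Lib.MP_6cded1_nt.ML
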