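import Pool.Agent.Lib.MP_6cded1_nt.ML.Num4
import Pool.Agent.Lib.MP_6cded1_nt.ML.Num3

/-!
# Numerical inequalities 5: the error terms

`num_B`: `2 √(N * 12288 (p J)² (K P²)² / N²) = 2 √12288 p J (K P²) / √N` with `p = card (PP P)`; times `4 H / p`: `≤ 8 * 111 * H * J * V / √N`; `H ≤ P τ N^{-0.0002}` (from `Pn = ⌈N^{0.0002} H / τ⌉ ≥ N^{0.0002} H / τ`) and
`P ≤ N^{0.2135}`: exponent `0.2135 + 0.7433 - 0.0002 + 0.0279 + 0.5138 - 0.5 = 0.9983`.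
`num_A`: `8 H √(1116 p J³ (2 h₀)² K)`, `h₀ ≤ 513 V² / N` (`V² ≥ N`), `K ≤ V / P² ≤ V N^{-0.427}`, `H ≤ P τ N^{-0.0002}`, `P² / p ≤ P log N ≤ 2 N^{0.2569} log N`:
`(4 H / p) * 2 √(...) ≤ 16 h₀ √1116 (H / √p) J^{3/2} √K`, exponent `0.0276 + (0.2569 / 2 + 0.7431) + 0.04185 + 0.0434 = 0.98440`.
`num_A2`: `K² P³ = (K P²)² / P ≤ V² / P`, exponent `1.0276 - 0.2135 < 1`; `K ≤ V / P² ≤ N^{0.0868 + small} ≤ P`.
-/

set_option autoImplicit false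

open Finset

namespace Pool.Agent.Lib.MP_6cded1_nt.ML

theorem num_B : ∃ N₀ : ℕ, ∀ N : ℕ, N₀ ≤ N → ∀ H : ℝ, tn N ≤ H → H ≤ N → (Pn N H : ℝ) ≤ (N : ℝ) ^ (0.2135 : ℝ) →
    ∀ J : ℝ, 0 ≤ J → J ≤ (N : ℝ) ^ (0.0279 : ℝ) →
    4 * H * (2 * Real.sqrt (N * (12288 * ((PP (Pn N H)).card * J) ^ 2 * (Kn N H * Pn N H ^ 2) ^ 2 / N ^ 2))) ≤
      (PP (Pn N H)).card * (N : ℝ) ^ (0.999 : ℝ) := by
  obtain ⟨N1, h1⟩ := num_level
  obtain ⟨N3, h3⟩ := pow_log_le 134976 1 0.9983 0.999 (by norm_num)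
  refine ⟨max (max N1 N3) 1, fun N hN H hH1 hH2 hP J hJ0 hJ => ?_⟩
  have hN1 : N1 ≤ N := ((le_max_left _ _).trans (le_max_left _ _)).trans hN
  have hN3 : N3 ≤ N := ((le_max_right _ _).trans (le_max_left _ _)).trans hN
  have hN5 : 1 ≤ N := (le_max_right _ _).trans hN
  have hNpos : (0 : ℝ) < (N : ℝ) := by exact_mod_cast hN5
  have hNone : (1 : ℝ) ≤ (N : ℝ) := by exact_mod_cast hN5
  obtain ⟨hK1, -, -, -, hX, -, -, -, -, -, -⟩ := h1 N hN1 H hH1 hH2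
  have g3 := h3 N hN3
  rw [pow_one] at g3
  have hlog0 : 0 ≤ Real.log N := Real.log_nonneg hNone
  have htn : tn N = (N : ℝ) ^ (0.7433 : ℝ) := rfl
  have htpos : 0 < tn N := by rw [htn]; positivity
  have hHpos : 0 < H := lt_of_lt_of_le htpos hH1
  have hceil : (N : ℝ) ^ (0.0002 : ℝ) * H / tn N ≤ (Pn N H : ℝ) := Nat.le_ceil _
  obtain ⟨L, hL⟩ : ∃ L : ℝ, L = 1 + Real.log N := ⟨_, rfl⟩
  have hV : Vn N = 152 * L * (N : ℝ) ^ (0.5138 : ℝ) := by rw [hL]; rfl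
  rw [← hL] at g3
  rw [hV] at hX
  have hL1 : 1 ≤ L := by linarith
  obtain ⟨X, hXd⟩ : ∃ X : ℝ, X = Kn N H * (Pn N H : ℝ) ^ 2 := ⟨_, rfl⟩
  rw [← hXd] at hX ⊢
  have hX0 : 0 ≤ X := by
    rw [hXd]
    have : 0 ≤ Kn N H := by linarith
    positivity
  obtain ⟨p, hpd⟩ : ∃ p : ℝ, p = ((PP (Pn N H)).card : ℝ) := ⟨_, rfl⟩
  rw [← hpd]
  have hp0 : 0 ≤ p := by rw [hpd]; exact Nat.cast_nonneg _
  -- the bound for `H`
  have hHb : H ≤ (N : ℝ) ^ (0.9566 : ℝ) := by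
    have a1 : (N : ℝ) ^ (0.0002 : ℝ) * H ≤ (N : ℝ) ^ (0.2135 : ℝ) * tn N := by
      have := hceil.trans hP
      rwa [div_le_iff₀ htpos] at this
    have a2 : (N : ℝ) ^ (0.2135 : ℝ) * tn N = (N : ℝ) ^ (0.0002 : ℝ) * (N : ℝ) ^ (0.9566 : ℝ) := by
      rw [htn, ← Real.rpow_add hNpos, ← Real.rpow_add hNpos]
      norm_num
    rw [a2] at a1
    exact le_of_mul_le_mul_left a1 (by positivity)
  -- the square root
  obtain ⟨s, hsd⟩ : ∃ s : ℝ, s = (N : ℝ) ^ (0.5 : ℝ) := ⟨_, rfl⟩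
  have hs : 0 < s := by rw [hsd]; positivity
  have hss : s ^ 2 = (N : ℝ) := by
    rw [hsd, sq, ← Real.rpow_add hNpos]
    norm_num
  have hsqrt : Real.sqrt ((N : ℝ) * (12288 * (p * J) ^ 2 * X ^ 2 / (N : ℝ) ^ 2)) ≤
      111 * (p * J) * X / s := by
    rw [Real.sqrt_le_iff]
    refine ⟨by positivity, ?_⟩
    have e1 : (N : ℝ) * (12288 * (p * J) ^ 2 * X ^ 2 / (N : ℝ) ^ 2) =
        12288 * ((p * J) ^ 2 * X ^ 2) / (N : ℝ) := by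
      field_simp
    have e2 : (111 * (p * J) * X / s) ^ 2 = 12321 * ((p * J) ^ 2 * X ^ 2) / (N : ℝ) := by
      rw [div_pow, hss]
      ring
    rw [e1, e2]
    apply div_le_div_of_nonneg_right _ hNpos.le
    have : 0 ≤ (p * J) ^ 2 * X ^ 2 := by positivity
    linarith
  have hfin : 888 * (H * (J * X)) ≤ (N : ℝ) ^ (0.999 : ℝ) * s := by
    have b1 : H * (J * X) ≤
        (N : ℝ) ^ (0.9566 : ℝ) * ((N : ℝ) ^ (0.0279 : ℝ) * (152 * L * (N : ℝ) ^ (0.5138 : ℝ))) := by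
      apply mul_le_mul hHb _ (by positivity) (by positivity)
      exact mul_le_mul hJ hX hX0 (by positivity)
    have b2 : (N : ℝ) ^ (0.9566 : ℝ) * ((N : ℝ) ^ (0.0279 : ℝ) * (N : ℝ) ^ (0.5138 : ℝ)) =
        (N : ℝ) ^ (0.9983 : ℝ) * s := by
      rw [hsd, ← Real.rpow_add hNpos, ← Real.rpow_add hNpos, ← Real.rpow_add hNpos]
      norm_num
    have b3 : 888 * ((N : ℝ) ^ (0.9566 : ℝ) *
        ((N : ℝ) ^ (0.0279 : ℝ) * (152 * L * (N : ℝ) ^ (0.5138 : ℝ)))) =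
        134976 * L * (N : ℝ) ^ (0.9983 : ℝ) * s := by
      calc 888 * ((N : ℝ) ^ (0.9566 : ℝ) *
            ((N : ℝ) ^ (0.0279 : ℝ) * (152 * L * (N : ℝ) ^ (0.5138 : ℝ))))
          = 134976 * L * ((N : ℝ) ^ (0.9566 : ℝ) *
            ((N : ℝ) ^ (0.0279 : ℝ) * (N : ℝ) ^ (0.5138 : ℝ))) := by ring
        _ = 134976 * L * (N : ℝ) ^ (0.9983 : ℝ) * s := by rw [b2]; ring
    have b4 := mul_le_mul_of_nonneg_right g3 hs.le
    linarith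
  have hstep : 4 * H * (2 * (111 * (p * J) * X / s)) ≤ p * (N : ℝ) ^ (0.999 : ℝ) := by
    have c1 : 4 * H * (2 * (111 * (p * J) * X / s)) = p * (888 * (H * (J * X))) / s := by
      ring
    rw [c1, div_le_iff₀ hs, mul_assoc]
    exact mul_le_mul_of_nonneg_left hfin hp0
  refine le_trans ?_ hstep
  have h4 : 0 ≤ 4 * H := by positivity
  exact mul_le_mul_of_nonneg_left (by linarith) h4

end Pool.Agent.Lib.MP_6cded1_nt.ML
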