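import Pool.Agent.Lib.MP_6cded1_nt.ML.Num4
import Pool.Agent.Lib.MP_6cded1_nt.ML.Bad2

/-!
# At most 5000 prime divisors; the divisor bound

`num_C2`: `card_primes_dvd`: `card * log P ≤ log q ≤ log N` (`q ≤ K ≤ D ≤ N`) and `log P ≥ 0.0002 log N` (`num_level`), `log N > 0`, so `card ≤ 5000`.
`num_dm`: the divisor bound `d(q) ≤ C_ε q^ε` (proved in `Pool/Agent/Lib/FM60/Tau.lean`: `exists_card_divisors_le` or similar; any proof is fine) with `ε = 0.00005`, `q ≤ K ≤ N`, and `C ≤ N^{0.00005}` for large `N`.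
-/

set_option autoImplicit false

open Finset

namespace Pool.Agent.Lib.MP_6cded1_nt.ML

theorem num_C2 : ∃ N₀ : ℕ, ∀ N : ℕ, N₀ ≤ N → ∀ H : ℝ, tn N ≤ H → H ≤ N → ∀ q : ℕ, 1 ≤ q → (q : ℝ) ≤ Kn N H →
    ((PP (Pn N H)).filter fun p => p ∣ q).card + 1 ≤ 5001 := by
  refine ⟨2, fun N hN H hH1 _ q hq1 hqK => ?_⟩
  have hN1 : (1 : ℝ) < N := by exact_mod_cast hN
  have hN0 : (0 : ℝ) < N := by linarith
  have hlogN : 0 < Real.log N := Real.log_pos hN1
  have ht0 : 0 < tn N := Real.rpow_pos_of_pos hN0 _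
  have hx0 : (0 : ℝ) < (N : ℝ) ^ (0.0002 : ℝ) := Real.rpow_pos_of_pos hN0 _
  have hx1 : (1 : ℝ) < (N : ℝ) ^ (0.0002 : ℝ) := Real.one_lt_rpow hN1 (by norm_num)
  have hP : (N : ℝ) ^ (0.0002 : ℝ) ≤ (Pn N H : ℝ) := by
    have h1 : (N : ℝ) ^ (0.0002 : ℝ) ≤ (N : ℝ) ^ (0.0002 : ℝ) * H / tn N := by
      rw [le_div_iff₀ ht0]
      exact mul_le_mul_of_nonneg_left hH1 hx0.le
    exact h1.trans (Nat.le_ceil _)
  have hP2 : 2 ≤ Pn N H := by
    have h1 : (1 : ℝ) < (Pn N H : ℝ) := hx1.trans_le hP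
    have h2 : 1 < Pn N H := by exact_mod_cast h1
    exact h2
  have h1 := card_primes_dvd (Pn N H) q hP2 hq1
  have hlogP : 0.0002 * Real.log N ≤ Real.log (Pn N H) := by
    rw [← Real.log_rpow hN0]
    exact Real.log_le_log hx0 hP
  have hqN : Real.log q ≤ Real.log N := by
    apply Real.log_le_log
    · have : 0 < q := hq1
      exact_mod_cast this
    · calc (q : ℝ) ≤ Kn N H := hqK
        _ ≤ (Dn N : ℝ) := min_le_left _ _
        _ ≤ (N : ℝ) ^ (0.4586 : ℝ) := Nat.floor_le (Real.rpow_nonneg hN0.le _)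
        _ ≤ (N : ℝ) ^ (1 : ℝ) := Real.rpow_le_rpow_of_exponent_le hN1.le (by norm_num)
        _ = N := Real.rpow_one _
  set c : ℕ := ((PP (Pn N H)).filter fun p => p ∣ q).card with hc
  have h2 : (c : ℝ) * (0.0002 * Real.log N) ≤ Real.log N := by
    calc (c : ℝ) * (0.0002 * Real.log N) ≤ (c : ℝ) * Real.log (Pn N H) :=
          mul_le_mul_of_nonneg_left hlogP (Nat.cast_nonneg _)
      _ ≤ Real.log q := h1
      _ ≤ Real.log N := hqN
  have h3 : (c : ℝ) ≤ 5000 := by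
    have h4 : ((c : ℝ) * 0.0002) * Real.log N ≤ 1 * Real.log N := by linarith
    have h5 : (c : ℝ) * 0.0002 ≤ 1 := le_of_mul_le_mul_right h4 hlogN
    have h7 : (0.0002 : ℝ) = 1 / 5000 := by norm_num
    rw [h7] at h5
    linarith
  have h6 : c ≤ 5000 := by exact_mod_cast h3
  omega

end Pool.Agent.Lib.MP_6cded1_nt.ML
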