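import Pool.Agent.Lib.MP_6cded1_nt.ML.Period

/-!
# `E(z, z')` for `z - z' = c / v`

`d z - d' z' = (d - d') z' + d c / v`.  Fix `h = d - d'`, `|h| < 3 D`: the sum over `d ∈ (D, 4D]` (with `d - h ∈ (D, 4D]`) is at most the sum over
`⌊3 D / v⌋ + 1 ≤ 4 D / v` complete periods `d0 + k`, `k < v` (`v ≤ D`), and `period_sum` with `θ = h z'` bounds each by
`cap M (2 nd (v h z') / v) + 2 v (1 + log v)`.  Sum over `h`: `h = 0` gives `cap ≤ M`, `h` and `-h` give the same value; there are `< 6 D` values `h`,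
`6 D * (4 D / v) * 2 v (1 + log v) = 48 D² (1 + log v)`.
-/

set_option autoImplicit false

open Finset

namespace Pool.Agent.Lib.MP_6cded1_nt.ML

private theorem off_blocks (g : ℕ → ℝ) (a v T : ℕ) :
    ∑ i ∈ range (T * v), g (a + i) = ∑ t ∈ range T, ∑ k ∈ range v, g ((a + t * v) + k) := by
  induction T with
  | zero => simp
  | succ T ih =>
    rw [Nat.succ_mul, Finset.sum_range_add, Finset.sum_range_succ, ih]
    congr 1
    refine Finset.sum_congr rfl ?_
    intro k _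
    rw [add_assoc]

/-- the sum over `d ∈ (D, 4D]` is at most the sum over complete periods -/
private theorem off_sum_d (D M : ℕ) (c : ℤ) (v : ℕ) (hv : 1 ≤ v) (hvD : v ≤ D) (hc : IsCoprime c (v : ℤ))
    (θ : ℝ) :
    ∑ d ∈ Ioc D (4 * D), cap M (2 * nd (θ + (d : ℝ) * c / v)) ≤
      (4 * D / v) * (cap M (2 * nd (v * θ) / v) + 2 * v * (1 + Real.log v)) := by
  have hM : (0 : ℝ) ≤ M := Nat.cast_nonneg M
  have hv0 : (0 : ℝ) < v := by exact_mod_cast hv
  set g : ℕ → ℝ := fun d => cap M (2 * nd (θ + (d : ℝ) * c / v)) with hg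
  have hg0 : ∀ d, 0 ≤ g d := fun d => cap_nonneg hM _
  set T : ℕ := 3 * D / v + 1 with hT
  have hTv : 3 * D ≤ T * v := by
    have h1 := Nat.div_add_mod (3 * D) v
    have h2 := Nat.mod_lt (3 * D) hv
    have h3 : T * v = v * (3 * D / v) + v := by rw [hT]; ring
    omega
  have hTr : (T : ℝ) ≤ 4 * D / v := by
    have h1 : ((3 * D / v : ℕ) : ℝ) ≤ ((3 * D : ℕ) : ℝ) / v := Nat.cast_div_le
    have h2 : (1 : ℝ) ≤ D / v := by
      rw [le_div_iff₀ hv0, one_mul]
      exact_mod_cast hvD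
    have h3 : (4 * D / v : ℝ) = ((3 * D : ℕ) : ℝ) / v + D / v := by
      push_cast
      ring
    rw [h3, hT]
    push_cast at h1 ⊢
    linarith
  have h1 : ∑ d ∈ Ioc D (4 * D), g d ≤ ∑ i ∈ range (T * v), g (D + 1 + i) := by
    have h2 : ∑ i ∈ range (T * v), g (D + 1 + i) =
        ∑ d ∈ (range (T * v)).image (fun i => D + 1 + i), g d := by
      rw [Finset.sum_image]
      intro i _ j _ h
      have h' : D + 1 + i = D + 1 + j := h
      omega
    rw [h2]
    apply Finset.sum_le_sum_of_subset_of_nonneg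
    · intro d hd
      rw [mem_Ioc] at hd
      rw [mem_image]
      refine ⟨d - (D + 1), ?_, ?_⟩
      · rw [mem_range]; omega
      · omega
    · intro d _ _
      exact hg0 d
  have h2 : ∀ t ∈ range T, ∑ k ∈ range v, g ((D + 1 + t * v) + k) ≤
      cap M (2 * nd (v * θ) / v) + 2 * v * (1 + Real.log v) := by
    intro t _
    exact period_sum c v hv hc θ M hM (D + 1 + t * v)
  have hb0 : 0 ≤ cap M (2 * nd (v * θ) / v) + 2 * v * (1 + Real.log v) := by
    have h3 : 0 ≤ Real.log v := Real.log_nonneg (by exact_mod_cast hv)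
    have h4 := cap_nonneg hM (2 * nd (v * θ) / v)
    have h5 : (0 : ℝ) ≤ 2 * v * (1 + Real.log v) := by positivity
    linarith
  calc ∑ d ∈ Ioc D (4 * D), g d ≤ ∑ i ∈ range (T * v), g (D + 1 + i) := h1
    _ = ∑ t ∈ range T, ∑ k ∈ range v, g ((D + 1 + t * v) + k) := off_blocks g (D + 1) v T
    _ ≤ ∑ _t ∈ range T, (cap M (2 * nd (v * θ) / v) + 2 * v * (1 + Real.log v)) :=
        Finset.sum_le_sum h2
    _ = (T : ℝ) * (cap M (2 * nd (v * θ) / v) + 2 * v * (1 + Real.log v)) := by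
        rw [sum_const, card_range, nsmul_eq_mul]
    _ ≤ _ := mul_le_mul_of_nonneg_right hTr hb0

private theorem off_symm (c : ℤ → ℝ) (hc : ∀ h, c (-h) = c h) (n : ℕ) :
    ∑ h ∈ Icc (-(n : ℤ)) n, c h = c 0 + 2 * ∑ k ∈ Icc 1 n, c (k : ℤ) := by
  induction n with
  | zero => simp
  | succ n ih =>
    have h1 : Icc (-((n + 1 : ℕ) : ℤ)) ((n + 1 : ℕ) : ℤ) =
        insert (-((n : ℤ) + 1)) (insert ((n : ℤ) + 1) (Icc (-(n : ℤ)) n)) := by
      ext x
      simp only [mem_Icc, mem_insert]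
      push_cast
      omega
    have h2 : Icc 1 (n + 1) = insert (n + 1) (Icc 1 n) := by
      ext x
      simp only [mem_Icc, mem_insert]
      omega
    rw [h1, h2, Finset.sum_insert, Finset.sum_insert, Finset.sum_insert, ih, hc]
    · push_cast
      ring
    · simp only [mem_Icc]
      omega
    · simp only [mem_Icc]
      omega
    · simp only [mem_Icc, mem_insert]
      omega

theorem E_offdiag (D M : ℕ) (z z' : ℝ) (c : ℤ) (v : ℕ) (hv : 1 ≤ v) (hvD : v ≤ D) (hc : IsCoprime c (v : ℤ))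
    (hz : z - z' = c / v) :
    E D M z z' ≤ (4 * D / v) * (M + 2 * ∑ h ∈ Icc 1 (3 * D), cap M (2 * nd (h * (v * z')) / v)) +
      48 * D ^ 2 * (1 + Real.log v) := by
  have hM : (0 : ℝ) ≤ M := Nat.cast_nonneg M
  have hv0 : (0 : ℝ) < v := by exact_mod_cast hv
  have hD1 : 1 ≤ D := hv.trans hvD
  have hL : 0 ≤ Real.log v := Real.log_nonneg (by exact_mod_cast hv)
  set φ : ℕ → ℤ → ℝ := fun d h => cap M (2 * nd ((h : ℝ) * z' + (d : ℝ) * c / v)) with hφ
  have hφ0 : ∀ d h, 0 ≤ φ d h := fun d h => cap_nonneg hM _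
  set n : ℕ := 3 * D - 1 with hn
  -- step 1
  have h1 : ∀ d ∈ Ioc D (4 * D), ∑ d' ∈ Ioc D (4 * D), cap M (2 * nd (d * z - d' * z')) ≤
      ∑ h ∈ Icc (-(n : ℤ)) n, φ d h := by
    intro d hd
    rw [mem_Ioc] at hd
    have h2 : ∑ d' ∈ Ioc D (4 * D), cap M (2 * nd (d * z - d' * z')) =
        ∑ h ∈ (Ioc D (4 * D)).image (fun d' : ℕ => (d : ℤ) - (d' : ℤ)), φ d h := by
      rw [Finset.sum_image]
      · refine Finset.sum_congr rfl ?_
        intro d' _
        have h3 : (d : ℝ) * z - d' * z' = (((d : ℤ) - (d' : ℤ) : ℤ) : ℝ) * z' + (d : ℝ) * c / v := by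
          have h4 : (d : ℝ) * c / v = d * (z - z') := by rw [hz]; ring
          rw [h4]
          push_cast
          ring
        rw [h3]
      · intro i _ j _ h
        have h' : (d : ℤ) - (i : ℤ) = (d : ℤ) - (j : ℤ) := h
        omega
    rw [h2]
    apply Finset.sum_le_sum_of_subset_of_nonneg
    · intro h hh
      rw [mem_image] at hh
      obtain ⟨d', hd', rfl⟩ := hh
      rw [mem_Ioc] at hd'
      rw [mem_Icc]
      omega
    · intro h _ _
      exact hφ0 d h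
  -- step 2
  have h2 : E D M z z' ≤ ∑ h ∈ Icc (-(n : ℤ)) n, ∑ d ∈ Ioc D (4 * D), φ d h := by
    rw [Finset.sum_comm]
    exact Finset.sum_le_sum h1
  have h3 : ∀ h ∈ Icc (-(n : ℤ)) n, ∑ d ∈ Ioc D (4 * D), φ d h ≤
      (4 * D / v) * (cap M (2 * nd (v * ((h : ℝ) * z')) / v) + 2 * v * (1 + Real.log v)) := by
    intro h _
    exact off_sum_d D M c v hv hvD hc ((h : ℝ) * z')
  have h4 := h2.trans (Finset.sum_le_sum h3)
  refine h4.trans ?_
  rw [← Finset.mul_sum, Finset.sum_add_distrib, sum_const, nsmul_eq_mul]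
  have h5 : ∑ h ∈ Icc (-(n : ℤ)) n, cap M (2 * nd (v * ((h : ℝ) * z')) / v) =
      cap M (2 * nd (v * (((0 : ℤ) : ℝ) * z')) / v) +
        2 * ∑ k ∈ Icc 1 n, cap M (2 * nd (v * (((k : ℤ) : ℝ) * z')) / v) := by
    apply off_symm (fun h : ℤ => cap M (2 * nd (v * ((h : ℝ) * z')) / v))
    intro h
    have h6 : (v : ℝ) * (((-h : ℤ) : ℝ) * z') = -(v * ((h : ℝ) * z')) := by
      push_cast
      ring
    show cap M (2 * nd (v * (((-h : ℤ) : ℝ) * z')) / v) = cap M (2 * nd (v * ((h : ℝ) * z')) / v)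
    rw [h6, nd_neg]
  have h6 : cap (M : ℝ) (2 * nd (v * (((0 : ℤ) : ℝ) * z')) / v) ≤ M := cap_le hM _
  have h7 : ∑ k ∈ Icc 1 n, cap (M : ℝ) (2 * nd (v * (((k : ℤ) : ℝ) * z')) / v) ≤
      ∑ h ∈ Icc 1 (3 * D), cap M (2 * nd (h * (v * z')) / v) := by
    have h8 : ∑ k ∈ Icc 1 n, cap (M : ℝ) (2 * nd (v * (((k : ℤ) : ℝ) * z')) / v) =
        ∑ h ∈ Icc 1 n, cap (M : ℝ) (2 * nd (h * (v * z')) / v) := by
      refine Finset.sum_congr rfl ?_
      intro k _
      have h9 : (v : ℝ) * (((k : ℤ) : ℝ) * z') = k * (v * z') := by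
        push_cast
        ring
      rw [h9]
    rw [h8]
    apply Finset.sum_le_sum_of_subset_of_nonneg
    · intro k hk
      rw [mem_Icc] at hk ⊢
      omega
    · intro k _ _
      exact cap_nonneg hM _
  have h8 : ((Icc (-(n : ℤ)) n).card : ℝ) ≤ 6 * D := by
    have h9 : (Icc (-(n : ℤ)) n).card = 2 * n + 1 := by
      rw [Int.card_Icc]
      omega
    rw [h9]
    have h10 : 2 * n + 1 ≤ 6 * D := by omega
    exact_mod_cast h10
  have h9 : ∑ h ∈ Icc (-(n : ℤ)) n, cap (M : ℝ) (2 * nd (v * ((h : ℝ) * z')) / v) +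
      ((Icc (-(n : ℤ)) n).card : ℝ) * (2 * v * (1 + Real.log v)) ≤
      (M + 2 * ∑ h ∈ Icc 1 (3 * D), cap M (2 * nd (h * (v * z')) / v)) +
        6 * D * (2 * v * (1 + Real.log v)) := by
    rw [h5]
    have h10 : (0 : ℝ) ≤ 2 * v * (1 + Real.log v) := by positivity
    have h11 := mul_le_mul_of_nonneg_right h8 h10
    linarith
  have h10 : (0 : ℝ) ≤ 4 * D / v := by positivity
  refine (mul_le_mul_of_nonneg_left h9 h10).trans (le_of_eq ?_)
  generalize (∑ h ∈ Icc 1 (3 * D), cap (M : ℝ) (2 * nd (h * (v * z')) / v)) = S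
  rw [mul_add]
  congr 1
  field_simp
  ring

end Pool.Agent.Lib.MP_6cded1_nt.ML
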