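import Pool.Agent.Lib.MP_6cded1_nt.ML.Off1
import Pool.Agent.Lib.MP_6cded1_nt.ML.Vino2

/-!
# Off-diagonal terms are small if `z'` has no bad multiples

Dirichlet for `α = v z'` with `n = T`: reduced `a / g`, `g ≤ T`, `|α - a / g| ≤ 1 / ((T + 1) g) ≤ 1 / g²`, so `nd (g v z') ≤ 1 / (T + 1) ≤ ω`.
If `v g ≤ G`, then `g' = v g` contradicts `hbad` (`p' ∣ v`).  So `v g > G`; `E_offdiag` and `vino` (`H = 3 D`, this `v`) give
`E ≤ (4 D / v) (M + 2 (3 D / g + 1) (5 M + 2 v g (1 + log g))) + 48 D² (1 + log v)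
   = 44 D M / v + 120 D² M / (v g) + 48 D² (1 + log g) + 16 D g (1 + log g) + 48 D² (1 + log v)`.
-/

set_option autoImplicit false

open Finset

namespace Pool.Agent.Lib.MP_6cded1_nt.ML

theorem E_small (N D M P T G p' : ℕ) (ω z z' : ℝ) (c : ℤ) (v : ℕ) (hP : 1 ≤ P) (hPv : P < v) (hvD : v ≤ D)
    (hDN : D ≤ N) (hc : IsCoprime c (v : ℤ)) (hz : z - z' = c / v) (hp' : p' ∣ v)
    (hbad : ¬ ∃ g ∈ Icc 1 G, p' ∣ g ∧ nd (g * z') ≤ ω) (hT : 1 ≤ T) (hTN : T ≤ N) (hω : 1 / ((T : ℝ) + 1) ≤ ω)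
    (hG : 1 ≤ G) :
    E D M z z' ≤ 44 * D * M / P + 120 * D ^ 2 * M / G + 100 * D ^ 2 * (1 + Real.log N) +
      20 * D * T * (1 + Real.log N) := by
  have hv1 : 1 ≤ v := by omega
  obtain ⟨q, hq1, hq2⟩ := Real.exists_rat_abs_sub_le_and_den_le ((v : ℝ) * z') (n := T) (by omega)
  set g : ℕ := q.den with hg
  have hg1 : 1 ≤ g := q.den_pos
  have hgR : (1 : ℝ) ≤ g := by exact_mod_cast hg1
  have hg0 : (0 : ℝ) < g := by linarith
  have hvR : (1 : ℝ) ≤ v := by exact_mod_cast hv1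
  have hv0 : (0 : ℝ) < v := by linarith
  have hTR : (g : ℝ) ≤ T := by exact_mod_cast hq2
  have hqc : (q : ℝ) = (q.num : ℝ) / g := by
    rw [hg]; exact Rat.cast_def q
  rw [hqc] at hq1
  -- `nd (g v z') ≤ ω`
  have hnd : nd (((v * g : ℕ) : ℝ) * z') ≤ ω := by
    have h1 : nd (((v * g : ℕ) : ℝ) * z') ≤ |((v * g : ℕ) : ℝ) * z' - (q.num : ℤ)| := by
      unfold nd
      exact round_le _ _
    have h2 : ((v * g : ℕ) : ℝ) * z' - (q.num : ℤ) = g * ((v : ℝ) * z' - (q.num : ℝ) / g) := by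
      push_cast
      field_simp
    rw [h2, abs_mul, abs_of_pos hg0] at h1
    have h3 : (g : ℝ) * |(v : ℝ) * z' - (q.num : ℝ) / g| ≤ g * (1 / (((T : ℝ) + 1) * g)) := by
      gcongr
    have h4 : (g : ℝ) * (1 / (((T : ℝ) + 1) * g)) = 1 / ((T : ℝ) + 1) := by
      field_simp
    linarith
  have hvg : G < v * g := by
    by_contra hcon
    apply hbad
    refine ⟨v * g, ?_, hp'.mul_right g, hnd⟩
    rw [mem_Icc]
    exact ⟨Nat.mul_pos hv1 hg1, not_lt.1 hcon⟩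
  have hcop : IsCoprime q.num (g : ℤ) := by
    rw [Int.isCoprime_iff_nat_coprime]
    simpa [hg] using q.reduced
  have hα : |(v : ℝ) * z' - (q.num : ℝ) / g| ≤ 1 / (g : ℝ) ^ 2 := by
    refine hq1.trans ?_
    apply one_div_le_one_div_of_le (by positivity)
    nlinarith
  have hE := E_offdiag D M z z' c v hv1 hvD hc hz
  have hV := vino ((v : ℝ) * z') q.num g hg1 hcop hα (3 * D) M v (by positivity) hv0
  push_cast at hV
  have hlogg : 0 ≤ Real.log g := Real.log_nonneg hgR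
  have hlogv : 0 ≤ Real.log v := Real.log_nonneg hvR
  have hDR : (0 : ℝ) ≤ D := by positivity
  have hMR : (0 : ℝ) ≤ M := by positivity
  have hgN : Real.log g ≤ Real.log N := by
    apply Real.log_le_log hg0
    have : g ≤ N := hq2.trans hTN
    exact_mod_cast this
  have hvN : Real.log v ≤ Real.log N := by
    apply Real.log_le_log hv0
    have : v ≤ N := hvD.trans hDN
    exact_mod_cast this
  have hstep : E D M z z' ≤ (4 * D / v) * (M + 2 * ((3 * D / g + 1) *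
      (5 * M + 2 * v * g * (1 + Real.log g)))) + 48 * D ^ 2 * (1 + Real.log v) := by
    refine hE.trans ?_
    gcongr
  have hid : (4 * (D : ℝ) / v) * (M + 2 * ((3 * D / g + 1) *
      (5 * M + 2 * v * g * (1 + Real.log g)))) + 48 * (D : ℝ) ^ 2 * (1 + Real.log v) =
      44 * D * M / v + 120 * D ^ 2 * M / (v * g) + 48 * D ^ 2 * (1 + Real.log g) +
        16 * D * g * (1 + Real.log g) + 48 * D ^ 2 * (1 + Real.log v) := by
    field_simp
    ring
  rw [hid] at hstep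
  have hPR : (0 : ℝ) < P := by exact_mod_cast hP
  have hGR : (0 : ℝ) < G := by exact_mod_cast hG
  have hPvR : (P : ℝ) ≤ v := by exact_mod_cast hPv.le
  have hGvg : (G : ℝ) ≤ v * g := by exact_mod_cast hvg.le
  have t1 : 44 * (D : ℝ) * M / v ≤ 44 * D * M / P := by gcongr
  have t2 : 120 * (D : ℝ) ^ 2 * M / (v * g) ≤ 120 * D ^ 2 * M / G := by gcongr
  have t3 : 48 * (D : ℝ) ^ 2 * (1 + Real.log g) ≤ 48 * D ^ 2 * (1 + Real.log N) := by gcongr
  have t4 : 48 * (D : ℝ) ^ 2 * (1 + Real.log v) ≤ 48 * D ^ 2 * (1 + Real.log N) := by gcongr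
  have t5 : 16 * (D : ℝ) * g * (1 + Real.log g) ≤ 16 * D * T * (1 + Real.log N) := by gcongr
  have hL : 0 ≤ 1 + Real.log N := by linarith
  have t6 : 0 ≤ (D : ℝ) ^ 2 * (1 + Real.log N) := by positivity
  have t7 : 0 ≤ (D : ℝ) * T * (1 + Real.log N) := by positivity
  nlinarith

end Pool.Agent.Lib.MP_6cded1_nt.ML
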