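import Pool.Agent.Lib.MP_6cded1_nt.ML.Res

/-!
# The sum over one period

`v (θ + (d0 + k) c / v) = r k + φ` with `r k = round (v θ) + (d0 + k) c`, `|φ| = nd (v θ) ≤ 1/2`.  The `r k` (`k < v`) are distinct mod `v` since `c` is
coprime to `v`.  Let `s = natAbs (valMinAbs (r k))`.  If `s = 0` then `v ∣ r k` and `nd (θ + ...) = |φ| / v = nd (v θ) / v` (`nd_of_abs_le`), the term
is `cap M (2 nd (v θ) / v)`.  If `s ≥ 1` then `nd ≥ (s - 1/2) / v ≥ s / (2 v)` (`nd_div_ge`), the term is `≤ v / s`.  `sum_residues` and `harmonic_le`.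
-/

set_option autoImplicit false

open Finset

namespace Pool.Agent.Lib.MP_6cded1_nt.ML

theorem period_sum (c : ℤ) (v : ℕ) (hv : 1 ≤ v) (hc : IsCoprime c (v : ℤ)) (θ M : ℝ) (hM : 0 ≤ M) (d0 : ℕ) :
    ∑ k ∈ range v, cap M (2 * nd (θ + ((d0 + k : ℕ) : ℝ) * c / v)) ≤
      cap M (2 * nd (v * θ) / v) + 2 * v * (1 + Real.log v) := by
  have hv0 : (0 : ℝ) < v := by exact_mod_cast hv
  set φ : ℝ := v * θ - round (v * θ) with hφ
  have hφ1 : |φ| = nd (v * θ) := rfl
  have hφ2 : |φ| ≤ 1 / 2 := abs_sub_round _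
  let r : ℕ → ℤ := fun k => round (v * θ) + (d0 + k : ℕ) * c
  let w : ℕ → ℝ := fun s => if s = 0 then cap M (2 * nd (v * θ) / v) else v / s
  have hw : ∀ s, 0 ≤ w s := by
    intro s
    by_cases h : s = 0
    · simp only [w, h, if_true]
      exact cap_nonneg hM _
    · simp only [w, h, if_false]
      positivity
  have hr : ∀ i < v, ∀ j < v, (v : ℤ) ∣ r i - r j → i = j := by
    intro i hi j hj hd
    have e1 : r i - r j = ((i : ℤ) - j) * c := by
      change (round (v * θ) + ((d0 + i : ℕ) : ℤ) * c) - (round (v * θ) + ((d0 + j : ℕ) : ℤ) * c) = _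
      push_cast
      ring
    rw [e1] at hd
    have h2 : (v : ℤ) ∣ (i : ℤ) - j := (hc.symm).dvd_of_dvd_mul_right hd
    have h3 : (i : ℤ) - j = 0 := by
      apply Int.eq_zero_of_abs_lt_dvd h2
      rw [abs_lt]
      constructor <;> omega
    omega
  have hx : ∀ k : ℕ, θ + ((d0 + k : ℕ) : ℝ) * c / v = (r k + φ) / v := by
    intro k
    have e1 : ((r k : ℤ) : ℝ) = round (v * θ) + ((d0 + k : ℕ) : ℝ) * c := by
      change ((round (v * θ) + ((d0 + k : ℕ) : ℤ) * c : ℤ) : ℝ) = _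
      push_cast
      ring
    rw [e1, hφ]
    field_simp
    ring
  have hterm : ∀ k ∈ range v, cap M (2 * nd (θ + ((d0 + k : ℕ) : ℝ) * c / v)) ≤
      w (((r k : ℤ) : ZMod v).valMinAbs.natAbs) := by
    intro k _
    by_cases hs : ((r k : ℤ) : ZMod v).valMinAbs.natAbs = 0
    · simp only [w, hs, if_true]
      apply cap_anti hM
      have h1 : nd ((v : ℝ) * (θ + ((d0 + k : ℕ) : ℝ) * c / v)) = nd (v * θ) := by
        have e1 : (v : ℝ) * (θ + ((d0 + k : ℕ) : ℝ) * c / v) = v * θ + (((d0 + k : ℕ) * c : ℤ) : ℝ) := by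
          push_cast
          field_simp
        rw [e1, nd_add_int]
      have h2 := nd_nat_mul (θ + ((d0 + k : ℕ) : ℝ) * c / v) v
      rw [h1] at h2
      rw [div_le_iff₀ hv0]
      linarith
    · simp only [w, hs, if_false]
      have h1 := nd_div_ge v hv (r k) φ
      rw [← hx k] at h1
      generalize hsd : ((r k : ℤ) : ZMod v).valMinAbs.natAbs = s at hs h1 ⊢
      have hs1 : (1 : ℝ) ≤ s := by
        have : 1 ≤ s := Nat.one_le_iff_ne_zero.2 hs
        exact_mod_cast this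
      have hs0 : (0 : ℝ) < s := by linarith
      have h2 : (s : ℝ) / v ≤ 2 * nd (θ + ((d0 + k : ℕ) : ℝ) * c / v) := by
        have h3 : (s : ℝ) / v ≤ 2 * (((s : ℝ) - |φ|) / v) := by
          rw [← mul_div_assoc]
          apply div_le_div_of_nonneg_right _ hv0.le
          linarith
        linarith
      calc cap M (2 * nd (θ + ((d0 + k : ℕ) : ℝ) * c / v)) ≤ cap M ((s : ℝ) / v) := cap_anti hM h2
        _ ≤ 1 / ((s : ℝ) / v) := cap_le_inv hM (by positivity)
        _ = v / s := by rw [one_div_div]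
  have h1 := sum_residues v hv r hr w hw
  have h2 : ∑ s ∈ Icc 1 (v / 2), w s = v * ∑ s ∈ Icc 1 (v / 2), (1 : ℝ) / s := by
    rw [Finset.mul_sum]
    refine Finset.sum_congr rfl fun s hs => ?_
    rw [mem_Icc] at hs
    have : s ≠ 0 := by omega
    simp only [w, this, if_false]
    rw [mul_one_div]
  have h3 : ∑ s ∈ Icc 1 (v / 2), (1 : ℝ) / s ≤ 1 + Real.log v := by
    refine (harmonic_le (v / 2)).trans ?_
    have h4 : Real.log ((v / 2 : ℕ) : ℝ) ≤ Real.log v := by
      rcases Nat.eq_zero_or_pos (v / 2) with h | h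
      · rw [h]
        simp only [Nat.cast_zero, Real.log_zero]
        exact Real.log_nonneg (by exact_mod_cast hv)
      · apply Real.log_le_log (by exact_mod_cast h)
        exact_mod_cast Nat.div_le_self v 2
    linarith
  calc ∑ k ∈ range v, cap M (2 * nd (θ + ((d0 + k : ℕ) : ℝ) * c / v))
      ≤ ∑ k ∈ range v, w (((r k : ℤ) : ZMod v).valMinAbs.natAbs) := Finset.sum_le_sum hterm
    _ ≤ w 0 + 2 * ∑ s ∈ Icc 1 (v / 2), w s := h1
    _ ≤ cap M (2 * nd (v * θ) / v) + 2 * v * (1 + Real.log v) := by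
      rw [h2]
      have e1 : w 0 = cap M (2 * nd (v * θ) / v) := by simp [w]
      rw [e1]
      have := mul_le_mul_of_nonneg_left h3 hv0.le
      linarith

end Pool.Agent.Lib.MP_6cded1_nt.ML
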