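import Pool.Agent.Lib.MP_6cded1_nt.ML.Nd

/-!
# The least denominator

`Nat.sInf_mem` and `Nat.sInf_le`.  Coprimality: if `a = round (q z)` and `q` have a common divisor `g > 1`, then `q' = q / g`, `a' = a / g` give
`nd (q' z) ≤ |q' z - a'| = nd (q z) / g ≤ K / N` with `1 ≤ q' < q`, against minimality.
-/

set_option autoImplicit false

open Finset

namespace Pool.Agent.Lib.MP_6cded1_nt.ML

theorem qm_spec (N : ℕ) (K z : ℝ) (hK : 0 ≤ K) (hz : Maj N K z) :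
    1 ≤ qm N K z ∧ (qm N K z : ℝ) ≤ K ∧ nd (qm N K z * z) ≤ K / N ∧
      IsCoprime (round ((qm N K z : ℝ) * z)) (qm N K z : ℤ) := by
  obtain ⟨q₀, h1, h2, h3⟩ := hz
  have hne : {q : ℕ | 1 ≤ q ∧ nd (q * z) ≤ K / N}.Nonempty := ⟨q₀, h1, h3⟩
  have hmem : 1 ≤ qm N K z ∧ nd (qm N K z * z) ≤ K / N := Nat.sInf_mem hne
  have hle : qm N K z ≤ q₀ := Nat.sInf_le ⟨h1, h3⟩
  have hmin : ∀ q' : ℕ, 1 ≤ q' → nd (q' * z) ≤ K / N → qm N K z ≤ q' := fun q' a b =>
    Nat.sInf_le ⟨a, b⟩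
  refine ⟨hmem.1, le_trans (by exact_mod_cast hle) h2, hmem.2, ?_⟩
  set q := qm N K z with hq
  set a := round ((q : ℝ) * z) with ha
  rw [Int.isCoprime_iff_gcd_eq_one]
  by_contra hg
  set g := Int.gcd a (q : ℤ) with hgd
  have hgq : (g : ℤ) ∣ (q : ℤ) := Int.gcd_dvd_right _ _
  have hga : (g : ℤ) ∣ a := Int.gcd_dvd_left _ _
  have hg0 : g ≠ 0 := by
    intro h0
    rw [h0] at hgq
    have : (q : ℤ) = 0 := by simpa using hgq
    have : q = 0 := by exact_mod_cast this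
    omega
  have hg2 : 2 ≤ g := by omega
  obtain ⟨q', hq'⟩ : g ∣ q := by exact_mod_cast hgq
  obtain ⟨a', ha'⟩ := hga
  have hq'1 : 1 ≤ q' := by
    rcases Nat.eq_zero_or_pos q' with h | h
    · rw [h, mul_zero] at hq'
      omega
    · exact h
  have hlt : q' < q := by
    rw [hq']
    nlinarith
  have hgr : (2 : ℝ) ≤ g := by exact_mod_cast hg2
  have h4 : nd (q' * z) ≤ K / N := by
    have h5 := nd_le_abs (q' * z) a'
    have h6 : |(q : ℝ) * z - a| = g * |(q' : ℝ) * z - a'| := by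
      have h9 : (g : ℝ) * |(q' : ℝ) * z - a'| = |(g : ℝ) * ((q' : ℝ) * z - a')| := by
        rw [abs_mul, abs_of_pos (show (0 : ℝ) < g by linarith)]
      rw [h9]
      congr 1
      have e1 : (q : ℝ) = (g : ℝ) * (q' : ℝ) := by exact_mod_cast hq'
      have e2 : (a : ℝ) = (g : ℝ) * (a' : ℝ) := by exact_mod_cast ha'
      rw [e1, e2]
      ring
    have h7 : |(q : ℝ) * z - a| ≤ K / N := hmem.2
    have h8 : 0 ≤ |(q' : ℝ) * z - a'| := abs_nonneg _
    rw [h6] at h7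
    nlinarith
  have := hmin q' hq'1 h4
  omega

end Pool.Agent.Lib.MP_6cded1_nt.ML
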