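import Pool.Agent.Lib.MP_6cded1_nt.ML.StarDiff
import Pool.Agent.Lib.MP_6cded1_nt.ML.Off2
import Pool.Agent.Lib.MP_6cded1_nt.ML.Diag2
import Pool.Agent.Lib.MP_6cded1_nt.ML.Sieve

/-!
# Regime I: the star sum

`n = card S`, `Σ = ∑_{s ∈ S} ‖B‖ ≥ n τ`.  `large_sieve`: `Σ² ≤ M ∑_{s, s'} E (pt y s) (pt y s')`.
Diagonal: `M E (z, z) ≤ 38 N² (1 + log N) / D` (`diag_bound` with `K = D`).
Off-diagonal `s ≠ s'`: `star_diff` and `E_small` (with `p' = s'.1`) and `hsmall` give `M E ≤ τ² / 4`.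
So `Σ² ≤ n X + n² τ² / 4 ≤ (Σ / τ) X + Σ² / 4`, `X = 38 N² (1 + log N) / D`, hence `Σ ≤ (4/3) X / τ ≤ 51 N² (1 + log N) / (D τ)`.
-/

set_option autoImplicit false

open Finset

namespace Pool.Agent.Lib.MP_6cded1_nt.ML

theorem regI_sum (a b : ℕ → ℂ) (ha : ∀ d, ‖a d‖ ≤ 1) (hb : ∀ m, ‖b m‖ ≤ 1) (N D M P T G : ℕ) (ω τ : ℝ)
    (hD : 1 ≤ D) (hDN : D ^ 2 ≤ N) (hDM : 4 * D * M ≤ N) (hP : 1 ≤ P) (hPD : 256 * P ^ 4 ≤ D)
    (hT : 1 ≤ T) (hTN : T ≤ N) (hω : 1 / ((T : ℝ) + 1) ≤ ω) (hG : 1 ≤ G) (hτ : 0 < τ)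
    (hsmall : (M : ℝ) * (44 * D * M / P + 120 * D ^ 2 * M / G + 100 * D ^ 2 * (1 + Real.log N) +
      20 * D * T * (1 + Real.log N)) ≤ τ ^ 2 / 4)
    (y : ℝ) (S : Finset (Σ _ : ℕ, ℕ))
    (hS : ∀ s ∈ S, s.1 ∈ PP P ∧ (0 < s.2 ∧ s.2 < s.1 ^ 2) ∧ ¬ Maj N D (pt y s) ∧ τ < ‖B a b D M (pt y s)‖ ∧
      ¬ ∃ g ∈ Icc 1 G, s.1 ∣ g ∧ nd (g * pt y s) ≤ ω) :
    ∑ s ∈ S, ‖B a b D M (pt y s)‖ ≤ 51 * N ^ 2 * (1 + Real.log N) / (D * τ) := by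
  set Sg : ℝ := ∑ s ∈ S, ‖B a b D M (pt y s)‖ with hSg
  set X : ℝ := 38 * N ^ 2 * (1 + Real.log N) / D with hX
  have hDD : D ≤ D ^ 2 := by nlinarith
  have hN1 : 1 ≤ N := hD.trans (hDD.trans hDN)
  have hN1' : (1 : ℝ) ≤ N := by exact_mod_cast hN1
  have hD1' : (1 : ℝ) ≤ D := by exact_mod_cast hD
  have hlog : 0 ≤ Real.log N := Real.log_nonneg hN1'
  have hX0 : 0 ≤ X := by positivity
  have hSg0 : 0 ≤ Sg := Finset.sum_nonneg fun s _ => norm_nonneg _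
  -- the diagonal and the off-diagonal terms
  have hpair : ∀ s ∈ S, ∀ s' ∈ S, (M : ℝ) * E D M (pt y s) (pt y s') ≤
      (if s' = s then X else 0) + τ ^ 2 / 4 := by
    intro s hs s' hs'
    obtain ⟨h1, h2, h3, h4, h5⟩ := hS s hs
    obtain ⟨h1', h2', h3', h4', h5'⟩ := hS s' hs'
    by_cases hss : s' = s
    · subst hss
      rw [if_pos rfl]
      have := diag_bound N D M (D : ℝ) (pt y s') hD1' le_rfl hDN hDM h3'
      have hτ4 : 0 ≤ τ ^ 2 / 4 := by positivity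
      linarith
    · rw [if_neg hss, zero_add]
      obtain ⟨c, v, hc, hPv, hv, hdv, hz⟩ := star_diff P y s s' h1 h1' h2 h2' (Ne.symm hss)
      have hE := E_small N D M P T G s'.1 ω (pt y s) (pt y s') c v hP hPv (hv.trans hPD)
        (hDD.trans hDN) hc hz hdv h5' hT hTN hω hG
      exact (mul_le_mul_of_nonneg_left hE (Nat.cast_nonneg M)).trans hsmall
  have hrow : ∀ s ∈ S, ∑ s' ∈ S, (M : ℝ) * E D M (pt y s) (pt y s') ≤ X + S.card * (τ ^ 2 / 4) := by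
    intro s hs
    calc ∑ s' ∈ S, (M : ℝ) * E D M (pt y s) (pt y s')
        ≤ ∑ s' ∈ S, ((if s' = s then X else 0) + τ ^ 2 / 4) :=
          Finset.sum_le_sum fun s' hs' => hpair s hs s' hs'
      _ = X + S.card * (τ ^ 2 / 4) := by
          rw [Finset.sum_add_distrib, Finset.sum_ite_eq' S s, if_pos hs, Finset.sum_const,
            nsmul_eq_mul]
  have hls := large_sieve a b ha hb D M S (fun s => pt y s)
  have hsq : Sg ^ 2 ≤ S.card * (X + S.card * (τ ^ 2 / 4)) := by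
    calc Sg ^ 2 ≤ M * ∑ s ∈ S, ∑ s' ∈ S, E D M (pt y s) (pt y s') := hls
      _ = ∑ s ∈ S, ∑ s' ∈ S, (M : ℝ) * E D M (pt y s) (pt y s') := by
          rw [Finset.mul_sum]
          exact Finset.sum_congr rfl fun s _ => Finset.mul_sum _ _ _
      _ ≤ ∑ _s ∈ S, (X + S.card * (τ ^ 2 / 4)) := Finset.sum_le_sum hrow
      _ = S.card * (X + S.card * (τ ^ 2 / 4)) := by rw [Finset.sum_const, nsmul_eq_mul]
  have hcard : (S.card : ℝ) * τ ≤ Sg := by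
    calc (S.card : ℝ) * τ = ∑ _s ∈ S, τ := by rw [Finset.sum_const, nsmul_eq_mul]
      _ ≤ Sg := Finset.sum_le_sum fun s hs => (hS s hs).2.2.2.1.le
  have hcard2 : (S.card : ℝ) ≤ Sg / τ := by rwa [le_div_iff₀ hτ]
  have hfin : 3 / 4 * Sg ^ 2 ≤ Sg / τ * X := by
    have h1 : (S.card : ℝ) * X ≤ Sg / τ * X := mul_le_mul_of_nonneg_right hcard2 hX0
    have h2 : ((S.card : ℝ) * τ) ^ 2 ≤ Sg ^ 2 :=
      pow_le_pow_left₀ (mul_nonneg (Nat.cast_nonneg _) hτ.le) hcard 2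
    nlinarith
  have hgoal : 51 * (N : ℝ) ^ 2 * (1 + Real.log N) / (D * τ) = 51 / 38 * (X / τ) := by
    rw [hX]
    have hD0 : (D : ℝ) ≠ 0 := by positivity
    field_simp
  rw [hgoal]
  have hXτ : 0 ≤ X / τ := div_nonneg hX0 hτ.le
  rcases hSg0.eq_or_lt with h0 | h0
  · rw [← h0]
    positivity
  · have h3 : 3 / 4 * Sg ≤ X / τ := by
      have h4 : Sg * (3 / 4 * Sg) ≤ Sg * (X / τ) := by
        calc Sg * (3 / 4 * Sg) = 3 / 4 * Sg ^ 2 := by ring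
          _ ≤ Sg / τ * X := hfin
          _ = Sg * (X / τ) := by ring
      exact le_of_mul_le_mul_left h4 h0
    linarith

end Pool.Agent.Lib.MP_6cded1_nt.ML
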