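import Pool.Agent.Lib.MP_6cded1_nt.ML.RegI1
import Pool.Agent.Lib.MP_6cded1_nt.ML.Amp

/-!
# Regime I: conclusion

`amplify` with `R = PP P`, `g z = sel (¬ Maj N D z ∧ τ < ‖B z‖) ‖B z‖` (1-periodic: `B_add_int`, `Maj_add_int`), `ok p z` = no bad multiple, i.e.
`¬ ∃ g ∈ Icc 1 G, p ∣ g ∧ nd (g z) ≤ ω` (1-periodic), `n₀ = card (PP P) / 2` (`hbad`).  The inner sum is `∑_{s ∈ S} ‖B (pt y s)‖` over the set `S` of `regI_sum`.
-/

set_option autoImplicit false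

open Finset

namespace Pool.Agent.Lib.MP_6cded1_nt.ML

private theorem EE_mono' (W : ℕ) (t : ℝ) {f g : ℝ → ℝ} (h : ∀ x, f x ≤ g x) :
    EE W t f ≤ EE W t g := by
  unfold EE
  apply div_le_div_of_nonneg_right (sum_le_sum fun j _ => h _) (Nat.cast_nonneg _)

private theorem EE_const_mul' (W : ℕ) (t c : ℝ) (f : ℝ → ℝ) :
    EE W t (fun x => c * f x) = c * EE W t f := by
  unfold EE
  rw [← mul_sum, mul_div_assoc]

private theorem nd_mul_add_int (g : ℕ) (z : ℝ) (k : ℤ) : nd (g * (z + k)) = nd (g * z) := by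
  have : (g : ℝ) * (z + k) = g * z + ((g * k : ℤ) : ℝ) := by
    push_cast
    ring
  rw [this, nd_add_int]

private theorem card_ok (R : Finset ℕ) (A A' : ℕ → Prop) [DecidablePred A] [DecidablePred A']
    (h : ∀ p, A' p ↔ ¬ A p) (h2 : 2 * (R.filter A).card ≤ R.card) :
    (R.card : ℝ) / 2 ≤ ((R.filter A').card : ℝ) := by
  have h1 : (R.filter A).card + (R.filter A').card = R.card := by
    rw [← Finset.card_filter_add_card_filter_not (s := R) A]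
    congr 1
    exact congrArg Finset.card (Finset.filter_congr fun p _ => h p)
  have h3 : R.card ≤ 2 * (R.filter A').card := by omega
  have h4 : (R.card : ℝ) ≤ 2 * ((R.filter A').card : ℝ) := by exact_mod_cast h3
  linarith

open Classical in
theorem regI (f : ℕ → ℂ) (hf : Mult f) (a b : ℕ → ℂ) (ha : ∀ d, ‖a d‖ ≤ 1) (hb : ∀ m, ‖b m‖ ≤ 1)
    (N D M P T G W : ℕ) (t ω τ : ℝ) (hW : 1 ≤ W) (hPW : ∀ p ∈ PP P, p ^ 2 ∣ W)
    (hD : 1 ≤ D) (hDN : D ^ 2 ≤ N) (hDM : 4 * D * M ≤ N) (hP : 1 ≤ P) (hPD : 256 * P ^ 4 ≤ D)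
    (hT : 1 ≤ T) (hTN : T ≤ N) (hω : 1 / ((T : ℝ) + 1) ≤ ω) (hG : 1 ≤ G) (hτ : 0 < τ)
    (hsmall : (M : ℝ) * (44 * D * M / P + 120 * D ^ 2 * M / G + 100 * D ^ 2 * (1 + Real.log N) +
      20 * D * T * (1 + Real.log N)) ≤ τ ^ 2 / 4)
    (hbad : ∀ z, ¬ Maj N D z →
      2 * ((PP P).filter fun p => ∃ g ∈ Icc 1 G, p ∣ g ∧ nd (g * z) ≤ ω).card ≤ (PP P).card) :
    (PP P).card * EE W t (fun z => ‖F f N z‖ * sel (¬ Maj N D z ∧ τ < ‖B a b D M z‖) ‖B a b D M z‖) ≤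
      102 * N ^ 2 * (1 + Real.log N) / (D * τ) * EE W t (fun z => ‖F f N z‖) := by
  set g : ℝ → ℝ := fun z => sel (¬ Maj N D z ∧ τ < ‖B a b D M z‖) ‖B a b D M z‖ with hg
  obtain ⟨ok, hok⟩ : ∃ ok : ℕ → ℝ → Prop, ∀ p z, ok p z ↔ ¬ ∃ g ∈ Icc 1 G, p ∣ g ∧ nd (g * z) ≤ ω :=
    ⟨fun p z => ¬ ∃ g ∈ Icc 1 G, p ∣ g ∧ nd (g * z) ≤ ω, fun _ _ => Iff.rfl⟩
  set C : ℝ := 51 * N ^ 2 * (1 + Real.log N) / (D * τ) with hC
  have hg0 : ∀ z, 0 ≤ g z := fun z => sel_nonneg (norm_nonneg _)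
  have hgper : ∀ (z : ℝ) (k : ℤ), g (z + k) = g z := by
    intro z k
    have h1 : Maj N D (z + k) = Maj N D z := propext (Maj_add_int N D z k)
    simp only [hg, h1, B_add_int]
  have hokper : ∀ (p : ℕ) (z : ℝ) (k : ℤ), ok p (z + k) ↔ ok p z := by
    intro p z k
    rw [hok, hok]
    simp only [nd_mul_add_int]
  have hn : ∀ z, g z ≠ 0 → ((PP P).card : ℝ) / 2 ≤ (((PP P).filter fun p => ok p z).card : ℝ) := by
    intro z hz
    have hA : ¬ Maj N D z ∧ τ < ‖B a b D M z‖ := by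
      by_contra hcon
      exact hz (sel_neg hcon _)
    exact card_ok (PP P) (fun p => ∃ g ∈ Icc 1 G, p ∣ g ∧ nd (g * z) ≤ ω) (fun p => ok p z)
      (fun p => hok p z) (hbad z hA.1)
  have hR : ∀ p ∈ PP P, p.Prime ∧ p ^ 2 ∣ W := fun p hp => ⟨(Finset.mem_filter.1 hp).2, hPW p hp⟩
  have hamp := amplify f hf N W hW t (PP P) hR g hg0 hgper ok hokper _ hn
  -- the inner sum
  have hinner : ∀ y, ∑ s ∈ (PP P).sigma (fun p => Ioo 0 (p ^ 2)), sel (ok s.1 (pt y s)) (g (pt y s)) ≤ C := by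
    intro y
    set S : Finset (Σ _ : ℕ, ℕ) := ((PP P).sigma (fun p => Ioo 0 (p ^ 2))).filter fun s =>
      ok s.1 (pt y s) ∧ (¬ Maj N D (pt y s) ∧ τ < ‖B a b D M (pt y s)‖) with hSdef
    have hsum : ∑ s ∈ (PP P).sigma (fun p => Ioo 0 (p ^ 2)), sel (ok s.1 (pt y s)) (g (pt y s)) =
        ∑ s ∈ S, ‖B a b D M (pt y s)‖ := by
      rw [hSdef, Finset.sum_filter]
      refine Finset.sum_congr rfl fun s _ => ?_
      by_cases h1 : ok s.1 (pt y s)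
      · rw [sel_pos h1]
        by_cases h2 : ¬ Maj N D (pt y s) ∧ τ < ‖B a b D M (pt y s)‖
        · rw [if_pos ⟨h1, h2⟩]
          exact sel_pos h2 _
        · rw [if_neg (fun h => h2 h.2)]
          exact sel_neg h2 _
      · rw [sel_neg h1, if_neg (fun h => h1 h.1)]
    rw [hsum]
    refine regI_sum a b ha hb N D M P T G ω τ hD hDN hDM hP hPD hT hTN hω hG hτ hsmall y S ?_
    intro s hs
    rw [hSdef, Finset.mem_filter, Finset.mem_sigma, Finset.mem_Ioo] at hs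
    exact ⟨hs.1.1, hs.1.2, hs.2.2.1, hs.2.2.2, (hok _ _).1 hs.2.1⟩
  have hfin : EE W t (fun y => ‖F f N y‖ *
        ∑ s ∈ (PP P).sigma (fun p => Ioo 0 (p ^ 2)), sel (ok s.1 (pt y s)) (g (pt y s))) ≤
      C * EE W t (fun z => ‖F f N z‖) := by
    rw [← EE_const_mul']
    refine EE_mono' W t fun y => ?_
    rw [mul_comm C]
    exact mul_le_mul_of_nonneg_left (hinner y) (norm_nonneg _)
  have h5 : 102 * (N : ℝ) ^ 2 * (1 + Real.log N) / (D * τ) = 2 * C := by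
    rw [hC]
    ring
  rw [h5]
  have h6 := hamp.trans hfin
  linarith

end Pool.Agent.Lib.MP_6cded1_nt.ML
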