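import Pool.Agent.Lib.MP_6cded1_nt.ML.Nd

/-!
# Sums over residues

`sum_residues`: the `g` integers `r j` (`j < g`) are pairwise distinct mod `g`, so they run through `ZMod g` exactly once; the map
`x ↦ x.valMinAbs` is injective with `|valMinAbs| ≤ g / 2` (`ZMod.natAbs_valMinAbs_le`), so every value `s ≥ 1` of `natAbs` is taken at most twice and
the value `0` at most once.
`nd_div_ge`: `r = s + g k` with `s = valMinAbs`, `|s / g| ≤ 1 / 2`, so `nd (s / g) = |s| / g` (`nd_of_abs_le`) and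
`nd (s / g) ≤ nd ((s + φ) / g) + |φ| / g` (`nd_le_add_abs`).
`harmonic_le`: `∑_{1 ≤ s ≤ n} 1 / s ≤ 1 + log n` (Mathlib: `harmonic_le_one_add_log`).
-/

set_option autoImplicit false

open Finset

namespace Pool.Agent.Lib.MP_6cded1_nt.ML

theorem sum_residues (g : ℕ) (hg : 1 ≤ g) (r : ℕ → ℤ) (hr : ∀ i < g, ∀ j < g, (g : ℤ) ∣ r i - r j → i = j)
    (w : ℕ → ℝ) (hw : ∀ s, 0 ≤ w s) :
    ∑ j ∈ range g, w ((r j : ZMod g).valMinAbs.natAbs) ≤ w 0 + 2 * ∑ s ∈ Icc 1 (g / 2), w s := by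
  classical
  haveI : NeZero g := ⟨by omega⟩
  have hinj : ∀ i ∈ range g, ∀ j ∈ range g,
      (r i : ZMod g).valMinAbs = (r j : ZMod g).valMinAbs → i = j := by
    intro i hi j hj h
    rw [mem_range] at hi hj
    apply hr i hi j hj
    have h1 : (r i : ZMod g) = (r j : ZMod g) := by
      rw [← ZMod.coe_valMinAbs (r i : ZMod g), h, ZMod.coe_valMinAbs]
    have h2 : ((r i - r j : ℤ) : ZMod g) = 0 := by
      push_cast
      rw [h1, sub_self]
    exact (ZMod.intCast_zmod_eq_zero_iff_dvd _ _).mp h2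
  have hmaps : ∀ j ∈ range g, (r j : ZMod g).valMinAbs.natAbs ∈ Icc 0 (g / 2) := by
    intro j _
    rw [mem_Icc]
    exact ⟨Nat.zero_le _, ZMod.natAbs_valMinAbs_le _⟩
  rw [← sum_fiberwise_of_maps_to hmaps]
  have hcard : ∀ s : ℕ, ((range g).filter fun j => (r j : ZMod g).valMinAbs.natAbs = s).card ≤
      (({(s : ℤ), -(s : ℤ)} : Finset ℤ)).card := by
    intro s
    refine card_le_card_of_injOn (fun j => (r j : ZMod g).valMinAbs) ?_ ?_
    · intro j hj
      rw [mem_coe, mem_filter] at hj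
      rw [mem_coe, mem_insert, mem_singleton]
      exact Int.natAbs_eq_iff.mp hj.2
    · intro i hi j hj h
      rw [mem_coe, mem_filter] at hi hj
      exact hinj i hi.1 j hj.1 h
  have hfib : ∀ s : ℕ, ∑ j ∈ (range g).filter (fun j => (r j : ZMod g).valMinAbs.natAbs = s),
      w ((r j : ZMod g).valMinAbs.natAbs) =
      (((range g).filter fun j => (r j : ZMod g).valMinAbs.natAbs = s).card : ℝ) * w s := by
    intro s
    rw [← nsmul_eq_mul, ← sum_const]
    refine sum_congr rfl ?_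
    intro j hj
    rw [mem_filter] at hj
    rw [hj.2]
  simp only [hfib]
  have hIcc : Icc 0 (g / 2) = insert 0 (Icc 1 (g / 2)) := by
    ext s
    simp only [mem_Icc, mem_insert]
    omega
  rw [hIcc, sum_insert (by simp)]
  refine add_le_add ?_ ?_
  · have h1 : (((range g).filter fun j => (r j : ZMod g).valMinAbs.natAbs = 0).card : ℝ) ≤ 1 := by
      have := hcard 0
      simp at this
      have h2 : ((range g).filter fun j => (r j : ZMod g).valMinAbs.natAbs = 0).card ≤ 1 := by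
        simpa using hcard 0
      exact_mod_cast h2
    calc _ ≤ 1 * w 0 := mul_le_mul_of_nonneg_right h1 (hw 0)
      _ = w 0 := one_mul _
  · rw [mul_sum]
    refine sum_le_sum ?_
    intro s _
    refine mul_le_mul_of_nonneg_right ?_ (hw s)
    have h1 := (hcard s).trans card_le_two
    exact_mod_cast h1

theorem nd_div_ge (g : ℕ) (hg : 1 ≤ g) (r : ℤ) (φ : ℝ) :
    ((((r : ZMod g).valMinAbs.natAbs : ℕ) : ℝ) - |φ|) / g ≤ nd ((r + φ) / g) := by
  haveI : NeZero g := ⟨by omega⟩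
  have hg0 : (0 : ℝ) < g := by exact_mod_cast hg
  set s : ℤ := (r : ZMod g).valMinAbs with hs
  have h1 : ((r - s : ℤ) : ZMod g) = 0 := by
    push_cast
    rw [hs, ZMod.coe_valMinAbs, sub_self]
  obtain ⟨k, hk⟩ := (ZMod.intCast_zmod_eq_zero_iff_dvd _ _).mp h1
  have hr : (r : ℝ) = s + g * k := by
    have : r = s + g * k := by linarith
    exact_mod_cast this
  have h2 : ((r : ℝ) + φ) / g = ((s : ℝ) + φ) / g + k := by
    rw [hr]
    field_simp
    ring
  rw [h2, nd_add_int]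
  have h3 : s.natAbs ≤ g / 2 := ZMod.natAbs_valMinAbs_le _
  have h4 : |(s : ℝ)| = (s.natAbs : ℝ) := by
    rw [Nat.cast_natAbs, Int.cast_abs]
  have h5 : (s.natAbs : ℝ) ≤ g / 2 := by
    have h6 : 2 * s.natAbs ≤ g := by omega
    have h7 : (2 : ℝ) * s.natAbs ≤ g := by exact_mod_cast h6
    linarith
  have h6 : |(s : ℝ) / g| ≤ 1 / 2 := by
    rw [abs_div, abs_of_pos hg0, div_le_iff₀ hg0, h4]
    linarith
  have h7 := nd_of_abs_le _ h6
  have h8 := nd_le_add_abs ((s : ℝ) / g) (((s : ℝ) + φ) / g)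
  rw [h7, abs_div, abs_of_pos hg0, h4] at h8
  have h9 : |(s : ℝ) / g - (s + φ) / g| = |φ| / g := by
    have : (s : ℝ) / g - (s + φ) / g = -(φ / g) := by
      field_simp
      ring
    rw [this, abs_neg, abs_div, abs_of_pos hg0]
  rw [h9] at h8
  rw [sub_div]
  linarith

theorem harmonic_le (n : ℕ) : ∑ s ∈ Icc 1 n, (1 : ℝ) / s ≤ 1 + Real.log n := by
  have h := harmonic_le_one_add_log n
  rw [harmonic_eq_sum_Icc] at h
  push_cast at h
  simpa only [one_div] using h

end Pool.Agent.Lib.MP_6cded1_nt.ML
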