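import Pool.Agent.Lib.MP_6cded1_nt.ML.Qm

/-!
# Basic facts on star points

Unfold `stars`, `sA`, `sv`, `sden`, `pt`.  With `q = sden`, `z = pt y s`, `a = round (q z)`, `p = s.1`, `b = s.2`: `v y - A = q p² (z - b / p²) - p² a + q b = p² (q z - a)`, so
`|v y - A| = p² nd (q z) ≤ p² K / N`; divide by `v = q p²`.
-/

set_option autoImplicit false

open Finset

namespace Pool.Agent.Lib.MP_6cded1_nt.ML

theorem star_basic (N P : ℕ) (K : ℝ) (Λ : ℝ → Prop) (hK : 0 ≤ K) (hΛ : ∀ z, Λ z → Maj N K z) (y : ℝ)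
    (s : Σ _ : ℕ, ℕ) (hs : s ∈ stars N P K Λ y) :
    s.1.Prime ∧ P < s.1 ∧ s.1 ≤ 4 * P ∧ 0 < s.2 ∧ s.2 < s.1 ^ 2 ∧ 1 ≤ sden N K y s ∧ (sden N K y s : ℝ) ≤ K ∧
      ¬ s.1 ∣ sden N K y s ∧ Λ (pt y s) ∧
      IsCoprime (round ((sden N K y s : ℝ) * pt y s)) (sden N K y s : ℤ) ∧
      |(sv N K y s : ℝ) * y - sA N K y s| ≤ (s.1 : ℝ) ^ 2 * K / N ∧
      |y - (sA N K y s : ℝ) / sv N K y s| ≤ K / (sden N K y s * N) := by
  classical
  unfold stars at hs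
  rw [mem_filter, mem_sigma, mem_Ioo] at hs
  obtain ⟨⟨hp, hb1, hb2⟩, hL, hnd⟩ := hs
  unfold PP at hp
  rw [mem_filter, mem_Ioc] at hp
  obtain ⟨⟨hp1, hp2⟩, hpp⟩ := hp
  have hLz : Λ (pt y s) := hL
  obtain ⟨h1, h2, h3, h4⟩ := qm_spec N K (pt y s) hK (hΛ _ hLz)
  have hq0 : (0 : ℝ) < (sden N K y s : ℝ) := by
    have : 0 < sden N K y s := h1
    exact_mod_cast this
  have hp0 : (0 : ℝ) < (s.1 : ℝ) := by exact_mod_cast hpp.pos
  have hkey : (sv N K y s : ℝ) * y - sA N K y s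
      = (s.1 : ℝ) ^ 2 * ((sden N K y s : ℝ) * pt y s
        - (round ((sden N K y s : ℝ) * pt y s) : ℤ)) := by
    unfold sv sA
    push_cast
    have hz : pt y s = y + s.2 / (s.1 : ℝ) ^ 2 := rfl
    generalize (round ((sden N K y s : ℝ) * pt y s) : ℤ) = a
    rw [hz]
    field_simp
    ring
  have hnd2 : |(sden N K y s : ℝ) * pt y s - (round ((sden N K y s : ℝ) * pt y s) : ℤ)|
      ≤ K / N := h3
  have habs : |(sv N K y s : ℝ) * y - sA N K y s| ≤ (s.1 : ℝ) ^ 2 * (K / N) := by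
    rw [hkey, abs_mul, abs_of_pos (by positivity : (0 : ℝ) < (s.1 : ℝ) ^ 2)]
    exact mul_le_mul_of_nonneg_left hnd2 (by positivity)
  refine ⟨hpp, hp1, hp2, hb1, hb2, h1, h2, hnd, hLz, h4, ?_, ?_⟩
  · rw [mul_div_assoc]
    exact habs
  · have hsv : (sv N K y s : ℝ) = (sden N K y s : ℝ) * (s.1 : ℝ) ^ 2 := by
      unfold sv
      push_cast
      ring
    have hsv0 : (0 : ℝ) < (sv N K y s : ℝ) := by
      rw [hsv]
      positivity
    have h5 : y - (sA N K y s : ℝ) / sv N K y s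
        = ((sv N K y s : ℝ) * y - sA N K y s) / sv N K y s := by
      field_simp
    rw [h5, abs_div, abs_of_pos hsv0, div_le_iff₀ hsv0]
    refine habs.trans (le_of_eq ?_)
    rw [hsv, mul_comm (sden N K y s : ℝ) (N : ℝ), ← div_div]
    field_simp

end Pool.Agent.Lib.MP_6cded1_nt.ML
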