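import Pool.Agent.Lib.MP_6cded1_nt.ML.Star1

/-!
# Multiplicity of a fraction

`A v' = A' v` means `a / q - b / p² = a' / q' - b' / p'²`.
If `p = p'`: multiply by `q q' p²`: `p² (a q' - a' q) = q q' (b - b')`, `p ∤ q q'`, so `p² ∣ b - b'`, `b = b'`, and `s = s'`.
If `p ≠ p'`: multiply by `q q' p² p'²`: `p² ∣ q q' b p'²` (the other terms are divisible by `p²`), `p ∤ q`, `p ≠ p'`, `0 < b < p²`, so `p ∣ q'`.
So in `S` (nonempty, fix `s₀`) all `p` are different and every `s ≠ s₀` has `s.1 ∣ q₀ = sden s₀`; hence `card S ≤ 1 + #{p ∈ PP P : p ∣ q₀} ≤ C₂`.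
-/

set_option autoImplicit false

open Finset

namespace Pool.Agent.Lib.MP_6cded1_nt.ML

/-- Same prime: the two residues agree. -/
private theorem same_prime (p : ℕ) (hp : p.Prime) (q q' b b' : ℕ) (a a' : ℤ) (hq : ¬ p ∣ q) (hq' : ¬ p ∣ q')
    (hb : b < p ^ 2) (hb' : b' < p ^ 2)
    (h : ((p : ℤ) ^ 2 * a - (q : ℤ) * b) * ((q' * p ^ 2 : ℕ) : ℤ) =
      ((p : ℤ) ^ 2 * a' - (q' : ℤ) * b') * ((q * p ^ 2 : ℕ) : ℤ)) : b = b' := by
  have hp0 : ((p : ℤ) ^ 2) ≠ 0 := by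
    have := hp.pos
    positivity
  have h1 : ((q : ℤ) * q') * ((b : ℤ) - b') = (p : ℤ) ^ 2 * (a * q' - a' * q) := by
    apply mul_left_cancel₀ hp0
    push_cast at h
    linear_combination (-1) * h
  have hc : IsCoprime ((p : ℤ) ^ 2) ((q : ℤ) * q') := by
    apply IsCoprime.pow_left
    apply IsCoprime.mul_right
    · exact Nat.isCoprime_iff_coprime.2 ((Nat.Prime.coprime_iff_not_dvd hp).2 hq)
    · exact Nat.isCoprime_iff_coprime.2 ((Nat.Prime.coprime_iff_not_dvd hp).2 hq')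
  have h2 : (p : ℤ) ^ 2 ∣ (b : ℤ) - b' := hc.dvd_of_dvd_mul_left (Dvd.intro _ h1.symm)
  have h3 : (b : ℤ) - b' = 0 := by
    apply Int.eq_zero_of_abs_lt_dvd h2
    have hbz : (b : ℤ) < (p : ℤ) ^ 2 := by exact_mod_cast hb
    have hbz' : (b' : ℤ) < (p : ℤ) ^ 2 := by exact_mod_cast hb'
    rw [abs_lt]
    constructor <;> omega
  omega

/-- Different primes: `p` divides the other denominator. -/
private theorem diff_prime (p p' : ℕ) (hp : p.Prime) (hp' : p'.Prime) (hne : p ≠ p') (q q' b b' : ℕ) (a a' : ℤ)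
    (hq : ¬ p ∣ q) (hb0 : 0 < b) (hb : b < p ^ 2)
    (h : ((p : ℤ) ^ 2 * a - (q : ℤ) * b) * ((q' * p' ^ 2 : ℕ) : ℤ) =
      ((p' : ℤ) ^ 2 * a' - (q' : ℤ) * b') * ((q * p ^ 2 : ℕ) : ℤ)) : p ∣ q' := by
  by_contra hq'
  have h1 : (p : ℤ) ^ 2 ∣ ((q : ℤ) * q' * (p' : ℤ) ^ 2) * b := by
    refine ⟨a * q' * p' ^ 2 - ((p' : ℤ) ^ 2 * a' - (q' : ℤ) * b') * q, ?_⟩
    push_cast at h
    linear_combination (-1) * h
  have hc : IsCoprime ((p : ℤ) ^ 2) ((q : ℤ) * q' * (p' : ℤ) ^ 2) := by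
    apply IsCoprime.pow_left
    apply IsCoprime.mul_right
    · apply IsCoprime.mul_right
      · exact Nat.isCoprime_iff_coprime.2 ((Nat.Prime.coprime_iff_not_dvd hp).2 hq)
      · exact Nat.isCoprime_iff_coprime.2 ((Nat.Prime.coprime_iff_not_dvd hp).2 hq')
    · apply IsCoprime.pow_right
      exact Nat.isCoprime_iff_coprime.2 ((Nat.coprime_primes hp hp').2 hne)
  have h2 : (p : ℤ) ^ 2 ∣ (b : ℤ) := hc.dvd_of_dvd_mul_left h1
  have h3 : p ^ 2 ∣ b := by exact_mod_cast h2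
  have h4 := Nat.le_of_dvd hb0 h3
  omega

theorem star_mult (N P : ℕ) (K : ℝ) (Λ : ℝ → Prop) (hK : 0 ≤ K) (hΛ : ∀ z, Λ z → Maj N K z) (y : ℝ) (C₂ : ℕ)
    (hC₂ : ∀ q : ℕ, 1 ≤ q → (q : ℝ) ≤ K → ((PP P).filter fun p => p ∣ q).card + 1 ≤ C₂) (S : Finset (Σ _ : ℕ, ℕ))
    (hS : S ⊆ stars N P K Λ y) (hSd : ∀ s ∈ S, ∀ s' ∈ S, ¬ Dif N K y s s') : S.card ≤ C₂ := by
  classical
  rcases S.eq_empty_or_nonempty with h0 | ⟨s₀, hs₀⟩
  · rw [h0]
    simp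
  have hinj : ∀ s ∈ S, ∀ s' ∈ S, s.1 = s'.1 → s = s' := by
    intro s hs s' hs' hss
    obtain ⟨p, b⟩ := s
    obtain ⟨p', b'⟩ := s'
    simp only at hss
    subst hss
    obtain ⟨h1, -, -, -, h5, -, -, h8, -⟩ := star_basic N P K Λ hK hΛ y _ (hS hs)
    obtain ⟨-, -, -, -, h5', -, -, h8', -⟩ := star_basic N P K Λ hK hΛ y _ (hS hs')
    have hd := hSd _ hs _ hs'
    unfold Dif at hd
    rw [not_not] at hd
    unfold sA sv at hd
    have := same_prime p h1 _ _ b b' _ _ h8 h8' h5 h5' hd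
    rw [this]
  have hdvd : ∀ s ∈ S, s ≠ s₀ → s.1 ∣ sden N K y s₀ := by
    intro s hs hne
    obtain ⟨h1, -, -, h4, h5, -, -, h8, -⟩ := star_basic N P K Λ hK hΛ y _ (hS hs)
    obtain ⟨h1', -, -, -, -, -, -, -, -⟩ := star_basic N P K Λ hK hΛ y _ (hS hs₀)
    have hd := hSd _ hs _ hs₀
    unfold Dif at hd
    rw [not_not] at hd
    unfold sA sv at hd
    exact diff_prime s.1 s₀.1 h1 h1' (fun h => hne (hinj s hs s₀ hs₀ h)) _ _ s.2 s₀.2 _ _ h8 h4 h5 hd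
  obtain ⟨-, -, -, -, -, g6, g7, -, -⟩ := star_basic N P K Λ hK hΛ y _ (hS hs₀)
  have hcard : (S.erase s₀).card ≤ ((PP P).filter fun p => p ∣ sden N K y s₀).card := by
    apply Finset.card_le_card_of_injOn (fun s => s.1)
    · intro s hs
      have hs1 : s ∈ S := Finset.mem_of_mem_erase hs
      have hs2 : s ≠ s₀ := Finset.ne_of_mem_erase hs
      obtain ⟨h1, h2, h3, -⟩ := star_basic N P K Λ hK hΛ y _ (hS hs1)
      simp only [Finset.coe_filter, Set.mem_ofPred_eq, PP, Finset.mem_filter, Finset.mem_Ioc]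
      exact ⟨⟨⟨h2, h3⟩, h1⟩, hdvd s hs1 hs2⟩
    · intro s hs s' hs' hss
      exact hinj s (Finset.mem_of_mem_erase hs) s' (Finset.mem_of_mem_erase hs') hss
  have := hC₂ _ g6 g7
  have h2 := Finset.card_erase_add_one hs₀
  omega

end Pool.Agent.Lib.MP_6cded1_nt.ML
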