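import Pool.Agent.Lib.MP_6cded1_nt.ML.Nd

/-!
# Differences of star points

`z - z' = b / p² - b' / p'²`.  It is nonzero and `p' ` divides the reduced denominator `v`:
if `p = p'` then `b ≠ b'`, `|b - b'| < p²`, so `v ∣ p²`, `v ≠ 1`, hence `p ∣ v`; if `p ≠ p'` then from `c p² p'² = v (b p'² - b' p²)` and `p' ∤ v` we would get
`p'² ∣ b' p²`, so `p'² ∣ b'`, impossible for `0 < b' < p'²`.  `v ∣ p² p'²`, so `v ≤ 256 P⁴`; `v ≥ p' > P`.
(Take the rational number `b / p² - b' / p'²` with its `num` and `den`.)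
-/

set_option autoImplicit false

open Finset

namespace Pool.Agent.Lib.MP_6cded1_nt.ML

theorem star_diff (P : ℕ) (y : ℝ) (s s' : Σ _ : ℕ, ℕ) (hs : s.1 ∈ PP P) (hs' : s'.1 ∈ PP P)
    (hb : 0 < s.2 ∧ s.2 < s.1 ^ 2) (hb' : 0 < s'.2 ∧ s'.2 < s'.1 ^ 2) (hne : s ≠ s') :
    ∃ (c : ℤ) (v : ℕ), IsCoprime c (v : ℤ) ∧ P < v ∧ v ≤ 256 * P ^ 4 ∧ s'.1 ∣ v ∧
      pt y s - pt y s' = c / v := by
  obtain ⟨p, b⟩ := s
  obtain ⟨p', b'⟩ := s'
  simp only [PP, mem_filter, mem_Ioc] at hs hs' hb hb' hne ⊢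
  obtain ⟨⟨hp1, hp2⟩, hp⟩ := hs
  obtain ⟨⟨hp1', hp2'⟩, hp'⟩ := hs'
  set r : ℚ := (b : ℚ) / (p : ℚ) ^ 2 - (b' : ℚ) / (p' : ℚ) ^ 2 with hr
  have hp0 : (p : ℚ) ≠ 0 := by exact_mod_cast hp.ne_zero
  have hp0' : (p' : ℚ) ≠ 0 := by exact_mod_cast hp'.ne_zero
  have hden0 : (r.den : ℚ) ≠ 0 := by exact_mod_cast r.den_nz
  have hcop : IsCoprime r.num (r.den : ℤ) := by
    rw [Int.isCoprime_iff_gcd_eq_one]
    exact r.reduced
  -- the basic identity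
  have hid : r.num * ((p : ℤ) ^ 2 * (p' : ℤ) ^ 2)
      = (r.den : ℤ) * ((b : ℤ) * (p' : ℤ) ^ 2 - (b' : ℤ) * (p : ℤ) ^ 2) := by
    have h1 : (r.num : ℚ) / (r.den : ℚ) = (b : ℚ) / (p : ℚ) ^ 2 - (b' : ℚ) / (p' : ℚ) ^ 2 := by
      rw [Rat.num_div_den]
    have h2 : (r.num : ℚ) * ((p : ℚ) ^ 2 * (p' : ℚ) ^ 2)
        = (r.den : ℚ) * ((b : ℚ) * (p' : ℚ) ^ 2 - (b' : ℚ) * (p : ℚ) ^ 2) := by
      field_simp at h1
      linarith
    exact_mod_cast h2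
  -- `p'` divides the denominator
  have hdvd : p' ∣ r.den := by
    by_contra hnd
    have hc : IsCoprime ((p' : ℤ) ^ 2) (r.den : ℤ) := by
      apply IsCoprime.pow_left
      rw [Nat.isCoprime_iff_coprime]
      exact (Nat.Prime.coprime_iff_not_dvd hp').2 hnd
    by_cases hpp : p = p'
    · subst hpp
      have hbb : b ≠ b' := fun h => hne (by rw [h])
      have h2 : r.num * (p : ℤ) ^ 2 = (r.den : ℤ) * ((b : ℤ) - b') := by
        have hpz : ((p : ℤ) ^ 2) ≠ 0 := pow_ne_zero 2 (by exact_mod_cast hp.ne_zero)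
        apply mul_right_cancel₀ hpz
        linear_combination hid
      have h3 : (p : ℤ) ^ 2 ∣ (b : ℤ) - b' := by
        apply hc.dvd_of_dvd_mul_left
        rw [← h2]
        exact Dvd.intro_left _ rfl
      have h4 : ((b : ℤ) - b') = 0 := by
        apply Int.eq_zero_of_abs_lt_dvd h3
        have e1 : (b : ℤ) < (p : ℤ) ^ 2 := by exact_mod_cast hb.2
        have e2 : (b' : ℤ) < (p : ℤ) ^ 2 := by exact_mod_cast hb'.2
        rw [abs_lt]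
        constructor <;> omega
      apply hbb
      omega
    · have h3 : (p' : ℤ) ^ 2 ∣ (b : ℤ) * (p' : ℤ) ^ 2 - (b' : ℤ) * (p : ℤ) ^ 2 := by
        apply hc.dvd_of_dvd_mul_left
        rw [← hid]
        exact ⟨r.num * (p : ℤ) ^ 2, by ring⟩
      have h4 : (p' : ℤ) ^ 2 ∣ (b' : ℤ) * (p : ℤ) ^ 2 := by
        have h5 : (p' : ℤ) ^ 2 ∣ (b : ℤ) * (p' : ℤ) ^ 2 := Dvd.intro_left _ rfl
        have := dvd_sub h5 h3
        rwa [sub_sub_cancel] at this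
      have h5 : IsCoprime ((p' : ℤ) ^ 2) ((p : ℤ) ^ 2) := by
        apply IsCoprime.pow
        rw [Nat.isCoprime_iff_coprime]
        exact (Nat.coprime_primes hp' hp).2 (Ne.symm hpp)
      have h6 : (p' : ℤ) ^ 2 ∣ (b' : ℤ) := h5.dvd_of_dvd_mul_right h4
      have h7 : p' ^ 2 ∣ b' := by exact_mod_cast h6
      have := Nat.le_of_dvd hb'.1 h7
      omega
  have hle : p' ≤ r.den := Nat.le_of_dvd r.den_pos hdvd
  have hdd : r.den ∣ p ^ 2 * p' ^ 2 := by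
    have : (r.den : ℤ) ∣ (p : ℤ) ^ 2 * (p' : ℤ) ^ 2 := by
      apply hcop.symm.dvd_of_dvd_mul_left
      exact ⟨_, hid⟩
    exact_mod_cast this
  refine ⟨r.num, r.den, hcop, by omega, ?_, hdvd, ?_⟩
  · have h1 : r.den ≤ p ^ 2 * p' ^ 2 :=
      Nat.le_of_dvd (Nat.mul_pos (pow_pos hp.pos 2) (pow_pos hp'.pos 2)) hdd
    have h2 : p ^ 2 * p' ^ 2 ≤ (4 * P) ^ 2 * (4 * P) ^ 2 :=
      Nat.mul_le_mul (Nat.pow_le_pow_left hp2 2) (Nat.pow_le_pow_left hp2' 2)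
    calc r.den ≤ (4 * P) ^ 2 * (4 * P) ^ 2 := h1.trans h2
      _ = 256 * P ^ 4 := by ring
  · unfold pt
    have h1 : ((r.num : ℝ)) / (r.den : ℝ) = ((r : ℚ) : ℝ) := by
      rw [← Rat.cast_def]
    rw [h1, hr]
    push_cast
    ring

end Pool.Agent.Lib.MP_6cded1_nt.ML
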