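import Pool.Agent.Lib.MP_6cded1_nt.ML.Star1

/-!
# Case A: structure of a near-coincidence

Notation `q, q' ≤ K`, `h = A v' - A' v ≠ 0`, `|h| = v v' |A / v - A' / v'| ≤ (K / N) (q + q') p² p'² ≤ 512 K² P⁴ / N`.
`p ≠ p'`: otherwise `A q' - A' q ≠ 0` (`v = q p²`, `v' = q' p²`) and `1 ≤ |A q' - A' q| = q q' p² |A / v - A' / v'| ≤ (K / N) (q + q') p² ≤ 32 K² P² / N < 1`.
`p ∤ A`: if `A = p A₁` then `A₁ v' ≠ A' q p` and `1 ≤ |A₁ v' - A' q p| = q p v' |A / v - A' / v'| ≤ (K / N) (q + q') p p'² ≤ 128 K² P³ / N < 1`.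
-/

set_option autoImplicit false

open Finset

namespace Pool.Agent.Lib.MP_6cded1_nt.ML

theorem tri_struct (N P : ℕ) (hN : 1 ≤ N) (K : ℝ) (Λ : ℝ → Prop) (hK : 0 ≤ K) (hΛ : ∀ z, Λ z → Maj N K z)
    (hKP : 128 * K ^ 2 * P ^ 3 < N) (hP : 1 ≤ P) (y : ℝ) (s s' : Σ _ : ℕ, ℕ) (hs : s ∈ stars N P K Λ y)
    (hs' : s' ∈ stars N P K Λ y) (hd : Dif N K y s s') :
    s.1 ≠ s'.1 ∧ ¬ ((s.1 : ℤ) ∣ sA N K y s) ∧
      |((sA N K y s * sv N K y s' - sA N K y s' * sv N K y s : ℤ) : ℝ)| ≤ 512 * (K * P ^ 2) ^ 2 / N := by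
  obtain ⟨hp, -, hpP, -, -, hq1, hqK, -, -, -, hA, -⟩ := star_basic N P K Λ hK hΛ y s hs
  obtain ⟨hp', -, hpP', -, -, hq1', hqK', -, -, -, hA', -⟩ := star_basic N P K Λ hK hΛ y s' hs'
  unfold Dif at hd
  have hv : sv N K y s = sden N K y s * s.1 ^ 2 := rfl
  have hv' : sv N K y s' = sden N K y s' * s'.1 ^ 2 := rfl
  obtain ⟨v, ev⟩ : ∃ v, v = sv N K y s := ⟨_, rfl⟩
  obtain ⟨v', ev'⟩ : ∃ v', v' = sv N K y s' := ⟨_, rfl⟩
  obtain ⟨A, eA⟩ : ∃ A, A = sA N K y s := ⟨_, rfl⟩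
  obtain ⟨A', eA'⟩ : ∃ A', A' = sA N K y s' := ⟨_, rfl⟩
  obtain ⟨q, eq⟩ : ∃ q, q = sden N K y s := ⟨_, rfl⟩
  obtain ⟨q', eq'⟩ : ∃ q', q' = sden N K y s' := ⟨_, rfl⟩
  obtain ⟨p, ep⟩ : ∃ p, p = s.1 := ⟨_, rfl⟩
  obtain ⟨p', ep'⟩ : ∃ p', p' = s'.1 := ⟨_, rfl⟩
  rw [← ev, ← ev', ← eA, ← eA'] at hd
  rw [← ev, ← eA, ← ep] at hA
  rw [← ev', ← eA', ← ep'] at hA'
  rw [← ev, ← eq, ← ep] at hv
  rw [← ev', ← eq', ← ep'] at hv'
  rw [← ep] at hp hpP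
  rw [← ep'] at hp' hpP'
  rw [← eq] at hq1 hqK
  rw [← eq'] at hq1' hqK'
  rw [← ev, ← ev', ← eA, ← eA', ← ep, ← ep']
  have hN0 : (0 : ℝ) < N := by exact_mod_cast hN
  have hP1 : (1 : ℝ) ≤ P := by exact_mod_cast hP
  have hpR : (p : ℝ) ≤ 4 * P := by exact_mod_cast hpP
  have hpR' : (p' : ℝ) ≤ 4 * P := by exact_mod_cast hpP'
  have hp0 : (0 : ℝ) < p := by exact_mod_cast hp.pos
  have hp0' : (0 : ℝ) < p' := by exact_mod_cast hp'.pos
  have hq0 : (0 : ℝ) ≤ q := by positivity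
  have hq0' : (0 : ℝ) ≤ q' := by positivity
  have hvR : (v : ℝ) = q * p ^ 2 := by rw [hv]; push_cast; ring
  have hvR' : (v' : ℝ) = q' * p' ^ 2 := by rw [hv']; push_cast; ring
  have hKN : 0 ≤ K / N := by positivity
  have hKK : K ^ 2 * P ^ 3 / N * 128 < 1 := by
    rw [div_mul_eq_mul_div, div_lt_one hN0]; linarith
  -- the main bound
  have hmain : |((A * v' - A' * v : ℤ) : ℝ)| ≤ (q + q') * (p ^ 2 * p' ^ 2) * (K / N) := by
    push_cast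
    have e1 : (A : ℝ) * v' - A' * v = v * (v' * y - A') - v' * (v * y - A) := by ring
    rw [e1]
    calc |(v : ℝ) * (v' * y - A') - v' * (v * y - A)|
        ≤ |(v : ℝ) * (v' * y - A')| + |(v' : ℝ) * (v * y - A)| := abs_sub _ _
      _ = v * |(v' : ℝ) * y - A'| + v' * |(v : ℝ) * y - A| := by
          rw [abs_mul, abs_mul, Nat.abs_cast, Nat.abs_cast]
      _ ≤ v * ((p' : ℝ) ^ 2 * K / N) + v' * ((p : ℝ) ^ 2 * K / N) := by
          gcongr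
      _ = (q + q') * (p ^ 2 * p' ^ 2) * (K / N) := by rw [hvR, hvR']; ring
  refine ⟨?_, ?_, ?_⟩
  · intro hpp
    have hne : A * q' - A' * q ≠ 0 := by
      intro h0
      apply hd
      rw [hv, hv', ← hpp]
      push_cast
      linear_combination (p : ℤ) ^ 2 * h0
    have h1 : (1 : ℝ) ≤ |((A * q' - A' * q : ℤ) : ℝ)| := by
      have := Int.one_le_abs hne
      exact_mod_cast this
    have h2 : |((A * q' - A' * q : ℤ) : ℝ)| ≤ (q + q') * p ^ 2 * (K / N) := by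
      push_cast
      have e1 : (A : ℝ) * q' - A' * q = q * (v' * y - A') - q' * (v * y - A) := by
        rw [hvR, hvR', ← hpp]; ring
      rw [e1]
      calc |(q : ℝ) * (v' * y - A') - q' * (v * y - A)|
          ≤ |(q : ℝ) * (v' * y - A')| + |(q' : ℝ) * (v * y - A)| := abs_sub _ _
        _ = q * |(v' : ℝ) * y - A'| + q' * |(v : ℝ) * y - A| := by
            rw [abs_mul, abs_mul, Nat.abs_cast, Nat.abs_cast]
        _ ≤ q * ((p' : ℝ) ^ 2 * K / N) + q' * ((p : ℝ) ^ 2 * K / N) := by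
            gcongr
        _ = (q + q') * p ^ 2 * (K / N) := by rw [← hpp]; ring
    have h3 : (q + q') * (p : ℝ) ^ 2 * (K / N) ≤ (K + K) * (4 * P) ^ 2 * (K / N) := by
      gcongr
    have h4 : (K + K) * (4 * P) ^ 2 * (K / N) ≤ K ^ 2 * P ^ 3 / N * 128 := by
      have h5 : (K + K) * (4 * P) ^ 2 * (K / N) = K ^ 2 * P ^ 2 / N * 32 := by ring
      rw [h5]
      have h6 : (P : ℝ) ^ 2 ≤ P ^ 3 := pow_le_pow_right₀ hP1 (by norm_num)
      calc K ^ 2 * P ^ 2 / N * 32 ≤ K ^ 2 * P ^ 3 / N * 32 := by gcongr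
        _ ≤ K ^ 2 * P ^ 3 / N * 128 := by
          have : 0 ≤ K ^ 2 * P ^ 3 / N := by positivity
          linarith
    linarith
  · rintro ⟨A₁, hA₁⟩
    have hne : A₁ * v' - A' * (q * p) ≠ 0 := by
      intro h0
      apply hd
      rw [hA₁, hv]
      push_cast
      linear_combination (p : ℤ) * h0
    have h1 : (1 : ℝ) ≤ |((A₁ * v' - A' * (q * p) : ℤ) : ℝ)| := by
      have := Int.one_le_abs hne
      exact_mod_cast this
    have h2 : (p : ℝ) * |((A₁ * v' - A' * (q * p) : ℤ) : ℝ)| ≤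
        (q + q') * (p ^ 2 * p' ^ 2) * (K / N) := by
      have e2 : (p : ℝ) * |((A₁ * v' - A' * (q * p) : ℤ) : ℝ)| = |((A * v' - A' * v : ℤ) : ℝ)| := by
        rw [← Nat.abs_cast p, ← abs_mul, hA₁]
        congr 1
        push_cast
        rw [hvR]
        ring
      rw [e2]
      exact hmain
    have h3 : |((A₁ * v' - A' * (q * p) : ℤ) : ℝ)| ≤ (q + q') * (p * p' ^ 2) * (K / N) := by
      have h4 : (q + q') * ((p : ℝ) ^ 2 * p' ^ 2) * (K / N) =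
          p * ((q + q') * (p * p' ^ 2) * (K / N)) := by ring
      rw [h4] at h2
      exact le_of_mul_le_mul_left h2 hp0
    have h5 : (q + q') * ((p : ℝ) * p' ^ 2) * (K / N) ≤
        (K + K) * ((4 * P) * (4 * P) ^ 2) * (K / N) := by
      gcongr
    have h6 : (K + K) * ((4 * P) * (4 * P) ^ 2) * (K / N) = K ^ 2 * P ^ 3 / N * 128 := by ring
    linarith
  · refine hmain.trans ?_
    have h5 : (q + q') * ((p : ℝ) ^ 2 * p' ^ 2) * (K / N) ≤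
        (K + K) * ((4 * P) ^ 2 * (4 * P) ^ 2) * (K / N) := by
      gcongr
    refine h5.trans (le_of_eq ?_)
    ring

end Pool.Agent.Lib.MP_6cded1_nt.ML
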