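import Pool.Agent.Lib.MP_6cded1_nt.ML.Res

/-!
# One block of the Vinogradov sum

`h α` for `h = h0 + j`, `j < g`: `g h α = g h0 α + j a + j (g α - a)`, so with `r j = round (g h0 α) + j a` we have `h α = (r j + φ j) / g`,
`|φ j| ≤ 1/2 + j |g α - a| ≤ 1/2 + 1 = 3/2` (`|g α - a| ≤ 1 / g`, `j < g`).  The `r j` are distinct mod `g` as `a` is coprime to `g`.
Let `s` = `natAbs (valMinAbs (r j))`.  By `nd_div_ge`: `nd (h α) ≥ (s - 3/2) / g`.  For `s ≤ 2` use `cap ≤ M`; for `s ≥ 3`, `s - 3/2 ≥ s / 2`, so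
`2 nd (h α) / v ≥ s / (g v)` and `cap ≤ g v / s` (`cap_anti`, `cap_le_inv`).  So with `w s = M` for `s ≤ 2`, `w s = g v / s` for `s ≥ 3`, `sum_residues` gives
`≤ M + 2 (M + M + ∑_{3 ≤ s ≤ g/2} g v / s) ≤ 5 M + 2 v g (1 + log g)`.
-/

set_option autoImplicit false

open Finset

namespace Pool.Agent.Lib.MP_6cded1_nt.ML

theorem vino_block (α : ℝ) (a : ℤ) (g : ℕ) (hg : 1 ≤ g) (hag : IsCoprime a (g : ℤ))
    (hα : |α - a / g| ≤ 1 / (g : ℝ) ^ 2) (h0 : ℕ) (M v : ℝ) (hM : 0 ≤ M) (hv : 0 < v) :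
    ∑ j ∈ range g, cap M (2 * nd (((h0 + j : ℕ) : ℝ) * α) / v) ≤ 5 * M + 2 * v * g * (1 + Real.log g) := by
  have hg0 : (0 : ℝ) < g := by exact_mod_cast hg
  set φ₀ : ℝ := g * (h0 * α) - round (g * (h0 * α)) with hφ₀
  have hφ1 : |φ₀| ≤ 1 / 2 := abs_sub_round _
  let r : ℕ → ℤ := fun j => round (g * (h0 * α)) + j * a
  let φ : ℕ → ℝ := fun j => φ₀ + j * (g * α - a)
  have hga : |g * α - a| ≤ 1 / g := by
    have e1 : (g : ℝ) * α - a = g * (α - a / g) := by
      field_simp
    rw [e1, abs_mul, abs_of_pos hg0]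
    calc (g : ℝ) * |α - a / g| ≤ g * (1 / (g : ℝ) ^ 2) := mul_le_mul_of_nonneg_left hα hg0.le
      _ = 1 / g := by
        field_simp
  have hφ : ∀ j ∈ range g, |φ j| ≤ 3 / 2 := by
    intro j hj
    rw [mem_range] at hj
    have hj1 : (j : ℝ) ≤ g := by exact_mod_cast hj.le
    have h1 : |(j : ℝ) * (g * α - a)| ≤ 1 := by
      rw [abs_mul, abs_of_nonneg (Nat.cast_nonneg j)]
      calc (j : ℝ) * |g * α - a| ≤ g * (1 / g) := mul_le_mul hj1 hga (abs_nonneg _) hg0.le
        _ = 1 := by field_simp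
    calc |φ j| ≤ |φ₀| + |(j : ℝ) * (g * α - a)| := abs_add_le _ _
      _ ≤ 3 / 2 := by linarith
  let w : ℕ → ℝ := fun s => if s ≤ 2 then M else v * g / s
  have hw : ∀ s, 0 ≤ w s := by
    intro s
    by_cases h : s ≤ 2
    · simp only [w, h, if_true]
      exact hM
    · simp only [w, h, if_false]
      positivity
  have hr : ∀ i < g, ∀ j < g, (g : ℤ) ∣ r i - r j → i = j := by
    intro i hi j hj hd
    have e1 : r i - r j = ((i : ℤ) - j) * a := by
      change (round (g * (h0 * α)) + (i : ℤ) * a) - (round (g * (h0 * α)) + (j : ℤ) * a) = _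
      ring
    rw [e1] at hd
    have h2 : (g : ℤ) ∣ (i : ℤ) - j := (hag.symm).dvd_of_dvd_mul_right hd
    have h3 : (i : ℤ) - j = 0 := by
      apply Int.eq_zero_of_abs_lt_dvd h2
      rw [abs_lt]
      constructor <;> omega
    omega
  have hx : ∀ j : ℕ, ((h0 + j : ℕ) : ℝ) * α = (r j + φ j) / g := by
    intro j
    have e1 : ((r j : ℤ) : ℝ) = round (g * (h0 * α)) + (j : ℝ) * a := by
      change ((round (g * (h0 * α)) + (j : ℤ) * a : ℤ) : ℝ) = _
      push_cast
      ring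
    have e2 : φ j = (g * (h0 * α) - round (g * (h0 * α))) + j * (g * α - a) := rfl
    rw [e1, e2]
    push_cast
    field_simp
    ring
  have hterm : ∀ j ∈ range g, cap M (2 * nd (((h0 + j : ℕ) : ℝ) * α) / v) ≤
      w (((r j : ℤ) : ZMod g).valMinAbs.natAbs) := by
    intro j hj
    by_cases hs : ((r j : ℤ) : ZMod g).valMinAbs.natAbs ≤ 2
    · simp only [w, hs, if_true]
      exact cap_le hM _
    · simp only [w, hs, if_false]
      have h1 := nd_div_ge g hg (r j) (φ j)
      rw [← hx j] at h1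
      have hφj := hφ j hj
      generalize hsd : ((r j : ℤ) : ZMod g).valMinAbs.natAbs = s at hs h1 ⊢
      have hs1 : (3 : ℝ) ≤ s := by
        have : 3 ≤ s := by omega
        exact_mod_cast this
      have hs0 : (0 : ℝ) < s := by linarith
      have h2 : (s : ℝ) / (v * g) ≤ 2 * nd (((h0 + j : ℕ) : ℝ) * α) / v := by
        have h3 : (s : ℝ) / g ≤ 2 * (((s : ℝ) - |φ j|) / g) := by
          rw [← mul_div_assoc]
          apply div_le_div_of_nonneg_right _ hg0.le
          linarith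
        have h4 : (s : ℝ) / g ≤ 2 * nd (((h0 + j : ℕ) : ℝ) * α) := by linarith
        have h5 : (s : ℝ) / (v * g) = (s / g) / v := by
          rw [div_div, mul_comm v]
        rw [h5]
        exact div_le_div_of_nonneg_right h4 hv.le
      calc cap M (2 * nd (((h0 + j : ℕ) : ℝ) * α) / v) ≤ cap M ((s : ℝ) / (v * g)) := cap_anti hM h2
        _ ≤ 1 / ((s : ℝ) / (v * g)) := cap_le_inv hM (by positivity)
        _ = v * g / s := by rw [one_div_div]
  have h1 := sum_residues g hg r hr w hw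
  have h2 : ∑ s ∈ Icc 1 (g / 2), w s ≤ 2 * M + v * g * ∑ s ∈ Icc 1 (g / 2), (1 : ℝ) / s := by
    have h3 : ∀ s ∈ Icc 1 (g / 2), w s ≤ (if s ≤ 2 then M else 0) + v * g * ((1 : ℝ) / s) := by
      intro s hs
      rw [mem_Icc] at hs
      have hs0 : (0 : ℝ) < s := by exact_mod_cast hs.1
      by_cases h : s ≤ 2
      · simp only [w, h, if_true]
        have : 0 ≤ v * g * ((1 : ℝ) / s) := by positivity
        linarith
      · simp only [w, h, if_false]
        rw [mul_one_div]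
        linarith
    refine (Finset.sum_le_sum h3).trans ?_
    rw [Finset.sum_add_distrib, Finset.mul_sum]
    have h4 : ∑ s ∈ Icc 1 (g / 2), (if s ≤ 2 then M else 0) ≤ 2 * M := by
      rw [← Finset.sum_filter, Finset.sum_const, nsmul_eq_mul]
      apply mul_le_mul_of_nonneg_right _ hM
      have h5 : ((Icc 1 (g / 2)).filter fun s => s ≤ 2) ⊆ Icc 1 2 := by
        intro s hs
        rw [mem_filter, mem_Icc] at hs
        rw [mem_Icc]
        omega
      have h6 := Finset.card_le_card h5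
      have h7 : (Icc 1 2 : Finset ℕ).card = 2 := by decide
      rw [h7] at h6
      exact_mod_cast h6
    linarith
  have h3 : ∑ s ∈ Icc 1 (g / 2), (1 : ℝ) / s ≤ 1 + Real.log g := by
    refine (harmonic_le (g / 2)).trans ?_
    have h4 : Real.log ((g / 2 : ℕ) : ℝ) ≤ Real.log g := by
      rcases Nat.eq_zero_or_pos (g / 2) with h | h
      · rw [h]
        simp only [Nat.cast_zero, Real.log_zero]
        exact Real.log_nonneg (by exact_mod_cast hg)
      · apply Real.log_le_log (by exact_mod_cast h)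
        exact_mod_cast Nat.div_le_self g 2
    linarith
  calc ∑ j ∈ range g, cap M (2 * nd (((h0 + j : ℕ) : ℝ) * α) / v)
      ≤ ∑ j ∈ range g, w (((r j : ℤ) : ZMod g).valMinAbs.natAbs) := Finset.sum_le_sum hterm
    _ ≤ w 0 + 2 * ∑ s ∈ Icc 1 (g / 2), w s := h1
    _ ≤ 5 * M + 2 * v * g * (1 + Real.log g) := by
      have e1 : w 0 = M := by simp [w]
      rw [e1]
      have h4 : v * g * ∑ s ∈ Icc 1 (g / 2), (1 : ℝ) / s ≤ v * g * (1 + Real.log g) :=
        mul_le_mul_of_nonneg_left h3 (by positivity)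
      linarith

end Pool.Agent.Lib.MP_6cded1_nt.ML
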